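import Pool.Agent.Mg.F656653.G830af3

section

/-! The forcing for the embedding: one step of properness. -/

set_option synthInstance.maxSize 1000000

namespace Pool.Agent.MP_656653_lc

open Set Filter

structure Md (D : Set Dp) (s : St) (σ : V) (τ : Trc) (N : Set V) : Prop where
  sub : Sub D s N τ.1
  tr : s.IsTr τ N
  nm : Nm s.P ∈ N
  sg : σ ∈ N

def Ej (r : Om → Om → Prop) (j : ℕ) (l : List Trc) (Y : List Pt) (d : Dat) : Prop :=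
  d.2.take j = l ∧ ∀ τ ∈ l, eqv r τ.1 Y (yl d)

def D0 (r : Om → Om → Prop) (β : Om) (Y : List Pt) (k : ℕ) (d : Dat) : Prop :=
  eqv r β Y (yl d) ∧ d.2.length = k ∧ β ≤ (nτ d.2 0).1 ∧ ∀ τ ∈ d.2, (nτ d.2 0).1 ≤ τ.1

namespace St

variable (s : St) (σ : V)

def Acc (Z : List Pt) (d : Dat) : Prop :=
  mat (s.r σ) (nτ d.2 0).1 Z (yl d) ∧
    ∀ τ ∈ d.2, s.Good σ τ ({p ∈ ls (yl d) | τ.1 ≤ p.1} ∪ ls Z)

def Rr (S : Set Dat) (k : ℕ) : ℕ → Set Dat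
  | 0 => S
  | n + 1 => {d | d ∈ S ∧ ∀ ρ, s.nam ρ → ∃ d', d' ∈ Rr S k n ∧
      Ej (s.r σ) (k - (n + 1)) (d.2.take (k - (n + 1))) (yl d) d' ∧ ρ ∈ (nτ d'.2 (k - (n + 1))).2}

def Pos (F : Set X) : Prop := s.Unb F ∧ ∀ τ, s.nam τ → (∀ x, x ∈ s.vx τ → x ∈ F) →
  s.Unb (s.vx τ) → ∃ x, x ∈ s.vx τ ∧ ∃ y, y ∈ s.vx τ ∧ x.2 ≠ y.2 ∧
    mat (s.r σ) (min x.2 y.2) x.1 y.1

variable {s σ}

theorem Rr_sub {S k} : ∀ {n}, s.Rr σ S k n ⊆ S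
  | 0 => subset_rfl
  | _ + 1 => fun _ h => h.1

end St

section
variable {α : Type*} [Code α]

instance (σ : α → V) (j : α → ℕ) (l : α → List Trc) [Cf l] (Y : α → List Pt) (d : α → Dat) :
    Def (fun s a => Ej (s.r (σ a)) (j a) (l a) (Y a) (d a)) := by unfold Ej; infer_instance

instance (σ : α → V) (β : α → Om) (Y : α → List Pt) (k : α → ℕ) (d : α → Dat) :
    Def (fun s a => D0 (s.r (σ a)) (β a) (Y a) (k a) (d a)) := by unfold D0; infer_instance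

instance (σ : α → V) (Z : α → List Pt) (d : α → Dat) [Cf d] :
    Def (fun s a => s.Acc (σ a) (Z a) (d a)) := by unfold St.Acc; infer_instance

instance (σ F : α → V) [Cf F] : Def (fun s a => s.Pos (σ a) (s.vx (F a))) := by
  unfold St.Pos; infer_instance

end

theorem rr_name : ∀ᶠ D in Fl, ∀ s, Sit D s → ∀ N, Cl D N → N ⊆ s.K → s.P ∈ N → ∀ σ ∈ N,
    ∀ e₀ ∈ N, ∀ k n, ∃ e ∈ N, s.vd e = s.Rr σ (s.vd e₀) k n := by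
  filter_upwards [compV (fun s (a : V × V × ℕ) (d : Dat) => ∀ ρ, s.nam ρ → ∃ d', d' ∈ s.vd a.2.1 ∧
    Ej (s.r a.1) a.2.2 (d.2.take a.2.2) (yl d) d' ∧ ρ ∈ (nτ d'.2 a.2.2).2)]
    with D hD s hs N hN hNK hP σ hσ e₀ he₀ k n
  induction n with
  | zero => exact ⟨e₀, he₀, rfl⟩
  | succ n ih =>
    obtain ⟨e, h₁, h₂⟩ := ih
    obtain ⟨e', h₃, h₄⟩ := hD s hs N hN hNK hP (σ, e, k - (n + 1))
      (by simp only [hN.has_pair, hN.has_nat, and_true]; exact ⟨hσ, h₁⟩) e₀ he₀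
    refine ⟨e', h₃, Set.ext fun d => (h₄ d).trans ?_⟩
    simp only [h₂]
    rfl

theorem rr_elem : ∀ᶠ D in Fl, ∀ s, Sit D s → ∀ σ τ N, Md D s σ τ N → s.LL σ → ∀ e ∈ N,
    ∀ d ∈ s.vd e, ∀ j, nτ d.2 j = τ → (∀ τ' ∈ d.2.take j, has N τ') →
    ∀ ρ, s.nam ρ → ∃ d', d' ∈ s.vd e ∧ Ej (s.r σ) j (d.2.take j) (yl d) d' ∧ ρ ∈ (nτ d'.2 j).2 := by
  filter_upwards [rep, ev_cf yl, elemN (fun s (a : V × V × ℕ × List Trc × List Pt) (ρ : V) =>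
    ¬ ∃ d', d' ∈ s.vd a.2.1 ∧ Ej (s.r a.1) a.2.2.1 a.2.2.2.1 a.2.2.2.2 d' ∧
      ρ ∈ (nτ d'.2 a.2.2.1).2)] with D h₁ h₂ h₃ s hs σ τ N hN hL e he d hd j hj hl ρ hρ
  obtain ⟨γ, a₁, a₂⟩ := hN.sub.lim.ev (List.finite_toSet (d.2.take j))
    (Q := fun τ' β => τ'.1 ≤ β) (fun _ _ _ h h' => h'.trans h) fun τ' h =>
      ⟨τ'.1, hN.sub.iff.1 (hN.sub.cl.has_prod.1 (hl τ' h)).1, le_rfl⟩
  obtain ⟨Y, b₁, b₂⟩ := h₁ s hs N _ hN.sub σ hN.sg hL γ a₁ (yl d) (h₂ _ hs.cl d hd.1)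
  by_contra hc
  obtain ⟨ρ', c₁, c₂, c₃⟩ := h₃ s hs N _ hN.sub hN.nm (σ, e, j, d.2.take j, Y) (by
    simp only [hN.sub.cl.has_pair, hN.sub.cl.has_nat, true_and]
    exact ⟨hN.sg, he, hN.sub.cl.has_list.2 hl, b₁⟩) ρ hρ fun ⟨d', c₁, c₂, c₃⟩ =>
      hc ⟨d', c₁, ⟨c₂.1, fun τ' h => (b₂.mono (a₂ τ' h)).trans (c₂.2 τ' h)⟩, c₃⟩
  refine c₃ ⟨d, hd, ⟨rfl, fun τ' h => (b₂.mono (a₂ τ' h)).symm⟩, ?_⟩
  change ρ' ∈ (nτ d.2 j).2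
  rw [hj]
  exact (hN.tr.iff _).2 ⟨c₁, c₂.2⟩

theorem large_in : ∀ᶠ D in Fl, ∀ s, Sit D s → ∀ σ τ M, Md D s σ τ M → s.Dich σ →
    ∀ F, s.Pos σ F → (∀ x ∈ F, prp x) → ∀ F', s.Adm M F' → F' ⊆ F → s.Unb F' →
    ∃ ρ ∈ M, s.nam ρ ∧ ∃ Is, s.Large σ true F' (s.vx ρ) Is := by
  filter_upwards [elemN (fun s (a : V × V) (ρ : V) => ∃ Is, has s.K Is ∧
    s.Large a.1 true (s.vx a.2) (s.vx ρ) Is)] with D h₁
  rintro s hs σ τ M hM hD F hF hp _ ⟨φ, a₁, a₂, rfl⟩ a₃ a₄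
  rcases hD _ ⟨φ, a₂.1, a₂, rfl⟩ a₄ (fun x hx => hp x (a₃ hx)) true with
    ⟨_, ⟨ψ, -, b₁, rfl⟩, b₂, b₃, b₄⟩ | ⟨-, _, ⟨ρ, -, b₁, rfl⟩, Is, b₂⟩
  · obtain ⟨x, hx, y, hy, c₁, c₂⟩ := hF.2 ψ b₁ (fun x hx => a₃ (b₂ hx)) b₃
    exact absurd ⟨rfl, c₂⟩ (b₄ x hx y hy c₁).2
  · obtain ⟨ρ', c₁, c₂, Is, -, c₃⟩ := h₁ s hs M _ hM.sub hM.nm (σ, φ)
      (hM.sub.cl.has_pair.2 ⟨hM.sg, a₁⟩) ρ b₁ ⟨Is, hs.cl.alw Is, b₂⟩
    exact ⟨ρ', c₁, c₂, Is, c₃⟩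

theorem q_step : ∀ᶠ D in Fl, ∀ s, Sit D s → ∀ σ τ M, Md D s σ τ M → s.Dich σ → s.LL σ →
    ∀ F, s.Adm M F → s.Pos σ F → (∀ x ∈ F, prp x) → ∀ x ∈ F, τ.1 ≤ x.2 → ∀ γ < τ.1,
    ∃ ρ ∈ M, s.nam ρ ∧ ∀ τ' N, Md D s σ τ' N → τ'.1 ≤ τ.1 → ρ ∈ τ'.2 → ∀ Q : Set Pt,
      (∀ q ∈ Q, has s.K q ∧ ppr τ'.1 q) → s.Good σ τ' Q →
      ∃ x' ∈ F, τ.1 ≤ x'.2 ∧ eqv (s.r σ) γ x.1 x'.1 ∧ s.Good σ τ' (Q ∪ ls x'.1) := by
  filter_upwards [large_in, cone, lemB] with D h₁ h₂ h₃ s hs σ τ M hM hD hL F hF hP hp x hx hδ γ hγ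
  obtain ⟨F', a₁, a₂, a₃⟩ := h₂ s hs M _ hM.sub σ hM.sg hL F hF x hx hδ γ hγ
  obtain ⟨ρ, b₁, b₂, Is, b₃⟩ := h₁ s hs σ τ M hM hD F hP hp F' a₁ (fun y hy => ((a₂ y).1 hy).1) a₃
  refine ⟨ρ, b₁, b₂, fun τ' N hN hτ hρ Q hQ hG => ?_⟩
  obtain ⟨w, c₁, c₂⟩ := b₃.1 τ.1 hM.sub.hd
  obtain ⟨I, hI, H⟩ := h₃ s hs N τ' hN.sub hN.tr σ hN.sg hD Q hQ hG F' _ Is
    (fun y hy => hp y ((a₂ y).1 hy).1) ⟨ρ, ((hN.tr.iff ρ).1 hρ).1, b₂, rfl⟩ b₃ w.1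
    (b₃.2.1 w c₁ _ (c₂ ▸ hτ))
  obtain ⟨x', d₁, d₂, d₃⟩ := b₃.2.2.2.2 w c₁ I hI
  refine ⟨x', ((a₂ x').1 d₁).1, c₂ ▸ d₂, ((a₂ x').1 d₁).2.2, H.congr hs ?_ ?_⟩
  · rintro q (hq | hq)
    exacts [(hQ q hq).1, hs.cl.has_list.1 (hs.has_pj (hs.cl.has_prod.1 c₁.1).1 I) q hq]
  · rintro p (hp | hp)
    · exact ⟨p, Or.inl hp, peq.refl _ _⟩
    · obtain ⟨q, e₁, e₂⟩ := All2.right d₃ hp
      exact ⟨q, Or.inr e₁, e₂.symm.mono (c₂ ▸ hτ)⟩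

theorem St.Acc.congr {D s} (hs : Sit D s) {σ Z Z' d γ} (h : s.Acc σ Z d) (hZ : has s.K Z)
    (hd : has s.K (yl d)) (e : eqv (s.r σ) γ Z Z') (h₀ : (nτ d.2 0).1 ≤ γ)
    (hγ : ∀ τ ∈ d.2, τ.1 ≤ γ) : s.Acc σ Z' d := by
  refine ⟨h.1.congr (e.mono h₀) (eqv.refl _ _), fun τ hτ => (h.2 τ hτ).congr hs ?_ ?_⟩
  · rintro q (hq | hq)
    exacts [hs.cl.has_list.1 hd q hq.1, hs.cl.has_list.1 hZ q hq]
  · rintro p (hp | hp)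
    · exact ⟨p, Or.inl hp, peq.refl _ _⟩
    · obtain ⟨q, e₁, e₂⟩ := All2.right e hp
      exact ⟨q, Or.inr e₁, e₂.symm.mono (hγ τ hτ)⟩

/-- The combinatorial core: some copy inside the model is accepted. -/
theorem q_core : ∀ᶠ D in Fl, ∀ s, Sit D s → ∀ σ τ M, Md D s σ τ M → s.Dich σ → s.Nice σ →
    ∀ e ∈ M, ∀ k, 0 < k → (∀ d ∈ s.vd e, d.2.length = k ∧ ∀ τ' ∈ d.2, (∃ N, Md D s σ τ' N) ∧
      (∀ p ∈ yl d, τ'.1 ≤ p.1 → τ'.1 ≤ p.2.ht) ∧ s.Good σ τ' {p ∈ ls (yl d) | τ'.1 ≤ p.1}) →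
    ∀ d₀ ∈ s.Rr σ (s.vd e) k (k - 1), nτ d₀.2 0 = τ → prp (yl d₀, τ.1) →
    s.Good σ τ (ls (yl d₀)) → ∃ d ∈ s.vd e, has M d ∧ s.Acc σ (yl d₀) d := by
  filter_upwards [rep, fs, rr_name, large_in, q_step, ev_cf yl,
    compX (fun s (a : V × V × V) (z : X) => (prp z ∧ ¬ ∃ d, d ∈ s.vd a.2.1 ∧
      (∀ τ ∈ d.2, τ.1 < z.2) ∧ s.Acc a.1 z.1 d) ∧ ∀ ρ, s.nam ρ → ∃ d, d ∈ s.vd a.2.2 ∧
        eqv (s.r a.1) z.2 z.1 (yl d) ∧ z.2 ≤ (nτ d.2 0).1 ∧ ρ ∈ (nτ d.2 0).2),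
    elemV (fun s (a : V × List Pt × Om) (d : Dat) => (∀ τ ∈ d.2, τ.1 < a.2.2) ∧ s.Acc a.1 a.2.1 d),
    elemN (fun s (a : V × V × List Pt × Om) (ρ : V) => ¬ ∃ d, d ∈ s.vd a.2.1 ∧
      eqv (s.r a.1) a.2.2.2 a.2.2.1 (yl d) ∧ a.2.2.2 ≤ (nτ d.2 0).1 ∧ ρ ∈ (nτ d.2 0).2),
    elemN (fun s (a : V × V) (ρ : V) => (∀ x, x ∈ s.vx ρ → x ∈ s.vx a.2) ∧ s.Pos a.1 (s.vx ρ)),
    elemV (fun s (a : V × List Pt × Om × V) (d : Dat) =>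
      eqv (s.r a.1) a.2.2.1 a.2.1 (yl d) ∧ a.2.2.1 ≤ (nτ d.2 0).1 ∧ a.2.2.2 ∈ (nτ d.2 0).2),
    elemV (fun s (a : V × ℕ × Dat × V) (d : Dat) =>
      Ej (s.r a.1) a.2.1 (a.2.2.1.2.take a.2.1) (yl a.2.2.1) d ∧ a.2.2.2 ∈ (nτ d.2 a.2.1).2)]
    with D h₁ h₂ h₃ h₄ h₅ h₆ h₇ h₈ h₉ h₁₀ h₁₁ h₁₂
  intro s hs σ τ M hM hD hn e he k hk hE d₀ hd₀ hτ hp hG
  have hMs := hM.sub
  have cl := hMs.cl
  choose R R₁ R₂ using h₃ s hs M cl hMs.sub hMs.hP σ hM.sg e he k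
  have hY : has s.K (yl d₀) := h₆ _ hs.cl _ (St.Rr_sub hd₀).1
  have h0 : ∀ d ∈ s.vd e, nτ d.2 0 ∈ d.2 := fun d hd => nτ_mem ((hE d hd).1 ▸ hk)
  have hlt : ∀ d : Dat, has M d → ∀ τ' ∈ d.2, τ'.1 < τ.1 := fun d hd τ' h =>
    hMs.iff.1 (cl.has_prod.1 (cl.has_list.1 (cl.has_prod.1 hd).2 τ' h)).1
  by_contra hc
  obtain ⟨θ, t₁, t₂, t₃⟩ := h₇ s hs M cl hMs.sub hMs.hP (σ, e, R (k - 1))
    (by simp only [cl.has_pair]; exact ⟨hM.sg, he, R₁ _⟩)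
  have t₄ : ∀ z : X, z ∈ s.vx θ ↔ has s.K z ∧ (prp z ∧ ¬ ∃ d, d ∈ s.vd e ∧
      (∀ τ ∈ d.2, τ.1 < z.2) ∧ s.Acc σ z.1 d) ∧ ∀ ρ, s.nam ρ → ∃ d, d ∈ s.vd (R (k - 1)) ∧
        eqv (s.r σ) z.2 z.1 (yl d) ∧ z.2 ≤ (nτ d.2 0).1 ∧ ρ ∈ (nτ d.2 0).2 := fun z => by
    rw [St.vx, ← t₃]; rfl
  have hbr : ∀ γ < τ.1, (yl d₀, γ) ∈ s.vx θ := by
    intro γ hγ
    obtain ⟨Y, a₁, a₂⟩ := h₁ s hs M _ hMs σ hM.sg hn.1 γ hγ _ hY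
    refine (t₄ _).2 ⟨hs.cl.has_pair.2 ⟨hY, hs.has_le hMs hγ.le⟩, ⟨hp.mono hγ.le, ?_⟩,
      fun ρ hρ => ?_⟩
    · rintro ⟨d, b₁, b₂, b₃⟩
      obtain ⟨d, c₀, c₁, c₂, c₃⟩ := h₈ s hs M _ hMs (σ, Y, γ)
        (by simp only [cl.has_pair]; exact ⟨hM.sg, a₁, hMs.iff.2 hγ⟩) e he d b₁
        ⟨b₂, b₃.congr hs hY (h₆ _ hs.cl _ b₁.1) a₂ (b₂ _ (h0 d b₁)).le fun τ h => (b₂ τ h).le⟩
      exact hc ⟨d, c₁, c₀, c₃.congr hs (hMs.sub a₁) (h₆ _ hs.cl _ c₁.1) a₂.symm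
        (c₂ _ (h0 d c₁)).le fun τ h => (c₂ τ h).le⟩
    · by_contra hc'
      obtain ⟨ρ', c₁, c₂, c₃⟩ := h₉ s hs M _ hMs hM.nm (σ, R (k - 1), Y, γ)
        (by simp only [cl.has_pair]; exact ⟨hM.sg, R₁ _, a₁, hMs.iff.2 hγ⟩) ρ hρ
        fun ⟨d, b₁, b₂, b₃⟩ => hc' ⟨d, b₁, a₂.trans b₂, b₃⟩
      refine c₃ ⟨d₀, (R₂ _).ge hd₀, a₂.symm, ?_, ?_⟩
      · rw [hτ]; exact hγ.le
      · rw [hτ]; exact (hM.tr.iff _).2 ⟨c₁, c₂.2⟩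
  have hnn : ¬ s.Null σ (s.vx θ) := fun H => by
    obtain ⟨γ, a₁, -, a₂⟩ := (St.good_iff hM.tr).1 hG _ hY (fun _ h => h) _ ⟨θ, t₁, t₂, rfl⟩ H ⊥
      hMs.lim.1
    exact a₂ ⟨_, hbr γ a₁, rfl, eqv.refl _ _⟩
  obtain ⟨φ, f₁, f₂, f₃, f₄⟩ : ∃ φ ∈ M, s.nam φ ∧ (∀ x, x ∈ s.vx φ → x ∈ s.vx θ) ∧
      s.Pos σ (s.vx φ) := by
    unfold St.Null at hnn
    push Not at hnn
    obtain ⟨φ, a₁, a₂, a₃, a₄⟩ := hnn
    exact h₁₀ s hs M _ hMs hM.nm (σ, θ) (cl.has_pair.2 ⟨hM.sg, t₁⟩) φ a₁ ⟨a₂, a₃, a₄⟩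
  have hF : s.Adm M (s.vx φ) := ⟨φ, f₁, f₂, rfl⟩
  have hFp : ∀ x ∈ s.vx φ, prp x := fun x hx => ((t₄ x).1 (f₃ x hx)).2.1.1
  have step := h₅ s hs σ τ M hM hD hn.1 _ hF f₄ hFp
  have step' : ∀ x ∈ s.vx φ, τ.1 ≤ x.2 → ∀ γ < τ.1, ∃ ρ ∈ M, s.nam ρ ∧ ∀ d ∈ s.vd e, has M d →
      ∀ τ' ∈ d.2, ρ ∈ τ'.2 → ∃ x' ∈ s.vx φ, τ.1 ≤ x'.2 ∧ eqv (s.r σ) γ x.1 x'.1 ∧
        s.Good σ τ' ({p ∈ ls (yl d) | τ'.1 ≤ p.1} ∪ ls x'.1) := by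
    intro x hx a₁ γ hγ
    obtain ⟨ρ, b₁, b₂, b₃⟩ := step x hx a₁ γ hγ
    refine ⟨ρ, b₁, b₂, fun d hd hd' τ' h hρ => ?_⟩
    obtain ⟨⟨N, c₁⟩, c₂, c₃⟩ := (hE d hd).2 τ' h
    exact b₃ τ' N c₁ (hlt d hd' τ' h).le hρ _ (fun q hq =>
      ⟨hs.cl.has_list.1 (h₆ _ hs.cl _ hd.1) q hq.1, hq.2, c₂ q hq.1 hq.2⟩) c₃
  have inv : ∀ j, 1 ≤ j → j ≤ k → ∃ d ∈ s.Rr σ (s.vd e) k (k - j), has M d ∧ ∃ x ∈ s.vx φ,
      τ.1 ≤ x.2 ∧ mat (s.r σ) (nτ d.2 0).1 x.1 (yl d) ∧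
        ∀ τ' ∈ d.2.take j, s.Good σ τ' ({p ∈ ls (yl d) | τ'.1 ≤ p.1} ∪ ls x.1) := by
    intro j hj
    induction j, hj using Nat.le_induction with
    | base =>
      intro _
      obtain ⟨ζ, a₁, a₂, Is, a₃⟩ := h₄ s hs σ τ M hM hD _ f₄ hFp _ hF subset_rfl f₄.1
      obtain ⟨⟨w, _⟩, b₁, rfl⟩ := a₃.1 τ.1 hMs.hd
      obtain ⟨z, γ, b₂, b₃, b₄, b₅⟩ := h₂ s hs M _ hMs σ hM.sg hn _ ⟨ζ, a₁, a₂, rfl⟩ a₃.2.1
        a₃.2.2.1 w b₁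
      obtain ⟨-, I, hI, c₁⟩ := a₃.2.2.2.1 _ b₄ _ (a₃.2.1 _ b₁ γ b₃.le) rfl b₅
      obtain ⟨y, c₂, c₃, c₄⟩ := a₃.2.2.2.2 _ b₄ I hI
      obtain ⟨x, c₅, c₆, c₇⟩ := a₃.2.2.2.2 _ b₁ I hI
      obtain ⟨ρ, e₁, e₂, e₃⟩ := step' x c₅ c₆ γ b₃
      obtain ⟨d, g₁, g₂, g₃, g₄⟩ := ((t₄ y).1 (f₃ y c₂)).2.2 ρ e₂
      obtain ⟨Y, i₁, i₂⟩ := h₁ s hs M _ hMs σ hM.sg hn.1 γ b₃ y.1 (hs.cl.has_prod.1 c₂.1).1
      obtain ⟨d, g₀, g₁, g₂, g₃, g₄⟩ := h₁₁ s hs M _ hMs (σ, Y, γ, ρ)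
        (by simp only [cl.has_pair]; exact ⟨hM.sg, i₁, hMs.iff.2 b₃, e₁⟩) _ (R₁ (k - 1)) d g₁
        ⟨i₂.symm.trans (g₂.mono c₃), c₃.trans g₃, g₄⟩
      have g₅ := (R₂ _).le g₁
      obtain ⟨x', k₁, k₂, k₃, k₄⟩ := e₃ d (St.Rr_sub g₅) g₀ _ (h0 d (St.Rr_sub g₅)) g₄
      refine ⟨d, g₅, g₀, x', k₁, k₂, (c₁.symm.congr ((c₇.mono b₃.le).trans k₃)
        (c₄.trans (i₂.trans g₂))).mono g₃, fun τ' h => ?_⟩
      rcases mem_take_succ h with h | rfl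
      exacts [absurd h (by simp), k₄]
    | succ j hj ih =>
      intro hjk
      obtain ⟨d, a₁, a₂, x, a₃, a₄, a₅, a₆⟩ := ih (by omega)
      have a₀ := St.Rr_sub a₁
      obtain ⟨γ, b₁, b₂⟩ := hMs.lim.ev (List.finite_toSet d.2) (Q := fun τ' β => τ'.1 ≤ β)
        (fun _ _ _ h h' => h'.trans h) fun τ' h => ⟨τ'.1, hlt d a₂ τ' h, le_rfl⟩
      obtain ⟨ρ, e₁, e₂, e₃⟩ := step' x a₃ a₄ γ b₁
      have e : k - j = (k - (j + 1)) + 1 := by omega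
      have e' : k - (k - (j + 1) + 1) = j := by omega
      rw [e] at a₁
      obtain ⟨d', g₁, g₂⟩ := a₁.2 ρ e₂
      rw [e'] at g₂
      obtain ⟨d', g₀, g₁, ⟨g₂, g₃⟩, g₄⟩ := h₁₂ s hs M _ hMs (σ, j, d, ρ)
        (cl.has_pair.2 ⟨hM.sg, cl.has_pair.2 ⟨cl.has_nat _, cl.has_pair.2 ⟨a₂, e₁⟩⟩⟩) _
        (R₁ (k - (j + 1))) d' ((R₂ _).ge g₁) g₂
      replace g₂ : d'.2.take j = d.2.take j := g₂
      have g₅ := (R₂ _).le g₁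
      have g₆ := St.Rr_sub g₅
      obtain ⟨x', k₁, k₂, k₃, k₄⟩ := e₃ d' g₆ g₀ _ (nτ_mem ((hE d' g₆).1 ▸ hjk)) g₄
      have m₀ : nτ d'.2 0 = nτ d.2 0 := by rw [← nτ_take hj, g₂, nτ_take hj]
      have m₁ : nτ d.2 0 ∈ d.2.take j := by
        rw [← nτ_take hj]
        exact nτ_mem (by rw [List.length_take, (hE d a₀).1]; omega)
      refine ⟨d', g₅, g₀, x', k₁, k₂, ?_, fun τ' h => ?_⟩
      · rw [m₀]
        exact a₅.congr (k₃.mono (b₂ _ (h0 d a₀))) (g₃ _ m₁)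
      rcases mem_take_succ h with h | rfl
      · rw [g₂] at h
        refine (a₆ τ' h).congr hs ?_ ?_
        · rintro q (hq | hq)
          exacts [hs.cl.has_list.1 (h₆ _ hs.cl _ a₀.1) q hq.1,
            hs.cl.has_list.1 (hs.cl.has_prod.1 a₃.1).1 q hq]
        · rintro p (hp | hp)
          · obtain ⟨q, n₁, n₂⟩ := All2.right (g₃ τ' h) hp.1
            exact ⟨q, Or.inl ⟨n₁, n₂.1.symm.le hp.2⟩, n₂.symm⟩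
          · obtain ⟨q, n₁, n₂⟩ := All2.right k₃ hp
            exact ⟨q, Or.inr n₁, n₂.symm.mono (b₂ _ (List.mem_of_mem_take h))⟩
      · exact k₄
  obtain ⟨d, a₁, a₂, x, a₃, a₄, a₅, a₆⟩ := inv k hk le_rfl
  have a₀ := St.Rr_sub a₁
  rw [← (hE d a₀).1, List.take_length] at a₆
  exact ((t₄ x).1 (f₃ x a₃)).2.1.2 ⟨d, a₀, fun τ' h => (hlt d a₂ τ' h).trans_le a₄, a₅, a₆⟩

theorem v3Q : ∀ᶠ D in Fl, ∀ s, Sit D s → ∀ σ τ M, Md D s σ τ M → (s.Nice σ → s.Dich σ) →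
    ∀ (f : Set Pt) (T : Set Trc), f.Finite → T.Finite → s.Val2 σ f T → (∀ p ∈ f, has s.K p) → τ ∈ T →
    (∀ τ' ∈ T, has M τ' ∨ τ.1 ≤ τ'.1) → (∀ a ∈ T, ∀ b ∈ T, a.1 = b.1 → a = b) → ∀ E ∈ M,
    (∀ τ' ∈ T, τ.1 < τ'.1 → ∃ N, Md D s σ τ' N ∧ E ∈ N ∧ ∀ a ∈ T, a.1 < τ'.1 → has N a) →
    (∀ Y l, ls Y = {p ∈ f | ¬ has M p} → ls l = {a ∈ T | ¬ has M a} → (Y.map mkX, l) ∈ s.vd E) →
    (∀ d ∈ s.vd E, s.Val2 σ ({p ∈ f | has M p} ∪ ls (yl d)) ({a ∈ T | has M a} ∪ ls d.2) ∧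
      ∀ a ∈ d.2, ∃ N, Md D s σ a N) →
    ∃ d ∈ s.vd E, has M d ∧ s.Val2 σ (f ∪ ls (yl d)) (T ∪ ls d.2) := by
  filter_upwards [rep, q_core, rr_name, rr_elem, good_empty, not_loA, ev_cf yl,
    elemV (fun _ (_ : ℕ) (d : Dat) => yl d = []),
    compV (fun s (a : V × Om × List Pt × ℕ) (d : Dat) => D0 (s.r a.1) a.2.1 a.2.2.1 a.2.2.2 d)]
    with D h₁ h₂ h₃ h₄ h₅ h₆ h₇ h₈ h₉
  intro s hs σ τ M hM hD f T hff hTf hv hfK hτ hT hinj E hE hup hreal hcp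
  have hMs := hM.sub
  have cl := hMs.cl
  obtain ⟨Y, hY⟩ := exists_ls (hff.subset (sep_subset f fun x => ¬ has M x))
  obtain ⟨l, hl, hsort⟩ := exists_sorted (hTf.subset (sep_subset T fun x => ¬ has M x))
    fun a ha b hb => hinj a ha.1 b hb.1
  have hd := hreal Y l hY hl
  have hf : ∀ p ∈ f, has M p ∨ ppr τ.1 p := fun p hp =>
    ((hv.2.2.2 τ hτ).1.cases hp).imp hMs.has_pt.2 id
  have hYf : ∀ p, p ∈ Y ↔ p ∈ f ∧ ppr τ.1 p := fun p =>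
    ⟨fun h => ⟨(hY.le h).1, (hf p (hY.le h).1).resolve_left (hY.le h).2⟩,
      fun h => hY.ge ⟨h.1, fun H => (hMs.has_pt.1 H).1.not_ge h.2.1⟩⟩
  rcases eq_or_ne Y [] with rfl | hne
  · obtain ⟨d, a₁, a₂, a₃⟩ := h₈ s hs M _ hMs 0 (cl.has_nat _) E hE _ hd rfl
    have e : {x ∈ f | has M x} = f := by
      ext x
      refine and_iff_left_of_imp fun hx => by_contra fun h => ?_
      exact List.not_mem_nil (hY.ge ⟨hx, h⟩)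
    have hc := (hcp d a₂).1
    rw [e] at hc
    refine ⟨d, a₂, a₁, hc.1, hc.2.1, hc.2.2.1, ?_⟩
    rintro τ (h | h)
    · have e' : f ∪ ls (yl d) = f := by simp [a₃, ls]
      rw [e']
      exact hv.2.2.2 τ h
    · exact hc.2.2.2 τ (Or.inr h)
  obtain ⟨y₀, hy₀⟩ := List.exists_mem_of_ne_nil Y hne
  have hn := hv.1 ⟨y₀, ((hYf _).1 hy₀).1⟩
  obtain ⟨β₁, a₁, b₁⟩ := hMs.lim.ev hff (Q := fun p β => has M p → pbl β p)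
    (fun _ _ _ h H H' => (H H').mono h) fun p _ => by
      by_cases h : has M p
      · obtain ⟨γ, c₁, c₂⟩ := hMs.lim.2 _ (max_lt (hMs.has_pt.1 h).1 (hMs.has_pt.1 h).2)
        exact ⟨γ, c₂, fun _ => max_lt_iff.1 c₁⟩
      · exact ⟨⊥, hMs.lim.1, fun h' => absurd h' h⟩
  obtain ⟨β₂, a₂, b₂⟩ := hMs.lim.ev hTf (Q := fun τ β => has M τ → τ.1 ≤ β)
    (fun _ _ _ h H H' => (H H').trans h) fun τ _ => by
      by_cases h : has M τ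
      · exact ⟨τ.1, hMs.iff.1 (cl.has_prod.1 h).1, fun _ => le_rfl⟩
      · exact ⟨⊥, hMs.lim.1, fun h' => absurd h' h⟩
  obtain ⟨β₃, a₃, b₃⟩ := hMs.lim.ev (hff.prod hff) (Q := fun x β =>
      peq (s.r σ) τ.1 x.1 x.2 ∨ psp (s.r σ) β x.1 x.2)
    (fun _ _ _ h H => H.imp id fun H => H.mono h) fun x hx => by
      have := (hv.2.2.2 τ hτ).1.2.1 x.1 hx.1 x.2 hx.2
      by_cases h : U.ag τ.1 x.1.2 x.2.2
      · exact ⟨⊥, hMs.lim.1, Or.inl ⟨this.2 h, h⟩⟩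
      · obtain ⟨γ, c₁, c₂⟩ := psp_lim hMs.lim (⟨fun H => h (this.1 H), h⟩ : psp (s.r σ) τ.1 x.1 x.2)
        exact ⟨γ, c₁, Or.inr c₂⟩
  set β := max β₁ (max β₂ β₃) with hβ
  have hβδ : β < τ.1 := max_lt a₁ (max_lt a₂ a₃)
  have hYK : has s.K Y := hs.cl.has_list.2 fun p hp => hfK p ((hYf p).1 hp).1
  obtain ⟨Yβ, c₁, c₂⟩ := h₁ s hs M _ hMs σ hM.sg hn.1 β hβδ Y hYK
  have hτl : τ ∈ l := hl.ge ⟨hτ, fun h => lt_irrefl _ (hMs.iff.1 (cl.has_prod.1 h).1)⟩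
  have hk : 0 < l.length := List.length_pos_of_mem hτl
  have hlT : ∀ a ∈ l, a ∈ T ∧ τ.1 ≤ a.1 := fun a ha =>
    ⟨(hl.le ha).1, (hT a (hl.le ha).1).resolve_left (hl.le ha).2⟩
  have hl0 : nτ l 0 = τ := by
    obtain ⟨a, l', rfl⟩ := List.exists_cons_of_length_pos hk
    rcases List.mem_cons.1 hτl with h | h
    · exact h.symm
    · exact absurd ((List.pairwise_cons.1 hsort).1 τ h) (hlT a List.mem_cons_self).2.not_gt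
  have nameD : ∀ N δ, Sub D s N δ → τ.1 ≤ δ → σ ∈ N → E ∈ N → ∃ e ∈ N,
      s.vd e = {d | d ∈ s.vd E ∧ D0 (s.r σ) β Yβ l.length d} := by
    intro N δ hN hδ e₁ e₂
    obtain ⟨e, e₃, e₄⟩ := h₉ s hs N hN.cl hN.sub hN.hP (σ, β, Yβ, l.length) (by
      simp only [hN.cl.has_pair, hN.cl.has_nat, and_true]
      exact ⟨e₁, hN.iff.2 (hβδ.trans_le hδ), hN.cl.has_list.2 fun p hp =>
        hN.has_pt.2 ((hMs.has_pt.1 (cl.has_list.1 c₁ p hp)).mono hδ)⟩) E e₂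
    exact ⟨e, e₃, Set.ext e₄⟩
  obtain ⟨e, he, he'⟩ := nameD M _ hMs le_rfl hM.sg hE
  have hd₀ : (Y.map mkX, l) ∈ s.vd e := he'.ge ⟨hd, by rw [yl_mk]; exact c₂.symm, rfl,
    by rw [hl0]; exact hβδ.le, fun a ha => by rw [hl0]; exact (hlT a ha).2⟩
  have hR : ∀ n < l.length, (Y.map mkX, l) ∈ s.Rr σ (s.vd e) l.length n := by
    intro n hn'
    induction n with
    | zero => exact hd₀
    | succ n ih =>
      have hj : l.length - (n + 1) < l.length := by omega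
      have hlt : τ.1 < (nτ l (l.length - (n + 1))).1 := by
        refine sorted_take hsort hj ?_
        rw [← hl0, ← nτ_take (j := l.length - (n + 1)) (by omega)]
        exact nτ_mem (by rw [List.length_take]; omega)
      obtain ⟨N, e₁, e₂, e₃⟩ := hup _ (hlT _ (nτ_mem hj)).1 hlt
      obtain ⟨e', e₄, e₅⟩ := nameD N _ e₁.sub hlt.le e₁.sg e₂
      obtain ⟨e'', e₆, e₇⟩ := h₃ s hs N e₁.sub.cl e₁.sub.sub e₁.sub.hP σ e₁.sg e' e₄ l.length n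
      rw [e₅, ← he'] at e₇
      refine ⟨hd₀, ?_⟩
      rw [← e₇]
      exact h₄ s hs σ _ N e₁ hn.1 e'' e₆ _ (e₇.ge (ih (by omega))) _ rfl fun a ha =>
        e₃ a (hlT a (List.mem_of_mem_take ha)).1 (sorted_take hsort hj ha)
  have hb : ∀ p ∈ f, has M p → pbl β p := fun p hp h => (b₁ p hp h).mono (le_max_left _ _)
  obtain ⟨d, g₁, g₂, g₃⟩ := h₂ s hs σ τ M hM (hD hn) hn e he l.length hk (fun d hd => by
    obtain ⟨i₁, i₂, i₃, i₄, i₅⟩ := he'.le hd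
    obtain ⟨j₁, j₂⟩ := hcp d i₁
    refine ⟨i₃, fun a ha => ⟨j₂ a ha, fun p hp h => ?_, ?_⟩⟩
    · exact (((j₁.2.2.2 a (Or.inr ha)).1.cases (Or.inr hp)).resolve_left
        fun H => H.1.not_ge h).2
    · by_cases h : ∃ p ∈ ls (yl d), a.1 ≤ p.1
      · obtain ⟨p, hp, h⟩ := h
        refine ((j₁.2.2.2 a (Or.inr ha)).2 ⟨p, Or.inr hp, h⟩).congr hs ?_
          fun q hq => ⟨q, ⟨Or.inr hq.1, hq.2⟩, peq.refl _ _⟩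
        rintro q ⟨hq | hq, -⟩
        exacts [hfK q hq.1, hs.cl.has_list.1 (h₇ _ hs.cl _ i₁.1) q hq]
      · obtain ⟨N, hN⟩ := j₂ a ha
        exact (h₅ s hs N a hN.sub hN.tr σ).congr hs (by simp) fun q hq => absurd ⟨q, hq⟩ h)
    _ (hR _ (by omega)) hl0 (by rw [yl_mk]; exact fun p hp => ((hYf p).1 hp).2) (by
      rw [yl_mk]
      exact ((hv.2.2.2 τ hτ).2 ⟨y₀, ((hYf _).1 hy₀).1, ((hYf _).1 hy₀).2.1⟩).congr hs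
        (fun q hq => hfK q hq.1) fun p hp =>
          ⟨p, ⟨((hYf p).1 hp).1, ((hYf p).1 hp).2.1⟩, peq.refl _ _⟩)
  rw [yl_mk] at g₃
  obtain ⟨i₁, i₂, i₃, i₄, i₅⟩ := he'.le g₁
  have hlt : ∀ a ∈ d.2, a.1 < τ.1 := fun a h =>
    hMs.iff.1 (cl.has_prod.1 (cl.has_list.1 (cl.has_prod.1 g₂).2 a h)).1
  refine ⟨d, i₁, g₂, val2_amalg hs (β := β) (m := (nτ d.2 0).1) (δ := τ.1) hv (hcp d i₁).1 i₄
    (hlt _ (nτ_mem (i₃ ▸ hk))) ?_ (fun p hp => (hf p hp).imp (fun h => ⟨⟨hp, h⟩, hb p hp h⟩) id)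
    (fun a ha => (hT a ha).imp (fun h => ⟨⟨ha, h⟩,
      (b₂ a ha h).trans ((le_max_left _ _).trans (le_max_right _ _))⟩) id)
    (fun p hp => hMs.has_pt.1 (cl.has_list.1 (h₇ _ cl _ g₂) p hp))
    (fun a ha => ⟨hlt a ha, i₅ a ha⟩) (fun p hp q hq _ _ => (b₃ (p, q) ⟨hp, hq⟩).imp id
      fun H => H.mono ((le_max_right _ _).trans (le_max_right _ _))) (fun p hp => ?_)
    (fun y hy h γ hγ => ?_) fun a ha => ?_⟩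
  · rintro p (hp | hp)
    exacts [hfK p hp, hs.cl.has_list.1 (h₇ _ hs.cl _ i₁.1) p hp]
  · obtain ⟨i, hi, rfl⟩ := exists_nt hp
    have hi' : i < Y.length := g₃.1.1 ▸ hi
    exact ⟨nt Y i, ((hYf _).1 (nt_mem hi')).1, ((hYf _).1 (nt_mem hi')).2, (c₂.trans i₂).nt i,
      g₃.1.2 i hi'⟩
  · obtain ⟨k₁, k₂⟩ := h₆ s hs M _ hMs σ hM.sg hn y.1 (hs.cl.has_prod.1 (hfK y hy)).1 h.1 γ hγ
    obtain ⟨k₃, k₄⟩ := not_loU (hγ.trans_le h.2)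
    exact ⟨iff_of_false k₁ k₃, iff_of_false k₂ k₄⟩
  · convert g₃.2 a ha using 2
    exact Set.ext fun p => (hYf p).symm

end Pool.Agent.MP_656653_lc

end

section

/-! The forcing for the embedding: density arguments. -/

set_option synthInstance.maxSize 1000000

namespace Pool.Agent.MP_656653_lc

open Set Filter

def lvl (T : Set Trc) : Set Om := insert ⊥ (Prod.fst '' T)

theorem St.Val2.lev {s : St} {σ f T δ} (h : s.Val2 σ f T) (hδ : δ ∈ lvl T) : s.Lev σ f δ := by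
  rcases hδ with rfl | ⟨τ, hτ, rfl⟩
  exacts [h.2.2.1, (h.2.2.2 τ hτ).1]

theorem U.lt_iff_of_ag {γ : Om} {t t' u : U} (h : U.ag γ t t') (h' : ¬ U.ag γ t u) :
    t < u ↔ t' < u :=
  ⟨fun H => U.lt_of_ag H h' h (U.ag.refl _ _),
    fun H => U.lt_of_ag H (fun e => h' (h.trans e)) h.symm (U.ag.refl _ _)⟩

theorem sing_iff {δ : Om} {t : U} : (LoU δ t ∧ HiU δ t) ↔ ∀ v, U.ag δ v t → v = t :=
  ⟨fun h v hv => le_antisymm (not_lt.1 (h.2 v hv.symm)) (not_lt.1 (h.1 v hv.symm)),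
    fun h => ⟨fun u hu => h u hu.symm ▸ lt_irrefl _, fun u hu => h u hu.symm ▸ lt_irrefl _⟩⟩

structure Inv (s : St) (σ : V) (f : Set Pt) (T : Set Trc) (a δ : Om) (t : U) : Prop where
  ht : δ ≤ t.ht
  hK : has s.K t
  c2 : ∀ γ ∈ lvl T, γ ≤ δ → ∀ q ∈ f, agA (s.r σ) γ a q.1 ↔ U.ag γ t q.2
  ord : ∀ q ∈ f, ¬ agA (s.r σ) δ a q.1 → (s.r σ a q.1 ↔ t < q.2)
  good : ∀ τ ∈ T, τ.1 ≤ δ → s.Good σ τ (insert (a, t) {p ∈ f | τ.1 ≤ p.1})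

theorem Inv.move {D s} (hs : Sit D s) {σ f T a δ t w} (h : Inv s σ f T a δ t) (ha : has s.K a)
    (hf : ∀ p ∈ f, has s.K p) (hw : has s.K w) (e : U.ag δ t w) (hδ : δ ∈ lvl T) :
    Inv s σ f T a δ w := by
  refine ⟨U.le_ht e h.ht, hw, fun γ h₁ h₂ q hq => (h.c2 γ h₁ h₂ q hq).trans
    ⟨fun H => (e.mono h₂).symm.trans H, fun H => (e.mono h₂).trans H⟩, fun q hq H =>
    (h.ord q hq H).trans (U.lt_iff_of_ag e fun H' => H ((h.c2 δ hδ le_rfl q hq).2 H')),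
    fun τ h₁ h₂ => (h.good τ h₁ h₂).congr hs ?_ ?_⟩
  · rintro q (rfl | hq)
    exacts [hs.cl.has_pair.2 ⟨ha, h.hK⟩, hf q hq.1]
  · rintro p (rfl | hp)
    exacts [⟨_, Or.inl rfl, agA.refl _ _, (e.mono h₂).symm⟩, ⟨p, Or.inr hp, peq.refl _ _⟩]

theorem inv_occ {D s} (hs : Sit D s) {σ f T a δ b} (hv : s.Val2 σ f T) (hf : ∀ p ∈ f, has s.K p)
    (hδ : δ ∈ lvl T) (ha : δ ≤ a) (hb : b ∈ f) (e : agA (s.r σ) δ a b.1) :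
    Inv s σ f T a δ b.2 := by
  have hp : ppr δ b := ((hv.lev hδ).cases hb).resolve_left fun h => h.1.not_ge (e.le ha)
  refine ⟨hp.2, (hs.cl.has_prod.1 (hf b hb)).2, fun γ h₁ h₂ q hq =>
    Iff.trans ⟨fun H => (e.mono h₂).symm.trans H, fun H => (e.mono h₂).trans H⟩
      ((hv.lev h₁).2.1 b hb q hq), fun q hq H => Iff.trans ⟨fun H' => r_of_ag H' H e (agA.refl _ _),
        fun H' => r_of_ag H' (fun H'' => H (e.trans H'')) e.symm (agA.refl _ _)⟩ (hv.2.1 b hb q hq),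
    fun τ h₁ h₂ => ((hv.2.2.2 τ h₁).2 ⟨b, hb, h₂.trans hp.1⟩).congr hs (fun q hq => hf q hq.1) ?_⟩
  rintro p (rfl | hp')
  exacts [⟨b, ⟨hb, h₂.trans hp.1⟩, e.mono h₂, U.ag.refl _ _⟩, ⟨p, hp', peq.refl _ _⟩]

theorem gap {s : St} {σ f T a δ t} (hv : s.Val2 σ f T) (hff : f.Finite) (ha : has s.K a)
    (hδ : δ ∈ lvl T) (h : Inv s σ f T a δ t) (hn : ¬ (LoU δ t ∧ HiU δ t)) :
    ∃ lo hi, U.ag δ t lo ∧ U.ag δ t hi ∧ lo < hi ∧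
      (∀ q ∈ f, agA (s.r σ) δ a q.1 → (s.r σ q.1 a → q.2 ≤ lo) ∧ (s.r σ a q.1 → hi ≤ q.2)) ∧
      (lo.ht ≤ δ ∨ ∃ q ∈ f, q.2 = lo ∧ s.r σ q.1 a) ∧
      ((hi.ht ≤ δ ∧ HiU δ hi) ∨ ∃ q ∈ f, q.2 = hi ∧ s.r σ a q.1) := by
  obtain ⟨m, m', m₁, m₂, m₃, m₄, m₅⟩ := U.minmax δ t
  obtain ⟨lo, a₁, a₂⟩ := exists_max_image (insert m (Prod.snd '' {q ∈ f | agA (s.r σ) δ a q.1 ∧
    s.r σ q.1 a})) id (((hff.subset (sep_subset _ _)).image _).insert m) (insert_nonempty _ _)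
  obtain ⟨hi, b₁, b₂⟩ := exists_min_image (insert m' (Prod.snd '' {q ∈ f | agA (s.r σ) δ a q.1 ∧
    s.r σ a q.1})) id (((hff.subset (sep_subset _ _)).image _).insert m') (insert_nonempty _ _)
  have c := h.c2 δ hδ le_rfl
  have e := (hv.lev hδ).2.2
  refine ⟨lo, hi, ?_, ?_, ?_, fun q hq H => ⟨fun H' => a₂ _ (Or.inr ⟨q, ⟨hq, H, H'⟩, rfl⟩),
    fun H' => b₂ _ (Or.inr ⟨q, ⟨hq, H, H'⟩, rfl⟩)⟩, ?_, ?_⟩
  · rcases a₁ with rfl | ⟨q, hq, rfl⟩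
    exacts [m₁.symm, (c q hq.1).1 hq.2.1]
  · rcases b₁ with rfl | ⟨q, hq, rfl⟩
    exacts [m₂.symm, (c q hq.1).1 hq.2.1]
  · rcases a₁ with rfl | ⟨q, hq, rfl⟩ <;> rcases b₁ with rfl | ⟨q', hq', rfl⟩
    · by_contra hc
      refine hn (sing_iff.2 fun v hv => ?_)
      have := m₅ v hv
      have := m₅ t (U.ag.refl _ _)
      order
    · by_contra hc
      refine (e q' hq'.1).1.2 (fun u hu H => ?_) a ha hq'.2.1.symm hq'.2.2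
      have := (m₅ u (hu.symm.trans ((c q' hq'.1).1 hq'.2.1).symm)).1
      order
    · by_contra hc
      refine (e q hq.1).2.2 (fun u hu H => ?_) a ha hq.2.1.symm hq.2.2
      have := (m₅ u (hu.symm.trans ((c q hq.1).1 hq.2.1).symm)).2
      order
    · exact (hv.2.1 q hq.1 q' hq'.1).1 (r_trans hq.2.2 hq'.2.2)
  · rcases a₁ with rfl | ⟨q, hq, rfl⟩
    exacts [Or.inl m₃, Or.inr ⟨q, hq.1, rfl, hq.2.2⟩]
  · rcases b₁ with rfl | ⟨q, hq, rfl⟩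
    exacts [Or.inl ⟨m₄, fun u hu => (m₅ u (hu.symm.trans m₂)).2.not_gt⟩,
      Or.inr ⟨q, hq.1, rfl, hq.2.2⟩]

theorem gap_split {s : St} {σ f T a δ ε} {lo hi : U} (hv : s.Val2 σ f T) (hε : ε ∈ lvl T)
    (h : δ < ε) (hu : ∀ q ∈ f, ¬ agA (s.r σ) ε a q.1) (hlt : lo < hi)
    (h₁ : lo.ht ≤ δ ∨ ∃ q ∈ f, q.2 = lo ∧ s.r σ q.1 a)
    (h₂ : hi.ht ≤ δ ∨ ∃ q ∈ f, q.2 = hi ∧ s.r σ a q.1) : ¬ U.ag ε lo hi := by
  intro H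
  rcases h₁ with h₁ | ⟨q, hq, rfl, h₁⟩
  · exact hlt.ne (U.alone H (h₁.trans_lt h))
  rcases h₂ with h₂ | ⟨q', hq', rfl, h₂⟩
  · exact hlt.ne' (U.alone H.symm (h₂.trans_lt h))
  exact hu q hq ((((hv.lev hε).2.1 q hq q' hq').2 H).convex h₁ h₂).symm

/-- The final extension. -/
theorem inv_final {s : St} {σ f T a δ w} (hv : s.Val2 σ f T) (hn : s.Nice σ)
    (hnd : ∀ q ∈ f, q.1 ≠ a) (ha : δ ≤ a) (h : Inv s σ f T a δ w)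
    (h₁ : ∀ q ∈ f, agA (s.r σ) δ a q.1 → (s.r σ q.1 a → q.2 < w) ∧ (s.r σ a q.1 → w < q.2))
    (h₂ : ∀ γ ∈ lvl T, γ ≤ δ → s.End σ γ (a, w)) (h₃ : ∀ γ ∈ lvl T, δ < γ → pbl γ (a, w))
    (hδ : δ ∈ lvl T) : s.Val2 σ (insert (a, w) f) T := by
  have k : ∀ q ∈ f, (s.r σ a q.1 ↔ w < q.2) ∧ (s.r σ q.1 a ↔ q.2 < w) := by
    intro q hq
    have t := r_tri (r := s.r σ) q.1 a
    rw [or_iff_right (hnd q hq)] at t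
    by_cases e : agA (s.r σ) δ a q.1
    · have := h₁ q hq e
      exact ⟨⟨this.2, fun H => t.resolve_left fun H' => (this.1 H').asymm H⟩,
        ⟨this.1, fun H => t.resolve_right fun H' => (this.2 H').asymm H⟩⟩
    · have := h.ord q hq e
      refine ⟨this, fun H => ?_, fun H => t.resolve_right fun H' => (this.1 H').asymm H⟩
      refine (lt_or_gt_of_ne fun e' : w = q.2 => e ?_).resolve_left fun H' => r_asymm H (this.2 H')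
      exact (h.c2 δ hδ le_rfl q hq).2 (e' ▸ U.ag.refl _ _)
  have C0 : ∀ p ∈ insert (a, w) f, ∀ q ∈ insert (a, w) f, s.r σ p.1 q.1 ↔ p.2 < q.2 := by
    rintro p (rfl | hp) q (rfl | hq)
    exacts [iff_of_false (r_irr _) (lt_irrefl _), (k q hq).1, (k p hp).2, hv.2.1 p hp q hq]
  have lev : ∀ γ ∈ lvl T, s.Lev σ (insert (a, w) f) γ := by
    intro γ hγ
    have l := hv.lev hγ
    rcases le_or_gt γ δ with h' | h'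
    · refine ⟨?_, ?_, ?_⟩
      · rintro p (rfl | hp)
        exacts [iff_of_false (h'.trans ha).not_gt (h'.trans h.ht).not_gt, l.1 p hp]
      · rintro p (rfl | hp) q (rfl | hq)
        exacts [iff_of_true (agA.refl _ _) (U.ag.refl _ _), h.c2 γ hγ h' q hq,
          ⟨fun H => ((h.c2 γ hγ h' p hp).1 H.symm).symm,
            fun H => ((h.c2 γ hγ h' p hp).2 H.symm).symm⟩, l.2.1 p hp q hq]
      · rintro p (rfl | hp)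
        exacts [h₂ γ hγ h', l.2.2 p hp]
    · have b := h₃ γ hγ h'
      refine ⟨?_, ?_, ?_⟩
      · rintro p (rfl | hp)
        exacts [iff_of_true b.1 b.2, l.1 p hp]
      · rintro p (rfl | hp) q (rfl | hq)
        exacts [iff_of_true (agA.refl _ _) (U.ag.refl _ _),
          St.c2_of_bl (k q hq).1 (k q hq).2 (Or.inl b),
          St.c2_of_bl (k p hp).2 (k p hp).1 (Or.inr b), l.2.1 p hp q hq]
      · rintro p (rfl | hp)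
        exacts [St.end_of_bl b, l.2.2 p hp]
  refine ⟨fun _ => hn, C0, lev ⊥ (Or.inl rfl), fun τ hτ => ⟨lev _ (Or.inr ⟨τ, hτ, rfl⟩), ?_⟩⟩
  rcases le_or_gt τ.1 δ with h' | h'
  · intro _
    convert h.good τ hτ h' using 1
    ext p
    exact ⟨fun hp => hp.1.imp id fun H => ⟨H, hp.2⟩,
      fun hp => hp.elim (fun e => ⟨Or.inl e, e ▸ h'.trans ha⟩) fun H => ⟨Or.inr H.1, H.2⟩⟩
  · have e : {p ∈ insert (a, w) f | τ.1 ≤ p.1} = {p ∈ f | τ.1 ≤ p.1} := by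
      ext p
      exact ⟨fun hp => ⟨hp.1.resolve_left fun e =>
        (h₃ _ (Or.inr ⟨τ, hτ, rfl⟩) h').1.not_ge (e ▸ hp.2 :), hp.2⟩, fun hp => ⟨Or.inr hp.1, hp.2⟩⟩
    rintro ⟨p, hp⟩
    rw [e]
    exact (hv.2.2.2 τ hτ).2 ⟨p, e.le hp⟩

/-- The setting of the density arguments. -/
structure Ctx (D : Set Dp) (s : St) (σ : V) (f : Set Pt) (T : Set Trc) : Prop where
  sit : Sit D s
  nice : s.Nice σ
  ff : f.Finite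
  tf : T.Finite
  val : s.Val2 σ f T
  fK : ∀ p ∈ f, has s.K p
  md : ∀ τ ∈ T, ∃ N, Md D s σ τ N

theorem Ctx.lf {D s σ f T} (h : Ctx D s σ f T) : (lvl T).Finite := (h.tf.image _).insert _

theorem Ctx.md' {D s σ f T} (h : Ctx D s σ f T) {γ δ} (hδ : δ ∈ lvl T) (h' : γ < δ) :
    ∃ τ ∈ T, τ.1 = δ ∧ ∃ N, Md D s σ τ N := by
  rcases hδ with rfl | ⟨τ, hτ, rfl⟩
  exacts [absurd h' not_lt_bot, ⟨τ, hτ, rfl, h.md τ hτ⟩]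

theorem end_low : ∀ᶠ D in Fl, ∀ s σ f T, Ctx D s σ f T → ∀ a δ w, has s.K a → δ ∈ lvl T → δ ≤ a →
    δ ≤ U.ht w → s.End σ δ (a, w) → ∀ γ ∈ lvl T, γ ≤ δ → s.End σ γ (a, w) := by
  filter_upwards [not_loA] with D h₁ s σ f T h a δ w ha hδ h₂ h₃ h₄ γ _ hγ
  rcases hγ.eq_or_lt with rfl | hγ
  · exact h₄
  obtain ⟨τ, -, rfl, N, hN⟩ := h.md' hδ hγ
  obtain ⟨k₁, k₂⟩ := h₁ s h.sit N _ hN.sub σ hN.sg h.nice a ha h₂ γ hγ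
  obtain ⟨k₃, k₄⟩ := not_loU (hγ.trans_le h₃)
  exact ⟨iff_of_false k₁ k₃, iff_of_false k₂ k₄⟩

theorem exists_next {S : Set Om} (δ : Om) {R : Prop} (h₀ : (∀ γ ∈ S, γ ≤ δ) → R)
    (h₁ : ∀ ε ∈ S, δ < ε → (∀ γ ∈ S, δ < γ → ε ≤ γ) → R) : R := by
  by_cases h : ∃ ε ∈ S, δ < ε
  · obtain ⟨ε, h₂, h₃⟩ := (wellFounded_lt (α := Om)).has_min {ε ∈ S | δ < ε} h
    exact h₁ ε h₂.1 h₂.2 fun γ a b => not_lt.1 (h₃ γ ⟨a, b⟩)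
  · push Not at h
    exact h₀ h

/-- Filling a gap in the top occupied node. -/
theorem fill : ∀ᶠ D in Fl, ∀ s σ f T, Ctx D s σ f T → ∀ a δ t, has s.K a → δ ∈ lvl T → δ ≤ a →
    (∀ γ ∈ lvl T, δ < γ → a < γ) → (∀ q ∈ f, q.1 ≠ a) → Inv s σ f T a δ t →
    ¬ s.LoA σ δ a → ¬ s.HiA σ δ a → ∀ lo hi : U, has s.K lo → U.ag δ t lo → U.ag δ t hi → lo < hi →
    (∀ q ∈ f, agA (s.r σ) δ a q.1 → (s.r σ q.1 a → q.2 ≤ lo) ∧ (s.r σ a q.1 → hi ≤ q.2)) →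
    (∀ γ ∈ lvl T, δ < γ → ¬ U.ag γ lo hi) →
    ∃ w, has s.K w ∧ lo < w ∧ w < hi ∧ s.Val2 σ (insert (a, w) f) T := by
  filter_upwards [end_low] with D h₁ s σ f T h a δ t ha hδ h₂ h₃ h₄ hI h₅ h₆ lo hi b₀ b₁ b₂ b₃ b₄ b₅
  have hs := h.sit
  obtain ⟨w, c₀, c₁, c₂, c₃⟩ : ∃ w, has s.K w ∧ lo < w ∧ w < hi ∧
      ∀ γ ∈ lvl T, δ < γ → w.ht < γ := by
    obtain ⟨ε, e₁, e₂⟩ := hs.bas.up (hs.bas.ht.1 b₀)
    obtain ⟨w, c₁, c₂, c₃⟩ := U.exists_btwn b₃ fun H => b₃.ne (U.alone H e₂)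
    refine exists_next (S := lvl T) δ
      (fun H => ⟨w, hs.bas.ht.2 (hs.bas.down e₁ c₃.le), c₁, c₂,
        fun γ a b => absurd b (H γ a).not_gt⟩) fun ε e₃ e₄ e₅ => ?_
    obtain ⟨w, c₁, c₂, c₃⟩ := U.exists_btwn b₃ (b₅ ε e₃ e₄)
    obtain ⟨τ, -, rfl, N, hN⟩ := h.md' e₃ e₄
    exact ⟨w, hs.bas.ht.2 (hs.has_le hN.sub c₃.le), c₁, c₂,
      fun γ a b => c₃.trans_le (e₅ γ a b)⟩
  have e : U.ag δ lo w := U.convex c₁.le c₂.le (b₁.symm.trans b₂)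
  have hI' := hI.move hs ha h.fK c₀ (b₁.trans e) hδ
  refine ⟨w, c₀, c₁, c₂, inv_final h.val h.nice h₄ h₂ hI' (fun q hq H =>
    ⟨fun H' => ((b₄ q hq H).1 H').trans_lt c₁, fun H' => c₂.trans_le ((b₄ q hq H).2 H')⟩)
    (h₁ s σ f T h a δ w ha hδ h₂ hI'.ht ⟨iff_of_false h₅ fun H => H lo e.symm c₁,
      iff_of_false h₆ fun H => H hi (e.symm.trans (b₁.symm.trans b₂)) c₂⟩)
    (fun γ a b => ⟨h₃ γ a b, c₃ γ a b⟩) hδ⟩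

theorem dens1 : ∀ᶠ D in Fl, ∀ s σ f T, Ctx D s σ f T → s.Dich σ →
    (∀ a ∈ T, ∀ b ∈ T, a.1 = b.1 → a = b) → ∀ a, has s.K a →
    ∃ t, has s.K t ∧ s.Val2 σ (insert (a, t) f) T := by
  filter_upwards [end_low, fill, not_loA, lemC, good_empty] with D h₁ h₂ h₃ h₄ h₅ s σ f T h hD hinj
    a ha
  have hs := h.sit
  have hv := h.val
  by_cases hd : ∃ q ∈ f, q.1 = a
  · obtain ⟨q, hq, rfl⟩ := hd
    exact ⟨q.2, (hs.cl.has_prod.1 (h.fK q hq)).2, by rwa [insert_eq_of_mem hq]⟩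
  push Not at hd
  obtain ⟨δ, ⟨hδ, hδa, t, hI, hS⟩, hmax⟩ := exists_max_image {δ ∈ lvl T | δ ≤ a ∧ ∃ t,
      Inv s σ f T a δ t ∧ ((s.LoA σ δ a ∧ s.HiA σ δ a) ↔ (LoU δ t ∧ HiU δ t))} id
    (h.lf.subset (sep_subset _ _)) ⟨⊥, Or.inl rfl, bot_le, d0.2,
      ⟨bot_le, (hs.cl.has_prod.1 hs.has_d0).2, fun γ _ hγ q _ => by
        rw [le_bot_iff.1 hγ]; exact iff_of_true (agA_bot _ _) (U.ag_bot _ _),
      fun q _ H => absurd (agA_bot _ _) H, fun τ hτ H => by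
        obtain ⟨N, hN⟩ := h.md τ hτ
        exact absurd hN.sub.lim.1 H.not_gt⟩, iff_of_false (fun H => by
        obtain ⟨b, b₁, b₂⟩ := hs.bas.up ha
        rcases r_tri (r := s.r σ) a b with e | e | e
        exacts [H.2 b b₁ (agA_bot _ _) e, b₂.ne e, H.1 b b₁ (agA_bot _ _) e]) fun H => by
        obtain ⟨u, u', -, -, e⟩ := U.exists_ht ⊥
        exact e.ne ((sing_iff.1 H u (U.ag_bot _ _)).trans (sing_iff.1 H u' (U.ag_bot _ _)).symm)⟩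
  have htop : ∀ γ ∈ lvl T, δ < γ → a < γ := by
    refine exists_next (S := lvl T) δ
      (fun H γ a b => absurd b (H γ a).not_gt) fun ε e₁ e₂ e₃ γ g₁ g₂ => ?_
    refine lt_of_lt_of_le (not_le.1 fun hεa => e₂.not_ge (hmax ε ⟨e₁, hεa, ?_⟩)) (e₃ γ g₁ g₂)
    by_cases ho : ∃ b ∈ f, agA (s.r σ) ε a b.1
    · obtain ⟨b, b₁, b₂⟩ := ho
      have hb := (hs.cl.has_prod.1 (h.fK b b₁)).1
      refine ⟨b.2, inv_occ hs hv h.fK e₁ hεa b₁ b₂, iff_of_false (fun H => ?_) fun H => ?_⟩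
      · rcases r_tri (r := s.r σ) a b.1 with e | e | e
        exacts [H.2 _ hb b₂ e, hd b b₁ e.symm, H.1 _ hb b₂ e]
      · have := (hv.lev e₁).2.2 b b₁
        rcases r_tri (r := s.r σ) a b.1 with e | e | e
        exacts [this.1.2 H.1 a ha b₂.symm e, hd b b₁ e.symm, this.2.2 H.2 a ha b₂.symm e]
    push Not at ho
    obtain ⟨τ, hτ, rfl, N, hN⟩ := h.md' e₁ e₂
    obtain ⟨lo, hi, b₁, b₂, b₃, b₄, b₅, b₆⟩ := gap hv h.ff ha hδ hI fun H =>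
      (h₃ s hs N _ hN.sub σ hN.sg h.nice a ha hεa δ e₂).1 (hS.2 H).1
    classical
    obtain ⟨t', β, c₁, c₂, c₃⟩ := U.exists_opp hN.sub.lim b₃
      (gap_split hv e₁ e₂ ho b₃ b₅ (b₆.imp And.left id)) (decide (s.LoA σ τ.1 a ∧ s.HiA σ τ.1 a))
    have hQ : ∀ q ∈ {p ∈ f | τ.1 ≤ p.1}, has s.K q ∧ ppr τ.1 q := fun q hq => ⟨h.fK q hq.1,
      ((hv.lev e₁).cases hq.1).resolve_left fun H => H.1.not_ge hq.2⟩
    have hK : ∀ b, has s.K (t' b) := fun b => hs.bas.ht.2 ((c₃ b).2.2.2.2.1 ▸ hN.sub.hd)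
    obtain ⟨b, hG⟩ := h₄ s hs N τ hN.sub hN.tr σ hN.sg hD _ hQ (by
      by_cases H : ∃ p ∈ f, τ.1 ≤ p.1
      · exact (hv.2.2.2 τ hτ).2 H
      · exact (h₅ s hs N τ hN.sub hN.tr σ).congr hs (by simp) fun q hq => absurd ⟨q, hq⟩ H)
      a t' β ha hεa hK (fun b => (c₃ b).2.2.2.2.1.ge) c₁ c₂
    obtain ⟨d₁, d₂, d₃, d₄, d₅, d₆⟩ := c₃ b
    have hI' := hI.move hs ha h.fK (hK b) (b₁.trans (U.convex d₁.le d₂.le (b₁.symm.trans b₂))) hδ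
    have side : ∀ q ∈ f, agA (s.r σ) δ a q.1 → (s.r σ q.1 a ∧ q.2 ≤ lo) ∨ (s.r σ a q.1 ∧ hi ≤ q.2) := by
      intro q hq H
      rcases r_tri (r := s.r σ) q.1 a with e | e | e
      exacts [Or.inl ⟨e, (b₄ q hq H).1 e⟩, absurd e (hd q hq), Or.inr ⟨e, (b₄ q hq H).2 e⟩]
    refine ⟨t' b, ⟨d₅.ge, hK b, fun γ i₁ i₂ q hq => ?_, fun q hq _ => ?_, fun τ' i₁ i₂ => ?_⟩,
      by rw [sing_iff, ← d₆, decide_eq_true_iff]⟩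
    · rcases le_or_gt γ δ with i₃ | i₃
      · exact hI'.c2 γ i₁ i₃ q hq
      obtain rfl := le_antisymm i₂ (e₃ γ i₁ i₃)
      refine iff_of_false (ho q hq) fun H => ?_
      rcases side q hq ((hI'.c2 δ hδ le_rfl q hq).2 (H.mono e₂.le)) with e | e
      · exact d₃ ((U.convex e.2 d₁.le H.symm).symm.trans H.symm)
      · exact d₄ (U.convex d₂.le e.2 H)
    · by_cases H : agA (s.r σ) δ a q.1
      · rcases side q hq H with e | e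
        exacts [iff_of_false (r_asymm e.1) (e.2.trans d₁.le).not_gt,
          iff_of_true e.1 (d₂.trans_le e.2)]
      · exact hI'.ord q hq H
    · rcases le_or_gt τ'.1 δ with i₃ | i₃
      · exact hI'.good τ' i₁ i₃
      · obtain rfl := hinj τ' i₁ τ hτ (le_antisymm i₂ (e₃ _ (Or.inr ⟨τ', i₁, rfl⟩) i₃))
        exact hG
  have hδK : has s.K δ := hs.bas.down ha hδa
  obtain ⟨m, m', m₁, m₂, m₃, m₄, m₅⟩ := U.minmax δ t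
  have c := hI.c2 δ hδ le_rfl
  have fin : ∀ w : U, w.ht ≤ δ → U.ag δ w t → s.End σ δ (a, w) →
      (∀ q ∈ f, agA (s.r σ) δ a q.1 → (s.r σ q.1 a → q.2 < w) ∧ (s.r σ a q.1 → w < q.2)) →
      ∃ t, has s.K t ∧ s.Val2 σ (insert (a, t) f) T := by
    intro w w₁ w₂ w₃ w₄
    have hw : has s.K w := hs.bas.ht.2 (hs.bas.down hδK w₁)
    have hI' := hI.move hs ha h.fK hw w₂.symm hδ
    exact ⟨w, hw, inv_final hv h.nice hd hδa hI' w₄ (h₁ s σ f T h a δ w ha hδ hδa hI'.ht w₃)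
      (fun γ i₁ i₂ => ⟨htop γ i₁ i₂, w₁.trans_lt i₂⟩) hδ⟩
  have sg : ∀ w : U, U.ag δ w t → (LoU δ w ∧ HiU δ w ↔ LoU δ t ∧ HiU δ t) := fun w hw =>
    ⟨fun H => sing_iff.1 H t hw.symm ▸ H, fun H => sing_iff.1 H w hw ▸ H⟩
  by_cases hLo : s.LoA σ δ a
  · have l : LoU δ m := fun u hu => (m₅ u (hu.symm.trans m₁)).1.not_gt
    refine fin m m₃ m₁ ⟨iff_of_true hLo l, fun H => ((sg m m₁).2 (hS.1 ⟨hLo, H⟩)).2,
      fun H => (hS.2 ((sg m m₁).1 ⟨l, H⟩)).2⟩ fun q hq H => ⟨fun H' => absurd H'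
        (hLo _ (hs.cl.has_prod.1 (h.fK q hq)).1 H), fun H' => ?_⟩
    refine (m₅ _ ((c q hq).1 H).symm).1.lt_of_ne fun e => ?_
    exact ((hv.lev hδ).2.2 q hq).1.2 (e ▸ l) a ha H.symm H'
  by_cases hHi : s.HiA σ δ a
  · have l : HiU δ m' := fun u hu => (m₅ u (hu.symm.trans m₂)).2.not_gt
    refine fin m' m₄ m₂ ⟨iff_of_false hLo fun H => hLo (hS.2 ((sg m' m₂).1 ⟨H, l⟩)).1,
      iff_of_true hHi l⟩ fun q hq H => ⟨fun H' => ?_, fun H' => absurd H'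
        (hHi _ (hs.cl.has_prod.1 (h.fK q hq)).1 H)⟩
    refine (m₅ _ ((c q hq).1 H).symm).2.lt_of_ne fun e => ?_
    exact ((hv.lev hδ).2.2 q hq).2.2 (e ▸ l) a ha H.symm H'
  obtain ⟨lo, hi, b₁, b₂, b₃, b₄, b₅, b₆⟩ := gap hv h.ff ha hδ hI fun H => hLo (hS.2 H).1
  obtain ⟨w, w₁, -, -, w₂⟩ := h₂ s σ f T h a δ t ha hδ hδa htop hd hI hLo hHi lo hi (by
    rcases b₅ with H | ⟨q, hq, rfl, -⟩
    exacts [hs.bas.ht.2 (hs.bas.down hδK H), (hs.cl.has_prod.1 (h.fK q hq)).2]) b₁ b₂ b₃ b₄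
    fun γ i₁ i₂ => gap_split hv i₁ i₂ (fun q hq H => hd q hq (H.alone (htop γ i₁ i₂)).symm) b₃ b₅
      (b₆.imp And.left id)
  exact ⟨w, w₁, w₂⟩

end Pool.Agent.MP_656653_lc

end

section

/-! The forcing for the embedding: density arguments for continuity. -/

set_option synthInstance.maxSize 1000000

namespace Pool.Agent.MP_656653_lc

open Set Filter

theorem exists_rmax {r : Om → Om → Prop} (irr : ∀ a, ¬ r a a)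
    (tr : ∀ a b c, r a b → r b c → r a c) {S : Set Om} (hS : S.Finite) (c : Om) :
    ∃ b ∈ insert c S, ∀ x ∈ insert c S, ¬ r b x := by
  induction S, hS using Set.Finite.induction_on with
  | empty => exact ⟨c, Or.inl rfl, by simpa using irr c⟩
  | @insert a S _ _ ih =>
    obtain ⟨b, h₁, h₂⟩ := ih
    by_cases h : r b a
    · refine ⟨a, Or.inr (Or.inl rfl), ?_⟩
      rintro x (rfl | rfl | hx)
      exacts [fun H => h₂ x (Or.inl rfl) (tr _ _ _ h H), irr _,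
        fun H => h₂ x (Or.inr hx) (tr _ _ _ h H)]
    · refine ⟨b, h₁.imp id Or.inr, ?_⟩
      rintro x (rfl | rfl | hx)
      exacts [h₂ x (Or.inl rfl), h, h₂ x (Or.inr hx)]

theorem dens2_coreL : ∀ᶠ D in Fl, ∀ s σ f T, Ctx D s σ f T → ∀ a t u a' δ, (a, t) ∈ f → u < t →
    has s.K u → has s.K a' → δ ∈ lvl T → s.r σ a' a → (∀ q ∈ f, s.r σ q.1 a → s.r σ q.1 a') → δ ≤ a' →
    (∀ γ ∈ lvl T, δ < γ → a' < γ ∧ ¬ U.ag γ t u) → agA (s.r σ) δ a' a → ¬ s.LoA σ δ a' →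
    ∃ w, has s.K w ∧ u < w ∧ s.Val2 σ (insert (a', w) f) T := by
  filter_upwards [fill] with D h₁ s σ f T h a t u a' δ hp hu huK ha hδ h₂ h₃ h₄ h₅ h₆ h₇
  have hs := h.sit
  have hv := h.val
  have hK := hs.cl.has_pair.1 (h.fK _ hp)
  have hI := inv_occ hs hv h.fK hδ h₄ hp h₆
  have hd : ∀ q ∈ f, q.1 ≠ a' := fun q hq e => r_irr _ (e ▸ h₃ q hq (e ▸ h₂) :)
  have h₈ : ¬ s.HiA σ δ a' := fun H => H a hK.1 h₆ h₂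
  obtain ⟨lo, hi, b₁, b₂, b₃, b₄, b₅, b₆⟩ := gap hv h.ff ha hδ hI fun H =>
    ((hv.lev hδ).2.2 _ hp).1.2 H.1 a' ha h₆.symm h₂
  have b₇ : hi ≤ t := (b₄ _ hp h₆).2 h₂
  have b₈ : ∀ γ ∈ lvl T, δ < γ → ¬ U.ag γ lo hi := fun γ i₁ i₂ => gap_split hv i₁ i₂
    (fun q hq H => hd q hq (H.alone (h₅ γ i₁ i₂).1).symm) b₃ b₅ (b₆.imp And.left id)
  have b₉ : ∀ q ∈ f, s.r σ a' q.1 → t ≤ q.2 := fun q hq H => not_lt.1 fun H' =>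
    r_asymm H (h₃ q hq ((hv.2.1 q hq _ hp).2 H'))
  obtain ⟨w, w₁, w₂, -, w₃⟩ := h₁ s σ f T h a' δ t ha hδ h₄ (fun γ i j => (h₅ γ i j).1) hd hI h₇ h₈
    (max lo u) t (by
      rcases max_choice lo u with e | e <;> rw [e]
      · rcases b₅ with H | ⟨q, hq, rfl, -⟩
        exacts [hs.bas.ht.2 (hs.bas.down (hs.bas.down ha h₄) H), (hs.cl.has_prod.1 (h.fK q hq)).2]
      · exact huK)
    (b₁.trans (U.convex (le_max_left _ _) (max_lt (b₃.trans_le b₇) hu).le b₁.symm))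
    (U.ag.refl _ _) (max_lt (b₃.trans_le b₇) hu)
    (fun q hq H => ⟨fun H' => ((b₄ q hq H).1 H').trans (le_max_left _ _), b₉ q hq⟩)
    fun γ i j H => by
      rcases max_choice lo u with e | e <;> rw [e] at H
      exacts [b₈ γ i j (U.convex b₃.le b₇ H), (h₅ γ i j).2 H.symm]
  exact ⟨w, w₁, (le_max_right _ _).trans_lt w₂, w₃⟩

theorem dens2L : ∀ᶠ D in Fl, ∀ s σ f T, Ctx D s σ f T → ∀ a t u, (a, t) ∈ f → u < t →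
    has s.K u → (∃ c, has s.K c ∧ s.r σ c a) → ∃ a', has s.K a' ∧ s.r σ a' a ∧
      ((∀ c, has s.K c → ¬ (s.r σ a' c ∧ s.r σ c a)) ∨
        ∃ w, has s.K w ∧ u < w ∧ s.Val2 σ (insert (a', w) f) T) := by
  filter_upwards [dens2_coreL, lemE, elemS (fun s (x : V × Om × Om) (c : Om) =>
    s.r x.1 x.2.1 c ∧ s.r x.1 c x.2.2)] with D h₁ h₂ h₃ s σ f T h a t u hp hu huK ⟨c₀, hc₀, hc₁⟩
  have hs := h.sit
  have hv := h.val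
  have hK := hs.cl.has_pair.1 (h.fK _ hp)
  by_cases H : ∃ a', has s.K a' ∧ s.r σ a' a ∧ ∀ c, has s.K c → ¬ (s.r σ a' c ∧ s.r σ c a)
  · obtain ⟨a', a₁, a₂, a₃⟩ := H
    exact ⟨a', a₁, a₂, Or.inl a₃⟩
  push Not at H
  obtain ⟨δ, ⟨hδ, hδa⟩, hmax⟩ := exists_max_image {δ ∈ lvl T | δ ≤ a} id
    (h.lf.subset (sep_subset _ _)) ⟨⊥, Or.inl rfl, bot_le⟩
  have htop : ∀ γ ∈ lvl T, δ < γ → a < γ := fun γ i₁ i₂ =>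
    not_le.1 fun i₃ => i₂.not_ge (hmax γ ⟨i₁, i₃⟩)
  by_cases hLo : s.LoA σ δ a
  · have hδ0 : ⊥ < δ := bot_lt_iff_ne_bot.2 fun e => hLo c₀ hc₀ (e ▸ agA_bot _ _) hc₁
    obtain ⟨τ, -, rfl, N, hN⟩ := h.md' hδ hδ0
    obtain ⟨μ, ⟨hμ, hμ'⟩, hmax'⟩ := exists_max_image {γ ∈ lvl T | γ < τ.1} id
      (h.lf.subset (sep_subset _ _)) ⟨⊥, Or.inl rfl, hδ0⟩
    obtain ⟨β, b₁, b₂⟩ := hN.sub.lim.ev h.ff
      (Q := fun q β => s.r σ q.1 a → ¬ agA (s.r σ) β a q.1)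
      (fun _ _ _ i H H' H'' => H H' (H''.mono i)) fun q hq => by
        by_contra hc
        push Not at hc
        exact hLo _ (hs.cl.has_prod.1 (h.fK q hq)).1
          (agA_lim hN.sub.lim fun γ hγ => (hc γ hγ).2) (hc ⊥ hδ0).1
    obtain ⟨c, c₁, c₂, c₃⟩ := (h₂ s hs N _ hN.sub σ hN.sg h.nice a hK.1 hδa _ (max_lt b₁ hμ')).1
    obtain ⟨β', d₁, d₂⟩ := hN.sub.lim.2 _ (max_lt c₁ (max_lt b₁ hμ'))
    simp only [max_lt_iff] at d₁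
    obtain ⟨a', e₁, e₂, e₃⟩ := (h₂ s hs N _ hN.sub σ hN.sg h.nice a hK.1 hδa _ d₂).1
    have ha' := hs.has_le hN.sub e₁.le
    refine ⟨a', ha', e₃, Or.inr (h₁ s σ f T h a t u a' μ hp hu huK ha' hμ e₃ (fun q hq i => ?_)
      (d₁.2.2.le.trans (e₂.le (d₂.le.trans hδa))) (fun γ i₁ i₂ => ?_) (e₂.mono d₁.2.2.le).symm
      fun i => i c (hs.has_le hN.sub c₁.le)
        ((e₂.mono d₁.2.2.le).symm.trans (c₂.mono (le_max_right _ _))) ?_)⟩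
    · exact r_of_ag i (fun j => (b₂ q hq i) j.symm) (agA.refl _ _) (e₂.mono d₁.2.1.le)
    · have i₃ : τ.1 ≤ γ := not_lt.1 fun i₃ => i₂.not_ge (hmax' γ ⟨i₁, i₃⟩)
      exact ⟨e₁.trans_le i₃, fun i₄ => ((hv.lev hδ).2.2 _ hp).1.1 hLo u (i₄.mono i₃) hu⟩
    · exact r_of_ag c₃ (fun j => (fun i : agA (s.r σ) β' a c => r_irr (r := s.r σ) c (by have := c₃; rwa [← i.symm.alone d₁.1] at this)) j.symm) (agA.refl _ _) (e₂)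
  · unfold St.LoA at hLo
    push Not at hLo
    obtain ⟨c, c₁, c₂, c₃⟩ := hLo
    obtain ⟨b, b₁, b₂, b₃, b₄⟩ : ∃ b, has s.K b ∧ s.r σ b a ∧ ¬ s.r σ b c ∧
        ∀ q ∈ f, s.r σ q.1 a → ¬ s.r σ b q.1 := by
      obtain ⟨b, i₁, i₂⟩ := exists_rmax (r := fun x y => s.r σ x y) (fun _ => r_irr _)
        (fun _ _ _ i i' => r_trans i i') ((h.ff.image Prod.fst).inter_of_left {x | s.r σ x a}) c
      refine ⟨b, ?_, ?_, i₂ c (Or.inl rfl), fun q hq i => i₂ _ (Or.inr ⟨⟨q, hq, rfl⟩, i⟩)⟩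
      · rcases i₁ with rfl | ⟨⟨q, hq, rfl⟩, -⟩
        exacts [c₁, (hs.cl.has_prod.1 (h.fK q hq)).1]
      · rcases i₁ with rfl | i₁
        exacts [c₃, i₁.2]
    obtain ⟨a', e₁, e₂, e₃, e₄⟩ : ∃ a', has s.K a' ∧ s.r σ b a' ∧ s.r σ a' a ∧
        ∀ γ ∈ lvl T, δ < γ → a' < γ := by
      obtain ⟨a', e₁, e₂, e₃⟩ := H b b₁ b₂
      refine exists_next (S := lvl T) δ (fun i => ⟨a', e₁, e₂, e₃,
        fun γ i₁ i₂ => absurd i₂ (i γ i₁).not_gt⟩) fun ε i₁ i₂ i₃ => ?_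
      obtain ⟨τ, -, rfl, N, hN⟩ := h.md' i₁ i₂
      rcases lt_or_ge b τ.1 with i₄ | i₄
      · obtain ⟨a', j₁, j₂, j₃⟩ := h₃ s hs N _ hN.sub (σ, b, a) (by
          simp only [hN.sub.cl.has_pair, hN.sub.iff]; exact ⟨hN.sg, i₄, htop _ i₁ i₂⟩) a' e₁ ⟨e₂, e₃⟩
        exact ⟨a', hN.sub.sub j₁, j₂, j₃, fun γ k₁ k₂ => (hN.sub.iff.1 j₁).trans_le (i₃ γ k₁ k₂)⟩
      · obtain ⟨β, j₁, j₂⟩ := hN.sub.lim.2 _ (htop _ i₁ i₂)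
        obtain ⟨a', j₃, j₄, j₅⟩ := (h₂ s hs N _ hN.sub σ hN.sg h.nice b b₁ i₄ β j₂).2
        exact ⟨a', hs.has_le hN.sub j₃.le, j₅,
          r_of_ag b₂ (fun j => (fun i : agA (s.r σ) β a b => r_irr (r := s.r σ) a (by have := b₂; rwa [← i.alone j₁] at this)) j.symm) (j₄) (agA.refl _ _),
          fun γ k₁ k₂ => j₃.trans_le (i₃ γ k₁ k₂)⟩
    have k : ∀ x, ¬ s.r σ b x → s.r σ x a' := fun x i => by
      rcases r_tri (r := s.r σ) b x with j | rfl | j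
      exacts [absurd j i, e₂, r_trans j e₂]
    have e₅ : agA (s.r σ) δ a' a := (c₂.symm.convex (k c b₃) e₃).symm.trans c₂.symm
    exact ⟨a', e₁, e₃, Or.inr (h₁ s σ f T h a t u a' δ hp hu huK e₁ hδ e₃
      (fun q hq i => k _ (b₄ q hq i)) (e₅.symm.le hδa) (fun γ i₁ i₂ => ⟨e₄ γ i₁ i₂, fun i =>
        hu.ne' (U.alone i (((hv.lev i₁).1 _ hp).1 (htop γ i₁ i₂)))⟩) e₅
      fun i => i c c₁ (e₅.trans c₂) (k c b₃))⟩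

theorem dens2_coreR : ∀ᶠ D in Fl, ∀ s σ f T, Ctx D s σ f T → ∀ a t u a' δ, (a, t) ∈ f → t < u →
    has s.K u → has s.K a' → δ ∈ lvl T → s.r σ a a' → (∀ q ∈ f, s.r σ a q.1 → s.r σ a' q.1) → δ ≤ a' →
    (∀ γ ∈ lvl T, δ < γ → a' < γ ∧ ¬ U.ag γ t u) → agA (s.r σ) δ a' a → ¬ s.HiA σ δ a' →
    ∃ w, has s.K w ∧ w < u ∧ s.Val2 σ (insert (a', w) f) T := by
  filter_upwards [fill] with D h₁ s σ f T h a t u a' δ hp hu huK ha hδ h₂ h₃ h₄ h₅ h₆ h₇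
  have hs := h.sit
  have hv := h.val
  have hK := hs.cl.has_pair.1 (h.fK _ hp)
  have hI := inv_occ hs hv h.fK hδ h₄ hp h₆
  have hd : ∀ q ∈ f, q.1 ≠ a' := fun q hq e => r_irr _ (e ▸ h₃ q hq (e ▸ h₂) :)
  have h₈ : ¬ s.LoA σ δ a' := fun H => H a hK.1 h₆ h₂
  obtain ⟨lo, hi, b₁, b₂, b₃, b₄, b₅, b₆⟩ := gap hv h.ff ha hδ hI fun H =>
    ((hv.lev hδ).2.2 _ hp).2.2 H.2 a' ha h₆.symm h₂
  have b₇ : t ≤ lo := (b₄ _ hp h₆).1 h₂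
  have b₈ : ∀ γ ∈ lvl T, δ < γ → ¬ U.ag γ lo hi := fun γ i₁ i₂ => gap_split hv i₁ i₂
    (fun q hq H => hd q hq (H.alone (h₅ γ i₁ i₂).1).symm) b₃ b₅ (b₆.imp And.left id)
  have b₉ : ∀ q ∈ f, s.r σ q.1 a' → q.2 ≤ t := fun q hq H => not_lt.1 fun H' =>
    r_asymm H (h₃ q hq ((hv.2.1 _ hp q hq).2 H'))
  obtain ⟨w, w₁, -, w₂, w₃⟩ := h₁ s σ f T h a' δ t ha hδ h₄ (fun γ i j => (h₅ γ i j).1) hd hI h₈ h₇
    t (min hi u) hK.2 (U.ag.refl _ _)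
    (U.convex (lt_min (b₇.trans_lt b₃) hu).le (min_le_left _ _) b₂) (lt_min (b₇.trans_lt b₃) hu)
    (fun q hq H => ⟨b₉ q hq, fun H' => (min_le_left _ _).trans ((b₄ q hq H).2 H')⟩)
    fun γ i j H => by
      rcases min_choice hi u with e | e <;> rw [e] at H
      exacts [b₈ γ i j ((U.convex b₇ b₃.le H).symm.trans H), (h₅ γ i j).2 H]
  exact ⟨w, w₁, w₂.trans_le (min_le_right _ _), w₃⟩

theorem dens2R : ∀ᶠ D in Fl, ∀ s σ f T, Ctx D s σ f T → ∀ a t u, (a, t) ∈ f → t < u →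
    has s.K u → (∃ c, has s.K c ∧ s.r σ a c) → ∃ a', has s.K a' ∧ s.r σ a a' ∧
      ((∀ c, has s.K c → ¬ (s.r σ c a' ∧ s.r σ a c)) ∨
        ∃ w, has s.K w ∧ w < u ∧ s.Val2 σ (insert (a', w) f) T) := by
  filter_upwards [dens2_coreR, lemE, elemS (fun s (x : V × Om × Om) (c : Om) =>
    s.r x.1 c x.2.1 ∧ s.r x.1 x.2.2 c)] with D h₁ h₂ h₃ s σ f T h a t u hp hu huK ⟨c₀, hc₀, hc₁⟩
  have hs := h.sit
  have hv := h.val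
  have hK := hs.cl.has_pair.1 (h.fK _ hp)
  by_cases H : ∃ a', has s.K a' ∧ s.r σ a a' ∧ ∀ c, has s.K c → ¬ (s.r σ c a' ∧ s.r σ a c)
  · obtain ⟨a', a₁, a₂, a₃⟩ := H
    exact ⟨a', a₁, a₂, Or.inl a₃⟩
  push Not at H
  obtain ⟨δ, ⟨hδ, hδa⟩, hmax⟩ := exists_max_image {δ ∈ lvl T | δ ≤ a} id
    (h.lf.subset (sep_subset _ _)) ⟨⊥, Or.inl rfl, bot_le⟩
  have htop : ∀ γ ∈ lvl T, δ < γ → a < γ := fun γ i₁ i₂ =>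
    not_le.1 fun i₃ => i₂.not_ge (hmax γ ⟨i₁, i₃⟩)
  by_cases hLo : s.HiA σ δ a
  · have hδ0 : ⊥ < δ := bot_lt_iff_ne_bot.2 fun e => hLo c₀ hc₀ (e ▸ agA_bot _ _) hc₁
    obtain ⟨τ, -, rfl, N, hN⟩ := h.md' hδ hδ0
    obtain ⟨μ, ⟨hμ, hμ'⟩, hmax'⟩ := exists_max_image {γ ∈ lvl T | γ < τ.1} id
      (h.lf.subset (sep_subset _ _)) ⟨⊥, Or.inl rfl, hδ0⟩
    obtain ⟨β, b₁, b₂⟩ := hN.sub.lim.ev h.ff
      (Q := fun q β => s.r σ a q.1 → ¬ agA (s.r σ) β a q.1)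
      (fun _ _ _ i H H' H'' => H H' (H''.mono i)) fun q hq => by
        by_contra hc
        push Not at hc
        exact hLo _ (hs.cl.has_prod.1 (h.fK q hq)).1
          (agA_lim hN.sub.lim fun γ hγ => (hc γ hγ).2) (hc ⊥ hδ0).1
    obtain ⟨c, c₁, c₂, c₃⟩ := (h₂ s hs N _ hN.sub σ hN.sg h.nice a hK.1 hδa _ (max_lt b₁ hμ')).2
    obtain ⟨β', d₁, d₂⟩ := hN.sub.lim.2 _ (max_lt c₁ (max_lt b₁ hμ'))
    simp only [max_lt_iff] at d₁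
    obtain ⟨a', e₁, e₂, e₃⟩ := (h₂ s hs N _ hN.sub σ hN.sg h.nice a hK.1 hδa _ d₂).2
    have ha' := hs.has_le hN.sub e₁.le
    refine ⟨a', ha', e₃, Or.inr (h₁ s σ f T h a t u a' μ hp hu huK ha' hμ e₃ (fun q hq i => ?_)
      (d₁.2.2.le.trans (e₂.le (d₂.le.trans hδa))) (fun γ i₁ i₂ => ?_) (e₂.mono d₁.2.2.le).symm
      fun i => i c (hs.has_le hN.sub c₁.le)
        ((e₂.mono d₁.2.2.le).symm.trans (c₂.mono (le_max_right _ _))) ?_)⟩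
    · exact r_of_ag i (b₂ q hq i) (e₂.mono d₁.2.1.le) (agA.refl _ _)
    · have i₃ : τ.1 ≤ γ := not_lt.1 fun i₃ => i₂.not_ge (hmax' γ ⟨i₁, i₃⟩)
      exact ⟨e₁.trans_le i₃, fun i₄ => ((hv.lev hδ).2.2 _ hp).2.1 hLo u (i₄.mono i₃) hu⟩
    · exact r_of_ag c₃ (fun i : agA (s.r σ) β' a c => r_irr (r := s.r σ) c (by have := c₃; rwa [← i.symm.alone d₁.1] at this)) (e₂) (agA.refl _ _)
  · unfold St.HiA at hLo
    push Not at hLo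
    obtain ⟨c, c₁, c₂, c₃⟩ := hLo
    obtain ⟨b, b₁, b₂, b₃, b₄⟩ : ∃ b, has s.K b ∧ s.r σ a b ∧ ¬ s.r σ c b ∧
        ∀ q ∈ f, s.r σ a q.1 → ¬ s.r σ q.1 b := by
      obtain ⟨b, i₁, i₂⟩ := exists_rmax (r := fun x y => s.r σ y x) (fun _ => r_irr _)
        (fun _ _ _ i i' => r_trans i' i) ((h.ff.image Prod.fst).inter_of_left {x | s.r σ a x}) c
      refine ⟨b, ?_, ?_, i₂ c (Or.inl rfl), fun q hq i => i₂ _ (Or.inr ⟨⟨q, hq, rfl⟩, i⟩)⟩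
      · rcases i₁ with rfl | ⟨⟨q, hq, rfl⟩, -⟩
        exacts [c₁, (hs.cl.has_prod.1 (h.fK q hq)).1]
      · rcases i₁ with rfl | i₁
        exacts [c₃, i₁.2]
    obtain ⟨a', e₁, e₂, e₃, e₄⟩ : ∃ a', has s.K a' ∧ s.r σ a' b ∧ s.r σ a a' ∧
        ∀ γ ∈ lvl T, δ < γ → a' < γ := by
      obtain ⟨a', e₁, e₂, e₃⟩ := H b b₁ b₂
      refine exists_next (S := lvl T) δ (fun i => ⟨a', e₁, e₂, e₃,
        fun γ i₁ i₂ => absurd i₂ (i γ i₁).not_gt⟩) fun ε i₁ i₂ i₃ => ?_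
      obtain ⟨τ, -, rfl, N, hN⟩ := h.md' i₁ i₂
      rcases lt_or_ge b τ.1 with i₄ | i₄
      · obtain ⟨a', j₁, j₂, j₃⟩ := h₃ s hs N _ hN.sub (σ, b, a) (by
          simp only [hN.sub.cl.has_pair, hN.sub.iff]; exact ⟨hN.sg, i₄, htop _ i₁ i₂⟩) a' e₁ ⟨e₂, e₃⟩
        exact ⟨a', hN.sub.sub j₁, j₂, j₃, fun γ k₁ k₂ => (hN.sub.iff.1 j₁).trans_le (i₃ γ k₁ k₂)⟩
      · obtain ⟨β, j₁, j₂⟩ := hN.sub.lim.2 _ (htop _ i₁ i₂)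
        obtain ⟨a', j₃, j₄, j₅⟩ := (h₂ s hs N _ hN.sub σ hN.sg h.nice b b₁ i₄ β j₂).1
        exact ⟨a', hs.has_le hN.sub j₃.le, j₅,
          r_of_ag b₂ (fun i : agA (s.r σ) β a b => r_irr (r := s.r σ) a (by have := b₂; rwa [← i.alone j₁] at this)) (agA.refl _ _) (j₄),
          fun γ k₁ k₂ => j₃.trans_le (i₃ γ k₁ k₂)⟩
    have k : ∀ x, ¬ s.r σ x b → s.r σ a' x := fun x i => by
      rcases r_tri (r := s.r σ) b x with j | rfl | j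
      exacts [r_trans e₂ j, e₂, absurd j i]
    have e₅ : agA (s.r σ) δ a' a := (c₂.convex e₃ (k c b₃)).symm
    exact ⟨a', e₁, e₃, Or.inr (h₁ s σ f T h a t u a' δ hp hu huK e₁ hδ e₃
      (fun q hq i => k _ (b₄ q hq i)) (e₅.symm.le hδa) (fun γ i₁ i₂ => ⟨e₄ γ i₁ i₂, fun i =>
        hu.ne (U.alone i (((hv.lev i₁).1 _ hp).1 (htop γ i₁ i₂)))⟩) e₅
      fun i => i c c₁ (e₅.trans c₂) (k c b₃))⟩

end Pool.Agent.MP_656653_lc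

end
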