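import Mathlib

section

/-! The first uncountable ordinal as a type, and a coherent finite-to-one sequence. -/

namespace Pool.Agent.MP_656653_lc

open Set

def Om : Type := (Cardinal.aleph.{0} 1).ord.ToType

noncomputable instance : LinearOrder Om :=
  inferInstanceAs (LinearOrder (Cardinal.aleph.{0} 1).ord.ToType)
instance : WellFoundedLT Om := inferInstanceAs (WellFoundedLT (Cardinal.aleph.{0} 1).ord.ToType)

theorem mk_Om : Cardinal.mk Om = Cardinal.aleph 1 := Cardinal.mk_ord_toType _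

theorem Om_unc : ¬ (univ : Set Om).Countable := by
  rw [countable_univ_iff, ← Cardinal.mk_le_aleph0_iff, mk_Om, not_le]
  exact Cardinal.aleph0_lt_aleph_one

instance : Nonempty Om := by
  by_contra h
  rw [not_nonempty_iff] at h
  exact Om_unc (to_countable _)

noncomputable instance : OrderBot Om := WellFoundedLT.toOrderBot Om

set_option linter.deprecated false in
theorem cnt_Iio (a : Om) : (Iio a).Countable := by
  rw [Cardinal.countable_iff_lt_aleph_one]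
  exact Cardinal.mk_Iio_toType_ord_lt (c := Cardinal.aleph.{0} 1) a

theorem cnt_Iic (a : Om) : (Iic a).Countable := by
  rw [← Iio_insert]; exact (cnt_Iio a).insert a

theorem exists_bound {s : Set Om} (hs : s.Countable) : ∃ b, ∀ a ∈ s, a < b := by
  by_contra h
  push Not at h
  apply Om_unc
  refine (hs.biUnion (fun a _ => cnt_Iic a)).mono ?_
  intro b _
  obtain ⟨a, ha, hab⟩ := h b
  exact mem_biUnion ha hab

instance : NoMaxOrder Om := ⟨fun a => by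
  obtain ⟨b, hb⟩ := exists_bound (countable_singleton a)
  exact ⟨b, hb a rfl⟩⟩

/-- Nonzero limit. -/
def Lim (δ : Om) : Prop := ⊥ < δ ∧ ∀ γ < δ, ∃ γ', γ < γ' ∧ γ' < δ

theorem Lim.finset {δ : Om} (h : Lim δ) (s : Finset Om) (hs : ∀ a ∈ s, a < δ) :
    ∃ β < δ, ∀ a ∈ s, a < β := by
  classical
  induction s using Finset.induction_on with
  | empty => exact ⟨⊥, h.1, by simp⟩
  | insert a s _ ih =>
    obtain ⟨β, hβ, H⟩ := ih fun b hb => hs b (Finset.mem_insert_of_mem hb)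
    obtain ⟨γ, h₁, h₂⟩ := h.2 (max a β) (max_lt (hs a (Finset.mem_insert_self _ _)) hβ)
    refine ⟨γ, h₂, fun b hb => ?_⟩
    rcases Finset.mem_insert.1 hb with rfl | hb
    · exact (le_max_left _ _).trans_lt h₁
    · exact (H b hb).trans ((le_max_right _ _).trans_lt h₁)

theorem Lim.infinite {δ : Om} (h : Lim δ) {s : Set Om} (hs : ∀ β < δ, ∃ a ∈ s, β ≤ a ∧ a < δ) :
    s.Infinite := by
  intro hf
  obtain ⟨β, hβ, H⟩ := h.finset (hf.inter_of_left (Iio δ)).toFinset (by simp)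
  obtain ⟨a, ha, h₁, h₂⟩ := hs β hβ
  exact (H a (by simpa using ⟨ha, h₂⟩)).not_ge h₁

/-- Finitely many eventual requirements below a limit. -/
theorem Lim.ev {ι : Type*} {δ : Om} (h : Lim δ) {s : Set ι} (hs : s.Finite) {Q : ι → Om → Prop}
    (mono : ∀ i β β', β ≤ β' → Q i β → Q i β') (H : ∀ i ∈ s, ∃ β < δ, Q i β) :
    ∃ β < δ, ∀ i ∈ s, Q i β := by
  induction s, hs using Set.Finite.induction_on with
  | empty => exact ⟨⊥, h.1, by simp⟩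
  | @insert a s _ _ ih =>
    obtain ⟨β, hβ, H₁⟩ := ih fun i hi => H i (mem_insert_of_mem _ hi)
    obtain ⟨γ, hγ, H₂⟩ := H a (mem_insert _ _)
    refine ⟨max β γ, max_lt hβ hγ, fun i hi => ?_⟩
    rcases hi with rfl | hi
    · exact mono _ _ _ (le_max_right _ _) H₂
    · exact mono _ _ _ (le_max_left _ _) (H₁ i hi)

theorem exists_en (a : Om) : ∃ f : ℕ → Om, ∀ ξ < a, ∃ n, f n = ξ := by
  obtain ⟨f, hf⟩ := (cnt_Iic a).exists_eq_range ⟨a, mem_Iic.2 le_rfl⟩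
  exact ⟨f, fun ξ h => (show ξ ∈ range f from hf ▸ h.le)⟩

noncomputable def en (a : Om) : ℕ → Om := (exists_en a).choose

theorem en_spec {a ξ : Om} (h : ξ < a) : ∃ n, en a n = ξ := (exists_en a).choose_spec ξ h

open Classical in
noncomputable def co : Om → Om → ℕ :=
  (wellFounded_lt (α := Om)).fix fun a ih ξ =>
    if h : ∃ n, ξ ≤ en a n ∧ en a n < a then
      max (Nat.find h) (ih (en a (Nat.find h)) (Nat.find_spec h).2 ξ) else 0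

theorem co_spec {a ξ : Om} (h : ξ < a) : ∃ n, ξ ≤ en a n ∧ en a n < a ∧
    co a ξ = max n (co (en a n) ξ) ∧ ∀ m, ξ ≤ en a m → en a m < a → n ≤ m := by
  classical
  have h' : ∃ n, ξ ≤ en a n ∧ en a n < a := by
    obtain ⟨n, hn⟩ := en_spec h
    exact ⟨n, hn.ge, hn ▸ h⟩
  refine ⟨Nat.find h', (Nat.find_spec h').1, (Nat.find_spec h').2, ?_,
    fun m h₁ h₂ => Nat.find_min' h' ⟨h₁, h₂⟩⟩
  conv_lhs => unfold co; rw [WellFounded.fix_eq]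
  rw [dif_pos h']
  rfl

theorem co_fin (a : Om) (k : ℕ) : {ξ | ξ < a ∧ co a ξ ≤ k}.Finite := by
  induction a using WellFoundedLT.induction generalizing k with
  | ind a ih =>
    have : ∀ n, {ξ | en a n < a ∧ (ξ = en a n ∨ (ξ < en a n ∧ co (en a n) ξ ≤ k))}.Finite := by
      intro n
      by_cases h : en a n < a
      · exact ((ih _ h k).insert (en a n)).subset fun ξ hξ => hξ.2
      · simp [h]
    refine ((finite_Iic k).biUnion fun n _ => this n).subset ?_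
    rintro ξ ⟨h₁, h₂⟩
    obtain ⟨n, h₃, h₄, h₅, -⟩ := co_spec h₁
    rw [h₅, max_le_iff] at h₂
    exact mem_biUnion h₂.1 ⟨h₄, h₃.eq_or_lt.imp id fun h => ⟨h, h₂.2⟩⟩

theorem co_coh_lt (a : Om) : ∀ b < a, {ξ | ξ < b ∧ co a ξ ≠ co b ξ}.Finite := by
  induction a using WellFoundedLT.induction with
  | ind a ih =>
    intro b hb
    obtain ⟨m, hm⟩ := en_spec hb
    have hc : ∀ c < a, {ξ | ξ < c ∧ ξ < b ∧ co c ξ ≠ co b ξ}.Finite := by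
      intro c hc
      rcases lt_trichotomy c b with h | rfl | h
      · exact (ih b hb c h).subset fun ξ hξ => ⟨hξ.1, hξ.2.2.symm⟩
      · simp
      · exact (ih c hc b h).subset fun ξ hξ => hξ.2
    have : ∀ n, {ξ | en a n < a ∧ (ξ = en a n ∨ (ξ < en a n ∧ co (en a n) ξ ≤ n) ∨
        (ξ < en a n ∧ ξ < b ∧ co (en a n) ξ ≠ co b ξ))}.Finite := by
      intro n
      by_cases h : en a n < a
      · exact (((co_fin (en a n) n).union (hc _ h)).insert (en a n)).subset fun ξ hξ => hξ.2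
      · simp [h]
    refine ((finite_Iic m).biUnion fun n _ => this n).subset ?_
    rintro ξ ⟨h₁, h₂⟩
    obtain ⟨n, h₃, h₄, h₅, h₆⟩ := co_spec (h₁.trans hb)
    refine mem_biUnion (h₆ m (hm ▸ h₁.le) (hm ▸ hb)) ⟨h₄, h₃.eq_or_lt.imp id fun h => ?_⟩
    rcases le_total (co (en a n) ξ) n with h' | h'
    · exact Or.inl ⟨h, h'⟩
    · exact Or.inr ⟨h, h₁, by rwa [h₅, max_eq_right h'] at h₂⟩

theorem co_coh {a b : Om} (h : b ≤ a) : {ξ | ξ < b ∧ co a ξ ≠ co b ξ}.Finite := by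
  rcases h.eq_or_lt with rfl | h
  · simp
  · exact co_coh_lt a b h

/-- A ladder: the records from the right. -/
def lad (δ : Om) : Set Om := {ξ | ξ < δ ∧ ∀ η, ξ < η → η < δ → co δ ξ < co δ η}

theorem lad_fin {δ γ : Om} (h : γ < δ) : {ξ | ξ < γ ∧ ξ ∈ lad δ}.Finite :=
  (co_fin δ (co δ γ)).subset fun _ hξ => ⟨hξ.2.1, (hξ.2.2 γ hξ.1 h).le⟩

theorem lad_inf {δ : Om} (h : Lim δ) : (lad δ).Infinite := by
  refine h.infinite fun β hβ => ?_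
  obtain ⟨η, ⟨h₁, h₂⟩, hmin⟩ := (measure (co δ)).wf.has_min {η | β ≤ η ∧ η < δ} ⟨β, le_rfl, hβ⟩
  have hf : {ξ | β ≤ ξ ∧ ξ < δ ∧ co δ ξ ≤ co δ η}.Finite :=
    (co_fin δ (co δ η)).subset fun ξ hξ => hξ.2
  obtain ⟨ξ, ⟨h₃, h₄, h₅⟩, hmax⟩ := hf.exists_maximal ⟨η, h₁, h₂, le_rfl⟩
  refine ⟨ξ, ⟨h₄, fun ζ h₆ h₇ => ?_⟩, h₃, h₄⟩
  by_contra hc
  push Not at hc
  exact (hmax ⟨h₃.trans h₆.le, h₇, hc.trans h₅⟩ h₆.le).not_gt h₆

end Pool.Agent.MP_656653_lc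

end

section

/-! The target line. -/

namespace Pool.Agent.MP_656653_lc

open Set

open Classical in
noncomputable def sg : List (Om × Bool) → Om → Bool
  | [], _ => true
  | e :: l, ξ => if e.1 ≤ ξ then e.2 else sg l ξ

open Classical in
noncomputable def mag (γ : Om) (fl : Bool) (ξ : Om) : ℕ :=
  2 * co γ ξ + 1 + (if fl = true ∧ ξ ∈ lad γ then 1 else 0)

noncomputable def can (γ : Om) (l : List (Om × Bool)) (fl : Bool) (ξ : Om) : ℝ :=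
  (if sg l ξ = true then 1 else -1) / (mag γ fl ξ : ℝ)

def Fm (γ : Om) (fl : Bool) (t : Om → ℝ) : Prop :=
  ∃ l, {ξ | ξ < γ ∧ t ξ ≠ can γ l fl ξ}.Finite

def Cont (x : ℝ) : Prop := (∃ q : ℚ, x = q) ∧ |x| < 2

def Term (x : ℝ) : Prop := x = -2 ∨ x = 2 ∨ ((∃ q : ℚ, x = q + √2) ∧ |x| < 2)

def IsU (t : Om → ℝ) (h : Om) : Prop :=
  (∀ ξ < h, Cont (t ξ)) ∧ Term (t h) ∧ (∀ ξ, h < ξ → t ξ = 0) ∧
    (Fm h false t ∨ (Fm h true t ∧ t h = -2))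

theorem Cont.not_term {x : ℝ} (h : Cont x) : ¬ Term x := by
  obtain ⟨⟨q, rfl⟩, h⟩ := h
  rintro (h' | h' | ⟨⟨r, h'⟩, -⟩)
  · rw [h'] at h; norm_num at h
  · rw [h'] at h; norm_num at h
  · exact irrational_sqrt_two ⟨q - r, by push_cast; linarith⟩

theorem Term.abs_le {x : ℝ} (h : Term x) : |x| ≤ 2 := by
  rcases h with rfl | rfl | h
  exacts [by norm_num, by norm_num, h.2.le]

theorem exists_cont {x y : ℝ} (h : x < y) (hx : |x| ≤ 2) (hy : |y| ≤ 2) :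
    ∃ z, x < z ∧ z < y ∧ Cont z := by
  obtain ⟨q, h₁, h₂⟩ := exists_rat_btwn h
  rw [abs_le] at hx hy
  exact ⟨q, h₁, h₂, ⟨q, rfl⟩, abs_lt.2 ⟨by linarith, by linarith⟩⟩

theorem exists_term {x y : ℝ} (h : x < y) (hx : |x| ≤ 2) (hy : |y| ≤ 2) :
    ∃ z, x < z ∧ z < y ∧ Term z := by
  obtain ⟨q, h₁, h₂⟩ := exists_rat_btwn (sub_lt_sub_right h √2)
  rw [abs_le] at hx hy
  exact ⟨q + √2, by linarith, by linarith,
    Or.inr (Or.inr ⟨⟨q, rfl⟩, abs_lt.2 ⟨by linarith, by linarith⟩⟩)⟩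

theorem mag_pos (γ fl ξ) : (0 : ℝ) < mag γ fl ξ := by
  unfold mag; positivity

theorem abs_can (γ l fl ξ) : |can γ l fl ξ| = 1 / (mag γ fl ξ : ℝ) := by
  unfold can
  rw [abs_div, abs_of_pos (mag_pos γ fl ξ)]
  split_ifs <;> simp

theorem cont_can (γ l fl ξ) : Cont (can γ l fl ξ) := by
  refine ⟨⟨(if sg l ξ = true then 1 else -1) / (mag γ fl ξ : ℚ), ?_⟩, ?_⟩
  · unfold can; split_ifs <;> simp
  · rw [abs_can, div_lt_iff₀ (mag_pos γ fl ξ)]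
    have : (1 : ℝ) ≤ mag γ fl ξ := by
      have : 1 ≤ mag γ fl ξ := by unfold mag; omega
      exact_mod_cast this
    linarith

theorem Fm.down {γ h : Om} {fl : Bool} {t : Om → ℝ} (H : Fm h fl t) (hγ : γ < h) :
    Fm γ false t := by
  obtain ⟨l, H⟩ := H
  refine ⟨l, ((H.union (co_coh hγ.le)).union (lad_fin hγ)).subset ?_⟩
  rintro ξ ⟨h₁, h₂⟩
  by_contra hc
  simp only [mem_union, mem_ofPred_eq, h₁, h₁.trans hγ, true_and, not_or, not_not] at hc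
  apply h₂
  rw [hc.1.1]
  simp [can, mag, hc.1.2, hc.2]

theorem Fm.congr {γ : Om} {fl : Bool} {t u : Om → ℝ} (H : Fm γ fl t) (e : ∀ ξ < γ, t ξ = u ξ) :
    Fm γ fl u := by
  obtain ⟨l, H⟩ := H
  exact ⟨l, H.subset fun ξ hξ => ⟨hξ.1, e ξ hξ.1 ▸ hξ.2⟩⟩

theorem Fm.not_both {γ : Om} {t : Om → ℝ} (hγ : Lim γ) (H : Fm γ true t) : ¬ Fm γ false t := by
  obtain ⟨l, H⟩ := H
  rintro ⟨l', H'⟩
  refine lad_inf hγ ((H.union H').subset fun ξ hξ => ?_)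
  by_contra hc
  simp only [mem_union, mem_ofPred_eq, hξ.1, true_and, not_or, not_not] at hc
  have := congrArg abs (hc.1.symm.trans hc.2)
  rw [abs_can, abs_can, one_div, one_div, inv_inj, Nat.cast_inj] at this
  simp [mag, hξ] at this

theorem Fm.fin {γ : Om} {fl : Bool} {t : Om → ℝ} (H : Fm γ fl t) (x : ℝ) :
    {ξ | ξ < γ ∧ t ξ = x}.Finite := by
  obtain ⟨l, H⟩ := H
  refine (H.union (co_fin γ ⌈1 / |x|⌉₊)).subset ?_
  rintro ξ ⟨h₁, rfl⟩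
  by_cases h : t ξ = can γ l fl ξ
  · refine Or.inr ⟨h₁, ?_⟩
    rw [h, abs_can, one_div_one_div, Nat.ceil_natCast]
    unfold mag; omega
  · exact Or.inl ⟨h₁, h⟩

/-- The target line. -/
def U : Type := {t : Lex (Om → ℝ) // ∃ h, IsU (ofLex t) h}

noncomputable instance : LinearOrder U :=
  inferInstanceAs (LinearOrder {t : Lex (Om → ℝ) // ∃ h, IsU (ofLex t) h})

namespace U

def val (t : U) : Om → ℝ := ofLex t.1

noncomputable def ht (t : U) : Om := t.2.choose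

theorem spec (t : U) : IsU t.val t.ht := t.2.choose_spec

theorem ext {t u : U} (h : ∀ ξ, t.val ξ = u.val ξ) : t = u := Subtype.ext (funext h)

theorem lt_iff {t u : U} : t < u ↔ ∃ ξ, (∀ η < ξ, t.val η = u.val η) ∧ t.val ξ < u.val ξ :=
  Iff.rfl

theorem ht_eq {t : U} {h : Om} (H : IsU t.val h) : t.ht = h := by
  rcases lt_trichotomy t.ht h with h' | h' | h'
  · exact absurd t.spec.2.1 (H.1 _ h').not_term
  · exact h'
  · exact absurd H.2.1 (t.spec.1 _ h').not_term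

def ag (γ : Om) (t u : U) : Prop := ∀ ξ < γ, t.val ξ = u.val ξ

theorem ag.refl (γ : Om) (t : U) : ag γ t t := fun _ _ => rfl
theorem ag.symm {γ : Om} {t u : U} (h : ag γ t u) : ag γ u t := fun ξ hξ => (h ξ hξ).symm
theorem ag.trans {γ : Om} {t u v : U} (h : ag γ t u) (h' : ag γ u v) : ag γ t v :=
  fun ξ hξ => (h ξ hξ).trans (h' ξ hξ)
theorem ag.mono {γ γ' : Om} {t u : U} (h : ag γ t u) (h' : γ' ≤ γ) : ag γ' t u :=
  fun ξ hξ => h ξ (hξ.trans_le h')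
theorem ag_bot (t u : U) : ag ⊥ t u := fun _ h => absurd h not_lt_bot

theorem ag_lim {δ : Om} (hδ : Lim δ) {t u : U} (h : ∀ γ < δ, ag γ t u) : ag δ t u := by
  intro ξ hξ
  obtain ⟨γ, h₁, h₂⟩ := hδ.2 ξ hξ
  exact h γ h₂ ξ h₁

theorem alone {γ : Om} {t u : U} (h : ag γ t u) (ht : t.ht < γ) : t = u := by
  have e : u.ht = t.ht := by
    rcases lt_trichotomy u.ht t.ht with h' | h' | h'
    · exact absurd u.spec.2.1 (h _ (h'.trans ht) ▸ t.spec.1 _ h').not_term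
    · exact h'
    · exact absurd t.spec.2.1 (h _ ht ▸ u.spec.1 _ h').not_term
  refine ext fun ξ => ?_
  rcases le_or_gt ξ t.ht with h' | h'
  · exact h ξ (h'.trans_lt ht)
  · rw [t.spec.2.2.1 ξ h', u.spec.2.2.1 ξ (e ▸ h')]

theorem lt_below {γ : Om} {t u : U} (h : t < u) (h' : ¬ ag γ t u) :
    ∃ ξ < γ, (∀ η < ξ, t.val η = u.val η) ∧ t.val ξ < u.val ξ := by
  obtain ⟨ξ, h₁, h₂⟩ := lt_iff.1 h
  refine ⟨ξ, ?_, h₁, h₂⟩
  by_contra hc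
  exact h' fun η hη => h₁ η (hη.trans_le (not_lt.1 hc))

theorem lt_of_ag {γ : Om} {t u t' u' : U} (h : t < u) (h' : ¬ ag γ t u) (ht : ag γ t t')
    (hu : ag γ u u') : t' < u' := by
  obtain ⟨ξ, h₀, h₁, h₂⟩ := lt_below h h'
  refine lt_iff.2 ⟨ξ, fun η hη => ?_, ?_⟩
  · rw [← ht η (hη.trans h₀), ← hu η (hη.trans h₀), h₁ η hη]
  · rwa [← ht ξ h₀, ← hu ξ h₀]

theorem convex {γ : Om} {t u v : U} (h₁ : t ≤ u) (h₂ : u ≤ v) (h : ag γ t v) : ag γ t u := by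
  by_contra hc
  rcases h₁.eq_or_lt with rfl | h₁
  · exact hc (ag.refl _ _)
  · exact (lt_of_ag h₁ hc h (ag.refl _ _)).not_ge h₂

theorem reg {γ : Om} {t : U} (h : γ < t.ht) : Fm γ false t.val :=
  t.spec.2.2.2.elim (fun H => H.down h) fun H => H.1.down h

theorem abs_le {ξ : Om} {t : U} (h : ξ ≤ t.ht) : |t.val ξ| ≤ 2 := by
  rcases h.eq_or_lt with rfl | h
  · exact t.spec.2.1.abs_le
  · exact (t.spec.1 ξ h).2.le

open Classical in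
/-- Cut a function at a level and put a terminal value. -/
noncomputable def cut (f : Om → ℝ) (γ : Om) (x : ℝ) : Om → ℝ :=
  fun ξ => if ξ < γ then f ξ else if ξ = γ then x else 0

theorem cut_lt {f : Om → ℝ} {γ ξ : Om} {x : ℝ} (h : ξ < γ) : cut f γ x ξ = f ξ := by simp [cut, h]
theorem cut_self {f : Om → ℝ} {γ : Om} {x : ℝ} : cut f γ x γ = x := by simp [cut]

theorem exists_cut {f : Om → ℝ} {γ : Om} {x : ℝ} (h₁ : ∀ ξ < γ, Cont (f ξ)) (h₂ : Term x)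
    (h₃ : Fm γ false f ∨ (Fm γ true f ∧ x = -2)) :
    ∃ w : U, w.ht = γ ∧ (∀ ξ < γ, w.val ξ = f ξ) ∧ w.val γ = x := by
  have H : IsU (cut f γ x) γ := by
    refine ⟨fun ξ hξ => by rw [cut_lt hξ]; exact h₁ ξ hξ, by rwa [cut_self],
      fun ξ hξ => by simp [cut, hξ.ne', hξ.le], ?_⟩
    exact h₃.imp (fun H => H.congr fun ξ hξ => (cut_lt hξ).symm)
      fun H => ⟨H.1.congr fun ξ hξ => (cut_lt hξ).symm, cut_self.trans H.2⟩
  exact ⟨⟨toLex (cut f γ x), γ, H⟩, ht_eq H, fun ξ hξ => cut_lt hξ, cut_self⟩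

theorem le_ht {γ : Om} {t u : U} (h : ag γ t u) (ht : γ ≤ t.ht) : γ ≤ u.ht := by
  by_contra hc
  rw [not_le] at hc
  obtain rfl := alone h.symm hc
  exact hc.not_ge ht

theorem eq_of_ht {γ : Om} {t u : U} (h : ag γ t u) (ht : t.ht = γ) (e : t.val γ = u.val γ) :
    t = u := by
  obtain ⟨γ', h₁, h₂⟩ : ∃ γ', γ < γ' ∧ ∀ ξ < γ', ξ ≤ γ := by
    obtain ⟨γ', h₁, h₂⟩ := (wellFounded_lt (α := Om)).has_min {x | γ < x} (exists_gt γ)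
    exact ⟨γ', h₁, fun ξ hξ => not_lt.1 fun h => h₂ ξ h hξ⟩
  refine alone (γ := γ') (fun ξ hξ => ?_) (ht ▸ h₁)
  rcases (h₂ ξ hξ).eq_or_lt with rfl | h'
  exacts [e, h ξ h']

theorem single {γ : Om} {t u : U} (ht : γ ≤ t.ht) (h : ¬ Fm γ false t.val) (e : ag γ t u) :
    t = u := by
  have key : ∀ v : U, γ ≤ v.ht → ¬ Fm γ false v.val → v.ht = γ ∧ v.val γ = -2 := by
    intro v hv h
    rcases hv.eq_or_lt with rfl | hv
    · exact ⟨rfl, (v.spec.2.2.2.resolve_left h).2⟩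
    · exact absurd (reg hv) h
  obtain ⟨h₁, h₂⟩ := key t ht h
  obtain ⟨-, h₄⟩ := key u (le_ht e ht) fun H => h (H.congr e.symm)
  exact eq_of_ht e h₁ (h₂.trans h₄.symm)

/-- Every node has a least and a greatest element, of small height. -/
theorem minmax (γ : Om) (t : U) : ∃ m m' : U, ag γ m t ∧ ag γ m' t ∧ m.ht ≤ γ ∧ m'.ht ≤ γ ∧
    ∀ u, ag γ u t → m ≤ u ∧ u ≤ m' := by
  rcases lt_or_ge t.ht γ with h | h
  · exact ⟨t, t, ag.refl _ _, ag.refl _ _, h.le, h.le, fun u hu => by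
      rw [alone hu.symm h]; exact ⟨le_rfl, le_rfl⟩⟩
  by_cases hF : Fm γ false t.val
  · have hc : ∀ ξ < γ, Cont (t.val ξ) := fun ξ hξ => t.spec.1 ξ (hξ.trans_le h)
    obtain ⟨m, h₁, h₂, h₃⟩ := exists_cut hc (Or.inl rfl) (Or.inl hF)
    obtain ⟨m', h₁', h₂', h₃'⟩ := exists_cut hc (Or.inr (Or.inl rfl)) (Or.inl hF)
    refine ⟨m, m', h₂, h₂', h₁.le, h₁'.le, fun u hu => ?_⟩
    have hb := _root_.abs_le.1 (abs_le (le_ht hu.symm h))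
    have e : ag γ m u := ag.trans h₂ hu.symm
    have e' : ag γ m' u := ag.trans h₂' hu.symm
    constructor
    · rcases hb.1.eq_or_lt with h' | h'
      · exact (eq_of_ht e h₁ (h₃.trans h')).le
      · exact (lt_iff.2 ⟨γ, e, h₃ ▸ h'⟩).le
    · rcases hb.2.eq_or_lt with h' | h'
      · exact (eq_of_ht e' h₁' (h₃'.trans h'.symm)).ge
      · exact (lt_iff.2 ⟨γ, e'.symm, h₃' ▸ h'⟩).le
  · have hh : t.ht ≤ γ := not_lt.1 fun h' => hF (reg h')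
    exact ⟨t, t, ag.refl _ _, ag.refl _ _, hh, hh, fun u hu => by
      rw [single h hF hu.symm]; exact ⟨le_rfl, le_rfl⟩⟩

theorem split_data {t u : U} {ξ : Om} (h₁ : ∀ η < ξ, t.val η = u.val η) (h₂ : t.val ξ < u.val ξ) :
    (∀ η < ξ, Cont (t.val η)) ∧ Fm ξ false t.val ∧ |t.val ξ| ≤ 2 ∧ |u.val ξ| ≤ 2 := by
  have hne : t ≠ u := fun e => by rw [e] at h₂; exact lt_irrefl _ h₂
  have ht : ξ ≤ t.ht := not_lt.1 fun h => hne (alone h₁ h)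
  refine ⟨fun η hη => t.spec.1 η (hη.trans_le ht), ?_, abs_le ht, abs_le (le_ht h₁ ht)⟩
  by_contra hc
  exact hne (single ht hc h₁)

theorem exists_btwn {γ : Om} {t u : U} (h : t < u) (h' : ¬ ag γ t u) :
    ∃ w, t < w ∧ w < u ∧ w.ht < γ := by
  obtain ⟨ξ, h₀, h₁, h₂⟩ := lt_below h h'
  obtain ⟨a, b, c, d⟩ := split_data h₁ h₂
  obtain ⟨x, hx₁, hx₂, hx⟩ := exists_term h₂ c d
  obtain ⟨w, e₁, e₂, e₃⟩ := exists_cut a hx (Or.inl b)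
  exact ⟨w, lt_iff.2 ⟨ξ, fun η hη => (e₂ η hη).symm, e₃ ▸ hx₁⟩,
    lt_iff.2 ⟨ξ, fun η hη => (e₂ η hη).trans (h₁ η hη), e₃ ▸ hx₂⟩, e₁ ▸ h₀⟩

def Opp (β γ : Om) (x y : U) : Prop := ∀ ξ, β ≤ ξ → ξ < γ → y.val ξ = - x.val ξ

theorem Opp.mono {β γ γ' : Om} {x y : U} (h : Opp β γ x y) (h' : γ' ≤ γ) : Opp β γ' x y :=
  fun ξ h₁ h₂ => h ξ h₁ (h₂.trans_le h')

theorem Opp.lt {β γ : Om} {x y x' y' : U} (h : ag β x y) (h' : ag β x' y') (hx : Opp β γ x x')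
    (hy : Opp β γ y y') (hn : ¬ ag γ x y) (hl : x < y) : y' < x' := by
  obtain ⟨ξ, h₀, h₁, h₂⟩ := lt_below hl hn
  have hβ : β ≤ ξ := not_lt.1 fun hc => h₂.ne (h ξ hc)
  refine lt_iff.2 ⟨ξ, fun η hη => ?_, ?_⟩
  · rcases lt_or_ge η β with h₃ | h₃
    · exact (h' η h₃).symm
    · rw [hx η h₃ (hη.trans h₀), hy η h₃ (hη.trans h₀), h₁ η hη]
  · rw [hx ξ hβ h₀, hy ξ hβ h₀]; linarith

theorem exists_opp {δ : Om} (hδ : Lim δ) {u u' : U} (h : u < u') (h' : ¬ ag δ u u') (fl : Bool) :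
    ∃ (t : Bool → U) (β : Om), β < δ ∧ Opp β δ (t true) (t false) ∧ ∀ ε, u < t ε ∧ t ε < u' ∧
      ¬ ag δ u (t ε) ∧ ¬ ag δ (t ε) u' ∧ (t ε).ht = δ ∧
      (fl = true ↔ ∀ v, ag δ v (t ε) → v = t ε) := by
  classical
  obtain ⟨ξ, h₀, h₁, h₂⟩ := lt_below h h'
  obtain ⟨a, ⟨l, b⟩, c, d⟩ := split_data h₁ h₂
  obtain ⟨x, hx₁, hx₂, hx⟩ := exists_cont h₂ c d
  obtain ⟨β, hβ₁, hβ₂⟩ := hδ.2 ξ h₀
  let f : Bool → Om → ℝ := fun ε η =>
    if η < ξ then u.val η else if η = ξ then x else can δ ((ξ, ε) :: l) fl η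
  have hc : ∀ ε, ∀ η < δ, Cont (f ε η) := by
    intro ε η _
    simp only [f]
    split_ifs with h₃ h₄
    exacts [a η h₃, hx, cont_can _ _ _ _]
  have hF : ∀ ε, Fm δ fl (f ε) := by
    intro ε
    refine ⟨(ξ, ε) :: l, (((b.union (co_coh h₀.le)).union (lad_fin h₀)).insert ξ).subset ?_⟩
    rintro η ⟨-, h₄⟩
    by_contra hn
    simp only [mem_insert_iff, mem_union, mem_ofPred_eq, not_or, not_and, not_not] at hn
    apply h₄
    simp only [f]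
    split_ifs with h₅ h₆
    · rw [hn.2.1.1 h₅]
      simp [can, mag, sg, hn.2.1.2 h₅, hn.2.2 h₅, h₅.not_ge]
    · exact absurd h₆ hn.1
    · rfl
  have hF' : ∀ ε, Fm δ false (f ε) ∨ (Fm δ true (f ε) ∧ (-2 : ℝ) = -2) := by
    intro ε
    cases fl
    exacts [Or.inl (hF ε), Or.inr ⟨hF ε, rfl⟩]
  choose t e₁ e₂ e₃ using fun ε => exists_cut (hc ε) (Or.inl rfl) (hF' ε)
  have lo : ∀ ε, ∀ η < ξ, (t ε).val η = u.val η := fun ε η hη => by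
    rw [e₂ ε η (hη.trans h₀)]; simp [f, hη]
  have mid : ∀ ε, (t ε).val ξ = x := fun ε => by rw [e₂ ε ξ h₀]; simp [f]
  refine ⟨t, β, hβ₂, fun η h₃ h₄ => ?_, fun ε => ⟨?_, ?_, fun H => ?_, fun H => ?_,
    e₁ ε, ?_⟩⟩
  · have : ξ < η := hβ₁.trans_le h₃
    rw [e₂ _ η h₄, e₂ _ η h₄]
    simp [f, this.not_gt, this.ne', can, sg, this.le, neg_div]
  · exact lt_iff.2 ⟨ξ, fun η hη => (lo ε η hη).symm, mid ε ▸ hx₁⟩
  · exact lt_iff.2 ⟨ξ, fun η hη => (lo ε η hη).trans (h₁ η hη), mid ε ▸ hx₂⟩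
  · exact hx₁.ne ((H ξ h₀).trans (mid ε))
  · exact hx₂.ne ((mid ε).symm.trans (H ξ h₀))
  · cases fl
    · refine iff_of_false (by simp) fun H => ?_
      obtain ⟨v, -, e₂', e₃'⟩ := exists_cut (hc ε) (Or.inr (Or.inl rfl)) (Or.inl (hF ε))
      have := H v fun η hη => (e₂' η hη).trans (e₂ ε η hη).symm
      rw [this, e₃] at e₃'
      norm_num at e₃'
    · refine iff_of_true rfl fun v hv => (single (e₁ ε).ge (fun H => ?_) hv.symm).symm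
      exact (hF ε).not_both hδ (H.congr (e₂ ε))

theorem col_fin (t : U) (x : ℝ) : {ξ | ξ < t.ht ∧ t.val ξ = x}.Finite :=
  t.spec.2.2.2.elim (fun H => H.fin x) fun H => H.1.fin x

theorem sg_filter (γ : Om) (l : List (Om × Bool)) : ∃ l' : List (Iio γ × Bool),
    ∀ ξ < γ, sg (l'.map fun e => (e.1.1, e.2)) ξ = sg l ξ := by
  induction l with
  | nil => exact ⟨[], fun _ _ => rfl⟩
  | cons e l ih =>
    obtain ⟨l', H⟩ := ih
    by_cases h : e.1 < γ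
    · exact ⟨(⟨e.1, h⟩, e.2) :: l', fun ξ hξ => by simp [sg, H ξ hξ]⟩
    · exact ⟨l', fun ξ hξ => by simp [sg, H ξ hξ, (hξ.trans_le (not_lt.1 h)).not_ge]⟩

theorem cnt_ht_eq (γ : Om) : {t : U | t.ht = γ}.Countable := by
  have := (cnt_Iio γ).to_subtype
  let A : Set ℝ := range (fun q : ℚ => (q : ℝ)) ∪ range (fun q : ℚ => q + √2)
  have hA : A.Countable := (countable_range _).union (countable_range _)
  have h₁ : ∀ (l : List (Iio γ × Bool)) (fl : Bool), {t : U | t.ht = γ ∧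
      {ξ | ξ < γ ∧ t.val ξ ≠ can γ (l.map fun e => (e.1.1, e.2)) fl ξ}.Finite}.Countable := by
    intro l fl
    let c := can γ (l.map fun e => (e.1.1, e.2)) fl
    refine MapsTo.countable_of_injOn
      (f := fun t : U => {p : Om × ℝ | p.2 = t.val p.1 ∧ (p.1 = γ ∨ (p.1 < γ ∧ p.2 ≠ c p.1))})
      ?_ ?_ (countable_ofPred_finite_subset ((cnt_Iic γ).prod hA))
    · rintro t ⟨h₁, h₂⟩
      refine ⟨((h₂.insert γ).image fun ξ => (ξ, t.val ξ)).subset ?_, ?_⟩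
      · rintro ⟨ξ, x⟩ ⟨e, h⟩
        obtain rfl : x = t.val ξ := e
        exact ⟨ξ, h, rfl⟩
      · rintro ⟨ξ, x⟩ ⟨e, h⟩
        obtain rfl : x = t.val ξ := e
        rcases h with rfl | h
        · refine ⟨mem_Iic.2 le_rfl, ?_⟩
          rcases h₁ ▸ t.spec.2.1 with h | h | ⟨⟨q, h⟩, -⟩
          · exact Or.inl ⟨-2, by simp [h]⟩
          · exact Or.inl ⟨2, by simp [h]⟩
          · exact Or.inr ⟨q, h.symm⟩
        · obtain ⟨⟨q, hq⟩, -⟩ := t.spec.1 ξ (h₁ ▸ h.1)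
          exact ⟨h.1.le, Or.inl ⟨q, hq.symm⟩⟩
    · rintro t ⟨h₁, -⟩ u ⟨-, -⟩ e
      have e' := fun p => Set.ext_iff.1 e p
      refine eq_of_ht (γ := γ) (fun ξ hξ => ?_) h₁ ((e' (γ, t.val γ)).1 ⟨rfl, Or.inl rfl⟩).1
      by_cases ht : t.val ξ = c ξ
      · by_cases hu : u.val ξ = c ξ
        · exact ht.trans hu.symm
        · exact ((e' (ξ, u.val ξ)).2 ⟨rfl, Or.inr ⟨hξ, hu⟩⟩).1.symm
      · exact ((e' (ξ, t.val ξ)).1 ⟨rfl, Or.inr ⟨hξ, ht⟩⟩).1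
  refine (countable_iUnion fun l => countable_iUnion fun fl => h₁ l fl).mono fun t ht => ?_
  obtain ⟨fl, l, H⟩ : ∃ fl, Fm γ fl t.val :=
    (ht ▸ t.spec.2.2.2).elim (fun H => ⟨_, H⟩) fun H => ⟨_, H.1⟩
  obtain ⟨l', hl⟩ := sg_filter γ l
  refine mem_iUnion.2 ⟨l', mem_iUnion.2 ⟨fl, ht, H.subset fun ξ hξ => ⟨hξ.1, ?_⟩⟩⟩
  have := hξ.2
  unfold can at this ⊢
  rwa [hl ξ hξ.1] at this

theorem cnt_ht (γ : Om) : {t : U | t.ht ≤ γ}.Countable :=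
  ((cnt_Iic γ).biUnion fun a _ => cnt_ht_eq a).mono fun t ht =>
    mem_biUnion (t := fun a => {t : U | t.ht = a}) (show t.ht ∈ Iic γ from ht) rfl

theorem exists_ht (γ : Om) : ∃ t u : U, t.ht = γ ∧ u.ht = γ ∧ t < u := by
  have hF : Fm γ false (can γ [] false) := ⟨[], by simp⟩
  obtain ⟨m, h₁, h₂, h₃⟩ := exists_cut (fun ξ _ => cont_can γ [] false ξ) (Or.inl rfl) (Or.inl hF)
  obtain ⟨m', h₁', h₂', h₃'⟩ := exists_cut (fun ξ _ => cont_can γ [] false ξ)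
    (Or.inr (Or.inl rfl)) (Or.inl hF)
  exact ⟨m, m', h₁, h₁', lt_iff.2 ⟨γ, fun ξ hξ => (h₂ ξ hξ).trans (h₂' ξ hξ).symm,
    by rw [h₃, h₃']; norm_num⟩⟩

instance : Nonempty U := ⟨(exists_ht ⊥).choose⟩

theorem mk_U : Cardinal.mk U = Cardinal.mk Om := by
  refine le_antisymm ?_ ?_
  · have : (univ : Set U) = ⋃ γ : Om, {t : U | t.ht = γ} := by ext t; simp
    rw [← Cardinal.mk_univ, this]
    refine (Cardinal.mk_iUnion_le _).trans ?_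
    have h : ⨆ γ : Om, Cardinal.mk {t : U | t.ht = γ} ≤ Cardinal.aleph0 :=
      ciSup_le' fun γ => Cardinal.le_aleph0_iff_set_countable.2 (cnt_ht_eq γ)
    refine (mul_le_mul_right h _).trans ?_
    rw [mk_Om, Cardinal.mul_aleph0_eq Cardinal.aleph0_lt_aleph_one.le]
  · choose f g h₁ _ _ using exists_ht
    exact Cardinal.mk_le_of_injective (f := f) fun a b e => by rw [← h₁ a, e, h₁]

end U

noncomputable def eU : Om ≃ U := (Cardinal.eq.1 U.mk_U.symm).some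

end Pool.Agent.MP_656653_lc

end

section

/-! Coding of objects by sets, closed sets, and the filter of large closure families. -/

namespace Pool.Agent.MP_656653_lc

open Set Filter

abbrev V := ZFSet.{0}

class Code (α : Type*) where
  enc : α → V
  inj : Function.Injective enc

export Code (enc)

section
variable {α β γ : Type*}

instance : Code V := ⟨id, Function.injective_id⟩

instance [Code α] [Code β] : Code (α × β) :=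
  ⟨fun p => ZFSet.pair (enc p.1) (enc p.2), fun a b h => by
    have := ZFSet.pair_inj.1 h
    exact Prod.ext (Code.inj this.1) (Code.inj this.2)⟩

theorem pair_ne_empty (a b : V) : ZFSet.pair a b ≠ ∅ := by
  intro h
  have : ({a} : V) ∈ ZFSet.pair a b := by simp [ZFSet.pair]
  rw [h] at this
  exact ZFSet.notMem_empty _ this

def encL [Code α] : List α → V
  | [] => ∅
  | a :: l => ZFSet.pair (enc a) (encL l)

theorem encL_inj [Code α] : Function.Injective (encL : List α → V) := by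
  intro l
  induction l with
  | nil => intro l' h; cases l' with
    | nil => rfl
    | cons b l' => exact absurd h.symm (pair_ne_empty _ _)
  | cons a l ih => intro l' h; cases l' with
    | nil => exact absurd h (pair_ne_empty _ _)
    | cons b l' =>
      have := ZFSet.pair_inj.1 h
      rw [Code.inj this.1, ih this.2]

instance [Code α] : Code (List α) := ⟨encL, encL_inj⟩

noncomputable instance [Code α] : Code (Finset α) :=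
  ⟨fun s => ZFSet.range (fun x : s => enc x.1), fun s t h => by
    have key : ∀ s t : Finset α, ZFSet.range (fun x : s => enc x.1) =
        ZFSet.range (fun x : t => enc x.1) → s ⊆ t := by
      intro s t h a ha
      have : enc a ∈ ZFSet.range (fun x : s => enc x.1) := ZFSet.mem_range.2 ⟨⟨a, ha⟩, rfl⟩
      rw [h] at this
      obtain ⟨b, hb⟩ := ZFSet.mem_range.1 this
      exact Code.inj hb ▸ b.2
    exact (key s t h).antisymm (key t s h.symm)⟩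

theorem mem_enc_finset [Code α] {s : Finset α} {z : V} : z ∈ enc s ↔ ∃ a ∈ s, enc a = z := by
  simp [enc, ZFSet.mem_range]

@[reducible] def Code.ofInj [Code β] (f : α → β) (h : Function.Injective f) : Code α :=
  ⟨fun a => enc (f a), Code.inj.comp h⟩

instance : Code ℕ := Code.ofInj (fun n => List.replicate n (∅ : V)) (List.replicate_left_injective _)

instance : Code Bool := Code.ofInj Bool.toNat (by decide)

@[reducible] noncomputable def Code.ofType (α : Type) : Code α :=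
  ⟨fun a => Ordinal.toZFSet (Ordinal.typein WellOrderingRel a), fun _ _ h =>
    (Ordinal.typein WellOrderingRel).injective (Ordinal.toZFSet_injective h)⟩

noncomputable instance : Code Om := Code.ofType _
noncomputable instance : Code U := Code.ofType _

def has [Code α] (K : Set V) (a : α) : Prop := enc a ∈ K

noncomputable def allc (α : Type*) [Code α] [Small.{0} α] : V := ZFSet.range (enc : α → V)

theorem mem_allc [Code α] [Small.{0} α] {z : V} : z ∈ allc α ↔ ∃ a : α, enc a = z :=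
  ZFSet.mem_range

theorem enc_mem_allc [Code α] [Small.{0} α] (a : α) : enc a ∈ allc α := mem_allc.2 ⟨a, rfl⟩

open Classical in
noncomputable def eps (x : V) : V := if h : ∃ y, y ∈ x then h.choose else ∅

theorem eps_mem {x y : V} (h : y ∈ x) : eps x ∈ x := by
  unfold eps
  rw [dif_pos ⟨y, h⟩]
  exact Exists.choose_spec (⟨y, h⟩ : ∃ y, y ∈ x)

abbrev Dp := V × (V → V → Prop)

structure Cl (D : Set Dp) (K : Set V) : Prop where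
  emp : ∅ ∈ K
  ins : ∀ {a x : V}, a ∈ K → x ∈ K → insert a x ∈ K
  uni : ∀ {x : V}, x ∈ K → x.sUnion ∈ K
  int : ∀ {x y : V}, x ∈ K → y ∈ K → x ∩ y ∈ K
  prod : ∀ {x y : V}, x ∈ K → y ∈ K → x.prod y ∈ K
  const : ∀ d ∈ D, d.1 ∈ K
  sep : ∀ d ∈ D, ∀ {a x : V}, a ∈ K → x ∈ K → x.sep (d.2 a) ∈ K
  eps : ∀ {x : V}, x ∈ K → eps x ∈ K
  cnt : ∀ {x : V}, x ∈ K → (x : Set V).Countable → ∀ {y}, y ∈ x → y ∈ K

namespace Cl

variable {D D' : Set Dp} {K K' : Set V}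

theorem mono (h : Cl D K) (h' : D' ⊆ D) : Cl D' K :=
  ⟨h.emp, h.ins, h.uni, h.int, h.prod, fun d hd => h.const d (h' hd),
    fun d hd => h.sep d (h' hd), h.eps, h.cnt⟩

theorem inter (h : Cl D K) (h' : Cl D K') : Cl D (K ∩ K') :=
  ⟨⟨h.emp, h'.emp⟩, fun a x => ⟨h.ins a.1 x.1, h'.ins a.2 x.2⟩, fun x => ⟨h.uni x.1, h'.uni x.2⟩,
    fun a x => ⟨h.int a.1 x.1, h'.int a.2 x.2⟩, fun a x => ⟨h.prod a.1 x.1, h'.prod a.2 x.2⟩,
    fun d hd => ⟨h.const d hd, h'.const d hd⟩,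
    fun d hd _ _ a x => ⟨h.sep d hd a.1 x.1, h'.sep d hd a.2 x.2⟩,
    fun x => ⟨h.eps x.1, h'.eps x.2⟩, fun x c _ y => ⟨h.cnt x.1 c y, h'.cnt x.2 c y⟩⟩

variable (h : Cl D K)
include h

theorem sing {a : V} (ha : a ∈ K) : ({a} : V) ∈ K := by
  have := h.ins ha h.emp
  rwa [LawfulSingleton.insert_empty_eq] at this

theorem pair_iff {a b : V} : ZFSet.pair a b ∈ K ↔ a ∈ K ∧ b ∈ K := by
  constructor
  · intro H
    have h₁ : ({a, b} : V) ∈ K := h.cnt H (by simp [ZFSet.pair]) (by simp [ZFSet.pair])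
    exact ⟨h.cnt h₁ (by simp) (by simp), h.cnt h₁ (by simp) (by simp)⟩
  · rintro ⟨ha, hb⟩
    exact h.ins (h.sing ha) (h.sing (h.ins ha (h.sing hb)))

theorem union {a b : V} (ha : a ∈ K) (hb : b ∈ K) : a ∪ b ∈ K := h.uni (h.ins ha (h.sing hb))

theorem has_pair [Code α] [Code β] {a : α} {b : β} : has K (a, b) ↔ has K a ∧ has K b :=
  h.pair_iff

theorem has_prod [Code α] [Code β] {a : α × β} : has K a ↔ has K a.1 ∧ has K a.2 :=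
  h.pair_iff

theorem has_list [Code α] {l : List α} : has K l ↔ ∀ a ∈ l, has K a := by
  induction l with
  | nil => exact iff_of_true h.emp (by simp)
  | cons a l ih =>
    rw [List.forall_mem_cons, ← ih]
    exact h.pair_iff

theorem has_finset [Code α] {s : Finset α} : has K s ↔ ∀ a ∈ s, has K a := by
  classical
  constructor
  · intro H a ha
    refine h.cnt H ?_ (mem_enc_finset.2 ⟨a, ha, rfl⟩)
    refine (s.countable_toSet.image enc).mono fun z hz => ?_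
    exact mem_enc_finset.1 hz
  · induction s using Finset.induction_on with
    | empty =>
      intro _
      have : enc (∅ : Finset α) = ∅ := by ext z; simp [mem_enc_finset]
      exact (show enc (∅ : Finset α) ∈ K from this ▸ h.emp)
    | insert a s _ ih =>
      intro H
      have : enc (insert a s) = insert (enc a) (enc s) := by
        ext z; simp [mem_enc_finset, eq_comm]
      unfold has
      rw [this]
      exact h.ins (H a (Finset.mem_insert_self _ _))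
        (ih fun b hb => H b (Finset.mem_insert_of_mem hb))

theorem has_nat (n : ℕ) : has K n :=
  (h.has_list (l := List.replicate n (∅ : V))).2 fun a ha => by
    rw [List.eq_of_mem_replicate ha]; exact h.emp

theorem has_bool (b : Bool) : has K b := h.has_nat _

theorem wit {x y : V} (hx : x ∈ K) (hy : y ∈ x) : ∃ z ∈ x, z ∈ K := ⟨_, eps_mem hy, h.eps hx⟩

end Cl

/-- Types all of whose elements lie in every closed set. -/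
class Alw (α : Type*) [Code α] : Prop where
  out : ∀ {D K}, Cl D K → ∀ a : α, has K a

instance : Alw ℕ := ⟨fun h => h.has_nat⟩
instance : Alw Bool := ⟨fun h => h.has_bool⟩
instance [Code α] [Alw α] : Alw (List α) := ⟨fun h _ => h.has_list.2 fun a _ => Alw.out h a⟩
instance [Code α] [Alw α] [Code β] [Alw β] : Alw (α × β) :=
  ⟨fun h _ => h.has_prod.2 ⟨Alw.out h _, Alw.out h _⟩⟩

theorem Cl.alw [Code α] [Alw α] {D K} (h : Cl D K) (a : α) : has K a := Alw.out h a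

def Fl : Filter (Set Dp) where
  sets := {S | ∃ D₀ : Set Dp, D₀.Countable ∧ ∀ D, D₀ ⊆ D → D ∈ S}
  univ_sets := ⟨∅, countable_empty, fun _ _ => trivial⟩
  sets_of_superset := fun ⟨D₀, h₁, h₂⟩ h => ⟨D₀, h₁, fun D hD => h (h₂ D hD)⟩
  inter_sets := fun ⟨D₀, h₁, h₂⟩ ⟨D₁, h₃, h₄⟩ => ⟨D₀ ∪ D₁, h₁.union h₃, fun D hD =>
    ⟨h₂ D (subset_union_left.trans hD), h₄ D (subset_union_right.trans hD)⟩⟩

theorem Fl.ex {p : Set Dp → Prop} (h : ∀ᶠ D in Fl, p D) : ∃ D, D.Countable ∧ p D := by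
  obtain ⟨D, h₁, h₂⟩ := h
  exact ⟨D, h₁, h₂ D subset_rfl⟩

theorem ev_sup {D₀ : Set Dp} (h : D₀.Countable) : ∀ᶠ D in Fl, D₀ ⊆ D := ⟨D₀, h, fun _ h => h⟩

theorem ev_const [Code α] (c : α) : ∀ᶠ D in Fl, ∀ K, Cl D K → has K c := by
  filter_upwards [ev_sup (countable_singleton (enc c, fun _ _ => True))] with D hD K h
  exact h.const _ (hD rfl)

theorem ev_sep [Code α] (φ : α → V → Prop) :
    ∀ᶠ D in Fl, ∀ K, Cl D K → ∀ a, has K a → ∀ x ∈ K, x.sep (φ a) ∈ K := by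
  filter_upwards [ev_sup (countable_singleton
    ((∅ : V), fun (a y : V) => ∃ a', enc a' = a ∧ φ a' y))] with D hD K h a ha x hx
  have := h.sep _ (hD rfl) ha hx
  convert this using 2
  ext y
  exact ⟨fun H => ⟨a, rfl, H⟩, fun ⟨a', e, H⟩ => Code.inj e ▸ H⟩

theorem ev_set [Code α] [Code β] (R : α → β → Prop) : ∀ᶠ D in Fl, ∀ K, Cl D K → ∀ a, has K a →
    ∀ B ∈ K, ∃ S ∈ K, S ⊆ B ∧ (∀ z ∈ S, ∃ y : β, enc y = z) ∧
      ∀ y, enc y ∈ S ↔ enc y ∈ B ∧ R a y := by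
  filter_upwards [ev_sep (fun a z => ∃ y, enc y = z ∧ R a y)] with D hD K h a ha B hB
  refine ⟨_, hD K h a ha B hB, ZFSet.sep_subset, fun z hz => ?_, fun y => ?_⟩
  · obtain ⟨y, e, -⟩ := (ZFSet.mem_sep.1 hz).2
    exact ⟨y, e⟩
  · rw [ZFSet.mem_sep]
    exact and_congr_right fun _ => ⟨fun ⟨y', e, H⟩ => Code.inj e ▸ H, fun H => ⟨y, rfl, H⟩⟩

theorem ev_wit [Code α] [Code β] (R : α → β → Prop) : ∀ᶠ D in Fl, ∀ K, Cl D K → ∀ a, has K a →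
    ∀ B ∈ K, (∃ y, enc y ∈ B ∧ R a y) → ∃ y, has K y ∧ enc y ∈ B ∧ R a y := by
  filter_upwards [ev_set R] with D hD K h a ha B hB ⟨y, hy⟩
  obtain ⟨S, h₁, -, h₃, h₄⟩ := hD K h a ha B hB
  obtain ⟨z, hz, hzK⟩ := h.wit h₁ ((h₄ y).2 hy)
  obtain ⟨y, rfl⟩ := h₃ z hz
  exact ⟨y, hzK, (h₄ y).1 hz⟩

theorem ev_wit_small [Code α] [Code β] [Small.{0} β] (R : α → β → Prop) :
    ∀ᶠ D in Fl, ∀ K, Cl D K → ∀ a, has K a → (∃ y, R a y) → ∃ y, has K y ∧ R a y := by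
  filter_upwards [ev_wit R, ev_const (allc β)] with D hD hc K h a ha ⟨y, hy⟩
  obtain ⟨y, h₁, -, h₂⟩ := hD K h a ha _ (hc K h) ⟨y, enc_mem_allc y, hy⟩
  exact ⟨y, h₁, h₂⟩

theorem ev_cnt [Code α] [Code β] [Small.{0} β] (R : α → β → Prop) :
    ∀ᶠ D in Fl, ∀ K, Cl D K → ∀ a, has K a → {y | R a y}.Countable → ∀ y, R a y → has K y := by
  filter_upwards [ev_set R, ev_const (allc β)] with D hD hc K h a ha hcnt y hy
  obtain ⟨S, h₁, -, h₃, h₄⟩ := hD K h a ha _ (hc K h)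
  refine h.cnt h₁ ((hcnt.image enc).mono fun z hz => ?_) ((h₄ y).2 ⟨enc_mem_allc y, hy⟩)
  obtain ⟨y, rfl⟩ := h₃ z hz
  exact ⟨y, ((h₄ y).1 hz).2, rfl⟩

/-- Functions under which closed sets are eventually closed. -/
class Cf [Code α] [Code β] (f : α → β) : Prop where
  out : ∀ᶠ D in Fl, ∀ K, Cl D K → ∀ a, has K a → has K (f a)

variable [Code α] [Code β] [Code γ]

instance : Cf (fun a : α => a) := ⟨Eventually.of_forall fun _ _ _ _ h => h⟩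

instance (c : β) : Cf (fun _ : α => c) :=
  ⟨by filter_upwards [ev_const c] with D hD K h _ _ using hD K h⟩

instance (f : α → β × γ) [h : Cf f] : Cf (fun a => (f a).1) :=
  ⟨by filter_upwards [h.out] with D hD K h a ha using (h.has_prod.1 (hD K h a ha)).1⟩

instance (f : α → β × γ) [h : Cf f] : Cf (fun a => (f a).2) :=
  ⟨by filter_upwards [h.out] with D hD K h a ha using (h.has_prod.1 (hD K h a ha)).2⟩

instance (f : α → β) (g : α → γ) [h : Cf f] [h' : Cf g] : Cf (fun a => (f a, g a)) :=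
  ⟨by filter_upwards [h.out, h'.out] with D hD hD' K h a ha using
    h.has_pair.2 ⟨hD K h a ha, hD' K h a ha⟩⟩

instance (priority := high) Cf.small [Small.{0} β] (f : α → β) : Cf f := ⟨by
  filter_upwards [ev_wit_small (fun a y => f a = y)] with D hD K h a ha
  obtain ⟨y, h₁, rfl⟩ := hD K h a ha ⟨_, rfl⟩
  exact h₁⟩

theorem Cf.comp (g : β → γ) (f : α → β) [h : Cf f] [h' : Cf g] : Cf (fun a => g (f a)) :=
  ⟨by filter_upwards [h.out, h'.out] with D hD hD' K h a ha using hD' K h _ (hD K h a ha)⟩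

theorem ev_cf (f : α → β) [h : Cf f] : ∀ᶠ D in Fl, ∀ K, Cl D K → ∀ a, has K a → has K (f a) :=
  h.out

end

/-! ### Hulls -/

theorem exists_closed {α : Type*} {ι : Type*} [Countable ι] (F : ι → α → α → α) (C : Set α)
    (hC : C.Countable) : ∃ K, C ⊆ K ∧ K.Countable ∧ ∀ i, ∀ a ∈ K, ∀ b ∈ K, F i a b ∈ K := by
  let S : ℕ → Set α := fun n => Nat.rec C (fun _ s => s ∪ ⋃ i, image2 (F i) s s) n
  have hS : Monotone S := monotone_nat_of_le_succ fun n => subset_union_left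
  refine ⟨⋃ n, S n, subset_iUnion S 0, countable_iUnion fun n => ?_, fun i a ha b hb => ?_⟩
  · induction n with
    | zero => exact hC
    | succ n ih => exact ih.union (countable_iUnion fun i => ih.image2 ih _)
  · obtain ⟨n, hn⟩ := mem_iUnion.1 ha
    obtain ⟨m, hm⟩ := mem_iUnion.1 hb
    exact mem_iUnion.2 ⟨max n m + 1, Or.inr (mem_iUnion.2 ⟨i,
      mem_image2_of_mem (hS (le_max_left _ _) hn) (hS (le_max_right _ _) hm)⟩)⟩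

open Classical in
noncomputable def nth (n : ℕ) (x : V) : V :=
  if h : ∃ f : ℕ → V, (x : Set V) = range f then h.choose n else ∅

/-- The closure operations. -/
noncomputable def cop (D : Set Dp) : Fin 6 ⊕ ℕ ⊕ D ⊕ D → V → V → V
  | .inl 0 => fun _ _ => ∅
  | .inl 1 => fun a x => insert a x
  | .inl 2 => fun _ x => x.sUnion
  | .inl 3 => fun a x => a ∩ x
  | .inl 4 => fun a x => a.prod x
  | .inl 5 => fun _ x => eps x
  | .inr (.inl n) => fun _ x => nth n x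
  | .inr (.inr (.inl d)) => fun _ _ => d.1.1
  | .inr (.inr (.inr d)) => fun a x => x.sep (d.1.2 a)

theorem cl_of_cop {D : Set Dp} {K : Set V} (h0 : ∅ ∈ K)
    (h : ∀ i, ∀ a ∈ K, ∀ b ∈ K, cop D i a b ∈ K) : Cl D K := by
  refine ⟨h0, fun a x => h (.inl 1) _ a _ x, fun x => h (.inl 2) _ x _ x,
    fun a x => h (.inl 3) _ a _ x, fun a x => h (.inl 4) _ a _ x,
    fun d hd => h (.inr (.inr (.inl ⟨d, hd⟩))) _ h0 _ h0,
    fun d hd _ _ a x => h (.inr (.inr (.inr ⟨d, hd⟩))) _ a _ x,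
    fun x => h (.inl 5) _ x _ x, fun {x} hx hc y hy => ?_⟩
  have h' : ∃ f : ℕ → V, (x : Set V) = range f := hc.exists_eq_range ⟨y, hy⟩
  obtain ⟨n, hn⟩ : y ∈ range h'.choose := h'.choose_spec ▸ hy
  have := h (.inr (.inl n)) _ hx _ hx
  simp only [cop, nth, dif_pos h'] at this
  exact hn ▸ this

theorem Cl.cop {D : Set Dp} {K : Set V} (h : Cl D K) : ∀ i, ∀ a ∈ K, ∀ b ∈ K, cop D i a b ∈ K
  | .inl 0, _, _, _, _ => h.emp
  | .inl 1, _, a, _, x => h.ins a x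
  | .inl 2, _, _, _, x => h.uni x
  | .inl 3, _, a, _, x => h.int a x
  | .inl 4, _, a, _, x => h.prod a x
  | .inl 5, _, _, _, x => h.eps x
  | .inr (.inl n), _, _, x, hx => by
    simp only [Pool.Agent.MP_656653_lc.cop, nth]
    split_ifs with h'
    · have e := h'.choose_spec
      refine h.cnt hx (e ▸ countable_range _) ?_
      change _ ∈ (x : Set V)
      conv_lhs => rw [e]
      exact mem_range_self _
    · exact h.emp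
  | .inr (.inr (.inl d)), _, _, _, _ => h.const _ d.2
  | .inr (.inr (.inr d)), _, a, _, x => h.sep _ d.2 a x

theorem exists_zf {S : Set V} (h : Small.{0} S) : ∃ x : V, (x : Set V) = S :=
  ⟨ZFSet.range (fun y : S => y.1), by ext z; simp⟩

theorem exists_hull {D : Set Dp} (hD : D.Countable) :
    ∃ N : V, (N : Set V).Countable ∧ Cl D N := by
  have := hD.to_subtype
  obtain ⟨K, h₁, h₂, h₃⟩ := exists_closed (cop D) {∅} (countable_singleton _)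
  have := h₂.to_subtype
  obtain ⟨N, rfl⟩ := exists_zf (S := K) inferInstance
  exact ⟨N, h₂, cl_of_cop (h₁ rfl) h₃⟩

/-! ### Heights of models -/

open Classical in
noncomputable def dl (N : Set V) : Om :=
  if h : ∃ a : Om, ¬ has N a then (wellFounded_lt (α := Om)).min {a | ¬ has N a} h else ⊥

theorem exists_not_has {N : Set V} (h : N.Countable) : ∃ a : Om, ¬ has N a := by
  by_contra hc
  push Not at hc
  exact Om_unc ((h.preimage_of_injOn (f := (enc : Om → V)) Code.inj.injOn).mono fun a _ => hc a)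

theorem dl_congr {N N' : Set V} (h : ∀ a : Om, has N a ↔ has N' a) : dl N = dl N' := by
  have e : (fun a : Om => has N a) = fun a => has N' a := funext fun a => propext (h a)
  let f : (Om → Prop) → Om := fun p => by
    classical exact if h : ∃ a : Om, ¬ p a then (wellFounded_lt (α := Om)).min {a | ¬ p a} h else ⊥
  exact congrArg f e

/-- The basic facts on ordinals and points of the target line in a closed set. -/
structure Bas (K : Set V) : Prop where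
  down : ∀ {a b : Om}, has K a → b ≤ a → has K b
  up : ∀ {a : Om}, has K a → ∃ b, has K b ∧ a < b
  bot : has K (⊥ : Om)
  ht : ∀ {t : U}, has K t ↔ has K t.ht
  hdl : ∀ {N : V}, N ∈ K → has K (dl N)

theorem ev_bas : ∀ᶠ D in Fl, ∀ K, Cl D K → Bas K := by
  filter_upwards [ev_cnt (fun a b : Om => b ≤ a), ev_wit_small (fun a b : Om => a < b),
    ev_const (⊥ : Om), ev_cf U.ht, ev_cnt (fun (a : Om) (t : U) => t.ht ≤ a),
    ev_cf (fun N : V => dl N)] with D h₁ h₂ h₃ h₄ h₅ h₆ K h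
  exact ⟨fun ha hb => h₁ K h _ ha (cnt_Iic _) _ hb, fun ha => h₂ K h _ ha (exists_gt _), h₃ K h,
    ⟨h₄ K h _, fun ht => h₅ K h _ ht (U.cnt_ht _) _ le_rfl⟩, fun hN => h₆ K h _ hN⟩

theorem Bas.has_iff {N : Set V} (h : Bas N) (hc : N.Countable) {a : Om} : has N a ↔ a < dl N := by
  have hn := exists_not_has hc
  unfold dl
  rw [dif_pos hn]
  constructor
  · intro ha
    by_contra h'
    exact (wellFounded_lt (α := Om)).min_mem {a | ¬ has N a} hn (h.down ha (not_lt.1 h'))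
  · intro ha
    by_contra h'
    exact (wellFounded_lt (α := Om)).not_lt_min {a | ¬ has N a} h' ha

end Pool.Agent.MP_656653_lc

end

section

/-! Generic filters over closed sets, simple names, definable properties. -/

namespace Pool.Agent.MP_656653_lc

open Set Filter

abbrev Pt := Om × U
abbrev X := List Pt × Om

structure Tag where
  W : V
  P : V
  nm : V
  dt : V
  bb : V
  k2 : Bool
  fl : Bool
  sA : V
  sF : V

instance : Code Tag :=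
  Code.ofInj (fun ν => (ν.W, ν.P, ν.nm, ν.dt, ν.bb, ν.k2, ν.fl, ν.sA, ν.sF)) (by
    rintro ⟨⟩ ⟨⟩ h
    simp only [Prod.mk.injEq] at h
    simp [h])

theorem Cl.has_tag {D K} (h : Cl D K) {ν : Tag} : has K ν ↔ ν.W ∈ K ∧ ν.P ∈ K ∧ ν.nm ∈ K ∧
    ν.dt ∈ K ∧ ν.bb ∈ K ∧ ν.sA ∈ K ∧ ν.sF ∈ K := by
  change has K (ν.W, ν.P, ν.nm, ν.dt, ν.bb, ν.k2, ν.fl, ν.sA, ν.sF) ↔ _
  simp only [h.has_pair, h.has_bool, true_and]
  rfl

inductive Item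
  | cn (N : V)
  | tr (ν : Tag)
  | atm (ν : Tag) (x : X)

noncomputable def Item.cd : Item → ℕ × V
  | .cn N => (0, N)
  | .tr ν => (1, enc ν)
  | .atm ν x => (2, enc (ν, x))

noncomputable instance : Code Item := Code.ofInj Item.cd (by
  rintro (a | a | ⟨a, x⟩) (b | b | ⟨b, y⟩) h <;> simp only [Item.cd, Prod.mk.injEq] at h <;>
    first | omega | skip
  · rw [h.2]
  · rw [Code.inj h.2]
  · have := Code.inj h.2
    rw [Prod.mk.injEq] at this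
    rw [this.1, this.2])

theorem Cl.has_cn {D K} (h : Cl D K) {N : V} : has K (Item.cn N) ↔ N ∈ K :=
  (h.has_pair (a := (0 : ℕ)) (b := N)).trans (and_iff_right (h.has_nat _))

theorem Cl.has_tr {D K} (h : Cl D K) {ν : Tag} : has K (Item.tr ν) ↔ has K ν :=
  (h.has_pair (a := (1 : ℕ)) (b := enc ν)).trans (and_iff_right (h.has_nat _))

theorem Cl.has_atm {D K} (h : Cl D K) {ν : Tag} {x : X} :
    has K (Item.atm ν x) ↔ has K ν ∧ has K x :=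
  ((h.has_pair (a := (2 : ℕ)) (b := enc (ν, x))).trans (and_iff_right (h.has_nat _))).trans
    h.has_pair

abbrev C := Finset Item

structure St where
  K : Set V
  P : V
  g : Set C

noncomputable def Nm (P : V) : V := ((allc X).prod P).powerset

structure Sit (D : Set Dp) (s : St) : Prop where
  cl : Cl D s.K
  bas : Bas s.K
  hP : s.P ∈ s.K
  hN : Nm s.P ∈ s.K
  subP : ∀ {b}, b ∈ s.g → enc b ∈ s.P
  subK : ∀ {b}, b ∈ s.g → has s.K b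
  dir : ∀ {a b}, a ∈ s.g → b ∈ s.g → ∃ c ∈ s.g, a ⊆ c ∧ b ⊆ c
  up : ∀ {a b}, b ∈ s.g → a ⊆ b → enc a ∈ s.P → a ∈ s.g
  ne : ∃ b, b ∈ s.g
  dec : ∀ {E}, E ∈ s.K → ∃ b ∈ s.g, enc b ∈ E ∨ ∀ b' : C, enc b' ∈ s.P → b ⊆ b' → enc b' ∉ E

theorem Sit.mono {D D' s} (h : Sit D s) (h' : D' ⊆ D) : Sit D' s :=
  ⟨h.cl.mono h', h.bas, h.hP, h.hN, h.subP, h.subK, h.dir, h.up, h.ne, h.dec⟩

structure Sub (D : Set Dp) (s : St) (N : Set V) (δ : Om) : Prop where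
  cl : Cl D N
  bas : Bas N
  sub : N ⊆ s.K
  hP : s.P ∈ N
  gen : ∀ {E}, E ∈ N → (∃ b ∈ s.g, enc b ∈ E) → ∃ b ∈ s.g, enc b ∈ E ∧ has N b
  iff : ∀ {a : Om}, has N a ↔ a < δ
  hd : has s.K δ

theorem Sub.lim {D s N δ} (h : Sub D s N δ) : Lim δ :=
  ⟨h.iff.1 h.bas.bot, fun γ hγ => by
    obtain ⟨b, h₁, h₂⟩ := h.bas.up (h.iff.2 hγ)
    exact ⟨b, h₂, h.iff.1 h₁⟩⟩

theorem exists_sit {p : Set Dp → Prop} (h : ∀ᶠ D in Fl, p D) {P : V} {b : C} (hb : enc b ∈ P) :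
    ∃ D K g, p D ∧ D.Countable ∧ K.Countable ∧ Sit D ⟨K, P, g⟩ ∧ b ∈ g := by
  obtain ⟨D, hD, hp, hbas, h₁, h₂, h₃, h₄⟩ := Fl.ex (h.and (ev_bas.and ((ev_const P).and
    ((ev_const (Nm P)).and ((ev_const b).and
      (ev_wit (fun (a : C × V) (c : C) => a.1 ⊆ c ∧ enc c ∈ a.2)))))))
  obtain ⟨K, hK, hc⟩ := exists_hull hD
  obtain ⟨e, he⟩ := hK.exists_eq_range ⟨_, hc.emp⟩
  have step : ∀ n, ∀ a : C, has (K : Set V) a → enc a ∈ P → ∃ c : C, has (K : Set V) c ∧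
      enc c ∈ P ∧ a ⊆ c ∧ (enc c ∈ e n ∨ ∀ b' : C, enc b' ∈ P → c ⊆ b' → enc b' ∉ e n) := by
    intro n a ha haP
    by_cases H : ∃ c : C, enc c ∈ P ∧ a ⊆ c ∧ enc c ∈ e n
    · obtain ⟨c, h₅, h₆, h₇, h₈⟩ := h₄ K hc (a, e n)
        (hc.has_pair.2 ⟨ha, show e n ∈ (K : Set V) from he ▸ mem_range_self n⟩) P (h₁ K hc) H
      exact ⟨c, h₅, h₆, h₇, Or.inl h₈⟩
    · exact ⟨a, ha, haP, subset_rfl, Or.inr fun b' h₅ h₆ h₇ => H ⟨b', h₅, h₆, h₇⟩⟩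
  choose! f f₁ f₂ f₃ f₄ using step
  let q : ℕ → C := fun n => Nat.rec b f n
  have hq : ∀ n, has (K : Set V) (q n) ∧ enc (q n) ∈ P := by
    intro n
    induction n with
    | zero => exact ⟨h₃ K hc, hb⟩
    | succ n ih => exact ⟨f₁ n _ ih.1 ih.2, f₂ n _ ih.1 ih.2⟩
  have hm : Monotone q := monotone_nat_of_le_succ fun n => f₃ n _ (hq n).1 (hq n).2
  refine ⟨D, K, {c | enc c ∈ P ∧ ∃ n, c ⊆ q n}, hp, hD, hK, ⟨hc, hbas K hc, h₁ K hc, h₂ K hc,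
    fun h => h.1, ?_, ?_, ?_, ⟨b, hb, 0, subset_rfl⟩, ?_⟩, hb, 0, subset_rfl⟩
  · rintro c ⟨-, n, hn⟩
    exact hc.has_finset.2 fun a ha => hc.has_finset.1 (hq n).1 a (hn ha)
  · rintro a c ⟨-, n, hn⟩ ⟨-, m, hm'⟩
    exact ⟨q (max n m), ⟨(hq _).2, _, subset_rfl⟩, hn.trans (hm (le_max_left _ _)),
      hm'.trans (hm (le_max_right _ _))⟩
  · rintro a c ⟨-, n, hn⟩ h₅ h₆
    exact ⟨h₆, n, h₅.trans hn⟩
  · intro E hE
    obtain ⟨n, rfl⟩ : E ∈ range e := he ▸ hE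
    exact ⟨q (n + 1), ⟨(hq (n + 1)).2, n + 1, subset_rfl⟩, f₄ n _ (hq n).1 (hq n).2⟩

section
variable {α β γ : Type*} [Code α] [Code β] [Code γ]

def St.val (s : St) (σ : V) : Set α := {x | has s.K x ∧ ∃ b ∈ s.g, enc (x, b) ∈ σ}

theorem St.val_has {s : St} {σ : V} {x : α} (h : x ∈ s.val σ) : has s.K x := h.1

theorem St.val_bd {s : St} {σ : V} {x : α} (h : x ∈ s.val σ) : enc x ∈ σ.sUnion.sUnion := by
  obtain ⟨-, b, -, h⟩ := h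
  refine ZFSet.mem_sUnion.2 ⟨{enc x}, ZFSet.mem_sUnion.2 ⟨_, h, ?_⟩, by simp⟩
  change _ ∈ ZFSet.pair (enc x) (enc b)
  simp [ZFSet.pair]

class Def (Φ : St → α → Prop) : Prop where
  out : ∃ F : V → C → α → Prop, (∀ P b b' a, b ⊆ b' → F P b a → F P b' a) ∧
    ∀ᶠ D in Fl, ∀ s, Sit D s → ∀ a, has s.K a → (Φ s a ↔ ∃ b ∈ s.g, F s.P b a)

def Frc (Φ : St → α → Prop) (P : V) (b : C) (a : α) : Prop :=
  ∀ᶠ D in Fl, ∀ K g, Sit D ⟨K, P, g⟩ → (∃ b' ∈ g, b ⊆ b') → Φ ⟨K, P, g⟩ a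

omit [Code α] in
theorem Frc.mono {Φ : St → α → Prop} {P b b' a} (h : Frc Φ P b a) (h' : b ⊆ b') :
    Frc Φ P b' a := by
  filter_upwards [h] with D hD K g hs ⟨c, hc, h₁⟩ using hD K g hs ⟨c, hc, h'.trans h₁⟩

/-- Deciding a property of conditions. -/
theorem ev_dec (F : V → C → α → Prop) : ∀ᶠ D in Fl, ∀ s, Sit D s → ∀ a, has s.K a →
    ∃ b ∈ s.g, F s.P b a ∨ ∀ b' : C, enc b' ∈ s.P → b ⊆ b' → ¬ F s.P b' a := by
  filter_upwards [ev_set (fun (a : V × α) (b : C) => F a.1 b a.2)] with D hD s hs a ha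
  obtain ⟨S, h₁, -, -, h₂⟩ := hD _ hs.cl (s.P, a) (hs.cl.has_pair.2 ⟨hs.hP, ha⟩) _ hs.hP
  obtain ⟨b, hb, h | h⟩ := hs.dec h₁
  · exact ⟨b, hb, Or.inl ((h₂ b).1 h).2⟩
  · exact ⟨b, hb, Or.inr fun b' h₃ h₄ h₅ => h b' h₃ h₄ ((h₂ b').2 ⟨h₃, h₅⟩)⟩

theorem Def.frc (Φ : St → α → Prop) [h : Def Φ] :
    ∀ᶠ D in Fl, ∀ s, Sit D s → ∀ a, has s.K a → (Φ s a ↔ ∃ b ∈ s.g, Frc Φ s.P b a) := by
  obtain ⟨F, hm, hF⟩ := h.out
  filter_upwards [hF, ev_dec F] with D hD hd s hs a ha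
  constructor
  · intro H
    obtain ⟨b, hb, H⟩ := (hD s hs a ha).1 H
    refine ⟨b, hb, ?_⟩
    filter_upwards [hF, ev_const a] with D' hD' hc K g hs' ⟨c, hc', h₁⟩
    exact (hD' _ hs' a (hc _ hs'.cl)).2 ⟨c, hc', hm _ _ _ _ h₁ H⟩
  · rintro ⟨b, hb, H⟩
    obtain ⟨b₁, hb₁, h₁ | h₁⟩ := hd s hs a ha
    · exact (hD s hs a ha).2 ⟨b₁, hb₁, h₁⟩
    · exfalso
      obtain ⟨c, hc, h₂, h₃⟩ := hs.dir hb hb₁
      obtain ⟨D', K, g, ⟨h₄, h₅, h₆⟩, -, -, hs', hc'⟩ :=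
        exists_sit (H.and (hF.and (ev_const a))) (hs.subP hc)
      obtain ⟨b₂, hb₂, h₇⟩ := (h₅ _ hs' a (h₆ _ hs'.cl)).1 (h₄ K g hs' ⟨c, hc', h₂⟩)
      obtain ⟨c', hc'', h₈, h₉⟩ := hs'.dir hc' hb₂
      exact h₁ c' (hs'.subP hc'') (h₃.trans h₈) (hm _ _ _ _ h₉ h₇)

theorem Def.congr {Φ Ψ : St → α → Prop} (h : Def Φ)
    (e : ∀ᶠ D in Fl, ∀ s, Sit D s → ∀ a, has s.K a → (Φ s a ↔ Ψ s a)) : Def Ψ := by
  obtain ⟨F, hm, hF⟩ := h.out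
  refine ⟨F, hm, ?_⟩
  filter_upwards [hF, e] with D hD he s hs a ha
  rw [← he s hs a ha, hD s hs a ha]

theorem Def.congr' {Φ Ψ : St → α → Prop} (h : Def Φ) (e : ∀ s a, Φ s a ↔ Ψ s a) : Def Ψ :=
  h.congr (Eventually.of_forall fun _ s _ a _ => e s a)

theorem Def.atom (R : V → C → α → Prop) : Def (fun s a => ∃ b ∈ s.g, R s.P b a) := by
  refine ⟨fun P b a => ∃ b₀, b₀ ⊆ b ∧ enc b₀ ∈ P ∧ R P b₀ a,
    fun P b b' a h ⟨b₀, h₁, h₂⟩ => ⟨b₀, h₁.trans h, h₂⟩, Eventually.of_forall fun D s hs a _ => ?_⟩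
  exact ⟨fun ⟨b, hb, h⟩ => ⟨b, hb, b, subset_rfl, hs.subP hb, h⟩,
    fun ⟨b, hb, b₀, h₁, h₂, h⟩ => ⟨b₀, hs.up hb h₁ h₂, h⟩⟩

theorem Def.groundP (R : V → α → Prop) : Def (fun s a => R s.P a) :=
  (Def.atom fun P _ a => R P a).congr (Eventually.of_forall fun _ _ hs _ _ =>
    ⟨fun ⟨_, _, h⟩ => h, fun h => hs.ne.imp fun _ hb => ⟨hb, h⟩⟩)

theorem Def.comp (Φ : St → β → Prop) [h : Def Φ] (f : α → β) [hf : Cf f] :
    Def (fun s a => Φ s (f a)) := by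
  obtain ⟨F, hm, hF⟩ := h.out
  refine ⟨fun P b a => F P b (f a), fun P b b' a => hm P b b' _, ?_⟩
  filter_upwards [hF, hf.out] with D hD hc s hs a ha using hD s hs _ (hc _ hs.cl a ha)

instance Def.not (Φ : St → α → Prop) [h : Def Φ] : Def (fun s a => ¬ Φ s a) := by
  obtain ⟨F, hm, hF⟩ := h.out
  refine ⟨fun P b a => ∀ b' : C, enc b' ∈ P → b ⊆ b' → ¬ F P b' a,
    fun P b b' a h H c h₁ h₂ => H c h₁ (h.trans h₂), ?_⟩
  filter_upwards [hF, ev_dec F] with D hD hd s hs a ha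
  rw [hD s hs a ha]
  constructor
  · intro H
    obtain ⟨b, hb, h | h⟩ := hd s hs a ha
    exacts [absurd ⟨b, hb, h⟩ H, ⟨b, hb, h⟩]
  · rintro ⟨b, hb, H⟩ ⟨b', hb', H'⟩
    obtain ⟨c, hc, h₁, h₂⟩ := hs.dir hb hb'
    exact H c (hs.subP hc) h₁ (hm _ _ _ _ h₂ H')

instance Def.and (Φ Ψ : St → α → Prop) [h : Def Φ] [h' : Def Ψ] :
    Def (fun s a => Φ s a ∧ Ψ s a) := by
  obtain ⟨F, hm, hF⟩ := h.out
  obtain ⟨F', hm', hF'⟩ := h'.out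
  refine ⟨fun P b a => F P b a ∧ F' P b a,
    fun P b b' a h H => ⟨hm _ _ _ _ h H.1, hm' _ _ _ _ h H.2⟩, ?_⟩
  filter_upwards [hF, hF'] with D hD hD' s hs a ha
  rw [hD s hs a ha, hD' s hs a ha]
  constructor
  · rintro ⟨⟨b, hb, H⟩, b', hb', H'⟩
    obtain ⟨c, hc, h₁, h₂⟩ := hs.dir hb hb'
    exact ⟨c, hc, hm _ _ _ _ h₁ H, hm' _ _ _ _ h₂ H'⟩
  · rintro ⟨b, hb, H, H'⟩
    exact ⟨⟨b, hb, H⟩, b, hb, H'⟩

instance Def.or (Φ Ψ : St → α → Prop) [Def Φ] [Def Ψ] : Def (fun s a => Φ s a ∨ Ψ s a) :=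
  (inferInstance : Def (fun s a => ¬ (¬ Φ s a ∧ ¬ Ψ s a))).congr' fun _ _ => by tauto

instance (priority := low) Def.imp (Φ Ψ : St → α → Prop) [Def Φ] [Def Ψ] :
    Def (fun s a => Φ s a → Ψ s a) :=
  (inferInstance : Def (fun s a => ¬ (Φ s a ∧ ¬ Ψ s a))).congr' fun _ _ => by tauto

instance Def.iff (Φ Ψ : St → α → Prop) [Def Φ] [Def Ψ] : Def (fun s a => Φ s a ↔ Ψ s a) :=
  (inferInstance : Def (fun s a => (Φ s a ∧ Ψ s a) ∨ (¬ Φ s a ∧ ¬ Ψ s a))).congr'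
    fun _ _ => by tauto

theorem Def.exB (B : V → α → V)
    (hB : ∀ᶠ D in Fl, ∀ s, Sit D s → ∀ a, has s.K a → B s.P a ∈ s.K)
    (Φ : St → α → β → Prop) [h : Def (fun s (x : α × β) => Φ s x.1 x.2)] :
    Def (fun s a => ∃ y, has s.K y ∧ enc y ∈ B s.P a ∧ Φ s a y) := by
  obtain ⟨F, hm, hF⟩ := h.out
  refine ⟨fun P b a => ∃ y, enc y ∈ B P a ∧ F P b (a, y),
    fun P b b' a h ⟨y, h₁, h₂⟩ => ⟨y, h₁, hm _ _ _ _ h h₂⟩, ?_⟩
  filter_upwards [hF, hB, ev_wit (fun (x : V × C × α) (y : β) => F x.1 x.2.1 (x.2.2, y))]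
    with D hD hB hw s hs a ha
  constructor
  · rintro ⟨y, h₁, h₂, h₃⟩
    obtain ⟨b, hb, h⟩ := (hD s hs (a, y) (hs.cl.has_pair.2 ⟨ha, h₁⟩)).1 h₃
    exact ⟨b, hb, y, h₂, h⟩
  · rintro ⟨b, hb, h⟩
    obtain ⟨y, h₁, h₂, h₃⟩ := hw _ hs.cl (s.P, b, a)
      (hs.cl.has_pair.2 ⟨hs.hP, hs.cl.has_pair.2 ⟨hs.subK hb, ha⟩⟩) _ (hB s hs a ha) h
    exact ⟨y, h₁, h₂, (hD s hs (a, y) (hs.cl.has_pair.2 ⟨ha, h₁⟩)).2 ⟨b, hb, h₃⟩⟩

/-- Guards: properties that put the variable into the model and bound it. -/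
class Grd (R : St → α → β → Prop) : Prop where
  out : ∃ B : V → α → V, ∀ᶠ D in Fl, ∀ s, Sit D s → ∀ a, has s.K a →
    B s.P a ∈ s.K ∧ ∀ y, R s a y → has s.K y ∧ enc y ∈ B s.P a

instance Def.exG (R Φ : St → α → β → Prop) [hR : Grd R]
    [Def (fun s (x : α × β) => R s x.1 x.2)] [Def (fun s (x : α × β) => Φ s x.1 x.2)] :
    Def (fun s a => ∃ y, R s a y ∧ Φ s a y) := by
  obtain ⟨B, hB⟩ := hR.out
  refine (Def.exB B (hB.mono fun D h s hs a ha => (h s hs a ha).1)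
    (fun s a y => R s a y ∧ Φ s a y)).congr (hB.mono fun D h s hs a ha => ?_)
  exact ⟨fun ⟨y, _, _, h⟩ => ⟨y, h⟩, fun ⟨y, h'⟩ =>
    ⟨y, ((h s hs a ha).2 y h'.1).1, ((h s hs a ha).2 y h'.1).2, h'⟩⟩

instance Def.allG (R Φ : St → α → β → Prop) [Grd R]
    [Def (fun s (x : α × β) => R s x.1 x.2)] [Def (fun s (x : α × β) => Φ s x.1 x.2)] :
    Def (fun s a => ∀ y, R s a y → Φ s a y) :=
  (inferInstance : Def (fun s a => ¬ ∃ y, R s a y ∧ ¬ Φ s a y)).congr' fun _ _ => by simp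

theorem Grd.of_small [Small.{0} β] (R : St → α → β → Prop)
    (h : ∀ᶠ D in Fl, ∀ s, Sit D s → ∀ a, has s.K a → ∀ y, R s a y → has s.K y) : Grd R := by
  refine ⟨fun _ _ => allc β, ?_⟩
  filter_upwards [h, ev_const (allc β)] with D hD hc s hs a ha
  exact ⟨hc _ hs.cl, fun y hy => ⟨hD s hs a ha y hy, enc_mem_allc y⟩⟩

instance Grd.has [Small.{0} β] : Grd (fun s (_ : α) (y : β) => has s.K y) :=
  Grd.of_small _ (Eventually.of_forall fun _ _ _ _ _ _ h => h)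

instance Grd.val (σ : α → V) [h : Cf σ] : Grd (fun s a (y : β) => y ∈ s.val (σ a)) := by
  refine ⟨fun _ a => (σ a).sUnion.sUnion, ?_⟩
  filter_upwards [h.out] with D hD s hs a ha
  exact ⟨hs.cl.uni (hs.cl.uni (hD _ hs.cl a ha)), fun y hy => ⟨hy.1, St.val_bd hy⟩⟩

instance Grd.lt (f : α → Om) : Grd (fun _ a (y : Om) => y < f a) :=
  Grd.of_small _ (by
    filter_upwards [ev_cf f] with D hD s hs a ha y hy using hs.bas.down (hD _ hs.cl a ha) hy.le)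

instance Grd.le (f : α → Om) : Grd (fun _ a (y : Om) => y ≤ f a) :=
  Grd.of_small _ (by
    filter_upwards [ev_cf f] with D hD s hs a ha y hy using hs.bas.down (hD _ hs.cl a ha) hy)

instance Grd.ltNat (f : α → ℕ) : Grd (fun _ a (y : ℕ) => y < f a) :=
  Grd.of_small _ (Eventually.of_forall fun _ _ hs _ _ y _ => hs.cl.has_nat y)

instance Grd.finset (f : α → Finset β) [h : Cf f] : Grd (fun _ a y => y ∈ f a) := by
  refine ⟨fun _ a => enc (f a), ?_⟩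
  filter_upwards [h.out] with D hD s hs a ha
  exact ⟨hD _ hs.cl a ha, fun y hy => ⟨hs.cl.has_finset.1 (hD _ hs.cl a ha) y hy,
    mem_enc_finset.2 ⟨y, hy, rfl⟩⟩⟩

instance Grd.list (f : α → List β) [h : Cf f] : Grd (fun _ a y => y ∈ f a) := by
  classical
  refine ⟨fun _ a => enc (f a).toFinset, ?_⟩
  filter_upwards [h.out] with D hD s hs a ha
  have := hs.cl.has_list.1 (hD _ hs.cl a ha)
  exact ⟨hs.cl.has_finset.2 fun y hy => this y (List.mem_toFinset.1 hy), fun y hy => ⟨this y hy,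
    mem_enc_finset.2 ⟨y, List.mem_toFinset.2 hy, rfl⟩⟩⟩

/-- Names of subsets of `X` in the model. -/
def St.nam (s : St) (σ : V) : Prop := σ ∈ s.K ∧ σ ∈ Nm s.P

instance Grd.nam : Grd (fun s (_ : α) (σ : V) => s.nam σ) :=
  ⟨fun P _ => Nm P, Eventually.of_forall fun _ _ hs _ _ => ⟨hs.hN, fun _ h => h⟩⟩

/-- Elements of a set that lie in the model. -/
def St.inn (s : St) (B σ : V) : Prop := σ ∈ s.K ∧ σ ∈ B

instance Grd.inn (B : α → V) [h : Cf B] : Grd (fun s a (σ : V) => s.inn (B a) σ) :=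
  ⟨fun _ a => B a, h.out.mono fun _ hD _ hs a ha => ⟨hD _ hs.cl a ha, fun _ h => h⟩⟩

instance Def.has (f : α → β) [h : Cf f] : Def (fun s a => has s.K (f a)) :=
  (Def.groundP fun _ _ => True).congr (h.out.mono fun _ hD _ hs a ha =>
    iff_of_true trivial (hD _ hs.cl a ha))

instance Def.nam (f : α → V) [h : Cf f] : Def (fun s a => s.nam (f a)) :=
  (Def.groundP fun P a => f a ∈ Nm P).congr (h.out.mono fun _ hD _ hs a ha =>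
    (and_iff_right (hD _ hs.cl a ha)).symm)

instance Def.inn (B f : α → V) [h : Cf f] : Def (fun s a => s.inn (B a) (f a)) :=
  (Def.groundP fun _ a => f a ∈ B a).congr (h.out.mono fun _ hD _ hs a ha =>
    (and_iff_right (hD _ hs.cl a ha)).symm)

instance Def.val (σ : α → V) (f : α → β) [h : Cf f] : Def (fun s a => f a ∈ s.val (σ a)) :=
  (Def.atom fun _ b a => enc (f a, b) ∈ σ a).congr (h.out.mono fun _ hD _ hs a ha =>
    (and_iff_right (hD _ hs.cl a ha)).symm)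

instance (priority := high) Def.ground (R : α → Prop) : Def (fun _ a => R a) :=
  Def.groundP fun _ a => R a

/-! ### Comprehension and elementarity -/

theorem compB (Φ : St → α → β → Prop) [h : Def (fun s (x : α × β) => Φ s x.1 x.2)] :
    ∀ᶠ D in Fl, ∀ s, Sit D s → ∀ N, Cl D N → N ⊆ s.K → s.P ∈ N → ∀ a, has N a → ∀ B ∈ N,
      ∃ σ ∈ N, σ ⊆ B.prod s.P ∧ ∀ y, y ∈ s.val σ ↔ has s.K y ∧ enc y ∈ B ∧ Φ s a y := by
  obtain ⟨F, hm, hF⟩ := h.out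
  filter_upwards [hF, ev_set (fun (x : V × α) (y : β × C) => F x.1 y.2 (x.2, y.1))]
    with D hD hS s hs N hN hNK hP a ha B hB
  obtain ⟨S, h₁, h₂, -, h₃⟩ := hS N hN (s.P, a) (hN.has_pair.2 ⟨hP, ha⟩) _ (hN.prod hB hP)
  refine ⟨S, h₁, h₂, fun y => and_congr_right fun hy => ?_⟩
  rw [hD s hs (a, y) (hs.cl.has_pair.2 ⟨hNK ha, hy⟩)]
  constructor
  · rintro ⟨b, hb, h⟩
    obtain ⟨h₄, h₅⟩ := (h₃ (y, b)).1 h
    exact ⟨(ZFSet.pair_mem_prod.1 h₄).1, b, hb, h₅⟩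
  · rintro ⟨h₄, b, hb, h⟩
    exact ⟨b, hb, (h₃ (y, b)).2 ⟨ZFSet.pair_mem_prod.2 ⟨h₄, hs.subP hb⟩, h⟩⟩

theorem compS [Small.{0} β] (Φ : St → α → β → Prop)
    [Def (fun s (x : α × β) => Φ s x.1 x.2)] :
    ∀ᶠ D in Fl, ∀ s, Sit D s → ∀ N, Cl D N → N ⊆ s.K → s.P ∈ N → ∀ a, has N a →
      ∃ σ ∈ N, σ ⊆ (allc β).prod s.P ∧ ∀ y, y ∈ s.val σ ↔ has s.K y ∧ Φ s a y := by
  filter_upwards [compB Φ, ev_const (allc β)] with D hD hc s hs N hN hNK hP a ha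
  obtain ⟨σ, h₁, h₂, h₃⟩ := hD s hs N hN hNK hP a ha (allc β) (hc N hN)
  exact ⟨σ, h₁, h₂, fun y => by rw [h₃, and_iff_right (enc_mem_allc y)]⟩

theorem compV (Φ : St → α → β → Prop) [Def (fun s (x : α × β) => Φ s x.1 x.2)] :
    ∀ᶠ D in Fl, ∀ s, Sit D s → ∀ N, Cl D N → N ⊆ s.K → s.P ∈ N → ∀ a, has N a → ∀ τ ∈ N,
      ∃ σ ∈ N, ∀ y, y ∈ s.val σ ↔ y ∈ s.val τ ∧ Φ s a y := by
  have := Def.comp (fun s (x : α × β) => Φ s x.1 x.2) (fun x : (V × α) × β => (x.1.2, x.2))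
  have : Def (fun s (x : (V × α) × β) => x.2 ∈ s.val x.1.1) := Def.val _ _
  filter_upwards [compB (fun s (a : V × α) (y : β) => y ∈ s.val a.1 ∧ Φ s a.2 y)] with D hD s hs N hN hNK hP a ha τ hτ
  obtain ⟨σ, h₁, -, h₃⟩ := hD s hs N hN hNK hP (τ, a) (hN.has_pair.2 ⟨hτ, ha⟩) _
    (hN.uni (hN.uni hτ))
  exact ⟨σ, h₁, fun y => (h₃ y).trans ⟨fun h => h.2.2, fun h => ⟨h.1.1, St.val_bd h.1, h⟩⟩⟩

/-- The admissible subsets of `X` named in `N`. -/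
def St.Adm (s : St) (N : Set V) (S : Set X) : Prop := ∃ σ ∈ N, s.nam σ ∧ S = s.val σ

abbrev St.vx (s : St) (σ : V) : Set X := s.val σ

theorem St.Adm.mono {s : St} {N N' : Set V} {S} (h : s.Adm N S) (h' : N ⊆ N') : s.Adm N' S := by
  obtain ⟨σ, h₁, h₂⟩ := h
  exact ⟨σ, h' h₁, h₂⟩

theorem St.Adm.has {s : St} {N : Set V} {S} (h : s.Adm N S) {x} (hx : x ∈ S) : has s.K x := by
  obtain ⟨σ, -, -, rfl⟩ := h
  exact hx.1

theorem compX (Φ : St → α → X → Prop) [Def (fun s (x : α × X) => Φ s x.1 x.2)] :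
    ∀ᶠ D in Fl, ∀ s, Sit D s → ∀ N, Cl D N → N ⊆ s.K → s.P ∈ N → ∀ a, has N a →
      s.Adm N {y | has s.K y ∧ Φ s a y} := by
  filter_upwards [compS Φ] with D hD s hs N hN hNK hP a ha
  obtain ⟨σ, h₁, h₂, h₃⟩ := hD s hs N hN hNK hP a ha
  exact ⟨σ, h₁, ⟨hNK h₁, ZFSet.mem_powerset.2 h₂⟩, Set.ext fun y => (h₃ y).symm⟩

theorem elemB (Φ : St → α → β → Prop) [h : Def (fun s (x : α × β) => Φ s x.1 x.2)] :
    ∀ᶠ D in Fl, ∀ s, Sit D s → ∀ N δ, Sub D s N δ → ∀ a, has N a → ∀ B ∈ N,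
      (∃ y, has s.K y ∧ enc y ∈ B ∧ Φ s a y) → ∃ y, has N y ∧ enc y ∈ B ∧ Φ s a y := by
  obtain ⟨F, hm, hF⟩ := h.out
  filter_upwards [hF,
    ev_set (fun (x : V × V × α) (b : C) => ∃ y : β, enc y ∈ x.2.1 ∧ F x.1 b (x.2.2, y)),
    ev_wit (fun (x : V × C × α) (y : β) => F x.1 x.2.1 (x.2.2, y))]
    with D hD hS hw s hs N δ hN a ha B hB ⟨y, h₁, h₂, h₃⟩
  obtain ⟨S, h₄, -, -, h₅⟩ := hS N hN.cl (s.P, B, a)
    (hN.cl.has_pair.2 ⟨hN.hP, hN.cl.has_pair.2 ⟨hB, ha⟩⟩) _ hN.hP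
  obtain ⟨b, hb, h⟩ := (hD s hs (a, y) (hs.cl.has_pair.2 ⟨hN.sub ha, h₁⟩)).1 h₃
  obtain ⟨b, hb, h₆, h₇⟩ := hN.gen h₄ ⟨b, hb, (h₅ b).2 ⟨hs.subP hb, y, h₂, h⟩⟩
  obtain ⟨y, h₈, h₉, h⟩ := hw N hN.cl (s.P, b, a)
    (hN.cl.has_pair.2 ⟨hN.hP, hN.cl.has_pair.2 ⟨h₇, ha⟩⟩) _ hB ((h₅ b).1 h₆).2
  exact ⟨y, h₈, h₉, (hD s hs (a, y) (hs.cl.has_pair.2 ⟨hN.sub ha, hN.sub h₈⟩)).2 ⟨b, hb, h⟩⟩

theorem elemS [Small.{0} β] (Φ : St → α → β → Prop)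
    [Def (fun s (x : α × β) => Φ s x.1 x.2)] :
    ∀ᶠ D in Fl, ∀ s, Sit D s → ∀ N δ, Sub D s N δ → ∀ a, has N a →
      ∀ y, has s.K y → Φ s a y → ∃ y, has N y ∧ Φ s a y := by
  filter_upwards [elemB Φ, ev_const (allc β)] with D hD hc s hs N δ hN a ha y h₁ h₂
  obtain ⟨y, h₃, -, h₄⟩ := hD s hs N δ hN a ha _ (hc N hN.cl) ⟨y, h₁, enc_mem_allc y, h₂⟩
  exact ⟨y, h₃, h₄⟩

theorem elemV (Φ : St → α → β → Prop) [Def (fun s (x : α × β) => Φ s x.1 x.2)] :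
    ∀ᶠ D in Fl, ∀ s, Sit D s → ∀ N δ, Sub D s N δ → ∀ a, has N a → ∀ τ ∈ N,
      ∀ y, y ∈ s.val τ → Φ s a y → ∃ y, has N y ∧ y ∈ s.val τ ∧ Φ s a y := by
  have := Def.comp (fun s (x : α × β) => Φ s x.1 x.2) (fun x : (V × α) × β => (x.1.2, x.2))
  have : Def (fun s (x : (V × α) × β) => x.2 ∈ s.val x.1.1) := Def.val _ _
  filter_upwards [elemB (fun s (a : V × α) (y : β) => y ∈ s.val a.1 ∧ Φ s a.2 y)] with D hD s hs N δ hN a ha τ hτ y h₁ h₂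
  obtain ⟨y, h₃, -, h₄⟩ := hD s hs N δ hN (τ, a) (hN.cl.has_pair.2 ⟨hτ, ha⟩) _
    (hN.cl.uni (hN.cl.uni hτ)) ⟨y, h₁.1, St.val_bd h₁, h₁, h₂⟩
  exact ⟨y, h₃, h₄⟩

theorem elemN (Φ : St → α → V → Prop) [Def (fun s (x : α × V) => Φ s x.1 x.2)] :
    ∀ᶠ D in Fl, ∀ s, Sit D s → ∀ N δ, Sub D s N δ → Nm s.P ∈ N → ∀ a, has N a →
      ∀ σ, s.nam σ → Φ s a σ → ∃ σ ∈ N, s.nam σ ∧ Φ s a σ := by
  filter_upwards [elemB Φ] with D hD s hs N δ hN hm a ha σ h₁ h₂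
  obtain ⟨y, h₃, h₄, h₅⟩ := hD s hs N δ hN a ha _ hm ⟨σ, h₁.1, h₁.2, h₂⟩
  exact ⟨y, h₃, ⟨hN.sub h₃, h₄⟩, h₅⟩

end


end Pool.Agent.MP_656653_lc

end

section

/-! Tuples of nodes, matching, null families, good tuples. -/

set_option synthInstance.maxSize 1000000

namespace Pool.Agent.MP_656653_lc

open Set Filter

section R

variable (r : Om → Om → Prop)

def agA (γ a a' : Om) : Prop := a = a' ∨ (γ ≤ a ∧ γ ≤ a' ∧ ∀ ξ < γ, (r a ξ ↔ r a' ξ))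

def peq (γ : Om) (p q : Pt) : Prop := agA r γ p.1 q.1 ∧ U.ag γ p.2 q.2
def psp (γ : Om) (p q : Pt) : Prop := ¬ agA r γ p.1 q.1 ∧ ¬ U.ag γ p.2 q.2
def pmt (γ : Om) (p q : Pt) : Prop := psp r γ p q ∧ (r p.1 q.1 ↔ p.2 < q.2)

noncomputable def d0 : Pt := (⊥, (U.exists_ht ⊥).choose)
theorem d0_ht : d0.2.ht = ⊥ := (U.exists_ht ⊥).choose_spec.choose_spec.1
noncomputable def nt (x : List Pt) (i : ℕ) : Pt := x.getD i d0
noncomputable def pj (I : List ℕ) (z : List Pt) : List Pt := I.map (nt z)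

def All2 (R : Pt → Pt → Prop) (x y : List Pt) : Prop :=
  x.length = y.length ∧ ∀ i < x.length, R (nt x i) (nt y i)

def eqv (γ : Om) (x y : List Pt) : Prop := All2 (peq r γ) x y
def spl (γ : Om) (x y : List Pt) : Prop := All2 (psp r γ) x y
def mat (γ : Om) (x y : List Pt) : Prop := All2 (pmt r γ) x y

def ppr (γ : Om) (p : Pt) : Prop := γ ≤ p.1 ∧ γ ≤ p.2.ht
def pbl (γ : Om) (p : Pt) : Prop := p.1 < γ ∧ p.2.ht < γ
def prp (x : X) : Prop := ∀ p ∈ x.1, ppr x.2 p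

def OK (φ : Bool) (x y : X) : Prop :=
  spl r (min x.2 y.2) x.1 y.1 ∧ ¬ (φ = true ∧ mat r (min x.2 y.2) x.1 y.1)

def inS (T : Set X) (x : List Pt) (γ : Om) : Prop := ∃ y, y ∈ T ∧ y.2 = γ ∧ eqv r γ x y.1

variable {r}

theorem nt_mem {x : List Pt} {i : ℕ} (h : i < x.length) : nt x i ∈ x := by
  unfold nt
  rw [List.getD_eq_getElem _ _ h]
  exact List.getElem_mem h

theorem exists_nt {x : List Pt} {p : Pt} (h : p ∈ x) : ∃ i < x.length, nt x i = p := by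
  obtain ⟨i, hi, rfl⟩ := List.getElem_of_mem h
  exact ⟨i, hi, List.getD_eq_getElem _ _ hi⟩

theorem nt_map {α : Type*} (f : α → Pt) (l : List α) {i : ℕ} (h : i < l.length) :
    nt (l.map f) i = f l[i] := by
  unfold nt
  rw [List.getD_eq_getElem _ _ (by simpa using h), List.getElem_map]

theorem nt_append_left {x y : List Pt} {i : ℕ} (h : i < x.length) : nt (x ++ y) i = nt x i :=
  List.getD_append _ _ _ _ h

theorem nt_append_right (x y : List Pt) (i : ℕ) : nt (x ++ y) (x.length + i) = nt y i := by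
  unfold nt
  rw [List.getD_append_right _ _ _ _ (by omega)]
  simp

theorem all2_map {α : Type*} {R : Pt → Pt → Prop} (f g : α → Pt) (l : List α) :
    All2 R (l.map f) (l.map g) ↔ ∀ a ∈ l, R (f a) (g a) := by
  simp only [All2, List.length_map, true_and]
  constructor
  · intro h a ha
    obtain ⟨i, hi, rfl⟩ := List.getElem_of_mem ha
    have := h i hi
    rwa [nt_map _ _ hi, nt_map _ _ hi] at this
  · intro h i hi
    rw [nt_map _ _ hi, nt_map _ _ hi]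
    exact h _ (List.getElem_mem hi)

theorem all2_pj {R : Pt → Pt → Prop} {I : List ℕ} {z z' : List Pt} :
    All2 R (pj I z) (pj I z') ↔ ∀ i ∈ I, R (nt z i) (nt z' i) := all2_map _ _ _

theorem pj_range (z : List Pt) : pj (List.range z.length) z = z := by
  refine List.ext_getElem (by simp [pj]) fun i h₁ h₂ => ?_
  simp [pj, nt, h₂]

theorem All2.imp {R R' : Pt → Pt → Prop} {x y : List Pt} (h : All2 R x y)
    (H : ∀ p q, R p q → R' p q) : All2 R' x y := ⟨h.1, fun i hi => H _ _ (h.2 i hi)⟩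

theorem All2.nt {R : Pt → Pt → Prop} {x y : List Pt} (h : All2 R x y) (h0 : R d0 d0) (i : ℕ) :
    R (nt x i) (nt y i) := by
  rcases lt_or_ge i x.length with hi | hi
  · exact h.2 i hi
  · unfold Pool.Agent.MP_656653_lc.nt
    rwa [List.getD_eq_default _ _ hi, List.getD_eq_default _ _ (h.1 ▸ hi)]

theorem All2.left {R : Pt → Pt → Prop} {x y : List Pt} (h : All2 R x y) {p} (hp : p ∈ x) :
    ∃ q ∈ y, R p q := by
  obtain ⟨i, hi, rfl⟩ := exists_nt hp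
  exact ⟨_, nt_mem (h.1 ▸ hi), h.2 i hi⟩

theorem All2.right {R : Pt → Pt → Prop} {x y : List Pt} (h : All2 R x y) {q} (hq : q ∈ y) :
    ∃ p ∈ x, R p q := by
  obtain ⟨i, hi, rfl⟩ := exists_nt hq
  exact ⟨_, nt_mem (h.1 ▸ hi), h.2 i (h.1 ▸ hi)⟩

theorem exists_all2 {R : Pt → Pt → Prop} {Q : Pt → Prop} {x : List Pt}
    (h : ∀ p ∈ x, ∃ q, Q q ∧ R p q) : ∃ y, (∀ q ∈ y, Q q) ∧ All2 R x y := by
  choose! f h₁ h₂ using h
  refine ⟨x.map f, List.forall_mem_map.2 h₁, ?_⟩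
  have := (all2_map (R := R) id f x).2 h₂
  rwa [List.map_id] at this

theorem agA.refl (γ a : Om) : agA r γ a a := Or.inl rfl

theorem agA.symm {γ a b : Om} (h : agA r γ a b) : agA r γ b a :=
  h.imp Eq.symm fun h => ⟨h.2.1, h.1, fun ξ hξ => (h.2.2 ξ hξ).symm⟩

theorem agA.trans {γ a b c : Om} (h : agA r γ a b) (h' : agA r γ b c) : agA r γ a c := by
  rcases h with rfl | h
  · exact h'
  rcases h' with rfl | h'
  · exact Or.inr h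
  exact Or.inr ⟨h.1, h'.2.1, fun ξ hξ => (h.2.2 ξ hξ).trans (h'.2.2 ξ hξ)⟩

theorem agA.mono {γ γ' a b : Om} (h : agA r γ a b) (h' : γ' ≤ γ) : agA r γ' a b :=
  h.imp id fun h => ⟨h'.trans h.1, h'.trans h.2.1, fun ξ hξ => h.2.2 ξ (hξ.trans_le h')⟩

theorem agA.alone {γ a b : Om} (h : agA r γ a b) (ha : a < γ) : a = b :=
  h.resolve_right fun h => ha.not_ge h.1

theorem agA.le {γ a b : Om} (h : agA r γ a b) (ha : γ ≤ a) : γ ≤ b := by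
  rcases h with rfl | h
  exacts [ha, h.2.1]

theorem agA_bot (a b : Om) : agA r ⊥ a b :=
  Or.inr ⟨bot_le, bot_le, fun _ h => absurd h not_lt_bot⟩

theorem agA_lim {δ a b : Om} (hδ : Lim δ) (h : ∀ γ < δ, agA r γ a b) : agA r δ a b := by
  by_cases e : a = b
  · exact Or.inl e
  have key : ∀ c, (∀ γ < δ, γ ≤ c) → δ ≤ c := fun c H => not_lt.1 fun hc => by
    obtain ⟨γ, h₁, h₂⟩ := hδ.2 c hc
    exact (H γ h₂).not_gt h₁
  refine Or.inr ⟨key a fun γ hγ => ((h γ hγ).resolve_left e).1,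
    key b fun γ hγ => ((h γ hγ).resolve_left e).2.1, fun ξ hξ => ?_⟩
  obtain ⟨γ, h₁, h₂⟩ := hδ.2 ξ hξ
  exact ((h γ h₂).resolve_left e).2.2 ξ h₁

theorem peq.refl (γ : Om) (p : Pt) : peq r γ p p := ⟨agA.refl _ _, U.ag.refl _ _⟩
theorem peq.symm {γ p q} (h : peq r γ p q) : peq r γ q p := ⟨h.1.symm, h.2.symm⟩
theorem peq.trans {γ p q t} (h : peq r γ p q) (h' : peq r γ q t) : peq r γ p t :=
  ⟨h.1.trans h'.1, h.2.trans h'.2⟩
theorem peq.mono {γ γ' p q} (h : peq r γ p q) (h' : γ' ≤ γ) : peq r γ' p q :=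
  ⟨h.1.mono h', h.2.mono h'⟩
theorem peq.ppr {γ p q} (h : peq r γ p q) (h' : ppr γ p) : ppr γ q :=
  ⟨h.1.le h'.1, U.le_ht h.2 h'.2⟩
theorem psp.symm {γ p q} (h : psp r γ p q) : psp r γ q p :=
  ⟨fun H => h.1 H.symm, fun H => h.2 H.symm⟩
theorem psp.mono {γ γ' p q} (h : psp r γ p q) (h' : γ ≤ γ') : psp r γ' p q :=
  ⟨fun H => h.1 (H.mono h'), fun H => h.2 (H.mono h')⟩
theorem psp.congr {γ p q p' q'} (h : psp r γ p q) (hp : peq r γ p p') (hq : peq r γ q q') :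
    psp r γ p' q' :=
  ⟨fun H => h.1 (hp.1.trans (H.trans hq.1.symm)), fun H => h.2 (hp.2.trans (H.trans hq.2.symm))⟩
theorem pmt.mono {γ γ' p q} (h : pmt r γ p q) (h' : γ ≤ γ') : pmt r γ' p q := ⟨h.1.mono h', h.2⟩
theorem ppr.mono {γ γ' p} (h : ppr γ p) (h' : γ' ≤ γ) : ppr γ' p := ⟨h'.trans h.1, h'.trans h.2⟩
theorem pbl.mono {γ γ' p} (h : pbl γ p) (h' : γ ≤ γ') : pbl γ' p :=
  ⟨h.1.trans_le h', h.2.trans_le h'⟩

theorem eqv.refl (γ : Om) (x : List Pt) : eqv r γ x x := ⟨rfl, fun _ _ => peq.refl _ _⟩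
theorem eqv.symm {γ x y} (h : eqv r γ x y) : eqv r γ y x :=
  ⟨h.1.symm, fun i hi => (h.2 i (h.1 ▸ hi)).symm⟩
theorem eqv.trans {γ x y z} (h : eqv r γ x y) (h' : eqv r γ y z) : eqv r γ x z :=
  ⟨h.1.trans h'.1, fun i hi => (h.2 i hi).trans (h'.2 i (h.1 ▸ hi))⟩
theorem eqv.mono {γ γ' x y} (h : eqv r γ x y) (h' : γ' ≤ γ) : eqv r γ' x y :=
  h.imp fun _ _ H => H.mono h'
theorem eqv.nt {γ x y} (h : eqv r γ x y) (i : ℕ) : peq r γ (nt x i) (nt y i) :=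
  All2.nt h (peq.refl _ _) i
theorem eqv.pj {γ x y} (h : eqv r γ x y) (I : List ℕ) : eqv r γ (pj I x) (pj I y) :=
  all2_pj.2 fun i _ => h.nt i
theorem eqv.prp {γ x y} (h : eqv r γ x y) (h' : prp (x, γ)) : prp (y, γ) := fun q hq => by
  obtain ⟨p, hp, H⟩ := All2.right h hq
  exact H.ppr (h' p hp)
theorem spl.symm {γ x y} (h : spl r γ x y) : spl r γ y x :=
  ⟨h.1.symm, fun i hi => (h.2 i (h.1 ▸ hi)).symm⟩
theorem spl.mono {γ γ' x y} (h : spl r γ x y) (h' : γ ≤ γ') : spl r γ' x y :=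
  h.imp fun _ _ H => H.mono h'
theorem spl.congr {γ x y x' y'} (h : spl r γ x y) (hx : eqv r γ x x') (hy : eqv r γ y y') :
    spl r γ x' y' :=
  ⟨hx.1.symm.trans (h.1.trans hy.1), fun i hi =>
    (h.2 i (hx.1 ▸ hi)).congr (hx.nt i) (hy.nt i)⟩
theorem mat.mono {γ γ' x y} (h : mat r γ x y) (h' : γ ≤ γ') : mat r γ' x y :=
  h.imp fun _ _ H => H.mono h'
theorem mat.of_spl {γ γ' x y} (h : mat r γ x y) (h' : spl r γ' x y) : mat r γ' x y :=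
  ⟨h.1, fun i hi => ⟨h'.2 i hi, (h.2 i hi).2⟩⟩
theorem prp.mono {x γ γ'} (h : prp (x, γ)) (h' : γ' ≤ γ) : prp (x, γ') :=
  fun p hp => (h p hp).mono h'
theorem inS.congr {T x y γ} (h : inS r T x γ) (h' : eqv r γ x y) : inS r T y γ := by
  obtain ⟨z, h₁, h₂, h₃⟩ := h
  exact ⟨z, h₁, h₂, h'.symm.trans h₃⟩

theorem psp_lim {δ p q} (hδ : Lim δ) (h : psp r δ p q) : ∃ β < δ, psp r β p q := by
  obtain ⟨β₁, h₁, h₂⟩ : ∃ β < δ, ¬ agA r β p.1 q.1 := by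
    by_contra hc
    push Not at hc
    exact h.1 (agA_lim hδ hc)
  obtain ⟨β₂, h₃, h₄⟩ : ∃ β < δ, ¬ U.ag β p.2 q.2 := by
    by_contra hc
    push Not at hc
    exact h.2 (U.ag_lim hδ hc)
  exact ⟨max β₁ β₂, max_lt h₁ h₃, fun H => h₂ (H.mono (le_max_left _ _)),
    fun H => h₄ (H.mono (le_max_right _ _))⟩

theorem spl_lim {δ x y} (hδ : Lim δ) (h : spl r δ x y) : ∃ β < δ, spl r β x y := by
  obtain ⟨β, h₁, h₂⟩ := hδ.ev (finite_Iio x.length) (Q := fun i β => psp r β (nt x i) (nt y i))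
    (fun _ _ _ h H => H.mono h) fun i hi => psp_lim hδ (h.2 i hi)
  exact ⟨β, h₁, h.1, h₂⟩

variable [IsStrictTotalOrder Om r]

theorem r_tri (a b : Om) : r a b ∨ a = b ∨ r b a := trichotomous_of r a b
theorem r_asymm {a b : Om} (h : r a b) : ¬ r b a := asymm_of r h
theorem r_irr (a : Om) : ¬ r a a := irrefl_of r a
theorem r_trans {a b c : Om} (h : r a b) (h' : r b c) : r a c := trans_of r h h'

theorem agA.convex {γ a b c : Om} (h : agA r γ a c) (h₁ : r a b) (h₂ : r b c) : agA r γ a b := by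
  rcases h with rfl | h
  · exact absurd h₂ (r_asymm h₁)
  have hb : γ ≤ b := not_lt.1 fun hb => r_asymm h₂ ((h.2.2 b hb).1 h₁)
  exact Or.inr ⟨h.1, hb, fun ξ hξ => ⟨fun H => r_trans h₂ ((h.2.2 ξ hξ).1 H), r_trans h₁⟩⟩

theorem r_of_ag {γ a b a' b' : Om} (h : r a b) (h' : ¬ agA r γ a b) (ha : agA r γ a a')
    (hb : agA r γ b b') : r a' b' := by
  have h₁ : r a' b := by
    rcases r_tri (r := r) a' b with H | rfl | H
    exacts [H, absurd ha h', absurd (ha.convex h H) h']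
  rcases r_tri (r := r) a' b' with H | rfl | H
  · exact H
  · exact absurd (ha.trans hb.symm) h'
  · exact absurd (ha.trans ((hb.symm.convex H h₁).symm.trans hb.symm)) h'

theorem psp.r_or {γ p q} (h : psp r γ p q) : r p.1 q.1 ∨ r q.1 p.1 := by
  rcases r_tri (r := r) p.1 q.1 with H | H | H
  exacts [Or.inl H, absurd (Or.inl H) h.1, Or.inr H]

omit [IsStrictTotalOrder Om r] in
theorem psp.lt_or {γ p q} (h : psp r γ p q) : p.2 < q.2 ∨ q.2 < p.2 :=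
  lt_or_gt_of_ne fun e => h.2 (e ▸ U.ag.refl _ _)

theorem pmt.symm {γ p q} (h : pmt r γ p q) : pmt r γ q p := by
  refine ⟨h.1.symm, fun H => ?_, fun H => ?_⟩
  · exact h.1.lt_or.resolve_left fun H' => r_asymm H (h.2.2 H')
  · exact h.1.r_or.resolve_left fun H' => H.asymm (h.2.1 H')

theorem pmt.congr {γ p q p' q'} (h : pmt r γ p q) (hp : peq r γ p p') (hq : peq r γ q q') :
    pmt r γ p' q' := by
  refine ⟨h.1.congr hp hq, fun H => ?_, fun H => ?_⟩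
  · exact U.lt_of_ag (h.2.1 (r_of_ag H (h.1.congr hp hq).1 hp.1.symm hq.1.symm)) h.1.2 hp.2 hq.2
  · exact r_of_ag (h.2.2 (U.lt_of_ag H (h.1.congr hp hq).2 hp.2.symm hq.2.symm)) h.1.1 hp.1 hq.1

theorem mat.symm {γ x y} (h : mat r γ x y) : mat r γ y x :=
  ⟨h.1.symm, fun i hi => (h.2 i (h.1 ▸ hi)).symm⟩

theorem mat.congr {γ x y x' y'} (h : mat r γ x y) (hx : eqv r γ x x') (hy : eqv r γ y y') :
    mat r γ x' y' :=
  ⟨hx.1.symm.trans (h.1.trans hy.1), fun i hi =>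
    (h.2 i (hx.1 ▸ hi)).congr (hx.nt i) (hy.nt i)⟩

theorem OK.symm {φ x y} (h : OK r φ x y) : OK r φ y x := by
  unfold OK at h ⊢
  rw [min_comm]
  exact ⟨h.1.symm, fun H => h.2 ⟨H.1, H.2.symm⟩⟩

end R

namespace St

variable (s : St) (σ : V)

def Lin : Prop := ∀ a : Om, has s.K a → ∀ b : Om, has s.K b → ∀ c : Om, has s.K c →
  ¬ (a, a) ∈ s.val σ ∧ ((a, b) ∈ s.val σ → (b, c) ∈ s.val σ → (a, c) ∈ s.val σ) ∧
    ((a, b) ∈ s.val σ ∨ a = b ∨ (b, a) ∈ s.val σ)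

/-- The named order, extended to a total order. -/
def r (a b : Om) : Prop :=
  (has s.K a ∧ has s.K b ∧ ((s.Lin σ ∧ (a, b) ∈ s.val σ) ∨ (¬ s.Lin σ ∧ a < b))) ∨
    (¬ has s.K b ∧ (has s.K a ∨ a < b))

instance : IsStrictTotalOrder Om (s.r σ) where
  trichotomous a b h₁ h₂ := by
    by_contra hne
    unfold r at h₁ h₂
    by_cases ha : has s.K a <;> by_cases hb : has s.K b <;> by_cases hl : s.Lin σ
    · have := (hl a ha b hb a ha).2.2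
      tauto
    all_goals have := lt_trichotomy a b; tauto
  irrefl a h := by
    rcases h with ⟨ha, -, ⟨hl, h⟩ | h⟩ | ⟨ha, h | h⟩
    exacts [(hl a ha a ha a ha).1 h, lt_irrefl _ h.2, ha h, lt_irrefl _ h]
  trans a b c h₁ h₂ := by
    rcases h₁ with ⟨ha, hb, h₁⟩ | ⟨hb, h₁⟩
    · rcases h₂ with ⟨-, hc, h₂⟩ | ⟨hc, -⟩
      · refine Or.inl ⟨ha, hc, ?_⟩
        rcases h₁ with h₁ | h₁ <;> rcases h₂ with h₂ | h₂
        exacts [Or.inl ⟨h₁.1, (h₁.1 a ha b hb c hc).2.1 h₁.2 h₂.2⟩, absurd h₁.1 h₂.1,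
          absurd h₂.1 h₁.1, Or.inr ⟨h₁.1, h₁.2.trans h₂.2⟩]
      · exact Or.inr ⟨hc, Or.inl ha⟩
    · rcases h₂ with ⟨hb', -⟩ | ⟨hc, h₂⟩
      · exact absurd hb' hb
      · exact Or.inr ⟨hc, h₁.imp id fun h => h.trans (h₂.resolve_left hb)⟩

def Unb (S : Set X) : Prop := ∀ β : Om, has s.K β → ∃ x, x ∈ S ∧ β ≤ x.2

def Null (T : Set X) : Prop :=
  ∀ τ, s.nam τ → (∀ x, x ∈ s.val τ → x ∈ T) → s.Unb (s.val τ) →
    ∃ τ', s.nam τ' ∧ (∀ x : X, x ∈ s.val τ' → x ∈ s.val τ) ∧ s.Unb (s.val τ') ∧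
      ∀ x : X, x ∈ s.val τ' → ∀ y : X, y ∈ s.val τ' → x.2 ≠ y.2 →
        ¬ mat (s.r σ) (min x.2 y.2) x.1 y.1

def Good (τ : Om × V) (Q : Set Pt) : Prop :=
  ∀ x : List Pt, has s.K x → (∀ p ∈ x, p ∈ Q) → ∀ ρ, s.inn τ.2 ρ → s.Null σ (s.val ρ) →
    ∀ β < τ.1, ∃ γ, γ < τ.1 ∧ β ≤ γ ∧ ¬ inS (s.r σ) (s.val ρ) x γ

def LL : Prop := ∀ γ : Om, has s.K γ → ∃ β : Om, has s.K β ∧ ∀ a : Om, has s.K a →
  ∃ a', a' < β ∧ agA (s.r σ) γ a a'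

def NB : Prop := ∀ τ, s.nam τ → s.Unb (s.val τ) → ∀ i : ℕ, has s.K i →
  (∀ x : X, x ∈ s.val τ → x.2 ≤ (nt x.1 i).1) →
  ∃ x : X, x ∈ s.val τ ∧ ∃ y : X, y ∈ s.val τ ∧
    ¬ agA (s.r σ) (min x.2 y.2) (nt x.1 i).1 (nt y.1 i).1

def Nice : Prop := s.LL σ ∧ s.NB σ

def Large (φ : Bool) (F Z : Set X) (Is : List (List ℕ)) : Prop :=
  (∀ γ : Om, has s.K γ → ∃ z, z ∈ Z ∧ z.2 = γ) ∧
  (∀ z, z ∈ Z → ∀ γ ≤ z.2, (z.1, γ) ∈ Z) ∧ (∀ z, z ∈ Z → prp z) ∧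
  (∀ z, z ∈ Z → ∀ z', z' ∈ Z → z.2 = z'.2 → spl (s.r σ) z.2 z.1 z'.1 →
    φ = true ∧ ∃ I, I ∈ Is ∧ mat (s.r σ) z.2 (pj I z.1) (pj I z'.1)) ∧
  ∀ z, z ∈ Z → ∀ I ∈ Is, ∃ x, x ∈ F ∧ z.2 ≤ x.2 ∧ eqv (s.r σ) z.2 (pj I z.1) x.1

def Dich : Prop := ∀ F, s.Adm s.K F → s.Unb F → (∀ x ∈ F, prp x) → ∀ φ : Bool,
  (∃ F', s.Adm s.K F' ∧ F' ⊆ F ∧ s.Unb F' ∧ ∀ x ∈ F', ∀ y ∈ F', x.2 ≠ y.2 → OK (s.r σ) φ x y) ∨
    (φ = true ∧ ∃ Z, s.Adm s.K Z ∧ ∃ Is, s.Large σ true F Z Is)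

def LoA (δ a : Om) : Prop := ∀ a' : Om, has s.K a' → agA (s.r σ) δ a a' → ¬ s.r σ a' a
def HiA (δ a : Om) : Prop := ∀ a' : Om, has s.K a' → agA (s.r σ) δ a a' → ¬ s.r σ a a'

variable {s σ}

theorem null_iff {T : Set X} : s.Null σ T ↔ ∀ F, s.Adm s.K F → F ⊆ T → s.Unb F →
    ∃ F', s.Adm s.K F' ∧ F' ⊆ F ∧ s.Unb F' ∧
      ∀ x ∈ F', ∀ y ∈ F', x.2 ≠ y.2 → ¬ mat (s.r σ) (min x.2 y.2) x.1 y.1 := by
  constructor
  · rintro h F ⟨τ, -, h₁, rfl⟩ h₂ h₃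
    obtain ⟨τ', h₄, h₅⟩ := h τ h₁ h₂ h₃
    exact ⟨_, ⟨τ', h₄.1, h₄, rfl⟩, h₅⟩
  · intro h τ h₁ h₂ h₃
    obtain ⟨_, ⟨τ', -, h₄, rfl⟩, h₅⟩ := h _ ⟨τ, h₁.1, h₁, rfl⟩ h₂ h₃
    exact ⟨τ', h₄, h₅⟩

theorem NB.adm (h : s.NB σ) {D} (hs : Sit D s) {F} (hF : s.Adm s.K F) (hu : s.Unb F) (i : ℕ)
    (hp : ∀ x ∈ F, x.2 ≤ (nt x.1 i).1) :
    ∃ x ∈ F, ∃ y ∈ F, ¬ agA (s.r σ) (min x.2 y.2) (nt x.1 i).1 (nt y.1 i).1 := by
  obtain ⟨τ, -, h₁, rfl⟩ := hF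
  exact h τ h₁ hu i (hs.cl.has_nat i) hp

/-- The trace `τ` comes from the model `N`. -/
structure IsTr (s : St) (τ : Om × V) (N : Set V) : Prop where
  sub : N ⊆ s.K
  iff : ∀ ρ, ρ ∈ τ.2 ↔ ρ ∈ N ∧ ρ ∈ Nm s.P

theorem good_iff {τ N Q} (h : s.IsTr τ N) : s.Good σ τ Q ↔ ∀ x : List Pt, has s.K x →
    (∀ p ∈ x, p ∈ Q) → ∀ T, s.Adm N T → s.Null σ T →
      ∀ β < τ.1, ∃ γ, γ < τ.1 ∧ β ≤ γ ∧ ¬ inS (s.r σ) T x γ := by
  refine forall₃_congr fun x _ _ => ⟨?_, fun H ρ hρ => ?_⟩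
  · rintro H _ ⟨ρ, h₁, h₂, rfl⟩
    exact H ρ ⟨h₂.1, (h.iff ρ).2 ⟨h₁, h₂.2⟩⟩
  · exact H _ ⟨ρ, ((h.iff ρ).1 hρ.2).1, ⟨hρ.1, ((h.iff ρ).1 hρ.2).2⟩, rfl⟩

theorem Good.congr {D} (hs : Sit D s) {τ Q Q'} (h : s.Good σ τ Q) (hQ : ∀ q ∈ Q, has s.K q)
    (H : ∀ p ∈ Q', ∃ q ∈ Q, peq (s.r σ) τ.1 p q) : s.Good σ τ Q' := by
  intro x _ hx ρ h₁ h₂ β hβ
  obtain ⟨y, h₃, h₄⟩ := exists_all2 (R := peq (s.r σ) τ.1) (Q := (· ∈ Q))
    fun p hp => H p (hx p hp)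
  obtain ⟨γ, h₅, h₆, h₇⟩ := h y (hs.cl.has_list.2 fun q hq => hQ q (h₃ q hq)) h₃ ρ h₁ h₂ β hβ
  exact ⟨γ, h₅, h₆, fun H => h₇ (H.congr (eqv.mono h₄ h₅.le))⟩

end St

def LoU (δ : Om) (t : U) : Prop := ∀ u, U.ag δ t u → ¬ u < t
def HiU (δ : Om) (t : U) : Prop := ∀ u, U.ag δ t u → ¬ t < u

section D

variable {α : Type*} [Code α]

instance (σ : α → V) : Def (fun s a => s.Lin (σ a)) := by unfold St.Lin; infer_instance

instance (σ : α → V) (f g : α → Om) : Def (fun s a => s.r (σ a) (f a) (g a)) := by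
  unfold St.r; infer_instance

instance (σ : α → V) (γ f g : α → Om) : Def (fun s a => agA (s.r (σ a)) (γ a) (f a) (g a)) := by
  unfold agA; infer_instance

instance (σ : α → V) (γ : α → Om) (f g : α → Pt) :
    Def (fun s a => peq (s.r (σ a)) (γ a) (f a) (g a)) := by unfold peq; infer_instance

instance (σ : α → V) (γ : α → Om) (f g : α → Pt) :
    Def (fun s a => psp (s.r (σ a)) (γ a) (f a) (g a)) := by unfold psp; infer_instance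

instance (σ : α → V) (γ : α → Om) (f g : α → Pt) :
    Def (fun s a => pmt (s.r (σ a)) (γ a) (f a) (g a)) := by unfold pmt; infer_instance

instance (σ : α → V) (γ : α → Om) (f g : α → List Pt) :
    Def (fun s a => eqv (s.r (σ a)) (γ a) (f a) (g a)) := by unfold eqv All2; infer_instance

instance (σ : α → V) (γ : α → Om) (f g : α → List Pt) :
    Def (fun s a => spl (s.r (σ a)) (γ a) (f a) (g a)) := by unfold spl All2; infer_instance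

instance (σ : α → V) (γ : α → Om) (f g : α → List Pt) :
    Def (fun s a => mat (s.r (σ a)) (γ a) (f a) (g a)) := by unfold mat All2; infer_instance

instance (σ : α → V) (φ : α → Bool) (f g : α → X) :
    Def (fun s a => OK (s.r (σ a)) (φ a) (f a) (g a)) := by unfold OK; infer_instance

instance (σ τ : α → V) [Cf τ] (γ : α → Om) (f : α → List Pt) :
    Def (fun s a => inS (s.r (σ a)) (s.val (τ a)) (f a) (γ a)) := by unfold inS; infer_instance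

instance (τ : α → V) [Cf τ] : Def (fun s a => s.Unb (s.val (τ a))) := by
  have := Cf.comp τ (fun x : α × Om => x.1)
  unfold St.Unb; infer_instance

instance (σ τ : α → V) : Def (fun s a => s.Null (σ a) (s.val (τ a))) := by
  unfold St.Null; infer_instance

instance (σ : α → V) (τ : α → Om × V) [Cf τ] (Q : α → Set Pt) :
    Def (fun s a => s.Good (σ a) (τ a) (Q a)) := by
  have := Cf.comp τ (fun x : α × List Pt => x.1)
  unfold St.Good; infer_instance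

instance (σ : α → V) : Def (fun s a => s.Nice (σ a)) := by
  unfold St.Nice St.LL St.NB; infer_instance

instance (σ F Z : α → V) [Cf F] [Cf Z] (φ : α → Bool) (Is : α → List (List ℕ)) :
    Def (fun s a => s.Large (σ a) (φ a) (s.val (F a)) (s.val (Z a)) (Is a)) := by
  have := Cf.comp Z (fun x : α × Om => x.1)
  have := Cf.comp Z (fun x : α × X => x.1)
  have := Cf.comp F (fun x : (α × X) × List ℕ => x.1.1)
  unfold St.Large; infer_instance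

instance (σ : α → V) (δ f : α → Om) : Def (fun s a => s.LoA (σ a) (δ a) (f a)) := by
  unfold St.LoA; infer_instance

instance (σ : α → V) (δ f : α → Om) : Def (fun s a => s.HiA (σ a) (δ a) (f a)) := by
  unfold St.HiA; infer_instance

end D

end Pool.Agent.MP_656653_lc

end

section

/-! Consequences of elementarity. -/

set_option synthInstance.maxSize 1000000

namespace Pool.Agent.MP_656653_lc

open Set Filter

theorem has_pt {D K} (h : Cl D K) (hb : Bas K) {p : Pt} : has K p ↔ has K p.1 ∧ has K p.2.ht := by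
  rw [h.has_prod, hb.ht]

theorem Sub.has_pt {D s N δ} (h : Sub D s N δ) {p : Pt} : has N p ↔ pbl δ p := by
  rw [MP_656653_lc.has_pt h.cl h.bas, h.iff, h.iff]; rfl

theorem Sub.has_u {D s N δ} (h : Sub D s N δ) {t : U} : has N t ↔ t.ht < δ := by
  rw [h.bas.ht, h.iff]

theorem Sub.has_lt {D s N δ} (h : Sub D s N δ) {x : X} (hx : has N x) : x.2 < δ :=
  h.iff.1 (h.cl.has_prod.1 hx).2

theorem Sit.has_d0 {D s} (h : Sit D s) : has s.K d0 :=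
  (has_pt h.cl h.bas).2 ⟨h.bas.bot, d0_ht ▸ h.bas.bot⟩

theorem Sit.has_nt {D s} (h : Sit D s) {x : List Pt} (hx : has s.K x) (i : ℕ) :
    has s.K (nt x i) := by
  rcases lt_or_ge i x.length with hi | hi
  · exact h.cl.has_list.1 hx _ (nt_mem hi)
  · unfold nt
    rw [List.getD_eq_default _ _ hi]
    exact h.has_d0

theorem Sit.has_pj {D s} (h : Sit D s) {x : List Pt} (hx : has s.K x) (I : List ℕ) :
    has s.K (pj I x) :=
  h.cl.has_list.2 (List.forall_mem_map.2 fun i _ => h.has_nt hx i)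

theorem Sit.has_le {D s N δ} (h : Sit D s) (hN : Sub D s N δ) {γ : Om} (hγ : γ ≤ δ) :
    has s.K γ := h.bas.down hN.hd hγ

theorem elemA {α : Type*} [Code α] (Φ : St → α → Om → Prop)
    [Def (fun s (x : α × Om) => Φ s x.1 x.2)] :
    ∀ᶠ D in Fl, ∀ s, Sit D s → ∀ N δ, Sub D s N δ → ∀ a, has N a →
      (∀ γ < δ, Φ s a γ) → ∀ γ, has s.K γ → Φ s a γ := by
  filter_upwards [elemS (fun s a γ => ¬ Φ s a γ)] with D hD s hs N δ hN a ha H γ hγ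
  by_contra hc
  obtain ⟨γ', h₁, h₂⟩ := hD s hs N δ hN a ha γ hγ hc
  exact h₂ (H γ' (hN.iff.1 h₁))

theorem unbN : ∀ᶠ D in Fl, ∀ s, Sit D s → ∀ N δ, Sub D s N δ → ∀ F, s.Adm N F →
    (∀ β < δ, ∃ x, x ∈ F ∧ β ≤ x.2) → s.Unb F := by
  filter_upwards [elemA (fun s (τ : V) β => ∃ x : X, x ∈ s.vx τ ∧ β ≤ x.2)]
    with D hD
  rintro s hs N δ hN _ ⟨τ, h₁, _, rfl⟩ H
  exact hD s hs N δ hN τ h₁ H

theorem rep : ∀ᶠ D in Fl, ∀ s, Sit D s → ∀ N δ, Sub D s N δ → ∀ σ ∈ N, s.LL σ → ∀ γ < δ,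
    ∀ x : List Pt, has s.K x → ∃ y, has N y ∧ eqv (s.r σ) γ x y := by
  filter_upwards [elemS (fun s (a : V × Om) (β : Om) => ∀ c : Om, has s.K c →
    ∃ c', c' < β ∧ agA (s.r a.1) a.2 c c')] with D hD s hs N δ hN σ hσ hL γ hγ x hx
  obtain ⟨β, h₁, h₂⟩ := hL γ (hs.has_le hN hγ.le)
  obtain ⟨β, h₁, h₂⟩ := hD s hs N δ hN (σ, γ) (hN.cl.has_pair.2 ⟨hσ, hN.iff.2 hγ⟩) β h₁ h₂
  obtain ⟨y, h₃, h₄⟩ := exists_all2 (R := peq (s.r σ) γ) (Q := has N) (x := x) fun p hp => by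
    obtain ⟨c, h₃, h₄⟩ := h₂ p.1 (hs.cl.has_prod.1 (hs.cl.has_list.1 hx p hp)).1
    obtain ⟨m, -, h₅, -, h₆, -⟩ := U.minmax γ p.2
    exact ⟨(c, m), hN.has_pt.2 ⟨h₃.trans (hN.iff.1 h₁), h₆.trans_lt hγ⟩, h₄, h₅.symm⟩
  exact ⟨y, hN.cl.has_list.2 h₃, h₄⟩

theorem nbU : ∀ᶠ D in Fl, ∀ s, Sit D s → ∀ N δ, Sub D s N δ → ∀ F, s.Adm N F → s.Unb F → ∀ i,
    (∀ x ∈ F, x.2 ≤ (nt x.1 i).2.ht) →
    ∃ x ∈ F, ∃ y ∈ F, ¬ U.ag (min x.2 y.2) (nt x.1 i).2 (nt y.1 i).2 := by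
  obtain ⟨e, he⟩ := exists_surjective_nat ℚ
  filter_upwards [elemS (fun s (a : V × ℕ × ℕ × Om) (y : X × Om) => y.1 ∈ s.vx a.1 ∧
    a.2.2.2 ≤ y.2 ∧ y.2 < y.1.2 ∧ (nt y.1.1 a.2.1).2.val y.2 = e a.2.2.1)]
    with D hD
  rintro s hs N δ hN _ ⟨τ, h₁, _, rfl⟩ hu i hp
  by_contra hc
  push Not at hc
  obtain ⟨δ', h₂, h₃⟩ := hs.bas.up hN.hd
  obtain ⟨x, hx, h₄⟩ := hu δ' h₂
  have h₅ : δ < (nt x.1 i).2.ht := h₃.trans_le (h₄.trans (hp x hx))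
  obtain ⟨⟨q, hq⟩, -⟩ := (nt x.1 i).2.spec.1 δ h₅
  obtain ⟨n, rfl⟩ := he q
  refine hN.lim.infinite (fun β hβ => ?_) (U.col_fin (nt x.1 i).2 (e n))
  obtain ⟨⟨y, ξ⟩, h₆, h₇, h₈, h₉, h⟩ := hD s hs N δ hN (τ, i, n, β)
    (by simp only [hN.cl.has_pair, hN.cl.has_nat, true_and]; exact ⟨h₁, hN.iff.2 hβ⟩)
    (x, δ) (hs.cl.has_pair.2 ⟨hx.1, hN.hd⟩) ⟨hx, hβ.le, h₃.trans_le h₄, hq⟩
  have hξ : ξ < δ := hN.iff.1 (hN.cl.has_pair.1 h₆).2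
  refine ⟨ξ, ⟨hξ.trans h₅, ?_⟩, h₈, hξ⟩
  rw [hc x hx y h₇ ξ (lt_min (hξ.trans (h₃.trans_le h₄)) h₉)]
  exact h

theorem lemE0 : ∀ᶠ D in Fl, ∀ s, Sit D s → ∀ N δ, Sub D s N δ → ∀ σ ∈ N, s.Nice σ →
    ∀ a, has s.K a → δ ≤ a → ∀ β < δ, ∀ dir : Bool,
      ∃ c < δ, agA (s.r σ) β a c ∧ ¬ (s.r σ a c ↔ dir = true) := by
  filter_upwards [rep, unbN, compX (fun s (a : V × Om × Om × Bool) (y : X) =>
    a.2.1 ≤ y.2 ∧ y.2 ≤ (nt y.1 0).1 ∧ agA (s.r a.1) a.2.1 a.2.2.1 (nt y.1 0).1 ∧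
      ∀ ξ < y.2, agA (s.r a.1) a.2.1 a.2.2.1 ξ → (s.r a.1 (nt y.1 0).1 ξ ↔ a.2.2.2 = true))]
    with D h₁ h₂ h₃ s hs N δ hN σ hσ hn a ha hδ β hβ dir
  by_contra hc
  push Not at hc
  have hx : has s.K [(a, d0.2)] := hs.cl.has_list.2 (by
    simpa using hs.cl.has_pair.2 ⟨ha, (hs.cl.has_prod.1 hs.has_d0).2⟩)
  obtain ⟨y, h₄, h₅⟩ := h₁ s hs N δ hN σ hσ hn.1 β hβ _ hx
  have h₆ : agA (s.r σ) β a (nt y 0).1 := (h₅.nt 0).1
  have h₇ : has N (nt y 0).1 :=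
    (hN.cl.has_prod.1 (hN.cl.has_list.1 h₄ _ (nt_mem (h₅.1 ▸ Nat.one_pos)))).1
  have hF := h₃ s hs N hN.cl hN.sub hN.hP (σ, β, (nt y 0).1, dir)
    (by simp only [hN.cl.has_pair, hN.cl.has_bool, and_true]; exact ⟨hσ, hN.iff.2 hβ, h₇⟩)
  obtain ⟨x, hx, x', hx', H⟩ := hn.2.adm hs (hF.mono hN.sub) (h₂ s hs N δ hN _ hF fun γ hγ =>
    ⟨([(a, d0.2)], max β γ), ⟨hs.cl.has_pair.2 ⟨hx, hs.has_le hN (max_lt hβ hγ).le⟩,
      le_max_left _ _, (max_lt hβ hγ).le.trans hδ, h₆.symm, fun ξ hξ H =>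
        hc ξ (hξ.trans (max_lt hβ hγ)) (h₆.trans H)⟩, le_max_right _ _⟩) 0 fun x hx => hx.2.2.1
  obtain ⟨-, -, a₁, a₂, a₃⟩ := hx
  obtain ⟨-, -, b₁, b₂, b₃⟩ := hx'
  refine H (Or.inr ⟨(min_le_left _ _).trans a₁, (min_le_right _ _).trans b₁, fun ξ hξ => ?_⟩)
  by_cases h : agA (s.r σ) β (nt y 0).1 ξ
  · exact (a₃ ξ (hξ.trans_le (min_le_left _ _)) h).trans
      (b₃ ξ (hξ.trans_le (min_le_right _ _)) h).symm
  · exact ⟨fun H => r_of_ag H (fun H' => h (a₂.trans H')) (a₂.symm.trans b₂) (agA.refl _ _),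
      fun H => r_of_ag H (fun H' => h (b₂.trans H')) (b₂.symm.trans a₂) (agA.refl _ _)⟩

theorem lemE : ∀ᶠ D in Fl, ∀ s, Sit D s → ∀ N δ, Sub D s N δ → ∀ σ ∈ N, s.Nice σ →
    ∀ a, has s.K a → δ ≤ a → ∀ β < δ, (∃ c < δ, agA (s.r σ) β a c ∧ s.r σ c a) ∧
      ∃ c < δ, agA (s.r σ) β a c ∧ s.r σ a c := by
  filter_upwards [lemE0] with D hD s hs N δ hN σ hσ hn a ha hδ β hβ
  obtain ⟨c, h₁, h₂, h₃⟩ := hD s hs N δ hN σ hσ hn a ha hδ β hβ true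
  obtain ⟨c', h₁', h₂', h₃'⟩ := hD s hs N δ hN σ hσ hn a ha hδ β hβ false
  refine ⟨⟨c, h₁, h₂, ?_⟩, c', h₁', h₂', by simpa using h₃'⟩
  rcases r_tri (r := s.r σ) c a with h | rfl | h
  exacts [h, absurd h₁ hδ.not_gt, absurd (by simpa using h) h₃]

theorem cone : ∀ᶠ D in Fl, ∀ s, Sit D s → ∀ N δ, Sub D s N δ → ∀ σ ∈ N, s.LL σ →
    ∀ F, s.Adm N F → ∀ x ∈ F, δ ≤ x.2 → ∀ γ < δ, ∃ F', s.Adm N F' ∧
      (∀ y, y ∈ F' ↔ y ∈ F ∧ γ ≤ y.2 ∧ eqv (s.r σ) γ x.1 y.1) ∧ s.Unb F' := by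
  filter_upwards [rep, unbN, compX (fun s (a : V × V × Om × List Pt) (y : X) =>
    y ∈ s.vx a.2.1 ∧ a.2.2.1 ≤ y.2 ∧ eqv (s.r a.1) a.2.2.1 a.2.2.2 y.1)]
    with D h₁ h₂ h₃
  rintro s hs N δ hN σ hσ hn _ ⟨τ, hτ, _, rfl⟩ x hx hδ γ hγ
  obtain ⟨z, h₄, h₅⟩ := h₁ s hs N δ hN σ hσ hn γ hγ x.1 (hs.cl.has_prod.1 hx.1).1
  have hF := h₃ s hs N hN.cl hN.sub hN.hP (σ, τ, γ, z)
    (by simp only [hN.cl.has_pair]; exact ⟨hσ, hτ, hN.iff.2 hγ, h₄⟩)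
  refine ⟨_, hF, fun y => ⟨fun h => ⟨h.2.1, h.2.2.1, h₅.trans h.2.2.2⟩,
    fun h => ⟨h.1.1, h.1, h.2.1, h₅.symm.trans h.2.2⟩⟩, h₂ s hs N δ hN _ hF fun β hβ =>
      ⟨x, ⟨hx.1, hx, hγ.le.trans hδ, h₅.symm⟩, hβ.le.trans hδ⟩⟩

def agS (r : Om → Om → Prop) (b : Bool) (γ : Om) (p q : Pt) : Prop :=
  (b = true → agA r γ p.1 q.1) ∧ (b = false → U.ag γ p.2 q.2)

instance {α : Type*} [Code α] (σ : α → V) (b : α → Bool) (γ : α → Om) (f g : α → Pt) :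
    Def (fun s a => agS (s.r (σ a)) (b a) (γ a) (f a) (g a)) := by unfold agS; infer_instance

def St.Pr (s : St) (σ : V) (Z : Set X) (z : List Pt) (γ : Om) : Prop :=
  ∀ β : Om, has s.K β → ∃ y, y ∈ Z ∧ β ≤ y.2 ∧ γ ≤ y.2 ∧ eqv (s.r σ) γ z y.1

instance {α : Type*} [Code α] (σ τ : α → V) [Cf τ] (z : α → List Pt) (γ : α → Om) :
    Def (fun s a => s.Pr (σ a) (s.vx (τ a)) (z a) (γ a)) := by
  have := Cf.comp τ (fun x : α × Om => x.1)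
  unfold St.Pr; infer_instance

theorem pr0 : ∀ᶠ D in Fl, ∀ s, Sit D s → ∀ N δ, Sub D s N δ → ∀ σ ∈ N, s.LL σ →
    ∀ F, s.Adm N F → ∀ x ∈ F, δ ≤ x.2 → ∀ γ < δ, s.Pr σ F x.1 γ := by
  filter_upwards [cone] with D hD s hs N δ hN σ hσ hn F hF x hx hδ γ hγ β hβ
  obtain ⟨F', -, h₁, h₂⟩ := hD s hs N δ hN σ hσ hn F hF x hx hδ γ hγ
  obtain ⟨y, h₃, h₄⟩ := h₂ β hβ
  exact ⟨y, ((h₁ y).1 h₃).1, h₄, ((h₁ y).1 h₃).2⟩

theorem fs_step : ∀ᶠ D in Fl, ∀ s, Sit D s → ∀ N δ, Sub D s N δ → ∀ σ ∈ N, s.Nice σ →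
    ∀ Z, s.Adm N Z → (∀ z, z ∈ Z → ∀ γ ≤ z.2, (z.1, γ) ∈ Z) → (∀ z, z ∈ Z → prp z) →
    ∀ z γ, has N z → γ < δ → s.Pr σ Z z γ → ∀ i < z.length, ∀ b p,
      ∃ z' γ', has N z' ∧ γ ≤ γ' ∧ γ' < δ ∧ s.Pr σ Z z' γ' ∧ eqv (s.r σ) γ z z' ∧
        ¬ agS (s.r σ) b γ' (nt z' i) p := by
  filter_upwards [pr0, unbN, nbU, compX (fun s (a : V × V × Om × List Pt) (y : X) =>
    y ∈ s.vx a.2.1 ∧ a.2.2.1 ≤ y.2 ∧ eqv (s.r a.1) a.2.2.1 a.2.2.2 y.1 ∧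
      s.Pr a.1 (s.vx a.2.1) y.1 y.2),
    elemS (fun s (a : V × V × ℕ × Bool) (y : X × X) => y.1 ∈ s.vx a.2.1 ∧ y.2 ∈ s.vx a.2.1 ∧
      ¬ agS (s.r a.1) a.2.2.2 (min y.1.2 y.2.2) (nt y.1.1 a.2.2.1) (nt y.2.1 a.2.2.1))]
    with D h₁ h₂ h₃ h₄ h₅
  rintro s hs N δ hN σ hσ hn _ ⟨τ, hτ, hτ', rfl⟩ hd hp z γ hz hγ hP i hi b p
  have hF := h₄ s hs N hN.cl hN.sub hN.hP (σ, τ, γ, z)
    (by simp only [hN.cl.has_pair]; exact ⟨hσ, hτ, hN.iff.2 hγ, hz⟩)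
  have hu := h₂ s hs N δ hN _ hF fun β hβ => by
    obtain ⟨y, a₁, a₂, -, a₃⟩ := hP δ hN.hd
    have a₄ := hd y a₁ _ ((max_lt hβ hγ).le.trans a₂)
    exact ⟨(y.1, max β γ), ⟨a₄.1, a₄, le_max_right _ _, a₃,
      h₁ s hs N δ hN σ hσ hn.1 _ ⟨τ, hτ, hτ', rfl⟩ y a₁ a₂ _ (max_lt hβ hγ)⟩, le_max_left _ _⟩
  obtain ⟨ρ, hρ, hρ', e⟩ := hF
  have hF : s.Adm N (s.vx ρ) := ⟨ρ, hρ, hρ', rfl⟩
  have e' : ∀ y : X, y ∈ s.vx ρ → y ∈ s.vx τ ∧ γ ≤ y.2 ∧ eqv (s.r σ) γ z y.1 ∧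
      s.Pr σ (s.vx τ) y.1 y.2 := fun y hy => (e.ge hy).2
  rw [e] at hu
  have hpp : ∀ y : X, y ∈ s.vx ρ → ppr y.2 (nt y.1 i) := fun y hy =>
    hp y (e' y hy).1 _ (nt_mem ((e' y hy).2.2.1.1 ▸ hi))
  obtain ⟨x, hx, y, hy, H⟩ : ∃ x ∈ (s.vx ρ : Set X), ∃ y ∈ (s.vx ρ : Set X),
      ¬ agS (s.r σ) b (min x.2 y.2) (nt x.1 i) (nt y.1 i) := by
    cases b
    · obtain ⟨x, hx, y, hy, H⟩ := h₃ s hs N δ hN _ hF hu i fun x hx => (hpp x hx).2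
      exact ⟨x, hx, y, hy, fun h => H (h.2 rfl)⟩
    · obtain ⟨x, hx, y, hy, H⟩ := hn.2.adm hs (hF.mono hN.sub) hu i fun x hx => (hpp x hx).1
      exact ⟨x, hx, y, hy, fun h => H (h.1 rfl)⟩
  obtain ⟨⟨x, y⟩, a₁, hx, hy, H⟩ := h₅ s hs N δ hN (σ, ρ, i, b)
    (by simp only [hN.cl.has_pair, hN.cl.has_nat, hN.cl.has_bool, and_true]; exact ⟨hσ, hρ⟩)
    (x, y) (hs.cl.has_pair.2 ⟨hx.1, hy.1⟩) ⟨hx, hy, H⟩
  obtain ⟨a₂, a₃⟩ := hN.cl.has_pair.1 a₁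
  by_cases h : agS (s.r σ) b x.2 (nt x.1 i) p
  · refine ⟨y.1, y.2, (hN.cl.has_prod.1 a₃).1, (e' y hy).2.1, hN.has_lt a₃, (e' y hy).2.2.2,
      (e' y hy).2.2.1, fun h' => H ⟨fun e => ?_, fun e => ?_⟩⟩
    · exact ((h.1 e).mono (min_le_left _ _)).trans ((h'.1 e).mono (min_le_right _ _)).symm
    · exact ((h.2 e).mono (min_le_left _ _)).trans ((h'.2 e).mono (min_le_right _ _)).symm
  · exact ⟨x.1, x.2, (hN.cl.has_prod.1 a₂).1, (e' x hx).2.1, hN.has_lt a₂, (e' x hx).2.2.2,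
      (e' x hx).2.2.1, h⟩

theorem fs : ∀ᶠ D in Fl, ∀ s, Sit D s → ∀ N δ, Sub D s N δ → ∀ σ ∈ N, s.Nice σ →
    ∀ Z, s.Adm N Z → (∀ z, z ∈ Z → ∀ γ ≤ z.2, (z.1, γ) ∈ Z) → (∀ z, z ∈ Z → prp z) →
    ∀ w, (w, δ) ∈ Z → ∃ z γ, has N z ∧ γ < δ ∧ (z, γ) ∈ Z ∧ spl (s.r σ) γ z w := by
  filter_upwards [fs_step, pr0, rep, elemS (fun s (a : V × V × Om × List Pt) (y : List Pt) =>
    (y, a.2.2.1) ∈ s.vx a.2.1 ∧ eqv (s.r a.1) a.2.2.1 a.2.2.2 y)]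
    with D h₁ h₂ h₃ h₄ s hs N δ hN σ hσ hn Z hZ hd hp w hw
  have key : ∀ n ≤ w.length, ∃ z γ, has N z ∧ γ < δ ∧ s.Pr σ Z z γ ∧ z.length = w.length ∧
      ∀ i < n, psp (s.r σ) γ (nt z i) (nt w i) := by
    intro n hn'
    induction n with
    | zero =>
      obtain ⟨z, a₁, a₂⟩ := h₃ s hs N δ hN σ hσ hn.1 ⊥ hN.lim.1 w (hs.cl.has_pair.1 (hZ.has hw)).1
      refine ⟨z, ⊥, a₁, hN.lim.1, fun β hβ => ?_, a₂.1.symm, by simp⟩
      obtain ⟨y, b₁, b₂, b₃, b₄⟩ := h₂ s hs N δ hN σ hσ hn.1 Z hZ _ hw le_rfl ⊥ hN.lim.1 β hβ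
      exact ⟨y, b₁, b₂, b₃, a₂.symm.trans b₄⟩
    | succ n ih =>
      obtain ⟨z, γ, a₁, a₂, a₃, a₄, a₅⟩ := ih (by omega)
      obtain ⟨z', γ', b₁, b₂, b₃, b₄, b₅, b₆⟩ := h₁ s hs N δ hN σ hσ hn Z hZ hd hp z γ a₁ a₂ a₃ n
        (by omega) true (nt w n)
      obtain ⟨z'', γ'', c₁, c₂, c₃, c₄, c₅, c₆⟩ := h₁ s hs N δ hN σ hσ hn Z hZ hd hp z' γ' b₁ b₃ b₄ n
        (by have := b₅.1; omega) false (nt w n)
      refine ⟨z'', γ'', c₁, c₃, c₄, c₅.1.symm.trans (b₅.1.symm.trans a₄), fun i hi => ?_⟩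
      rcases Nat.lt_succ_iff_lt_or_eq.1 hi with hi | rfl
      · exact ((a₅ i hi).congr ((b₅.trans (c₅.mono b₂)).nt i) (peq.refl _ _)).mono (b₂.trans c₂)
      · exact ⟨fun H => b₆ ⟨fun _ => (c₅.nt i).1.trans (H.mono c₂), by simp⟩,
          fun H => c₆ ⟨by simp, fun _ => H⟩⟩
  obtain ⟨z, γ, a₁, a₂, a₃, a₄, a₅⟩ := key _ le_rfl
  obtain ⟨y, b₁, -, b₂, b₃⟩ := a₃ ⊥ hs.bas.bot
  obtain ⟨τ, hτ, -, rfl⟩ := hZ
  obtain ⟨z', c₁, c₂, c₃⟩ := h₄ s hs N δ hN (σ, τ, γ, z)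
    (by simp only [hN.cl.has_pair]; exact ⟨hσ, hτ, hN.iff.2 a₂, a₁⟩) y.1
    (hs.cl.has_prod.1 b₁.1).1 ⟨hd y b₁ γ b₂, b₃⟩
  exact ⟨z', γ, c₁, a₂, c₂, spl.congr ⟨a₄, a₄ ▸ a₅⟩ c₃ (eqv.refl _ _)⟩

theorem St.Unb.two {D s} (hs : Sit D s) {F} (hF : s.Adm s.K F) (h : s.Unb F) :
    ∃ x ∈ F, ∃ y ∈ F, x.2 ≠ y.2 := by
  obtain ⟨x, hx, -⟩ := h ⊥ hs.bas.bot
  obtain ⟨β, h₁, h₂⟩ := hs.bas.up (hs.cl.has_prod.1 (hF.has hx)).2
  obtain ⟨y, hy, h₃⟩ := h β h₁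
  exact ⟨x, hx, y, hy, (h₂.trans_le h₃).ne⟩

theorem good_empty : ∀ᶠ D in Fl, ∀ s, Sit D s → ∀ N τ, Sub D s N τ.1 → s.IsTr τ N → ∀ σ,
    s.Good σ τ ∅ := by
  filter_upwards [unbN, compX (fun s (a : V) (y : X) => y ∈ s.vx a ∧ y.1 = [])]
    with D h₁ h₂ s hs N τ hN hτ σ
  rw [St.good_iff hτ]
  rintro x - hx _ ⟨ρ, a₁, a₂, rfl⟩ hT β hβ
  obtain rfl : x = [] := List.eq_nil_iff_forall_not_mem.2 hx
  by_contra hc
  push Not at hc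
  have hF := h₂ s hs N hN.cl hN.sub hN.hP ρ a₁
  obtain ⟨F', b₁, b₂, b₃, b₄⟩ := St.null_iff.1 hT _ (hF.mono hN.sub) (fun y hy => hy.2.1)
    (h₁ s hs N _ hN _ hF fun γ hγ => by
      obtain ⟨y, c₁, c₂, c₃⟩ := hc (max β γ) (max_lt hβ hγ) (le_max_left _ _)
      exact ⟨y, ⟨c₁.1, c₁, List.length_eq_zero_iff.1 c₃.1.symm⟩, c₂ ▸ le_max_right _ _⟩)
  obtain ⟨x, hx, y, hy, H⟩ := b₃.two hs b₁
  refine b₄ x hx y hy H ?_
  rw [(b₂ hx).2.2, (b₂ hy).2.2]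
  exact ⟨rfl, by simp⟩

end Pool.Agent.MP_656653_lc

end

section

/-! Preservation of goodness. -/

set_option synthInstance.maxSize 1000000

namespace Pool.Agent.MP_656653_lc

open Set Filter

theorem thin : ∀ᶠ D in Fl, ∀ s, Sit D s → ∀ σ ∈ s.K, ∀ Z, s.Adm s.K Z → s.Unb Z →
    ∀ T, s.Adm s.K T → s.Null σ T → ∀ J, (∀ z ∈ Z, inS (s.r σ) T (pj J z.1) z.2) →
    ∃ Z', s.Adm s.K Z' ∧ Z' ⊆ Z ∧ s.Unb Z' ∧ ∀ x ∈ Z', ∀ y ∈ Z', x.2 ≠ y.2 →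
      ¬ mat (s.r σ) (min x.2 y.2) (pj J x.1) (pj J y.1) := by
  filter_upwards [compX (fun s (a : V × V × V × List ℕ) (y : X) => y ∈ s.vx a.2.1 ∧
      ∃ z, z ∈ s.vx a.2.2.1 ∧ y.2 = z.2 ∧ eqv (s.r a.1) z.2 (pj a.2.2.2 z.1) y.1),
    compX (fun s (a : V × V × V × List ℕ) (z : X) => z ∈ s.vx a.2.1 ∧
      inS (s.r a.1) (s.vx a.2.2.1) (pj a.2.2.2 z.1) z.2)] with D h₁ h₂
  rintro s hs σ hσ _ ⟨ζ, hζ, -, rfl⟩ hu _ ⟨τ, hτ, -, rfl⟩ hT J H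
  have hF := h₁ s hs _ hs.cl subset_rfl hs.hP (σ, τ, ζ, J)
    (by simp only [hs.cl.has_pair, hs.cl.alw J, and_true]; exact ⟨hσ, hτ, hζ⟩)
  obtain ⟨_, ⟨ρ, hρ, -, rfl⟩, a₁, a₂, a₃⟩ := St.null_iff.1 hT _ hF (fun y hy => hy.2.1)
    fun β hβ => by
      obtain ⟨z, b₁, b₂⟩ := hu β hβ
      obtain ⟨y, c₁, c₂, c₃⟩ := H z b₁
      exact ⟨y, ⟨c₁.1, c₁, z, b₁, c₂, c₃⟩, c₂ ▸ b₂⟩
  refine ⟨_, h₂ s hs _ hs.cl subset_rfl hs.hP (σ, ζ, ρ, J)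
    (by simp only [hs.cl.has_pair, hs.cl.alw J, and_true]; exact ⟨hσ, hζ, hρ⟩),
    fun y hy => hy.2.1, fun β hβ => ?_, ?_⟩
  · obtain ⟨y, b₁, b₂⟩ := a₂ β hβ
    obtain ⟨-, -, z, c₁, c₂, c₃⟩ := a₁ b₁
    exact ⟨z, ⟨c₁.1, c₁, y, b₁, c₂, c₃⟩, c₂ ▸ b₂⟩
  · rintro x ⟨-, -, x', b₁, b₂, b₃⟩ y ⟨-, -, y', c₁, c₂, c₃⟩ hne hm
    refine a₃ x' b₁ y' c₁ (by rwa [b₂, c₂]) ?_
    rw [b₂, c₂]
    exact hm.congr (b₃.mono (min_le_left _ _)) (c₃.mono (min_le_right _ _))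

theorem lemG : ∀ᶠ D in Fl, ∀ s, Sit D s → ∀ N, Cl D N → N ⊆ s.K → s.P ∈ N → ∀ σ ∈ N, s.Dich σ →
    ∀ Z, s.Adm N Z → ∀ (L : List (Set X × List ℕ)), (∀ e ∈ L, s.Adm N e.1 ∧ s.Null σ e.1) →
    ∀ J, (∀ x ∈ Z, ∀ y ∈ Z, spl (s.r σ) (min x.2 y.2) x.1 y.1 →
      mat (s.r σ) (min x.2 y.2) (pj J x.1) (pj J y.1) →
      ∃ e ∈ L, mat (s.r σ) (min x.2 y.2) (pj e.2 x.1) (pj e.2 y.1)) →
    ∃ T, s.Adm N T ∧ s.Null σ T ∧ ∀ z ∈ Z, prp z →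
      (∀ e ∈ L, inS (s.r σ) e.1 (pj e.2 z.1) z.2) → (pj J z.1, z.2) ∈ T := by
  filter_upwards [thin, compX (fun s (a : V × V × V × List ℕ) (z : X) => z ∈ s.vx a.2.1 ∧
      inS (s.r a.1) (s.vx a.2.2.1) (pj a.2.2.2 z.1) z.2),
    compX (fun s (a : V) (z : X) => z ∈ s.vx a ∧ prp z),
    compX (fun s (a : V × List ℕ) (y : X) => ∃ z, z ∈ s.vx a.1 ∧ y = (pj a.2 z.1, z.2)),
    compX (fun s (a : V × V × List ℕ) (z : X) => z ∈ s.vx a.1 ∧ (pj a.2.2 z.1, z.2) ∈ s.vx a.2.1)]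
    with D h₁ h₂ h₃ h₄ h₅
  rintro s hs N hN hNK hP σ hσ hD _ ⟨ζ, hζ, -, rfl⟩ L hL J H
  obtain ⟨Z₁, ⟨ζ₁, hζ₁, -, rfl⟩, e₁⟩ : ∃ Z₁, s.Adm N Z₁ ∧ ∀ z, z ∈ Z₁ ↔ z ∈ s.vx ζ ∧ prp z ∧
      ∀ e ∈ L, inS (s.r σ) e.1 (pj e.2 z.1) z.2 := by
    clear H
    induction L with
    | nil => exact ⟨_, h₃ s hs N hN hNK hP ζ hζ, fun z =>
        ⟨fun h => ⟨h.2.1, h.2.2, by simp⟩, fun h => ⟨h.1.1, h.1, h.2.1⟩⟩⟩
    | cons e L ih =>
      obtain ⟨_, ⟨ζ₁, hζ₁, -, rfl⟩, e₁⟩ := ih fun e he => hL e (List.mem_cons_of_mem _ he)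
      obtain ⟨⟨τ, hτ, -, e₂⟩, -⟩ := hL e List.mem_cons_self
      refine ⟨_, h₂ s hs N hN hNK hP (σ, ζ₁, τ, e.2)
        (by simp only [hN.has_pair, hN.alw e.2, and_true]; exact ⟨hσ, hζ₁, hτ⟩), fun z => ?_⟩
      simp only [mem_ofPred_eq, List.forall_mem_cons, e₁, St.vx, ← e₂]
      exact ⟨fun h => ⟨h.2.1.1, h.2.1.2.1, h.2.2, h.2.1.2.2⟩,
        fun h => ⟨h.1.1, ⟨h.1, h.2.1, h.2.2.2⟩, h.2.2.1⟩⟩
  refine ⟨_, h₄ s hs N hN hNK hP (ζ₁, J) (hN.has_pair.2 ⟨hζ₁, hN.alw J⟩), St.null_iff.2 ?_,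
    fun z a₁ a₂ a₃ => ⟨hs.cl.has_pair.2 ⟨hs.has_pj (hs.cl.has_prod.1 a₁.1).1 J,
      (hs.cl.has_prod.1 a₁.1).2⟩, z, (e₁ z).2 ⟨a₁, a₂, a₃⟩, rfl⟩⟩
  rintro _ ⟨φ, hφ, -, rfl⟩ a₁ a₂
  have hZ₂ := h₅ s hs _ hs.cl subset_rfl hs.hP (ζ₁, φ, J)
    (by simp only [hs.cl.has_pair, hs.cl.alw J, and_true]; exact ⟨hNK hζ₁, hφ⟩)
  obtain ⟨Z₃, b₁, b₂, b₃, b₄⟩ := (hD _ hZ₂ (fun β hβ => by
    obtain ⟨y, c₁, c₂⟩ := a₂ β hβ
    obtain ⟨-, z, c₃, rfl⟩ := a₁ c₁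
    exact ⟨z, ⟨c₃.1, c₃, c₁⟩, c₂⟩) (fun z hz => ((e₁ z).1 hz.2.1).2.1) false).resolve_right (by simp)
  obtain ⟨_, ⟨ζ₄, hζ₄, -, rfl⟩, c₂, c₃, c₄⟩ : ∃ Z₄, s.Adm s.K Z₄ ∧ Z₄ ⊆ Z₃ ∧ s.Unb Z₄ ∧
      ∀ e ∈ L, ∀ x ∈ Z₄, ∀ y ∈ Z₄, x.2 ≠ y.2 →
        ¬ mat (s.r σ) (min x.2 y.2) (pj e.2 x.1) (pj e.2 y.1) := by
    have hL' : ∀ e ∈ L, s.Adm N e.1 ∧ s.Null σ e.1 ∧ ∀ z ∈ Z₃, inS (s.r σ) e.1 (pj e.2 z.1) z.2 :=
      fun e he => ⟨(hL e he).1, (hL e he).2, fun z hz => ((e₁ z).1 (b₂ hz).2.1).2.2 e he⟩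
    clear H e₁ hL
    induction L with
    | nil => exact ⟨Z₃, b₁, subset_rfl, b₃, by simp⟩
    | cons e L ih =>
      obtain ⟨Z₄, c₁, c₂, c₃, c₄⟩ := ih fun e he => hL' e (List.mem_cons_of_mem _ he)
      obtain ⟨d₁, d₂, d₃⟩ := hL' e List.mem_cons_self
      obtain ⟨Z₅, f₁, f₂, f₃, f₄⟩ := h₁ s hs σ (hNK hσ) Z₄ c₁ c₃ e.1 (d₁.mono hNK) d₂ e.2
        fun z hz => d₃ z (c₂ hz)
      exact ⟨Z₅, f₁, f₂.trans c₂, f₃, List.forall_mem_cons.2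
        ⟨f₄, fun e he x hx y hy => c₄ e he x (f₂ hx) y (f₂ hy)⟩⟩
  refine ⟨_, h₄ s hs _ hs.cl subset_rfl hs.hP (ζ₄, J) (hs.cl.has_pair.2 ⟨hζ₄, hs.cl.alw J⟩),
    ?_, fun β hβ => ?_, ?_⟩
  · rintro _ ⟨-, z, hz, rfl⟩
    exact (b₂ (c₂ hz)).2.2
  · obtain ⟨z, d₁, d₂⟩ := c₃ β hβ
    exact ⟨(pj J z.1, z.2), ⟨(b₂ (c₂ d₁)).2.2.1, z, d₁, rfl⟩, d₂⟩
  · rintro _ ⟨-, x, hx, rfl⟩ _ ⟨-, y, hy, rfl⟩ hne hm
    obtain ⟨e, he, h⟩ := H x ((e₁ x).1 (b₂ (c₂ hx)).2.1).1 y ((e₁ y).1 (b₂ (c₂ hy)).2.1).1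
      (b₄ x (c₂ hx) y (c₂ hy) hne).1 hm
    exact c₄ e he x hx y hy hne h

theorem exists_idx {z x : List Pt} {S : ℕ → Prop} (h : ∀ p ∈ x, ∃ i, S i ∧ nt z i = p) :
    ∃ J, (∀ i ∈ J, S i) ∧ pj J z = x := by
  choose! f h₁ h₂ using h
  refine ⟨x.map f, List.forall_mem_map.2 h₁, ?_⟩
  unfold pj
  rw [List.map_map]
  conv_rhs => rw [← List.map_id x]
  exact List.map_congr_left h₂

theorem pj_shift (w x : List Pt) : pj ((List.range x.length).map (w.length + ·)) (w ++ x) = x := by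
  conv_rhs => rw [← pj_range x]
  unfold pj
  rw [List.map_map]
  exact List.map_congr_left fun i _ => nt_append_right _ _ _

theorem pj_take (w x : List Pt) : pj (List.range w.length) (w ++ x) = w := by
  conv_rhs => rw [← pj_range w]
  exact List.map_congr_left fun i hi => nt_append_left (List.mem_range.1 hi)

theorem nt_pj_range {n i : ℕ} (h : i < n) (y : List Pt) : nt (pj (List.range n) y) i = nt y i := by
  unfold pj
  rw [nt_map _ _ (by simpa using h), List.getElem_range]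

/-- The common core of the two preservation lemmas. -/
theorem lemG' : ∀ᶠ D in Fl, ∀ s, Sit D s → ∀ N τ, Sub D s N τ.1 → s.IsTr τ N → ∀ σ ∈ N,
    s.Dich σ → ∀ Q : Set Pt, (∀ q ∈ Q, has s.K q ∧ ppr τ.1 q) → s.Good σ τ Q →
    ∀ w : List Pt, has s.K w → prp (w, τ.1) → ∀ Is : List (List ℕ),
    (∀ I ∈ Is, ∀ i ∈ I, i < w.length) → ∀ Z, s.Adm N Z → ∀ β < τ.1,
    (∀ x γ, has s.K x → β ≤ γ → γ < τ.1 → (w ++ x, γ) ∈ Z) →
    (∀ x ∈ Z, ∀ y ∈ Z, spl (s.r σ) (min x.2 y.2) x.1 y.1 →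
      ∃ I ∈ Is, mat (s.r σ) (min x.2 y.2) (pj I x.1) (pj I y.1)) →
    ∃ I ∈ Is, s.Good σ τ (Q ∪ {p | p ∈ pj I w}) := by
  classical
  filter_upwards [lemG] with D h₁
  intro s hs N τ hN hτ σ hσ hD Q hQ hG w hw hwp Is hIs Z hZ β hβ hZ₁ hZ₂
  by_contra hc
  simp only [St.good_iff hτ] at hc hG
  push Not at hc
  choose! x x₁ x₂ T T₁ T₂ b b₁ b₂ using hc
  let x₀ : List Pt := (Is.flatMap x).filter (· ∈ Q)
  have hx₀ : ∀ p ∈ x₀, p ∈ Q := fun p hp => by simpa using (List.mem_filter.1 hp).2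
  have hx₀K : has s.K x₀ := hs.cl.has_list.2 fun p hp => (hQ p (hx₀ p hp)).1
  let J₀ := (List.range x₀.length).map (w.length + ·)
  have hJ : ∀ I ∈ Is, ∃ J, (∀ i ∈ J, i ∈ J₀ ∨ i ∈ I) ∧ pj J (w ++ x₀) = x I := by
    intro I hI
    refine exists_idx fun p hp => ?_
    rcases x₂ I hI p hp with h | h
    · obtain ⟨i, hi, e⟩ := exists_nt (x := x₀) (p := p)
        (List.mem_filter.2 ⟨List.mem_flatMap.2 ⟨I, hI, hp⟩, by simpa using h⟩)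
      exact ⟨w.length + i, Or.inl (List.mem_map.2 ⟨i, List.mem_range.2 hi, rfl⟩),
        (nt_append_right _ _ _).trans e⟩
    · obtain ⟨i, hi, e⟩ := List.mem_map.1 h
      exact ⟨i, Or.inr hi, (nt_append_left (hIs I hI i hi)).trans e⟩
  choose! J J₁ J₂ using hJ
  obtain ⟨T₀, a₁, a₂, a₃⟩ := h₁ s hs N hN.cl hN.sub hN.hP σ hσ hD Z hZ (Is.map fun I => (T I, J I))
    (List.forall_mem_map.2 fun I hI => ⟨T₁ I hI, T₂ I hI⟩) J₀ fun y hy y' hy' h h' => by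
      obtain ⟨I, hI, h''⟩ := hZ₂ y hy y' hy' h
      refine ⟨_, List.mem_map.2 ⟨I, hI, rfl⟩, all2_pj.2 fun i hi => ?_⟩
      exact (J₁ I hI i hi).elim (all2_pj.1 h' i) (all2_pj.1 h'' i)
  obtain ⟨β', c₁, c₂⟩ := hN.lim.ev (List.finite_toSet Is) (Q := fun I β => b I ≤ β)
    (fun _ _ _ h h' => h'.trans h) fun I hI => ⟨b I, b₁ I hI, le_rfl⟩
  obtain ⟨γ, d₁, d₂, d₃⟩ := hG x₀ hx₀K hx₀ T₀ a₁ a₂ _ (max_lt hβ c₁)
  refine d₃ ⟨(x₀, γ), ?_, rfl, eqv.refl _ _⟩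
  have := a₃ (w ++ x₀, γ) (hZ₁ x₀ γ hx₀K ((le_max_left _ _).trans d₂) d₁) (fun p hp => by
    rcases List.mem_append.1 hp with h | h
    exacts [(hwp p h).mono d₁.le, (hQ p (hx₀ p h)).2.mono d₁.le])
    (List.forall_mem_map.2 fun I hI => by
      simp only [J₂ I hI]
      exact b₂ I hI γ d₁ ((c₂ I hI).trans ((le_max_right _ _).trans d₂)))
  simpa only [J₀, pj_shift] using this

theorem lemB : ∀ᶠ D in Fl, ∀ s, Sit D s → ∀ N τ, Sub D s N τ.1 → s.IsTr τ N → ∀ σ ∈ N,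
    s.Dich σ → ∀ Q : Set Pt, (∀ q ∈ Q, has s.K q ∧ ppr τ.1 q) → s.Good σ τ Q →
    ∀ F Z Is, (∀ x ∈ F, prp x) → s.Adm N Z → s.Large σ true F Z Is → ∀ w, (w, τ.1) ∈ Z →
    ∃ I ∈ Is, s.Good σ τ (Q ∪ {p | p ∈ pj I w}) := by
  filter_upwards [lemG', compX (fun s (a : V × ℕ) (y : X) =>
    a.2 ≤ y.1.length ∧ (pj (List.range a.2) y.1, y.2) ∈ s.vx a.1)] with D h₁ h₂
  rintro s hs N τ hN hτ σ hσ hD Q hQ hG F _ Is hF ⟨ζ, hζ, -, rfl⟩ hL w hw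
  have hIs : ∀ I ∈ Is, ∀ i ∈ I, i < w.length := by
    intro I hI i hi
    obtain ⟨x, a₁, a₂, a₃⟩ := hL.2.2.2.2 _ hw I hI
    have := a₃.symm.prp (prp.mono (hF x a₁) a₂) (nt w i) (List.mem_map.2 ⟨i, hi, rfl⟩)
    by_contra hc
    unfold nt at this
    rw [List.getD_eq_default _ _ (not_lt.1 hc)] at this
    exact hN.lim.1.not_ge this.1
  refine h₁ s hs N τ hN hτ σ hσ hD Q hQ hG w (hs.cl.has_pair.1 hw.1).1 (hL.2.2.1 _ hw) Is hIs _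
    (h₂ s hs N hN.cl hN.sub hN.hP (ζ, w.length) (hN.cl.has_pair.2 ⟨hζ, hN.cl.has_nat _⟩))
    ⊥ hN.lim.1 (fun x γ hx _ hγ => ⟨?_, by simp, ?_⟩) ?_
  · refine hs.cl.has_pair.2 ⟨hs.cl.has_list.2 fun p hp => ?_, hs.has_le hN hγ.le⟩
    rcases List.mem_append.1 hp with h | h
    exacts [hs.cl.has_list.1 (hs.cl.has_pair.1 hw.1).1 p h, hs.cl.has_list.1 hx p h]
  · simp only [pj_take]
    exact hL.2.1 _ hw γ hγ.le
  · rintro x ⟨-, a₁, a₂⟩ y ⟨-, b₁, b₂⟩ h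
    obtain ⟨-, I, hI, h'⟩ := hL.2.2.2.1 _ (hL.2.1 _ a₂ _ (min_le_left x.2 y.2)) _
      (hL.2.1 _ b₂ _ (min_le_right x.2 y.2)) rfl
      (all2_pj.2 fun i hi => h.2 i ((List.mem_range.1 hi).trans_le a₁))
    refine ⟨I, hI, all2_pj.2 fun i hi => ?_⟩
    have := all2_pj.1 h' i hi
    rwa [nt_pj_range (hIs I hI i hi), nt_pj_range (hIs I hI i hi)] at this

theorem lemC : ∀ᶠ D in Fl, ∀ s, Sit D s → ∀ N τ, Sub D s N τ.1 → s.IsTr τ N → ∀ σ ∈ N,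
    s.Dich σ → ∀ Q : Set Pt, (∀ q ∈ Q, has s.K q ∧ ppr τ.1 q) → s.Good σ τ Q →
    ∀ (a : Om) (t : Bool → U) (β : Om), has s.K a → τ.1 ≤ a → (∀ ε, has s.K (t ε)) →
    (∀ ε, τ.1 ≤ (t ε).ht) → β < τ.1 → U.Opp β τ.1 (t true) (t false) →
    ∃ ε, s.Good σ τ (insert (a, t ε) Q) := by
  filter_upwards [lemG', compX (fun _ (a : Om × U × U) (y : X) => 2 ≤ y.1.length ∧ a.1 ≤ y.2 ∧
    (nt y.1 0).1 = (nt y.1 1).1 ∧ U.ag a.1 a.2.1 (nt y.1 0).2 ∧ U.ag a.1 a.2.2 (nt y.1 1).2 ∧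
    U.Opp a.1 y.2 (nt y.1 0).2 (nt y.1 1).2)] with D h₁ h₂
  intro s hs N τ hN hτ σ hσ hD Q hQ hG a t β ha ha' ht ht' hβ ho
  obtain ⟨m, -, m₁, -, m₂, -⟩ := U.minmax β (t true)
  obtain ⟨m', -, m₁', -, m₂', -⟩ := U.minmax β (t false)
  have hw : has s.K [(a, t true), (a, t false)] := hs.cl.has_list.2 (by
    simpa using ⟨hs.cl.has_pair.2 ⟨ha, ht _⟩, hs.cl.has_pair.2 ⟨ha, ht _⟩⟩)
  obtain ⟨I, hI, H⟩ := h₁ s hs N τ hN hτ σ hσ hD Q hQ hG [(a, t true), (a, t false)] hw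
    (by simpa [prp] using ⟨⟨ha', ht' _⟩, ha', ht' _⟩) [[0], [1]] (by simp) _
    (h₂ s hs N hN.cl hN.sub hN.hP (β, m, m') (by
      simp only [hN.cl.has_pair, hN.has_u]
      exact ⟨hN.iff.2 hβ, m₂.trans_lt hβ, m₂'.trans_lt hβ⟩)) β hβ
    (fun x γ hx h h' => ⟨hs.cl.has_pair.2 ⟨hs.cl.has_list.2 fun p hp => by
      rcases List.mem_append.1 hp with h | h
      exacts [hs.cl.has_list.1 hw p h, hs.cl.has_list.1 hx p h], hs.has_le hN h'.le⟩,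
      by simp, h, rfl, m₁, m₁', ho.mono h'.le⟩) (by
      rintro x ⟨-, a₁, a₂, a₃, a₄, a₅, a₆⟩ y ⟨-, b₁, b₂, b₃, b₄, b₅, b₆⟩ h
      have p₀ := h.2 0 (by omega)
      have p₁ := h.2 1 (by omega)
      by_cases hm : s.r σ (nt x.1 0).1 (nt y.1 0).1 ↔ (nt x.1 0).2 < (nt y.1 0).2
      · exact ⟨[0], by simp, all2_pj.2 (by simpa using ⟨p₀, hm⟩)⟩
      · refine ⟨[1], by simp, all2_pj.2 (by
          simp only [List.mem_singleton, forall_eq]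
          refine ⟨p₁, ?_⟩
          rw [← a₃, ← b₃]
          have e₁ := U.Opp.lt (a₄.symm.trans b₄) (a₅.symm.trans b₅) (a₆.mono (min_le_left _ y.2))
            (b₆.mono (min_le_right x.2 _)) p₀.2
          have e₂ := U.Opp.lt (b₄.symm.trans a₄) (b₅.symm.trans a₅) (b₆.mono (min_le_right x.2 _))
            (a₆.mono (min_le_left _ y.2)) p₀.symm.2
          rcases p₀.lt_or with h' | h'
          · exact iff_of_false (fun H => hm (iff_of_true H h')) (e₁ h').not_gt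
          · refine iff_of_true ?_ (e₂ h')
            by_contra H
            exact hm (iff_of_false H h'.not_gt))⟩)
  simp only [List.mem_cons, List.not_mem_nil, or_false] at hI
  rcases hI with rfl | rfl
  · refine ⟨true, ?_⟩
    convert H using 1
    ext p; simp [pj, nt, or_comm]
  · refine ⟨false, ?_⟩
    convert H using 1
    ext p; simp [pj, nt, or_comm]

end Pool.Agent.MP_656653_lc

end

section

/-! The forcing for the dichotomy: one step of properness. -/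

set_option synthInstance.maxSize 1000000

namespace Pool.Agent.MP_656653_lc

open Set Filter

abbrev Trc := Om × V
abbrev Dat := List X × List Trc

abbrev St.vd (s : St) (σ : V) : Set Dat := s.val σ

def ls {α : Type*} (l : List α) : Set α := {x | x ∈ l}

theorem exists_ls {α : Type*} {S : Set α} (h : S.Finite) : ∃ l, ls l = S :=
  ⟨h.toFinset.toList, by ext; simp [ls]⟩

namespace St

variable (s : St) (σ : V)

def H1 (F : V) (φ : Bool) : Prop :=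
  s.Nice σ ∧ s.Unb (s.vx F) ∧ (∀ x, x ∈ s.vx F → prp x) ∧
    (φ = true → ¬ ∃ ρ, s.nam ρ ∧ ∃ Is, has s.K Is ∧ s.Large σ true (s.vx F) (s.vx ρ) Is)

def Val1 (F : V) (φ : Bool) (w : Set X) (T : Set Trc) : Prop :=
  (w.Nonempty → s.H1 σ F φ) ∧ (∀ x ∈ w, x ∈ s.vx F) ∧
  (∀ x ∈ w, ∀ y ∈ w, x ≠ y → OK (s.r σ) φ x y) ∧
  ∀ τ ∈ T, (∀ x ∈ w, x.2 < τ.1 → ∀ p ∈ x.1, pbl τ.1 p) ∧
    ∀ x ∈ w, ∀ y ∈ w, τ.1 ≤ x.2 → τ.1 ≤ y.2 → eqv (s.r σ) τ.1 x.1 y.1 ∨ spl (s.r σ) τ.1 x.1 y.1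

end St

noncomputable def nx (Y : List X) (i : ℕ) : X := Y.getD i ([], ⊥)
def nI (Is : List (List ℕ)) (i : ℕ) : List ℕ := Is.getD i []

theorem nx_mem {Y : List X} {i : ℕ} (h : i < Y.length) : nx Y i ∈ Y := by
  unfold nx
  rw [List.getD_eq_getElem _ _ h]
  exact List.getElem_mem h

theorem exists_nx {Y : List X} {x : X} (h : x ∈ Y) : ∃ i < Y.length, nx Y i = x := by
  obtain ⟨i, hi, rfl⟩ := List.getElem_of_mem h
  exact ⟨i, hi, List.getD_eq_getElem _ _ hi⟩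

theorem exists_blocks (Y : List X) : ∃ (z : List Pt) (Is : List (List ℕ)),
    (∀ i < Y.length, pj (nI Is i) z = (nx Y i).1 ∧ nI Is i ∈ Is ∧ ∀ j ∈ nI Is i, j < z.length) ∧
    (∀ I ∈ Is, ∃ i < Y.length, nI Is i = I) ∧ ∀ p ∈ z, ∃ y ∈ Y, p ∈ y.1 := by
  have : ∀ y ∈ Y, ∃ J, (∀ j ∈ J, j < (Y.flatMap Prod.fst).length) ∧
      pj J (Y.flatMap Prod.fst) = y.1 :=
    fun y hy => exists_idx fun p hp => exists_nt (List.mem_flatMap.2 ⟨y, hy, hp⟩)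
  choose! J h₁ h₂ using this
  have e : ∀ i < Y.length, nI (Y.map J) i = J (nx Y i) := fun i hi => by
    unfold nI nx
    rw [List.getD_eq_getElem _ _ (by simpa using hi), List.getD_eq_getElem _ _ hi,
      List.getElem_map]
  refine ⟨Y.flatMap Prod.fst, Y.map J, fun i hi => ?_, fun I hI => ?_,
    fun p hp => List.mem_flatMap.1 hp⟩
  · rw [e i hi]
    exact ⟨h₂ _ (nx_mem hi), List.mem_map_of_mem (nx_mem hi), h₁ _ (nx_mem hi)⟩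
  · obtain ⟨y, hy, rfl⟩ := List.mem_map.1 hI
    obtain ⟨i, hi, rfl⟩ := exists_nx hy
    exact ⟨i, hi, e i hi⟩

theorem Sub.has_x {D s N δ} (h : Sub D s N δ) {x : X} :
    has N x ↔ (∀ p ∈ x.1, pbl δ p) ∧ x.2 < δ := by
  simp only [h.cl.has_prod (a := x), h.cl.has_list, h.has_pt, h.iff]

theorem val1_amalg {D s M δ} (hM : Sub D s M δ) {σ F φ} {w : Set X} {T : Set Trc} {β m : Om}
    {Y' : Set X} {T' : Set Trc} (hv : s.Val1 σ F φ w T)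
    (hv' : s.Val1 σ F φ ({x ∈ w | has M x} ∪ Y') ({τ ∈ T | has M τ} ∪ T'))
    (hT : ∀ τ ∈ T, has M τ ∨ δ ≤ τ.1) (hw : ∀ x ∈ w, has M x ∨ δ ≤ x.2)
    (hY' : ∀ x ∈ Y', has M x ∧ m ≤ x.2) (hT' : ∀ τ ∈ T', τ.1 < δ ∧ m ≤ τ.1) (hβ : β ≤ m) (hβδ : β < δ)
    (b₁ : ∀ x ∈ w, has M x → x.2 < β) (b₂ : ∀ τ ∈ T, has M τ → τ.1 ≤ β)
    (b₃ : ∀ x ∈ w, ∀ y ∈ w, δ ≤ x.2 → δ ≤ y.2 →
      eqv (s.r σ) δ x.1 y.1 ∨ spl (s.r σ) β x.1 y.1)
    (hd : ∀ x' ∈ Y', ∃ y ∈ w, δ ≤ y.2 ∧ eqv (s.r σ) β y.1 x'.1 ∧ spl (s.r σ) m y.1 x'.1 ∧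
      ¬ (φ = true ∧ mat (s.r σ) m y.1 x'.1)) :
    s.Val1 σ F φ (w ∪ Y') (T ∪ T') := by
  have K1 : ∀ x ∈ w, δ ≤ x.2 → ∀ x' ∈ Y', spl (s.r σ) m x.1 x'.1 ∧
      ∀ γ, ¬ (φ = true ∧ mat (s.r σ) γ x.1 x'.1) := by
    intro x hx hδ x' hx'
    obtain ⟨y, a₁, a₂, a₃, a₄, a₅⟩ := hd x' hx'
    have hm : m ≤ δ := (hY' x' hx').2.trans (hM.has_lt (hY' x' hx').1).le
    by_cases h : eqv (s.r σ) δ x.1 y.1
    · have := a₄.congr (h.mono hm).symm (eqv.refl _ _)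
      exact ⟨this, fun γ H => a₅ ⟨H.1, (H.2.of_spl this).congr (h.mono hm) (eqv.refl _ _)⟩⟩
    · have h' := (b₃ x hx y a₁ hδ a₂).resolve_left h
      have := h'.congr (eqv.refl _ _) a₃
      refine ⟨this.mono hβ, fun γ H => (hv.2.2.1 x hx y a₁ fun e => h (e ▸ eqv.refl _ _)).2
        ⟨H.1, ((H.2.of_spl this).congr (eqv.refl _ _) a₃.symm).mono
          (hβδ.le.trans (le_min hδ a₂))⟩⟩
  have K2 : ∀ x ∈ w, ∀ x' ∈ Y', x ≠ x' → OK (s.r σ) φ x x' := by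
    intro x hx x' hx' hne
    rcases hw x hx with h | h
    · exact hv'.2.2.1 x (Or.inl ⟨hx, h⟩) x' (Or.inr hx') hne
    · exact ⟨(K1 x hx h x' hx').1.mono (le_min ((hY' x' hx').2.trans
        ((hM.has_lt (hY' x' hx').1).le.trans h)) (hY' x' hx').2), (K1 x hx h x' hx').2 _⟩
  refine ⟨?_, ?_, ?_, ?_⟩
  · rintro ⟨x, hx | hx⟩
    exacts [hv.1 ⟨x, hx⟩, hv'.1 ⟨x, Or.inr hx⟩]
  · rintro x (hx | hx)
    exacts [hv.2.1 x hx, hv'.2.1 x (Or.inr hx)]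
  · rintro x (hx | hx) y (hy | hy) hne
    exacts [hv.2.2.1 x hx y hy hne, K2 x hx y hy hne, (K2 y hy x hx hne.symm).symm,
      hv'.2.2.1 x (Or.inr hx) y (Or.inr hy) hne]
  · rintro τ (hτ | hτ)
    · rcases hT τ hτ with h | h
      · refine ⟨?_, fun x hx y hy a₁ a₂ => ?_⟩
        · rintro x (hx | hx)
          exacts [(hv.2.2.2 τ hτ).1 x hx, (hv'.2.2.2 τ (Or.inl ⟨hτ, h⟩)).1 x (Or.inr hx)]
        · have key : ∀ x ∈ w ∪ Y', τ.1 ≤ x.2 →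
              ∃ y ∈ w, τ.1 ≤ y.2 ∧ eqv (s.r σ) τ.1 y.1 x.1 := by
            rintro x (hx | hx) a
            · exact ⟨x, hx, a, eqv.refl _ _⟩
            · obtain ⟨y, c₁, c₂, c₃, -⟩ := hd x hx
              exact ⟨y, c₁, (b₂ τ hτ h).trans (hβδ.le.trans c₂), c₃.mono (b₂ τ hτ h)⟩
          obtain ⟨x', c₁, c₂, c₃⟩ := key x hx a₁
          obtain ⟨y', d₁, d₂, d₃⟩ := key y hy a₂
          exact ((hv.2.2.2 τ hτ).2 x' c₁ y' d₁ c₂ d₂).imp (fun H => c₃.symm.trans (H.trans d₃))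
            fun H => H.congr c₃ d₃
      · refine ⟨?_, ?_⟩
        · rintro x (hx | hx)
          exacts [(hv.2.2.2 τ hτ).1 x hx,
            fun _ p hp => ((hM.has_x.1 (hY' x hx).1).1 p hp).mono h]
        · rintro x (hx | hx) y (hy | hy) a₁ a₂
          exacts [(hv.2.2.2 τ hτ).2 x hx y hy a₁ a₂,
            absurd (hM.has_lt (hY' y hy).1) (h.trans a₂).not_gt,
            absurd (hM.has_lt (hY' x hx).1) (h.trans a₁).not_gt,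
            absurd (hM.has_lt (hY' x hx).1) (h.trans a₁).not_gt]
    · have hv'' := hv'.2.2.2 τ (Or.inr hτ)
      have hτ' := hT' τ hτ
      have up : ∀ x ∈ w, τ.1 ≤ x.2 → δ ≤ x.2 := fun x hx a =>
        (hw x hx).resolve_left fun h => (b₁ x hx h).not_ge (hβ.trans (hτ'.2.trans a))
      refine ⟨?_, ?_⟩
      · rintro x (hx | hx) a
        · rcases hw x hx with h | h
          exacts [hv''.1 x (Or.inl ⟨hx, h⟩) a, absurd (a.trans hτ'.1) h.not_gt]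
        · exact hv''.1 x (Or.inr hx) a
      · rintro x (hx | hx) y (hy | hy) a₁ a₂
        · exact (b₃ x hx y hy (up x hx a₁) (up y hy a₂)).imp (fun H => H.mono hτ'.1.le)
            fun H => H.mono (hβ.trans hτ'.2)
        · exact Or.inr ((K1 x hx (up x hx a₁) y hy).1.mono hτ'.2)
        · exact Or.inr ((K1 y hy (up y hy a₂) x hx).1.mono hτ'.2).symm
        · exact hv''.2 x (Or.inr hx) y (Or.inr hy) a₁ a₂

def Cp1 (r : Om → Om → Prop) (β : Om) (zβ : List Pt) (Is : List (List ℕ)) (n : ℕ) (z : List Pt)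
    (γ : Om) (d : Dat) : Prop :=
  (d.1.length = n ∧ (∀ τ ∈ d.2, max β γ ≤ τ.1) ∧ ∀ x ∈ d.1, max β γ ≤ x.2) ∧
    ∀ i < n, eqv r γ (pj (nI Is i) z) (nx d.1 i).1 ∧ eqv r β (pj (nI Is i) zβ) (nx d.1 i).1

instance {α : Type*} [Code α] (σ : α → V) (β γ : α → Om) (zβ z : α → List Pt)
    (Is : α → List (List ℕ)) (n : α → ℕ) (d : α → Dat) :
    Def (fun s a => Cp1 (s.r (σ a)) (β a) (zβ a) (Is a) (n a) (z a) (γ a) (d a)) := by
  unfold Cp1; infer_instance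

theorem v3D : ∀ᶠ D in Fl, ∀ s, Sit D s → ∀ M δ, Sub D s M δ → ∀ σ ∈ M, ∀ F φ (w : Set X)
    (T : Set Trc), w.Finite → T.Finite → s.Val1 σ F φ w T → (∀ τ ∈ T, has M τ ∨ δ ≤ τ.1) →
    (∃ ρ, (δ, ρ) ∈ T) → ∀ E ∈ M,
    (∀ d : Dat, ls d.1 = {x ∈ w | ¬ has M x} → ls d.2 = {τ ∈ T | ¬ has M τ} → d ∈ s.vd E) →
    (∀ d ∈ s.vd E, s.Val1 σ F φ ({x ∈ w | has M x} ∪ ls d.1) ({τ ∈ T | has M τ} ∪ ls d.2)) →
    ∃ d ∈ s.vd E, has M d ∧ s.Val1 σ F φ (w ∪ ls d.1) (T ∪ ls d.2) := by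
  filter_upwards [rep, unbN, fs, elemV (fun _ (_ : ℕ) (d : Dat) => d.1 = []),
    compX (fun s (a : V × V × Om × List Pt × List (List ℕ) × ℕ × ℕ) (z : X) =>
      z.1.length = a.2.2.2.2.2.2 ∧ prp z ∧ ∃ d, d ∈ s.vd a.2.1 ∧
        Cp1 (s.r a.1) a.2.2.1 a.2.2.2.1 a.2.2.2.2.1 a.2.2.2.2.2.1 z.1 z.2 d),
    compX (fun s (a : V × V × Bool × List (List ℕ)) (z : X) => z ∈ s.vx a.2.1 ∧
      ∀ y, y ∈ s.vx a.2.1 → y.2 ≤ z.2 → spl (s.r a.1) y.2 z.1 y.1 →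
        a.2.2.1 = true ∧ ∃ I, I ∈ a.2.2.2 ∧ mat (s.r a.1) y.2 (pj I z.1) (pj I y.1)),
    elemV (fun s (a : V × Om × List Pt × List (List ℕ) × ℕ × List Pt × Om) (d : Dat) =>
      Cp1 (s.r a.1) a.2.1 a.2.2.1 a.2.2.2.1 a.2.2.2.2.1 a.2.2.2.2.2.1 a.2.2.2.2.2.2 d)]
    with D h₁ h₂ h₃ h₀ h₄ h₅ h₆
  rintro s hs M δ hM σ hσ F φ w T hwf hTf hv hT ⟨ρ, hρ⟩ E hE hreal hcp
  obtain ⟨Y, hY⟩ := exists_ls (hwf.subset (sep_subset w fun x => ¬ has M x))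
  obtain ⟨τs, hτs⟩ := exists_ls (hTf.subset (sep_subset T fun x => ¬ has M x))
  have hd := hreal (Y, τs) hY hτs
  have hw : ∀ x ∈ w, has M x ∨ δ ≤ x.2 := fun x hx => or_iff_not_imp_right.2 fun h =>
    hM.has_x.2 ⟨(hv.2.2.2 _ hρ).1 x hx (not_le.1 h), not_le.1 h⟩
  have hYw : ∀ x ∈ Y, x ∈ w ∧ δ ≤ x.2 := fun x hx =>
    ⟨(hY.le hx).1, (hw x (hY.le hx).1).resolve_left (hY.le hx).2⟩
  rcases eq_or_ne Y [] with rfl | hne
  · obtain ⟨d, a₁, a₂, a₃⟩ := h₀ s hs M δ hM 0 (hM.cl.has_nat _) E hE _ hd rfl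
    have e : {x ∈ w | has M x} = w := by
      ext x
      refine and_iff_left_of_imp fun hx => by_contra fun h => ?_
      exact List.not_mem_nil (hY.ge ⟨hx, h⟩)
    have hc := hcp d a₂
    rw [e, a₃] at hc
    rw [← a₃] at hc
    refine ⟨d, a₂, a₁, hc.1, hc.2.1, hc.2.2.1, ?_⟩
    rintro τ (h | h)
    · have e' : w ∪ ls d.1 = w := by simp [a₃, ls]
      rw [e']
      exact hv.2.2.2 τ h
    · exact hc.2.2.2 τ (Or.inr h)
  obtain ⟨y₀, hy₀⟩ := List.exists_mem_of_ne_nil Y hne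
  have hH := hv.1 ⟨y₀, (hYw y₀ hy₀).1⟩
  obtain ⟨β₁, a₁, b₁⟩ := hM.lim.ev hwf (Q := fun x β => has M x → x.2 < β)
    (fun _ _ _ h H H' => (H H').trans_le h) fun x _ => by
      by_cases h : has M x
      · obtain ⟨γ, c₁, c₂⟩ := hM.lim.2 _ (hM.has_lt h)
        exact ⟨γ, c₂, fun _ => c₁⟩
      · exact ⟨⊥, hM.lim.1, fun h' => absurd h' h⟩
  obtain ⟨β₂, a₂, b₂⟩ := hM.lim.ev hTf (Q := fun τ β => has M τ → τ.1 ≤ β)
    (fun _ _ _ h H H' => (H H').trans h) fun τ _ => by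
      by_cases h : has M τ
      · exact ⟨τ.1, hM.iff.1 (hM.cl.has_prod.1 h).1, fun _ => le_rfl⟩
      · exact ⟨⊥, hM.lim.1, fun h' => absurd h' h⟩
  obtain ⟨β₃, a₃, b₃⟩ := hM.lim.ev (hwf.prod hwf) (Q := fun x β => δ ≤ x.1.2 → δ ≤ x.2.2 →
      eqv (s.r σ) δ x.1.1 x.2.1 ∨ spl (s.r σ) β x.1.1 x.2.1)
    (fun _ _ _ h H c₁ c₂ => (H c₁ c₂).imp id fun H => H.mono h) fun x hx => by
      by_cases h : δ ≤ x.1.2 ∧ δ ≤ x.2.2
      · rcases (hv.2.2.2 _ hρ).2 x.1 hx.1 x.2 hx.2 h.1 h.2 with h' | h'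
        · exact ⟨⊥, hM.lim.1, fun _ _ => Or.inl h'⟩
        · obtain ⟨γ, c₁, c₂⟩ := spl_lim hM.lim h'
          exact ⟨γ, c₁, fun _ _ => Or.inr c₂⟩
      · exact ⟨⊥, hM.lim.1, fun c₁ c₂ => absurd ⟨c₁, c₂⟩ h⟩
  set β := max β₁ (max β₂ β₃) with hβ
  have hβδ : β < δ := max_lt a₁ (max_lt a₂ a₃)
  obtain ⟨z, Is, c₁, c₂, c₃⟩ := exists_blocks Y
  have hzK : has s.K z := hs.cl.has_list.2 fun p hp => by
    obtain ⟨y, hy, hp⟩ := c₃ p hp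
    exact hs.cl.has_list.1 (hs.cl.has_prod.1 (hv.2.1 y (hYw y hy).1).1).1 p hp
  have hzp : prp (z, δ) := fun p hp => by
    obtain ⟨y, hy, hp⟩ := c₃ p hp
    exact (hH.2.2.1 y (hv.2.1 y (hYw y hy).1) p hp).mono (hYw y hy).2
  obtain ⟨zβ, d₁, d₂⟩ := h₁ s hs M δ hM σ hσ hH.1.1 β hβδ z hzK
  obtain ⟨ω, hω, -, eW⟩ := h₄ s hs M hM.cl hM.sub hM.hP (σ, E, β, zβ, Is, Y.length, z.length)
    (by simp only [hM.cl.has_pair, hM.cl.has_nat, hM.cl.alw Is, and_true]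
        exact ⟨hσ, hE, hM.iff.2 hβδ, d₁⟩)
  have eW' : ∀ y : X, y ∈ s.vx ω ↔ has s.K y ∧ y.1.length = z.length ∧ prp y ∧
      ∃ d, d ∈ s.vd E ∧ Cp1 (s.r σ) β zβ Is Y.length y.1 y.2 d := fun y => by
    rw [St.vx, ← eW]; rfl
  have hZ := h₅ s hs M hM.cl hM.sub hM.hP (σ, ω, φ, Is)
    (by simp only [hM.cl.has_pair, hM.cl.has_bool, hM.cl.alw Is, and_true]; exact ⟨hσ, hω⟩)
  set Z := {z : X | has s.K z ∧ z ∈ s.vx ω ∧
      ∀ y, y ∈ s.vx ω → y.2 ≤ z.2 → spl (s.r σ) y.2 z.1 y.1 →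
        φ = true ∧ ∃ I, I ∈ Is ∧ mat (s.r σ) y.2 (pj I z.1) (pj I y.1)} with hZdef
  have down : ∀ z, z ∈ Z → ∀ γ ≤ z.2, (z.1, γ) ∈ Z := by
    rintro y ⟨e₁, e₂, e₃⟩ γ hγ
    obtain ⟨-, f₁, f₂, d, f₃, ⟨f₄, f₅, f₆⟩, f₇⟩ := (eW' y).1 e₂
    have hK : has s.K (y.1, γ) :=
      hs.cl.has_pair.2 ⟨(hs.cl.has_prod.1 e₁).1, hs.bas.down (hs.cl.has_prod.1 e₁).2 hγ⟩
    exact ⟨hK, (eW' _).2 ⟨hK, f₁, prp.mono f₂ hγ, d, f₃,
      ⟨f₄, fun τ h => (max_le_max_left β hγ).trans (f₅ τ h),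
        fun x h => (max_le_max_left β hγ).trans (f₆ x h)⟩,
      fun i hi => ⟨(f₇ i hi).1.mono hγ, (f₇ i hi).2⟩⟩, fun y' g₁ g₂ => e₃ y' g₁ (g₂.trans hγ)⟩
  by_contra hc
  have hbr : ∀ γ < δ, (z, γ) ∈ Z := by
    intro γ hγ
    have hK : has s.K (z, γ) := hs.cl.has_pair.2 ⟨hzK, hs.has_le hM hγ.le⟩
    refine ⟨hK, (eW' _).2 ⟨hK, rfl, prp.mono hzp hγ.le, _, hd, ⟨rfl, fun τ h => ?_, fun x h =>
      (max_lt hβδ hγ).le.trans (hYw x h).2⟩, fun i hi => ?_⟩, fun y e₁ e₂ e₃ => ?_⟩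
    · exact (max_lt hβδ hγ).le.trans ((hT τ (hτs.le h).1).resolve_left (hτs.le h).2)
    · rw [← (c₁ i hi).1]
      exact ⟨eqv.refl _ _, d₂.symm.pj _⟩
    by_contra hn
    obtain ⟨f₀, f₁, -, d, f₃, f₄⟩ := (eW' y).1 e₁
    have hy : y.2 < δ := e₂.trans_lt hγ
    obtain ⟨y', g₁, g₂⟩ := h₁ s hs M δ hM σ hσ hH.1.1 y.2 hy y.1 (hs.cl.has_prod.1 f₀).1
    obtain ⟨d, g₃, g₄, ⟨g₅, g₆, g₇⟩, g₈⟩ := h₆ s hs M δ hM (σ, β, zβ, Is, Y.length, y', y.2)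
      (by simp only [hM.cl.has_pair, hM.cl.has_nat, hM.cl.alw Is, true_and]
          exact ⟨hσ, hM.iff.2 hβδ, d₁, g₁, hM.iff.2 hy⟩) E hE d f₃
      ⟨f₄.1, fun i hi => ⟨(g₂.symm.pj _).trans (f₄.2 i hi).1, (f₄.2 i hi).2⟩⟩
    obtain ⟨g₉, g₀⟩ := hM.cl.has_prod.1 g₃
    refine hc ⟨d, g₄, g₃, val1_amalg hM (β := β) (m := max β y.2) hv (hcp d g₄) hT hw
      (fun x hx => ⟨hM.cl.has_list.1 g₉ x hx, g₇ x hx⟩)
      (fun τ h => ⟨hM.iff.1 (hM.cl.has_prod.1 (hM.cl.has_list.1 g₀ τ h)).1, g₆ τ h⟩)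
      (le_max_left _ _) hβδ (fun x hx h => (b₁ x hx h).trans_le (le_max_left _ _))
      (fun τ hτ h => (b₂ τ hτ h).trans ((le_max_left _ _).trans (le_max_right _ _)))
      (fun x hx y hy k₁ k₂ => (b₃ (x, y) ⟨hx, hy⟩ k₁ k₂).imp id
        fun H => H.mono ((le_max_right _ _).trans (le_max_right _ _))) fun x' hx' => ?_⟩
    obtain ⟨i, hi, rfl⟩ := exists_nx hx'
    have hi' : i < Y.length := hi.trans_eq g₅
    have k₁ : eqv (s.r σ) y.2 (pj (nI Is i) y.1) (nx d.1 i).1 := (g₂.pj _).trans (g₈ i hi').1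
    have k₂ : spl (s.r σ) y.2 (pj (nI Is i) z) (pj (nI Is i) y.1) :=
      all2_pj.2 fun j hj => e₃.2 j ((c₁ i hi').2.2 j hj)
    refine ⟨nx Y i, (hYw _ (nx_mem hi')).1, (hYw _ (nx_mem hi')).2, ?_, ?_, fun H => ?_⟩
    · rw [← (c₁ i hi').1]
      exact (d₂.pj _).trans (g₈ i hi').2
    · rw [← (c₁ i hi').1]
      exact (k₂.congr (eqv.refl _ _) k₁).mono (le_max_right _ _)
    · rw [← (c₁ i hi').1] at H
      exact hn ⟨H.1, _, (c₁ i hi').2.1,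
        (H.2.of_spl (k₂.congr (eqv.refl _ _) k₁)).congr (eqv.refl _ _) k₁.symm⟩
  have hu := h₂ s hs M δ hM Z hZ fun γ hγ => ⟨_, hbr γ hγ, le_rfl⟩
  have hlev : ∀ γ : Om, has s.K γ → ∃ z, z ∈ Z ∧ z.2 = γ := fun γ hγ => by
    obtain ⟨x, e₁, e₂⟩ := hu γ hγ
    exact ⟨_, down x e₁ γ e₂, rfl⟩
  have hp : ∀ z, z ∈ Z → prp z := fun y hy => ((eW' y).1 hy.2.1).2.2.1
  obtain ⟨⟨z₁, _⟩, e₁, rfl⟩ := hlev δ hM.hd
  obtain ⟨z₂, γ, -, e₂, e₃, e₄⟩ := h₃ s hs M _ hM σ hσ hH.1 Z hZ down hp z₁ e₁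
  have hφ := (e₃.2.2 _ (down _ e₁ γ e₂.le).2.1 le_rfl e₄).1
  obtain ⟨ζ, -, e₅, e₆⟩ := hZ
  refine hH.2.2.2 hφ ⟨ζ, e₅, Is, hs.cl.alw Is, ?_⟩
  rw [St.vx, St.vx, ← e₆]
  refine ⟨hlev, down, hp, fun y hy y' hy' e h => ?_, fun y hy I hI => ?_⟩
  · have := hy.2.2 y' hy'.2.1 e.ge (e ▸ h)
    exact ⟨rfl, e ▸ this.2⟩
  · obtain ⟨i, hi, rfl⟩ := c₂ I hI
    obtain ⟨-, -, -, d, f₃, ⟨f₄, -, f₆⟩, f₇⟩ := (eW' y).1 hy.2.1
    exact ⟨_, (hcp d f₃).2.1 _ (Or.inr (nx_mem (f₄ ▸ hi))),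
      (le_max_right _ _).trans (f₆ _ (nx_mem (f₄ ▸ hi))), (f₇ i hi).1⟩

end Pool.Agent.MP_656653_lc

end

section

/-! The forcing for the embedding: validity and amalgamation. -/

set_option synthInstance.maxSize 1000000

namespace Pool.Agent.MP_656653_lc

open Set Filter

namespace St

variable (s : St) (σ : V)

def End (δ : Om) (p : Pt) : Prop := (s.LoA σ δ p.1 ↔ LoU δ p.2) ∧ (s.HiA σ δ p.1 ↔ HiU δ p.2)

def Lev (f : Set Pt) (δ : Om) : Prop :=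
  (∀ p ∈ f, p.1 < δ ↔ p.2.ht < δ) ∧
  (∀ p ∈ f, ∀ q ∈ f, agA (s.r σ) δ p.1 q.1 ↔ U.ag δ p.2 q.2) ∧ ∀ p ∈ f, s.End σ δ p

def Val2 (f : Set Pt) (T : Set Trc) : Prop :=
  (f.Nonempty → s.Nice σ) ∧ (∀ p ∈ f, ∀ q ∈ f, s.r σ p.1 q.1 ↔ p.2 < q.2) ∧ s.Lev σ f ⊥ ∧
    ∀ τ ∈ T, s.Lev σ f τ.1 ∧ ((∃ p ∈ f, τ.1 ≤ p.1) → s.Good σ τ {p ∈ f | τ.1 ≤ p.1})

variable {s σ}

theorem end_of_bl {δ p} (h : pbl δ p) : s.End σ δ p :=
  ⟨iff_of_true (fun _ _ H => H.alone h.1 ▸ r_irr _) fun _ H => U.alone H h.2 ▸ lt_irrefl _,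
    iff_of_true (fun _ _ H => H.alone h.1 ▸ r_irr _) fun _ H => U.alone H h.2 ▸ lt_irrefl _⟩

theorem eq_iff {p q : Pt} (h : s.r σ p.1 q.1 ↔ p.2 < q.2) (h' : s.r σ q.1 p.1 ↔ q.2 < p.2) :
    p.1 = q.1 ↔ p.2 = q.2 := by
  constructor
  · intro e
    rw [e] at h h'
    exact le_antisymm (not_lt.1 fun H => r_irr _ (h'.2 H)) (not_lt.1 fun H => r_irr _ (h.2 H))
  · intro e
    rw [e] at h h'
    rcases r_tri (r := s.r σ) p.1 q.1 with H | H | H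
    exacts [absurd (h.1 H) (lt_irrefl _), H, absurd (h'.1 H) (lt_irrefl _)]

theorem c2_of_bl {δ} {p q : Pt} (h : s.r σ p.1 q.1 ↔ p.2 < q.2) (h' : s.r σ q.1 p.1 ↔ q.2 < p.2)
    (hp : pbl δ p ∨ pbl δ q) : agA (s.r σ) δ p.1 q.1 ↔ U.ag δ p.2 q.2 := by
  have e := eq_iff h h'
  rcases hp with hp | hp
  · exact ⟨fun H => e.1 (H.alone hp.1) ▸ U.ag.refl _ _, fun H => Or.inl (e.2 (U.alone H hp.2))⟩
  · exact ⟨fun H => e.1 (H.symm.alone hp.1).symm ▸ U.ag.refl _ _,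
      fun H => Or.inl (e.2 (U.alone H.symm hp.2).symm)⟩

theorem Lev.cases {f δ p} (h : s.Lev σ f δ) (hp : p ∈ f) : pbl δ p ∨ ppr δ p := by
  rcases lt_or_ge p.1 δ with h' | h'
  · exact Or.inl ⟨h', (h.1 p hp).1 h'⟩
  · exact Or.inr ⟨h', not_lt.1 fun H => h'.not_gt ((h.1 p hp).2 H)⟩

end St

theorem not_loU {γ : Om} {t : U} (h : γ < t.ht) : ¬ LoU γ t ∧ ¬ HiU γ t := by
  obtain ⟨m, m', h₁, h₂, h₃, h₄, h₅⟩ := U.minmax γ t
  obtain ⟨h₆, h₇⟩ := h₅ t (U.ag.refl _ _)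
  exact ⟨fun H => H m h₁.symm (h₆.lt_of_ne fun e => (e ▸ h₃).not_gt h),
    fun H => H m' h₂.symm (h₇.lt_of_ne fun e => (e ▸ h₄).not_gt h)⟩

theorem not_loA : ∀ᶠ D in Fl, ∀ s, Sit D s → ∀ N δ, Sub D s N δ → ∀ σ ∈ N, s.Nice σ →
    ∀ a, has s.K a → δ ≤ a → ∀ β < δ, ¬ s.LoA σ β a ∧ ¬ s.HiA σ β a := by
  filter_upwards [lemE] with D hD s hs N δ hN σ hσ hn a ha hδ β hβ
  obtain ⟨⟨c, h₁, h₂, h₃⟩, c', h₁', h₂', h₃'⟩ := hD s hs N δ hN σ hσ hn a ha hδ β hβ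
  exact ⟨fun H => H c (hs.has_le hN h₁.le) h₂ h₃, fun H => H c' (hs.has_le hN h₁'.le) h₂' h₃'⟩

theorem val2_amalg {D s} (hs : Sit D s) {σ} {f f₀ Y' : Set Pt} {T T₀ T' : Set Trc} {β m δ : Om}
    (hv : s.Val2 σ f T) (hv' : s.Val2 σ (f₀ ∪ Y') (T₀ ∪ T')) (hβ : β ≤ m) (hm : m < δ)
    (hK : ∀ p ∈ f ∪ Y', has s.K p)
    (hf : ∀ p ∈ f, (p ∈ f₀ ∧ pbl β p) ∨ ppr δ p) (hT : ∀ τ ∈ T, (τ ∈ T₀ ∧ τ.1 ≤ β) ∨ δ ≤ τ.1)
    (hY' : ∀ p ∈ Y', pbl δ p) (hT' : ∀ τ ∈ T', τ.1 < δ ∧ m ≤ τ.1)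
    (b₃ : ∀ p ∈ f, ∀ q ∈ f, ppr δ p → ppr δ q → peq (s.r σ) δ p q ∨ psp (s.r σ) β p q)
    (hd : ∀ p ∈ Y', ∃ y ∈ f, ppr δ y ∧ peq (s.r σ) β y p ∧ pmt (s.r σ) m y p)
    (hE : ∀ y ∈ f, ppr δ y → ∀ γ < δ, s.End σ γ y)
    (hG : ∀ τ ∈ T', s.Good σ τ ({p ∈ Y' | τ.1 ≤ p.1} ∪ {y ∈ f | ppr δ y})) :
    s.Val2 σ (f ∪ Y') (T ∪ T') := by
  have K1 : ∀ y ∈ f, ppr δ y → ∀ p ∈ Y', pmt (s.r σ) m y p := by
    intro y hy h p hp
    obtain ⟨y', a₁, a₂, a₃, a₄⟩ := hd p hp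
    rcases b₃ y hy y' a₁ h a₂ with H | H
    · exact a₄.congr (H.mono hm.le).symm (peq.refl _ _)
    · exact (pmt.congr ⟨H, hv.2.1 y hy y' a₁⟩ (peq.refl _ _) a₃).mono hβ
  have C0 : ∀ p ∈ f ∪ Y', ∀ q ∈ f ∪ Y', s.r σ p.1 q.1 ↔ p.2 < q.2 := by
    rintro p (hp | hp) q (hq | hq)
    · exact hv.2.1 p hp q hq
    · exact (hf p hp).elim (fun h => hv'.2.1 p (Or.inl h.1) q (Or.inr hq))
        fun h => (K1 p hp h q hq).2
    · exact (hf q hq).elim (fun h => hv'.2.1 p (Or.inr hp) q (Or.inl h.1))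
        fun h => (K1 q hq h p hp).symm.2
    · exact hv'.2.1 p (Or.inr hp) q (Or.inr hq)
  have key : ∀ γ ≤ β, ∀ p ∈ f ∪ Y', ∃ y ∈ f, peq (s.r σ) γ p y := by
    rintro γ hγ p (hp | hp)
    · exact ⟨p, hp, peq.refl _ _⟩
    · obtain ⟨y, a₁, -, a₃, -⟩ := hd p hp
      exact ⟨y, a₁, (a₃.mono hγ).symm⟩
  have low : ∀ γ ≤ β, s.Lev σ f γ → s.Lev σ (f₀ ∪ Y') γ → s.Lev σ (f ∪ Y') γ := by
    intro γ hγ h h'
    refine ⟨fun p hp => hp.elim (h.1 p) fun hp => h'.1 p (Or.inr hp), fun p hp q hq => ?_,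
      fun p hp => hp.elim (h.2.2 p) fun hp => h'.2.2 p (Or.inr hp)⟩
    obtain ⟨p', a₁, a₂⟩ := key γ hγ p hp
    obtain ⟨q', c₁, c₂⟩ := key γ hγ q hq
    exact ⟨fun H => a₂.2.trans (((h.2.1 p' a₁ q' c₁).1 (a₂.1.symm.trans (H.trans c₂.1))).trans
      c₂.2.symm), fun H => a₂.1.trans (((h.2.1 p' a₁ q' c₁).2
        (a₂.2.symm.trans (H.trans c₂.2))).trans c₂.1.symm)⟩
  refine ⟨?_, C0, low ⊥ bot_le hv.2.2.1 hv'.2.2.1, ?_⟩
  · rintro ⟨p, hp | hp⟩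
    exacts [hv.1 ⟨p, hp⟩, hv'.1 ⟨p, Or.inr hp⟩]
  rintro τ (hτ | hτ)
  · obtain ⟨l₁, l₂⟩ := hv.2.2.2 τ hτ
    rcases hT τ hτ with h | h
    · refine ⟨low _ h.2 l₁ (hv'.2.2.2 τ (Or.inl h.1)).1, fun ⟨p, hp, hp'⟩ => ?_⟩
      obtain ⟨y, a₁, a₂⟩ := key _ h.2 p hp
      refine (l₂ ⟨y, a₁, a₂.1.le hp'⟩).congr hs (fun q hq => hK q (Or.inl hq.1)) fun q hq => ?_
      obtain ⟨y, a₁, a₂⟩ := key _ h.2 q hq.1
      exact ⟨y, ⟨a₁, a₂.1.le hq.2⟩, a₂⟩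
    · have hb : ∀ p ∈ Y', pbl τ.1 p := fun p hp => (hY' p hp).mono h
      have e : {p ∈ f ∪ Y' | τ.1 ≤ p.1} = {p ∈ f | τ.1 ≤ p.1} := by
        ext p
        exact ⟨fun hp => ⟨hp.1.resolve_right fun h => (hb p h).1.not_ge hp.2, hp.2⟩,
          fun hp => ⟨Or.inl hp.1, hp.2⟩⟩
      refine ⟨⟨fun p hp => hp.elim (l₁.1 p) fun hp => iff_of_true (hb p hp).1 (hb p hp).2,
        fun p hp q hq => ?_,
        fun p hp => hp.elim (l₁.2.2 p) fun hp => St.end_of_bl (hb p hp)⟩, fun ⟨p, hp⟩ => ?_⟩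
      · rcases hp with hp' | hp'
        · rcases hq with hq' | hq'
          · exact l₁.2.1 p hp' q hq'
          · exact St.c2_of_bl (C0 p (Or.inl hp') q (Or.inr hq')) (C0 q (Or.inr hq') p (Or.inl hp'))
              (Or.inr (hb q hq'))
        · exact St.c2_of_bl (C0 p (Or.inr hp') q hq) (C0 q hq p (Or.inr hp')) (Or.inl (hb p hp'))
      · rw [e]
        exact l₂ ⟨p, e.le hp⟩
  · obtain ⟨l₁, -⟩ := hv'.2.2.2 τ (Or.inr hτ)
    obtain ⟨t₁, t₂⟩ := hT' τ hτ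
    have cs : ∀ p ∈ f ∪ Y', (p ∈ f ∧ ppr δ p) ∨ p ∈ Y' ∨ (p ∈ f₀ ∧ pbl τ.1 p) := by
      rintro p (hp | hp)
      · exact (hf p hp).elim (fun h => Or.inr (Or.inr ⟨h.1, h.2.mono (hβ.trans t₂)⟩))
          fun h => Or.inl ⟨hp, h⟩
      · exact Or.inr (Or.inl hp)
    refine ⟨⟨fun p hp => ?_, fun p hp q hq => ?_, fun p hp => ?_⟩, fun _ => ?_⟩
    · rcases cs p hp with h | h | h
      exacts [iff_of_false (t₁.le.trans h.2.1).not_gt (t₁.le.trans h.2.2).not_gt,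
        l₁.1 p (Or.inr h), l₁.1 p (Or.inl h.1)]
    · rcases cs p hp with h | h | h
      · rcases cs q hq with h' | h' | h'
        · rcases b₃ p h.1 q h'.1 h.2 h'.2 with H | H
          · exact iff_of_true (H.1.mono t₁.le) (H.2.mono t₁.le)
          · exact iff_of_false (H.mono (hβ.trans t₂)).1 (H.mono (hβ.trans t₂)).2
        · have := (K1 p h.1 h.2 q h').1.mono t₂
          exact iff_of_false this.1 this.2
        · exact St.c2_of_bl (C0 p hp q hq) (C0 q hq p hp) (Or.inr h'.2)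
      · rcases cs q hq with h' | h' | h'
        · have := (K1 q h'.1 h'.2 p h).1.symm.mono t₂
          exact iff_of_false this.1 this.2
        · exact l₁.2.1 p (Or.inr h) q (Or.inr h')
        · exact l₁.2.1 p (Or.inr h) q (Or.inl h'.1)
      · exact St.c2_of_bl (C0 p hp q hq) (C0 q hq p hp) (Or.inl h.2)
    · rcases cs p hp with h | h | h
      exacts [hE p h.1 h.2 _ t₁, l₁.2.2 p (Or.inr h), l₁.2.2 p (Or.inl h.1)]
    · refine (hG τ hτ).congr hs (fun q hq => hK q (hq.elim (fun h => Or.inr h.1)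
        fun h => Or.inl h.1)) fun p hp => ⟨p, ?_, peq.refl _ _⟩
      rcases cs p hp.1 with h | h | h
      exacts [Or.inr h, Or.inl ⟨h, hp.2⟩, absurd h.2.1 hp.2.not_gt]

noncomputable def pt (x : X) : Pt := nt x.1 0
noncomputable def mkX (p : Pt) : X := ([p], ⊥)
noncomputable def yl (d : Dat) : List Pt := d.1.map pt
noncomputable def nτ (l : List Trc) (j : ℕ) : Trc := l.getD j (⊥, ∅)

theorem yl_mk (Y : List Pt) (l : List Trc) : yl (Y.map mkX, l) = Y := by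
  simp only [yl, List.map_map]
  exact List.map_id Y

theorem nτ_mem {l : List Trc} {i : ℕ} (h : i < l.length) : nτ l i ∈ l := by
  unfold nτ
  rw [List.getD_eq_getElem _ _ h]
  exact List.getElem_mem h

theorem mem_take_succ {l : List Trc} {j : ℕ} {τ : Trc} (h : τ ∈ l.take (j + 1)) :
    τ ∈ l.take j ∨ τ = nτ l j := by
  rw [List.take_add_one, List.mem_append] at h
  refine h.imp id fun h => ?_
  unfold nτ
  rw [List.getD_eq_getElem?_getD, Option.mem_toList.1 h]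
  rfl

theorem nτ_take {l : List Trc} {j : ℕ} (h : 0 < j) : nτ (l.take j) 0 = nτ l 0 := by
  unfold nτ
  rw [List.getD_eq_getElem?_getD, List.getD_eq_getElem?_getD, List.getElem?_take_of_lt h]

theorem exists_sorted {S : Set Trc} (h : S.Finite) (hi : ∀ a ∈ S, ∀ b ∈ S, a.1 = b.1 → a = b) :
    ∃ l, ls l = S ∧ l.Pairwise (fun a b => a.1 < b.1) := by
  classical
  lift S to Finset Trc using h
  induction S using Finset.induction_on_min_value (Prod.fst : Trc → Om) with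
  | empty => exact ⟨[], by simp [ls], List.Pairwise.nil⟩
  | insert a S ha hm ih =>
    obtain ⟨l, h₁, h₂⟩ := ih fun x hx y hy => hi x (by simp [hx]) y (by simp [hy])
    refine ⟨a :: l, by simp [← h₁, ls, Set.insert_def], List.Pairwise.cons (fun b hb => ?_) h₂⟩
    have hb' : b ∈ S := h₁.le hb
    exact (hm b hb').lt_of_ne fun e => ha (hi a (by simp) b (by simp [hb']) e ▸ hb')

theorem sorted_take {l : List Trc} (h : l.Pairwise (fun a b => a.1 < b.1)) {j : ℕ}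
    (hj : j < l.length) {τ} (hτ : τ ∈ l.take j) : τ.1 < (nτ l j).1 := by
  obtain ⟨i, hi, rfl⟩ := List.getElem_of_mem hτ
  rw [List.length_take] at hi
  unfold nτ
  rw [List.getD_eq_getElem _ _ hj, List.getElem_take]
  exact List.pairwise_iff_getElem.1 h _ _ _ _ (by omega)

section
variable {α : Type*} [Code α]

instance (f : α → List Trc) [h : Cf f] (j : α → ℕ) : Cf (fun a => nτ (f a) (j a)) := ⟨by
  filter_upwards [h.out, ev_const ((⊥, ∅) : Trc)] with D h₁ h₂ K hK a ha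
  rcases lt_or_ge (j a) (f a).length with hi | hi
  · exact hK.has_list.1 (h₁ K hK a ha) _ (nτ_mem hi)
  · unfold nτ
    rw [List.getD_eq_default _ _ hi]
    exact h₂ K hK⟩

instance (f : α → List Trc) [h : Cf f] (j : α → ℕ) : Cf (fun a => (f a).take (j a)) := ⟨by
  filter_upwards [h.out] with D h₁ K hK a ha
  exact hK.has_list.2 fun x hx => hK.has_list.1 (h₁ K hK a ha) x (List.mem_of_mem_take hx)⟩

end

end Pool.Agent.MP_656653_lc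

end
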