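import Pool.Agent.Mg.F656653.G830af3
import Pool.Agent.Mg.F656653.G665fa9
import Pool.Agent.MP_c6cf52_lc.Tools
import Pool.Agent.MP_656653_lc.Br1

section

/-! Two-type side conditions. -/

namespace Pool.Agent.MP_656653_lc

open Set Item

def Item.ext : Item → V
  | .cn N => N
  | .tr ν => ν.W
  | .atm _ _ => ∅

def Item.Nd : Item → Prop
  | .atm _ _ => False
  | _ => True

def In (x y : Item) : Prop := has (y.ext : Set V) x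

def Lt (s : Set Item) (x y : Item) : Prop :=
  In x y ∨ ∃ ν, tr ν ∈ s ∧ has (ν.W : Set V) x ∧ In (tr ν) y

/-- Transitive, closed, and closed under countable subsets. -/
structure TW (D : Set Dp) (W : V) : Prop where
  cl : Cl D W
  trans : ∀ {x y : V}, x ∈ W → y ∈ x → y ∈ W
  om : ∀ {x : V}, (x : Set V).Countable → x ⊆ W → x ∈ W

structure CN (D : Set Dp) (N : V) : Prop where
  cl : Cl D N
  cnt : (N : Set V).Countable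

structure SC (D : Set Dp) (s : Set Item) : Prop where
  cn : ∀ {N}, cn N ∈ s → CN D N
  tr : ∀ {ν}, tr ν ∈ s → TW D ν.W
  cls : ∀ {N ν}, Item.cn N ∈ s → Item.tr ν ∈ s → has (N : Set V) ν → Item.cn (N ∩ ν.W) ∈ s
  tot : ∀ {x y}, x ∈ s → y ∈ s → x.Nd → y.Nd → x = y ∨ Lt s x y ∨ Lt s y x

variable {D : Set Dp} {s t : Set Item}

theorem coe_inter (a b : V) : ((a ∩ b : V) : Set V) = (a : Set V) ∩ (b : Set V) := by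
  ext; simp

theorem has_inter {α : Type*} [Code α] {a b : V} {x : α} :
    has ((a ∩ b : V) : Set V) x ↔ has (a : Set V) x ∧ has (b : Set V) x := ZFSet.mem_inter

theorem CN.inter {N W} (h : CN D N) (h' : Cl D (W : V)) : CN D (N ∩ W) :=
  ⟨by rw [coe_inter]; exact h.cl.inter h', by rw [coe_inter]; exact h.cnt.mono inter_subset_left⟩

theorem TW.inter_mem {N W} (h : TW D W) (h' : CN D N) : N ∩ W ∈ W :=
  h.om (h'.inter h.cl).cnt fun _ hx => (ZFSet.mem_inter.1 hx).2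

theorem TW.has_inter {N W} (h : TW D W) (h' : CN D N) : has (W : Set V) (cn (N ∩ W)) :=
  h.cl.has_cn.2 (h.inter_mem h')

theorem TW.sub {W : V} (h : TW D W) {ν : Tag} (h' : has (W : Set V) ν) {x : V} (hx : x ∈ ν.W) :
    x ∈ W := h.trans (h.cl.has_tag.1 h').1 hx

theorem Cl.sub_cn {K} (h : Cl D K) {N : V} (hN : CN D N) (h' : has K (cn N)) {x : V}
    (hx : x ∈ N) : x ∈ K := h.cnt (h.has_cn.1 h') hN.cnt hx

theorem inter_inter {N W W' : V} (h : ∀ x ∈ W', x ∈ W) : N ∩ W ∩ W' = N ∩ W' := by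
  ext x
  simp only [ZFSet.mem_inter]
  exact ⟨fun H => ⟨H.1.1, H.2⟩, fun H => ⟨⟨H.1, h x H.2⟩, H.2⟩⟩

theorem Lt.mono {x y} (h : Lt s x y) (h' : s ⊆ t) : Lt t x y :=
  h.imp id fun ⟨ν, h₁, h₂⟩ => ⟨ν, h' h₁, h₂⟩

theorem Cl.ext_mem {K} (h : Cl D K) {x : Item} (hx : has K x) : x.ext ∈ K := by
  cases x with
  | cn N => exact h.has_cn.1 hx
  | tr ν => exact (h.has_tag.1 (h.has_tr.1 hx)).1
  | atm ν x => exact h.emp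

theorem SC.cl (h : SC D s) {x} (hx : x ∈ s) (hn : x.Nd) : Cl D x.ext := by
  cases x with
  | cn N => exact (h.cn hx).cl
  | tr ν => exact (h.tr hx).cl
  | atm ν x => exact hn.elim

theorem rk_lt {K : V} (h : Cl D K) {x : Item} (hx : has (K : Set V) x) : x.ext.rank < K.rank :=
  ZFSet.rank_lt_of_mem (h.ext_mem hx)

theorem rk_lt' {K : V} (h : Cl D K) {ν : Tag} (hx : has (K : Set V) ν) : ν.W.rank < K.rank :=
  rk_lt h (x := tr ν) (h.has_tr.2 hx)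

theorem Lt.rk {x y} (h : Lt s x y) (hs : ∀ ν, tr ν ∈ s → TW D ν.W) (hy : Cl D y.ext) :
    x.ext.rank < y.ext.rank := by
  rcases h with h | ⟨ν, h₁, h₂, h₃⟩
  exacts [rk_lt hy h, (rk_lt (hs ν h₁).cl h₂).trans (rk_lt hy h₃)]

theorem Lt.tr {x ν} (h : Lt s x (tr ν)) (hν : TW D ν.W) : has (ν.W : Set V) x := by
  rcases h with h | ⟨ν', -, h₂, h₃⟩
  exacts [h, hν.sub (hν.cl.has_tr.1 h₃) h₂]

theorem lt_up {x y ν} (hs : ∀ ν, tr ν ∈ s → TW D ν.W) (hν : tr ν ∈ s) (hy : has (ν.W : Set V) y)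
    (h : tr ν = x ∨ Lt s (tr ν) x) : Lt s y x := by
  rcases h with rfl | h | ⟨ν', h₁, h₂, h₃⟩
  exacts [Or.inl hy, Or.inr ⟨ν, hν, hy, h⟩,
    Or.inr ⟨ν', h₁, (hs ν' h₁).sub ((hs ν' h₁).cl.has_tr.1 h₂) hy, h₃⟩]

theorem SC.up (hs : SC D s) {x y N} (hN : Item.cn N ∈ s) (hx : x ∈ s) (hn : x.Nd)
    (hy : has (N : Set V) y) (h : x = Item.cn N ∨ Lt s (Item.cn N) x) : Lt s y x := by
  rcases h with rfl | h | ⟨ν', h₁, h₂, h₃⟩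
  exacts [Or.inl hy, Or.inl ((hs.cl hx hn).sub_cn (hs.cn hN) h hy),
    Or.inr ⟨ν', h₁, (hs.tr h₁).cl.sub_cn (hs.cn hN) h₂ hy, h₃⟩]

theorem SC.res (hs : SC D s) {K} (hK : Cl D K) : SC D {x ∈ s | has K x} := by
  have key : ∀ {x y}, y ∈ s → y.Nd → has K y → Lt s x y → Lt {x ∈ s | has K x} x y := by
    intro x y hy hn hyK h
    cases y with
    | cn N => exact h.imp id fun ⟨ν, h₁, h₂, h₃⟩ => ⟨ν, ⟨h₁, hK.sub_cn (hs.cn hy) hyK h₃⟩, h₂, h₃⟩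
    | tr ν => exact Or.inl (h.tr (hs.tr hy))
    | atm ν x => exact hn.elim
  refine ⟨fun h => hs.cn h.1, fun h => hs.tr h.1, fun h₁ h₂ h₃ => ⟨hs.cls h₁.1 h₂.1 h₃,
    hK.has_cn.2 (hK.int (hK.has_cn.1 h₁.2) (hK.ext_mem h₂.2))⟩, fun hx hy h₁ h₂ => ?_⟩
  exact (hs.tot hx.1 hy.1 h₁ h₂).imp id (Or.imp (key hy.1 h₂ hy.2) (key hx.1 h₁ hx.2))

theorem SC.red (hs : SC D s) {ν} (hν : Item.tr ν ∈ s) {N} (hN : Item.cn N ∈ s) :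
    Item.cn (N ∩ ν.W) ∈ s := by
  induction h : N.rank using WellFoundedLT.induction generalizing N with
  | ind o ih =>
    rcases hs.tot hN hν trivial trivial with e | e | e | ⟨ν', h₁, h₂, h₃⟩
    · cases e
    · have : N ∩ ν.W = N := by
        ext x
        simp only [ZFSet.mem_inter]
        exact and_iff_left_of_imp ((hs.tr hν).cl.sub_cn (hs.cn hN) (e.tr (hs.tr hν)))
      rwa [this]
    · exact hs.cls hN hν ((hs.cn hN).cl.has_tr.1 e)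
    · have h₄ := (hs.cn hN).cl.has_tr.1 h₃
      have := ih _ (h ▸ (ZFSet.rank_lt_of_mem ((hs.tr h₁).inter_mem (hs.cn hN))).trans
        (rk_lt' (hs.cn hN).cl h₄)) (hs.cls hN h₁ h₄) rfl
      rwa [inter_inter fun x => (hs.tr h₁).sub ((hs.tr h₁).cl.has_tr.1 h₂)] at this

theorem SC.union (hs : SC D s) {ν} (hν : Item.tr ν ∈ s) (ht : SC D t)
    (h₁ : ∀ x ∈ t, has (ν.W : Set V) x) (h₂ : ∀ x ∈ s, has (ν.W : Set V) x → x ∈ t) :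
    SC D (s ∪ t) := by
  have hW := hs.tr hν
  have key : ∀ {x y}, x ∈ s → y ∈ t → x.Nd → y.Nd →
      x = y ∨ Lt (s ∪ t) x y ∨ Lt (s ∪ t) y x := by
    intro x y hx hy n₁ n₂
    by_cases h : has (ν.W : Set V) x
    · exact (ht.tot (h₂ x hx h) hy n₁ n₂).imp id (Or.imp (fun H => H.mono subset_union_right)
        fun H => H.mono subset_union_right)
    · refine Or.inr (Or.inr ((lt_up (fun _ => hs.tr) hν (h₁ y hy) ?_).mono subset_union_left))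
      exact (hs.tot hν hx trivial n₁).imp id fun H => H.resolve_right fun H => h (H.tr hW)
  refine ⟨fun h => h.elim hs.cn ht.cn, fun h => h.elim hs.tr ht.tr, ?_, ?_⟩
  · rintro N ν' (a | a) (b | b) c
    · exact Or.inl (hs.cls a b c)
    · have d := hW.cl.has_tr.1 (h₁ _ b)
      have := ht.cls (h₂ _ (hs.red hν a) (hW.has_inter (hs.cn a))) b (has_inter.2 ⟨c, d⟩)
      rw [inter_inter fun x => hW.sub d] at this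
      exact Or.inr this
    · exact Or.inr (ht.cls a (h₂ _ b (hW.cl.has_tr.2 (hW.cl.sub_cn (ht.cn a) (h₁ _ a) c))) c)
    · exact Or.inr (ht.cls a b c)
  · rintro x y (a | a) (b | b) n₁ n₂
    · exact (hs.tot a b n₁ n₂).imp id (Or.imp (fun H => H.mono subset_union_left)
        fun H => H.mono subset_union_left)
    · exact key a b n₁ n₂
    · exact (key b a n₂ n₁).imp Eq.symm Or.symm
    · exact (ht.tot a b n₁ n₂).imp id (Or.imp (fun H => H.mono subset_union_right)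
        fun H => H.mono subset_union_right)

theorem SC.top (hs : SC D s) {ν : Tag} (hW : TW D ν.W) (h : ∀ x ∈ s, has (ν.W : Set V) x) :
    SC D (insert (Item.tr ν) s) := by
  refine ⟨fun a => hs.cn (a.resolve_left (by simp)), ?_, ?_, ?_⟩
  · rintro ν' (a | a)
    · cases a; exact hW
    · exact hs.tr a
  · rintro N ν' a (b | b) c
    · cases b
      have a' := a.resolve_left (by simp)
      exact absurd (rk_lt hW.cl (h _ a')) (rk_lt' (hs.cn a').cl c).not_gt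
    · exact Or.inr (hs.cls (a.resolve_left (by simp)) b c)
  · rintro x y (rfl | a) (rfl | b) n₁ n₂
    exacts [Or.inl rfl, Or.inr (Or.inr (Or.inl (h _ b))), Or.inr (Or.inl (Or.inl (h _ a))),
      (hs.tot a b n₁ n₂).imp id (Or.imp (fun H => H.mono (subset_insert _ _))
        fun H => H.mono (subset_insert _ _))]

theorem SC.atm (hs : SC D s) (ν x) : SC D (insert (Item.atm ν x) s) := by
  refine ⟨fun a => hs.cn (a.resolve_left (by simp)), fun a => hs.tr (a.resolve_left (by simp)),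
    fun a b c => Or.inr (hs.cls (a.resolve_left (by simp)) (b.resolve_left (by simp)) c), ?_⟩
  rintro x y (rfl | a) (rfl | b) n₁ n₂
  exacts [n₁.elim, n₁.elim, n₂.elim, (hs.tot a b n₁ n₂).imp id
    (Or.imp (fun H => H.mono (subset_insert _ _)) fun H => H.mono (subset_insert _ _))]

/-- Sets that lie in every transitive node containing `ν`. -/
def Bx (D : Set Dp) (ν : Tag) (z : V) : Prop := ∀ W : V, TW D W → has (W : Set V) ν → z ∈ W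

def MinR (s : Set Item) (ν : Tag) (N : V) : Prop :=
  ∀ ν', tr ν' ∈ s → has (N : Set V) ν' → ¬ has (ν'.W : Set V) ν

theorem SC.minrep (hs : SC D s) {ν : Tag} {N} (hN : Item.cn N ∈ s) (h : has (N : Set V) ν) :
    ∃ N', Item.cn N' ∈ s ∧ has (N' : Set V) ν ∧ N' ⊆ N ∧ (∀ z ∈ N, Bx D ν z → z ∈ N') ∧
      MinR s ν N' := by
  induction e : N.rank using WellFoundedLT.induction generalizing N with
  | ind o ih =>
    by_cases hm : MinR s ν N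
    · exact ⟨N, hN, h, subset_rfl, fun _ h _ => h, hm⟩
    · unfold MinR at hm
      push Not at hm
      obtain ⟨ν', h₁, h₂, h₃⟩ := hm
      obtain ⟨N', a₁, a₂, a₃, a₄, a₅⟩ := ih _ (e ▸ (ZFSet.rank_lt_of_mem
        ((hs.tr h₁).inter_mem (hs.cn hN))).trans (rk_lt' (hs.cn hN).cl h₂)) (hs.cls hN h₁ h₂)
        (has_inter.2 ⟨h, h₃⟩) rfl
      exact ⟨N', a₁, a₂, fun x hx => (ZFSet.mem_inter.1 (a₃ hx)).1,
        fun z hz b => a₄ z (ZFSet.mem_inter.2 ⟨hz, b _ (hs.tr h₁) h₃⟩) b, a₅⟩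

theorem SC.gap (hs : SC D s) {M} (hM : Item.cn M ∈ s) {x} (hx : x ∈ s) (hn : x.Nd)
    (h : ¬ has (M : Set V) x) : ∃ M', Item.cn M' ∈ s ∧ (x = Item.cn M' ∨ Lt s (Item.cn M') x) ∧
      (M' = M ∨ ∃ R, Item.tr R ∈ s ∧ has (M : Set V) R ∧ has (R.W : Set V) x ∧ M' = M ∩ R.W) := by
  by_cases H : ∃ R, Item.tr R ∈ s ∧ has (M : Set V) R ∧ has (R.W : Set V) x
  · obtain ⟨R, ⟨h₁, h₂, h₃⟩, hmin⟩ := (InvImage.wf (fun R : Tag => R.W.rank) wellFounded_lt).has_min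
      {R | Item.tr R ∈ s ∧ has (M : Set V) R ∧ has (R.W : Set V) x} H
    have h₄ := hs.cls hM h₁ h₂
    refine ⟨_, h₄, ?_, Or.inr ⟨R, h₁, h₂, h₃, rfl⟩⟩
    rcases hs.tot hx h₄ hn trivial with e | (e | ⟨ν', a₁, a₂, a₃⟩) | e
    · exact Or.inl e
    · exact absurd (has_inter.1 e).1 h
    · have := has_inter.1 ((hs.cn h₄).cl.has_tr.1 a₃)
      exact absurd (rk_lt' (hs.tr h₁).cl this.2) (hmin ν' ⟨a₁, this.1, a₂⟩)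
    · exact Or.inr e
  · refine ⟨M, hM, ?_, Or.inl rfl⟩
    rcases hs.tot hx hM hn trivial with e | (e | ⟨ν', a₁, a₂, a₃⟩) | e
    exacts [Or.inl e, absurd e h, absurd ⟨ν', a₁, (hs.cn hM).cl.has_tr.1 a₃, a₂⟩ H, Or.inr e]

theorem SC.pos (hs : SC D s) {M} (hM : Item.cn M ∈ s) {N} (hN : Item.cn N ∈ s)
    (h : ¬ has (M : Set V) (Item.cn N)) {ν : Tag} (h₁ : has (M : Set V) ν) (h₂ : has (N : Set V) ν)
    (hm : MinR s ν N) : ∀ z ∈ M, Bx D ν z → z ∈ N := by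
  obtain ⟨M', a₁, a₂, a₃⟩ := hs.gap hM hN trivial h
  have b : has (M' : Set V) ν ∧ ∀ z ∈ M, Bx D ν z → z ∈ M' := by
    rcases a₃ with rfl | ⟨R, b₁, -, b₃, rfl⟩
    · exact ⟨h₁, fun _ h _ => h⟩
    · have := (hs.tr b₁).cl.sub_cn (hs.cn hN) b₃ h₂
      exact ⟨has_inter.2 ⟨h₁, this⟩, fun z hz H => ZFSet.mem_inter.2 ⟨hz, H _ (hs.tr b₁) this⟩⟩
  intro z hz H
  rcases a₂ with e | e | ⟨ν', c₁, c₂, c₃⟩
  · cases e; exact b.2 z hz H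
  · exact (hs.cn hN).cl.sub_cn (hs.cn a₁) e (b.2 z hz H)
  · exact absurd ((hs.tr c₁).cl.sub_cn (hs.cn a₁) c₂ b.1) (hm ν' c₁ ((hs.cn hN).cl.has_tr.1 c₃))

theorem bx_W {ν : Tag} {z : V} (h : z ∈ ν.W) : Bx D ν z := fun _ hW h' => hW.sub h' h

def am (s t : Set Item) : Set Item :=
  s ∪ t ∪ {z | ∃ N ν, cn N ∈ s ∧ tr ν ∈ t ∧ has (N : Set V) ν ∧ z = cn (N ∩ ν.W)}

theorem SC.am (hs : SC D s) {M} (hM : Item.cn M ∈ s) (ht : SC D t)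
    (h₁ : ∀ x ∈ t, has (M : Set V) x) (h₂ : ∀ x ∈ s, has (M : Set V) x → x ∈ t) :
    SC D (am s t) := by
  have cM := (hs.cn hM).cl
  have ss : s ⊆ MP_656653_lc.am s t := fun x h => Or.inl (Or.inl h)
  have st : t ⊆ MP_656653_lc.am s t := fun x h => Or.inl (Or.inr h)
  have htr : ∀ ν, Item.tr ν ∈ MP_656653_lc.am s t → TW D ν.W := by
    rintro ν ((a | a) | ⟨_, _, _, _, _, a⟩)
    exacts [hs.tr a, ht.tr a, by cases a]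
  have tS : ∀ {x y}, x ∈ s → y ∈ s → x.Nd → y.Nd → x = y ∨ Lt (MP_656653_lc.am s t) x y ∨
      Lt (MP_656653_lc.am s t) y x := fun a b n₁ n₂ =>
    (hs.tot a b n₁ n₂).imp id (Or.imp (fun H => H.mono ss) fun H => H.mono ss)
  have tT : ∀ {x y}, x ∈ t → y ∈ t → x.Nd → y.Nd → x = y ∨ Lt (MP_656653_lc.am s t) x y ∨
      Lt (MP_656653_lc.am s t) y x := fun a b n₁ n₂ =>
    (ht.tot a b n₁ n₂).imp id (Or.imp (fun H => H.mono st) fun H => H.mono st)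
  have tST : ∀ {x y}, x ∈ s → y ∈ t → x.Nd → y.Nd → x = y ∨ Lt (MP_656653_lc.am s t) x y ∨
      Lt (MP_656653_lc.am s t) y x := by
    intro x y hx hy n₁ n₂
    by_cases h : has (M : Set V) x
    · exact tT (h₂ x hx h) hy n₁ n₂
    obtain ⟨M', a₁, a₂, rfl | ⟨R, b₁, b₂, b₃, rfl⟩⟩ := hs.gap hM hx n₁ h
    · exact Or.inr (Or.inr ((hs.up a₁ hx n₁ (h₁ y hy) a₂).mono ss))
    · have c := h₂ _ b₁ (cM.has_tr.2 b₂)
      rcases ht.tot c hy trivial n₂ with e | e | e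
      · exact Or.inr (Or.inl (lt_up htr (st c) b₃ (Or.inl e)))
      · exact Or.inr (Or.inl (lt_up htr (st c) b₃ (Or.inr (e.mono st))))
      · exact Or.inr (Or.inr ((hs.up a₁ hx n₁ (has_inter.2 ⟨h₁ y hy, e.tr (hs.tr b₁)⟩) a₂).mono ss))
  have cs : ∀ z ∈ MP_656653_lc.am s t, z ∈ s ∨ z ∈ t ∨ ∃ N ν, Item.cn N ∈ s ∧ Item.tr ν ∈ t ∧
      Item.tr ν ∉ s ∧ has (N : Set V) ν ∧ MinR s ν N ∧ (∀ x ∈ M, x ∈ ν.W → x ∈ N) ∧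
      z = Item.cn (N ∩ ν.W) := by
    rintro z ((a | a) | ⟨N, ν, a₁, a₂, a₃, rfl⟩)
    · exact Or.inl a
    · exact Or.inr (Or.inl a)
    by_cases b : Item.tr ν ∈ s
    · exact Or.inl (hs.cls a₁ b a₃)
    obtain ⟨N', c₁, c₂, c₃, c₄, c₅⟩ := hs.minrep a₁ a₃
    have e : N ∩ ν.W = N' ∩ ν.W := by
      ext x
      simp only [ZFSet.mem_inter]
      exact ⟨fun H => ⟨c₄ x H.1 (bx_W H.2), H.2⟩, fun H => ⟨c₃ H.1, H.2⟩⟩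
    rw [e]
    by_cases d : has (M : Set V) (Item.cn N')
    · exact Or.inr (Or.inl (ht.cls (h₂ _ c₁ d) a₂ c₂))
    · exact Or.inr (Or.inr ⟨N', ν, c₁, a₂, b, c₂, c₅, fun x hx hx' =>
        hs.pos hM c₁ d (cM.has_tr.1 (h₁ _ a₂)) c₂ c₅ x hx (bx_W hx'), rfl⟩)
  have tN : ∀ N ν, Item.cn N ∈ s → Item.tr ν ∈ t → Item.tr ν ∉ s → has (N : Set V) ν →
      MinR s ν N → (∀ x ∈ M, x ∈ ν.W → x ∈ N) → ∀ y ∈ s ∪ t, y.Nd →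
      Lt (MP_656653_lc.am s t) (Item.cn (N ∩ ν.W)) y ∨
        Lt (MP_656653_lc.am s t) y (Item.cn (N ∩ ν.W)) := by
    intro N ν a₁ a₂ a₃ a₄ a₅ a₆ y hy n
    have hW := ht.tr a₂
    have hz := hW.has_inter (hs.cn a₁)
    by_cases b : y ∈ t
    · rcases ht.tot a₂ b trivial n with e | e | e
      · exact Or.inl (lt_up htr (st a₂) hz (Or.inl e))
      · exact Or.inl (lt_up htr (st a₂) hz (Or.inr (e.mono st)))
      · exact Or.inr (Or.inl (has_inter.2 ⟨a₆ _ (h₁ y b) (e.tr hW), e.tr hW⟩))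
    have hy' := hy.resolve_right b
    obtain ⟨M', c₁, c₂, c₃⟩ := hs.gap hM hy' n fun H => b (h₂ y hy' H)
    by_cases d : has (M' : Set V) (Item.tr ν)
    · exact Or.inl (lt_up htr (st a₂) hz (Or.inr ((hs.up c₁ hy' n d c₂).mono ss)))
    obtain ⟨R, b₁, b₂, b₃, rfl⟩ := c₃.resolve_left fun e => d (e ▸ h₁ _ a₂)
    have hyW : has (ν.W : Set V) y := by
      rcases ht.tot (h₂ _ b₁ (cM.has_tr.2 b₂)) a₂ trivial trivial with e | e | e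
      · exact absurd (e ▸ b₁) a₃
      · exact hW.sub (hW.cl.has_tr.1 (e.tr hW)) b₃
      · exact absurd (has_inter.2 ⟨h₁ _ a₂, e.tr (hs.tr b₁)⟩) d
    have r₁ := (rk_lt hW.cl hyW).trans (rk_lt' (hs.cn a₁).cl a₄)
    rcases hs.tot hy' a₁ n trivial with e | (e | ⟨ν', f₁, f₂, f₃⟩) | e
    · rw [e] at r₁; exact absurd r₁ (lt_irrefl _)
    · exact Or.inr (Or.inl (has_inter.2 ⟨e, hyW⟩))
    · rcases tST f₁ a₂ trivial trivial with e | e | e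
      · exact absurd (e ▸ f₁) a₃
      · exact Or.inr (Or.inr ⟨ν', ss f₁, f₂, has_inter.2 ⟨f₃, e.tr hW⟩⟩)
      · exact absurd ((hs.tr f₁).cl.has_tr.1 (e.tr (hs.tr f₁)))
          (a₅ ν' f₁ ((hs.cn a₁).cl.has_tr.1 f₃))
    · exact absurd (e.rk (fun _ => hs.tr) (hs.cl hy' n)) r₁.not_gt
  have tNN : ∀ N N' ν, Item.cn N ∈ s → Item.cn N' ∈ s → Item.tr ν ∈ t → has (N : Set V) ν →
      has (N' : Set V) ν → MinR s ν N' → Lt s (Item.cn N) (Item.cn N') →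
      Lt (MP_656653_lc.am s t) (Item.cn (N ∩ ν.W)) (Item.cn (N' ∩ ν.W)) := by
    rintro N N' ν a₁ a₂ a₃ a₄ a₅ a₆ (e | ⟨ν', f₁, f₂, f₃⟩)
    · have c := (hs.cn a₂).cl
      exact Or.inl (has_inter.2 ⟨c.has_cn.2 (c.int (c.has_cn.1 e) (c.has_tag.1 a₅).1),
        (ht.tr a₃).has_inter (hs.cn a₁)⟩)
    · exact absurd ((hs.tr f₁).cl.sub_cn (hs.cn a₁) f₂ a₄) (a₆ ν' f₁ ((hs.cn a₂).cl.has_tr.1 f₃))
  refine ⟨?_, fun h => htr _ h, ?_, fun {x y} hx hy n₁ n₂ => ?_⟩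
  · rintro N ((a | a) | ⟨N', ν, a₁, a₂, -, a⟩)
    · exact hs.cn a
    · exact ht.cn a
    · cases a; exact (hs.cn a₁).inter (ht.tr a₂).cl
  · intro N ν a b c
    have b' : Item.tr ν ∈ s ∨ Item.tr ν ∈ t := by
      rcases b with b | ⟨_, _, _, _, _, b⟩
      exacts [b, by cases b]
    have k : ∀ N, Item.cn N ∈ s → has (N : Set V) ν → Item.cn (N ∩ ν.W) ∈ MP_656653_lc.am s t :=
      fun N a c => b'.elim (fun b => ss (hs.cls a b c)) fun b => Or.inr ⟨N, ν, a, b, c, rfl⟩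
    rcases a with (a | a) | ⟨N', ν', a₁, a₂, -, a⟩
    · exact k N a c
    · exact st (ht.cls a (b'.elim (fun b => h₂ _ b
        (cM.has_tr.2 (cM.sub_cn (ht.cn a) (h₁ _ a) c))) id) c)
    · cases a
      rw [inter_inter fun x => (ht.tr a₂).sub (has_inter.1 c).2]
      exact k N' a₁ (has_inter.1 c).1
  rcases cs x hx with a | a | ⟨N, ν, a₁, a₂, a₃, a₄, a₅, a₆, rfl⟩
  · rcases cs y hy with b | b | ⟨N, ν, a₁, a₂, a₃, a₄, a₅, a₆, rfl⟩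
    exacts [tS a b n₁ n₂, tST a b n₁ n₂,
      Or.inr (tN N ν a₁ a₂ a₃ a₄ a₅ a₆ x (Or.inl a) n₁).symm]
  · rcases cs y hy with b | b | ⟨N, ν, a₁, a₂, a₃, a₄, a₅, a₆, rfl⟩
    exacts [(tST b a n₂ n₁).imp Eq.symm Or.symm, tT a b n₁ n₂,
      Or.inr (tN N ν a₁ a₂ a₃ a₄ a₅ a₆ x (Or.inr a) n₁).symm]
  · rcases cs y hy with b | b | ⟨N', ν', b₁, b₂, -, b₄, b₅, b₆, rfl⟩
    · exact Or.inr (tN N ν a₁ a₂ a₃ a₄ a₅ a₆ y (Or.inl b) n₂)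
    · exact Or.inr (tN N ν a₁ a₂ a₃ a₄ a₅ a₆ y (Or.inr b) n₂)
    rcases ht.tot a₂ b₂ trivial trivial with e | e | e
    · cases e
      rcases hs.tot a₁ b₁ trivial trivial with e | e | e
      · cases e; exact Or.inl rfl
      · exact Or.inr (Or.inl (tNN N N' ν a₁ b₁ a₂ a₄ b₄ b₅ e))
      · exact Or.inr (Or.inr (tNN N' N ν b₁ a₁ a₂ b₄ a₄ a₅ e))
    · have := e.tr (ht.tr b₂)
      exact Or.inr (Or.inl (Or.inr ⟨ν, st a₂, (ht.tr a₂).has_inter (hs.cn a₁),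
        has_inter.2 ⟨b₆ _ (h₁ _ a₂) this, this⟩⟩))
    · have := e.tr (ht.tr a₂)
      exact Or.inr (Or.inr (Or.inr ⟨ν', st b₂, (ht.tr b₂).has_inter (hs.cn b₁),
        has_inter.2 ⟨a₆ _ (h₁ _ b₂) this, this⟩⟩))

/-- The nodes containing a tag form a chain. -/
theorem SC.chain (hs : SC D s) {ν : Tag} {N N'} (hN : Item.cn N ∈ s) (hN' : Item.cn N' ∈ s)
    (h : has (N : Set V) ν) (h' : has (N' : Set V) ν) :
    (∀ z, Bx D ν z → (z ∈ N ↔ z ∈ N')) ∨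
    (∃ N₁ ∈ N', CN D N₁ ∧ ∀ z, Bx D ν z → (z ∈ N ↔ z ∈ N₁)) ∨
    (∃ N₁ ∈ N, CN D N₁ ∧ ∀ z, Bx D ν z → (z ∈ N' ↔ z ∈ N₁)) := by
  obtain ⟨A, a₁, a₂, a₃, a₄, a₅⟩ := hs.minrep hN h
  obtain ⟨B, b₁, b₂, b₃, b₄, b₅⟩ := hs.minrep hN' h'
  have k : ∀ {A B}, Item.cn A ∈ s → Item.cn B ∈ s → has (A : Set V) ν → MinR s ν B →
      Lt s (Item.cn A) (Item.cn B) → A ∈ B := by
    rintro A B a b c d (e | ⟨ν', f₁, f₂, f₃⟩)
    · exact (hs.cn b).cl.has_cn.1 e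
    · exact absurd ((hs.tr f₁).cl.sub_cn (hs.cn a) f₂ c) (d ν' f₁ ((hs.cn b).cl.has_tr.1 f₃))
  rcases hs.tot a₁ b₁ trivial trivial with e | e | e
  · cases e
    exact Or.inl fun z hz => ⟨fun H => b₃ (a₄ z H hz), fun H => a₃ (b₄ z H hz)⟩
  · exact Or.inr (Or.inl ⟨A, b₃ (k a₁ b₁ a₂ b₅ e), hs.cn a₁,
      fun z hz => ⟨fun H => a₄ z H hz, fun H => a₃ H⟩⟩)
  · exact Or.inr (Or.inr ⟨B, a₃ (k b₁ a₁ b₂ a₅ e), hs.cn b₁,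
      fun z hz => ⟨fun H => b₄ z H hz, fun H => b₃ H⟩⟩)

end Pool.Agent.MP_656653_lc

end

section

/-! Uncountable hulls. -/

namespace Pool.Agent.MP_656653_lc

open Set

theorem exists_fix {α : Type*} (G : Set α → Set α) (Q : Set α → Prop) (hG : ∀ y, Q y → Q (G y))
    (hU : ∀ (f : Om → Set α) (S : Set Om), (∀ ξ ∈ S, Q (f ξ)) → Q (⋃ ξ ∈ S, f ξ)) :
    ∃ W, Q W ∧ ∀ x : Set α, x.Countable → x ⊆ W → ∃ y, x ⊆ y ∧ G y ⊆ W := by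
  let S : Om → Set α := (wellFounded_lt (α := Om)).fix fun ξ ih => G (⋃ η, ⋃ h : η < ξ, ih η h)
  have hS : ∀ ξ, S ξ = G (⋃ η ∈ Iio ξ, S η) := fun ξ => by
    simp only [S]; rw [WellFounded.fix_eq]; rfl
  have hQ : ∀ ξ, Q (S ξ) := fun ξ => by
    induction ξ using WellFoundedLT.induction with
    | ind ξ ih => rw [hS]; exact hG _ (hU S _ ih)
  refine ⟨⋃ ξ ∈ univ, S ξ, hU S _ fun ξ _ => hQ ξ, fun x hx h => ?_⟩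
  have : ∀ a : x, ∃ ξ, a.1 ∈ S ξ := fun a => by simpa using h a.2
  choose i hi using this
  have := hx.to_subtype
  obtain ⟨b, hb⟩ := exists_bound (countable_range i)
  exact ⟨⋃ η ∈ Iio b, S η, fun a ha => mem_biUnion (hb _ ⟨⟨a, ha⟩, rfl⟩) (hi ⟨a, ha⟩),
    hS b ▸ subset_biUnion_of_mem (u := S) (mem_univ b)⟩

theorem exists_hull2 {D : Set Dp} (hD : D.Countable) (F : V → V) (x : V) (A : V → Prop)
    (Q : Set V → Prop)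
    (q₁ : ∀ (S : Set V) (f : V → Set V), Q S → (∀ z ∈ S, Q (f z)) → Q (⋃ z ∈ S, f z))
    (q₂ : ∀ (f : Om → Set V) (S : Set Om), (∀ ξ ∈ S, Q (f ξ)) → Q (⋃ ξ ∈ S, f ξ))
    (q₃ : ∀ S : Set V, S.Countable → Q S)
    (q₄ : ∀ S, Q S → Q {z : V | (z : Set V).Countable ∧ (z : Set V) ⊆ S})
    (q₅ : ∀ a, Q {z : V | A a ∧ z ∈ a}) (q₆ : ∀ S T, Q S → Q T → Q (S ∪ T)) :
    ∃ W, Q W ∧ Cl D W ∧ x ∈ W ∧ (∀ y ∈ W, F y ∈ W) ∧ (∀ a ∈ W, A a → ∀ z ∈ a, z ∈ W) ∧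
      ∀ z : V, (z : Set V).Countable → (z : Set V) ⊆ W → z ∈ W := by
  have := hD.to_subtype
  obtain ⟨W, h₁, h₂⟩ := exists_fix (fun y => ((⋃ a ∈ y, (⋃ b ∈ y, range fun i => cop D i a b) ∪
    ({F a} ∪ {z : V | A a ∧ z ∈ a})) ∪ {x}) ∪ {z : V | (z : Set V).Countable ∧ (z : Set V) ⊆ y}) Q
    (fun y hy => q₆ _ _ (q₆ _ _ (q₁ _ _ hy fun a _ => q₆ _ _
      (q₁ _ _ hy fun b _ => q₃ _ (countable_range _))
      (q₆ _ _ (q₃ _ (countable_singleton _)) (q₅ a))) (q₃ _ (countable_singleton _))) (q₄ _ hy)) q₂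
  have om : ∀ z : V, (z : Set V).Countable → (z : Set V) ⊆ W → z ∈ W := fun z a b => by
    obtain ⟨y, c, d⟩ := h₂ _ a b
    exact d (Or.inr ⟨a, c⟩)
  refine ⟨W, h₁, cl_of_cop (om _ (by simp) (by simp)) fun i a ha b hb => ?_, ?_, fun a ha => ?_,
    fun a ha h z hz => ?_, om⟩
  · obtain ⟨y, c, d⟩ := h₂ {a, b} (by simp) (by simp [insert_subset_iff, ha, hb])
    exact d (Or.inl (Or.inl (mem_biUnion (c (by simp) : a ∈ y)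
      (Or.inl (mem_biUnion (c (by simp) : b ∈ y) ⟨i, rfl⟩)))))
  · obtain ⟨y, -, d⟩ := h₂ ∅ (by simp) (by simp)
    exact d (Or.inl (Or.inr rfl))
  · obtain ⟨y, c, d⟩ := h₂ {a} (by simp) (by simp [ha])
    exact d (Or.inl (Or.inl (mem_biUnion (c rfl : a ∈ y) (Or.inr (Or.inl rfl)))))
  · obtain ⟨y, c, d⟩ := h₂ {a} (by simp) (by simp [ha])
    exact d (Or.inl (Or.inl (mem_biUnion (c rfl : a ∈ y) (Or.inr (Or.inr ⟨h, hz⟩)))))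

theorem small_of_sub (a : V) {S : Set V} (h : S ⊆ a) : Small.{0} S :=
  @small_subset _ _ _ h (ZFSet.small_coe a)

theorem exists_tw {D : Set Dp} (hD : D.Countable) (F : V → V) (x : V) :
    ∃ W : V, TW D W ∧ x ∈ W ∧ ∀ y ∈ W, F y ∈ W := by
  obtain ⟨W, h₁, h₂, h₃, h₄, h₅, h₆⟩ := exists_hull2 hD F x (fun _ => True) (fun S => Small.{0} S)
    (fun S f _ h => by
      have : ∀ z : S, Small.{0} (f z) := fun z => h z z.2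
      rw [biUnion_eq_iUnion]
      infer_instance)
    (fun f S h => by
      have : ∀ z : S, Small.{0} (f z) := fun z => h z z.2
      rw [biUnion_eq_iUnion]
      infer_instance)
    (fun S h => by have := h.to_subtype; infer_instance)
    (fun S h => by
      obtain ⟨y, rfl⟩ := exists_zf h
      exact small_of_sub y.powerset fun z hz => ZFSet.mem_powerset.2 hz.2)
    (fun a => small_of_sub a fun z hz => hz.2)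
    (fun S T _ _ => inferInstance)
  obtain ⟨W, rfl⟩ := exists_zf h₁
  exact ⟨W, ⟨h₂, fun a b => h₅ _ a trivial _ b, fun a b => h₆ _ a b⟩, h₃, h₄⟩

section Sm

variable (T : Type)

abbrev Lb := ℕ → T ⊕ Om

def Sm (S : Set V) : Prop := ∃ f : Lb T → V, S ⊆ range f

variable {T}

theorem Lb.surj : ∃ e : Lb T → ℕ → Lb T, Function.Surjective e :=
  ⟨fun l n m => l (Nat.pair n m), fun g => ⟨fun k => g k.unpair.1 k.unpair.2, by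
    funext n m; simp⟩⟩

theorem Sm.mono {S S' : Set V} (h : Sm T S) (h' : S' ⊆ S) : Sm T S' :=
  h.imp fun _ H => h'.trans H

theorem Sm.idx {ι : Type*} (g : Lb T → ι) (S : Set ι) (hS : S ⊆ range g) (f : ι → Set V)
    (h : ∀ z ∈ S, Sm T (f z)) : Sm T (⋃ z ∈ S, f z) := by
  obtain ⟨e, he⟩ := Lb.surj (T := T)
  choose! F hF using h
  refine ⟨fun l => F (g (e l 0)) (e l 1), fun y hy => ?_⟩
  obtain ⟨z, h₁, h₂⟩ := mem_iUnion₂.1 hy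
  obtain ⟨a, rfl⟩ := hS h₁
  obtain ⟨b, rfl⟩ := hF _ h₁ h₂
  obtain ⟨l, hl⟩ := he fun n => if n = 0 then a else b
  exact ⟨l, by simp [hl]⟩

theorem Sm.bind {S : Set V} (hS : Sm T S) (f : V → Set V) (h : ∀ z ∈ S, Sm T (f z)) :
    Sm T (⋃ z ∈ S, f z) := by
  obtain ⟨g, hg⟩ := hS
  exact Sm.idx g S hg f h

theorem Sm.om (f : Om → Set V) (S : Set Om) (h : ∀ z ∈ S, Sm T (f z)) : Sm T (⋃ z ∈ S, f z) :=
  Sm.idx (fun l => (l 0).elim (fun _ => ⊥) id) S (fun a _ => ⟨fun _ => .inr a, rfl⟩) f h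

theorem Sm.sing (a : V) : Sm T {a} := ⟨fun _ => a, by rintro _ rfl; exact ⟨fun _ => .inr ⊥, rfl⟩⟩

theorem Sm.union {S S' : Set V} (h : Sm T S) (h' : Sm T S') : Sm T (S ∪ S') := by
  classical
  obtain ⟨b, hb⟩ := exists_gt (⊥ : Om)
  refine (Sm.om (fun ξ => if ξ = ⊥ then S else S') univ fun ξ _ => ?_).mono ?_
  · split_ifs; exacts [h, h']
  · rintro x (hx | hx)
    · exact mem_biUnion (mem_univ ⊥) (by simpa)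
    · exact mem_biUnion (mem_univ b) (by simpa [hb.ne'])

theorem exists_surjective_nat_om : ∃ g : Om → ℕ, Function.Surjective g := by
  have : Infinite Om := by
    by_contra h
    rw [not_infinite_iff_finite] at h
    exact Om_unc (to_countable _)
  exact ⟨_, Function.invFun_surjective (Infinite.natEmbedding Om).injective⟩

theorem Sm.cnt {S : Set V} (h : S.Countable) : Sm T S := by
  obtain ⟨g, hg⟩ := exists_surjective_nat_om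
  rcases S.eq_empty_or_nonempty with rfl | hne
  · exact (Sm.sing ∅).mono (empty_subset _)
  obtain ⟨f, rfl⟩ := h.exists_eq_range hne
  refine (Sm.om (fun ξ => {f (g ξ)}) univ fun _ _ => Sm.sing _).mono ?_
  rintro _ ⟨n, rfl⟩
  obtain ⟨ξ, rfl⟩ := hg n
  exact mem_biUnion (mem_univ ξ) rfl

theorem Sm.subs {S : Set V} (h : Sm T S) :
    Sm T {z : V | (z : Set V).Countable ∧ (z : Set V) ⊆ S} := by
  obtain ⟨e, he⟩ := Lb.surj (T := T)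
  obtain ⟨f, hf⟩ := h
  refine ((Sm.sing ∅).union (S' := range fun l => ZFSet.range fun n => f (e l n))
    ⟨_, subset_rfl⟩).mono fun z hz => ?_
  rcases (z : Set V).eq_empty_or_nonempty with h | h
  · exact Or.inl (SetLike.coe_injective (by simpa using h))
  obtain ⟨g, hg⟩ := hz.1.exists_eq_range h
  choose k hk using fun n => hf (hz.2 (hg ▸ mem_range_self n))
  obtain ⟨l, rfl⟩ := he k
  refine Or.inr ⟨l, SetLike.coe_injective ?_⟩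
  rw [hg]
  simp [hk]

noncomputable def evH : WType (fun b : Set (Lb T) => b) → V :=
  WType.elim V fun z => ZFSet.range z.2

variable (T) in
noncomputable def Her : V := ZFSet.range (evH (T := T))

theorem mem_her {x : V} : x ∈ Her T ↔ Sm T x ∧ ∀ y ∈ x, y ∈ Her T := by
  classical
  constructor
  · intro h
    obtain ⟨⟨b, t⟩, rfl⟩ := ZFSet.mem_range.1 h
    have e : ∀ y, y ∈ evH (WType.mk b t) ↔ ∃ l, evH (t l) = y := fun y => ZFSet.mem_range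
    refine ⟨⟨fun l => if h : l ∈ b then evH (t ⟨l, h⟩) else ∅, fun y hy => ?_⟩, fun y hy => ?_⟩
    · obtain ⟨l, rfl⟩ := (e y).1 hy
      exact ⟨l, dif_pos l.2⟩
    · obtain ⟨l, rfl⟩ := (e y).1 hy
      exact ZFSet.mem_range.2 ⟨_, rfl⟩
  · rintro ⟨⟨f, hf⟩, h⟩
    choose t ht using fun l : {l | f l ∈ x} => ZFSet.mem_range.1 (h _ l.2)
    refine ZFSet.mem_range.2 ⟨WType.mk {l | f l ∈ x} t, ZFSet.ext fun y => ?_⟩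
    refine ZFSet.mem_range.trans ⟨?_, fun hy => ?_⟩
    · rintro ⟨l, rfl⟩
      change evH (t l) ∈ x
      rw [ht]; exact l.2
    · obtain ⟨l, rfl⟩ := hf hy
      exact ⟨⟨l, hy⟩, ht _⟩

theorem her_of_sub {x y : V} (h : x ∈ Her T) (h' : y ⊆ x) : y ∈ Her T :=
  mem_her.2 ⟨(mem_her.1 h).1.mono h', fun z hz => (mem_her.1 h).2 z (h' hz)⟩

theorem her_ins {a x : V} (ha : a ∈ Her T) (hx : x ∈ Her T) : insert a x ∈ Her T :=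
  mem_her.2 ⟨((Sm.sing a).union (mem_her.1 hx).1).mono fun z hz => ZFSet.mem_insert_iff.1 hz,
    fun z hz => (ZFSet.mem_insert_iff.1 hz).elim (fun e => e ▸ ha) ((mem_her.1 hx).2 z)⟩

theorem her_cnt {x : V} (h : (x : Set V).Countable) (h' : x ⊆ Her T) : x ∈ Her T :=
  mem_her.2 ⟨Sm.cnt h, h'⟩

theorem tw_her {D : Set Dp} (h : ∀ d ∈ D, d.1 ∈ Her T) : TW D (Her T) := by
  have tr : ∀ {x y : V}, x ∈ Her T → y ∈ x → y ∈ Her T := fun a b => (mem_her.1 a).2 _ b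
  have h0 : (∅ : V) ∈ Her T := her_cnt (by simp) (ZFSet.empty_subset _)
  refine ⟨⟨h0, her_ins, fun {x} hx => mem_her.2 ⟨((mem_her.1 hx).1.bind (fun z => (z : Set V))
    fun z hz => (mem_her.1 (tr hx hz)).1).mono fun z hz => ?_, fun z hz => ?_⟩,
    fun a _ => her_of_sub a fun z hz => (ZFSet.mem_inter.1 hz).1,
    fun {x y} hx hy => mem_her.2 ⟨((mem_her.1 hx).1.bind (fun a => ⋃ b ∈ (y : Set V), {a.pair b})
      fun a _ => (mem_her.1 hy).1.bind _ fun b _ => Sm.sing _).mono fun z hz => ?_,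
      fun z hz => ?_⟩, h, fun _ _ _ _ _ a => her_of_sub a ZFSet.sep_subset, fun {x} hx => ?_,
    fun a _ _ b => tr a b⟩, tr, her_cnt⟩
  · obtain ⟨w, a, b⟩ := ZFSet.mem_sUnion.1 hz
    exact mem_biUnion a b
  · obtain ⟨w, a, b⟩ := ZFSet.mem_sUnion.1 hz
    exact tr (tr hx a) b
  · obtain ⟨a, ha, b, hb, rfl⟩ := ZFSet.mem_prod.1 hz
    exact mem_biUnion ha (mem_biUnion hb rfl)
  · obtain ⟨a, ha, b, hb, rfl⟩ := ZFSet.mem_prod.1 hz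
    refine her_cnt (by simp [ZFSet.pair]) fun w hw => ?_
    rcases ZFSet.mem_pair.1 hw with rfl | rfl
    · exact her_cnt (by simp) fun v hv => ZFSet.mem_singleton.1 hv ▸ tr hx ha
    · refine her_cnt (by simp) fun v hv => ?_
      rcases ZFSet.mem_pair.1 hv with rfl | rfl
      exacts [tr hx ha, tr hy hb]
  · by_cases e : ∃ y, y ∈ x
    · exact tr hx (eps_mem e.choose_spec)
    · unfold eps; rwa [dif_neg e]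

end Sm

/-- Reflecting sets. -/
def Refl (W : V) : Prop := ∀ D : Set Dp, D.Countable → ∃ M : V, Cl D M ∧
  (∀ x y : V, x ∈ M ∩ W → y ∈ x → y ∈ M) ∧
  (∀ x : V, (x : Set V).Countable → x ⊆ M → x ∈ M) ∧ ∀ x : V, x ⊆ M ∩ W → x ∈ W

theorem refl_her (T : Type) : Refl (Her T) := by
  intro D hD
  obtain ⟨M, h₁, h₂, -, -, h₅, h₆⟩ := exists_hull2 hD id ∅ (· ∈ Her T) (Sm T)
    (fun S f a b => a.bind f b) Sm.om (fun _ => Sm.cnt) (fun _ => Sm.subs)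
    (fun a => by
      by_cases h : a ∈ Her T
      · exact (mem_her.1 h).1.mono fun z hz => hz.2
      · exact (Sm.sing ∅).mono fun z hz => absurd hz.1 h)
    (fun _ _ => Sm.union)
  obtain ⟨M, rfl⟩ := exists_zf (S := M) (by
    obtain ⟨f, hf⟩ := h₁
    exact small_subset hf)
  exact ⟨M, h₂, fun x y a b => h₅ x (ZFSet.mem_inter.1 a).1 (ZFSet.mem_inter.1 a).2 y b, h₆,
    fun x hx => mem_her.2 ⟨h₁.mono fun z hz => (ZFSet.mem_inter.1 (hx hz)).1,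
      fun z hz => (ZFSet.mem_inter.1 (hx hz)).2⟩⟩

theorem exists_refl {D : Set Dp} (hD : D.Countable) (x : V) :
    ∃ W : V, TW D W ∧ x ∈ W ∧ Refl W := by
  obtain ⟨W, h₁, h₂, -⟩ := exists_tw hD id x
  have h : ∀ y, y ∈ W → y ∈ Her (Shrink W) := by
    intro y
    induction y using ZFSet.inductionOn with
    | _ y ih =>
      intro hy
      refine mem_her.2 ⟨⟨fun l => (l 0).elim (fun a => ((equivShrink W).symm a).1) fun _ => ∅,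
        fun z hz => ⟨fun _ => .inl (equivShrink W ⟨z, h₁.trans hy hz⟩), by simp⟩⟩,
        fun z hz => ih z hz (h₁.trans hy hz)⟩
  exact ⟨_, tw_her fun d hd => h _ (h₁.cl.const d hd), h x h₂, refl_her _⟩

end Pool.Agent.MP_656653_lc

end

section

/-! The conditions of the iteration. -/

set_option synthInstance.maxSize 1000000

namespace Pool.Agent.MP_656653_lc

open Set Filter Item

noncomputable instance : DecidableEq Item := Classical.decEq _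

noncomputable def trc (ν : Tag) (N : V) : Trc := (dl N, N ∩ ν.nm)

def wS (ν : Tag) (p : C) : Set X := {x | atm ν x ∈ p}

def TS (ν : Tag) (p : C) : Set Trc := {τ | ∃ N, cn N ∈ p ∧ has (N : Set V) ν ∧ τ = trc ν N}

theorem wS_fin (ν : Tag) (p : C) : (wS ν p).Finite :=
  p.finite_toSet.preimage (f := atm ν) fun _ _ _ _ h => by cases h; rfl

theorem TS_fin (ν : Tag) (p : C) : (TS ν p).Finite :=
  (p.finite_toSet.image fun z => trc ν z.ext).subset fun _ ⟨N, h, _, e⟩ => ⟨cn N, h, e.symm⟩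

open Classical in
noncomputable def res (W : V) (p : C) : C := p.filter (has (W : Set V))

theorem mem_res {W : V} {p : C} {x} : x ∈ res W p ↔ x ∈ p ∧ has (W : Set V) x := by
  simp [res]

theorem coe_res (W : V) (p : C) : (res W p : Set Item) = {x ∈ (p : Set Item) | has (W : Set V) x} :=
  Set.ext fun _ => mem_res

theorem res_mono {W : V} {p q : C} (h : ∀ x ∈ p, has (W : Set V) x → x ∈ q) :
    res W p ⊆ res W q := fun x hx => mem_res.2 ⟨h x (mem_res.1 hx).1 (mem_res.1 hx).2, (mem_res.1 hx).2⟩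

def St.Val (s : St) (ν : Tag) (w : Set X) (T : Set Trc) : Prop :=
  (ν.k2 = true ∧ (∀ x ∈ w, x = mkX (pt x)) ∧ s.Val2 ν.sA (pt '' w) T) ∨
    (ν.k2 = false ∧ s.Val1 ν.sA ν.sF ν.fl w T)

section
variable {α β : Type*} [Code α] [Code β]

instance Grd.coe (f : α → Finset β) [h : Cf f] : Grd (fun _ a y => y ∈ (↑(f a) : Set β)) :=
  Grd.finset f

theorem cf_tag (f : Tag → V) (h : ∀ D K, Cl D K → ∀ ν, has K ν → f ν ∈ K) : Cf f :=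
  ⟨Eventually.of_forall h⟩

instance (f : α → Tag) [Cf f] : Cf (fun a => (f a).sA) :=
  have := cf_tag Tag.sA fun _ _ h _ H => (h.has_tag.1 H).2.2.2.2.2.1
  Cf.comp Tag.sA f

instance (f : α → Tag) [Cf f] : Cf (fun a => (f a).sF) :=
  have := cf_tag Tag.sF fun _ _ h _ H => (h.has_tag.1 H).2.2.2.2.2.2
  Cf.comp Tag.sF f

instance (σ : α → V) (f : α → Finset Pt) (δ : α → Om) :
    Def (fun s a => s.Lev (σ a) (f a) (δ a)) := by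
  unfold St.Lev St.End; infer_instance

instance (σ F : α → V) [Cf F] (φ : α → Bool) : Def (fun s a => s.H1 (σ a) (F a) (φ a)) := by
  have := Cf.comp F (fun x : (α × V) × List (List ℕ) => x.1.1)
  unfold St.H1; infer_instance

end

theorem def_val2 : Def (fun s (a : V × Finset Pt × Finset Trc) => s.Val2 a.1 a.2.1 a.2.2) := by
  unfold St.Val2; infer_instance

theorem def_val1 : Def (fun s (a : V × V × Bool × Finset X × Finset Trc) =>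
    s.Val1 a.1 a.2.1 a.2.2.1 a.2.2.2.1 a.2.2.2.2) := by
  unfold St.Val1; infer_instance

theorem def_val : Def (fun s (a : Tag × Finset X × Finset Trc) => s.Val a.1 a.2.1 a.2.2) := by
  classical
  have := def_val1
  have := def_val2
  have := Def.comp (fun s (a : V × Finset Pt × Finset Trc) => s.Val2 a.1 a.2.1 a.2.2)
    (fun a : Tag × Finset X × Finset Trc => (a.1.sA, a.2.1.image pt, a.2.2))
  simp only [Finset.coe_image] at this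
  have := Def.comp (fun s (a : V × V × Bool × Finset X × Finset Trc) =>
    s.Val1 a.1 a.2.1 a.2.2.1 a.2.2.2.1 a.2.2.2.2)
    (fun a : Tag × Finset X × Finset Trc => (a.1.sA, a.1.sF, a.1.fl, a.2.1, a.2.2))
  unfold St.Val; infer_instance

def FV (ν : Tag) (b : C) (w : Set X) (T : Set Trc) : Prop :=
  Frc (fun s (_ : Unit) => s.Val ν w T) ν.P b ()

theorem val_frc : ∀ᶠ D in Fl, ∀ (ν : Tag) K g, Sit D ⟨K, ν.P, g⟩ → has K ν → ∀ w T, w.Finite →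
    T.Finite → (∀ x ∈ w, has K x) → (∀ x ∈ T, has K x) →
    (St.Val ⟨K, ν.P, g⟩ ν w T ↔ ∃ b ∈ g, FV ν b w T) := by
  filter_upwards [@Def.frc _ _ _ def_val] with D hD ν K g hs hν w T hw hT h₁ h₂
  lift w to Finset X using hw
  lift T to Finset Trc using hT
  exact hD _ hs (ν, w, T) (hs.cl.has_pair.2 ⟨hν, hs.cl.has_pair.2
    ⟨hs.cl.has_finset.2 h₁, hs.cl.has_finset.2 h₂⟩⟩)

def Abv (w : Set X) (T T' : Set Trc) : Prop :=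
  ∀ τ ∈ T', τ ∈ T ∨ ∀ x ∈ w, (∀ p ∈ x.1, pbl τ.1 p) ∧ x.2 < τ.1

theorem Abv.of_sub {w T T'} (h : T' ⊆ T) : Abv w T T' := fun _ hτ => Or.inl (h hτ)

theorem St.Val.abv {s : St} {ν w T T'} (h : s.Val ν w T) (h' : Abv w T T') : s.Val ν w T' := by
  rcases h with ⟨h₀, h₁, h⟩ | ⟨h₀, h⟩
  · refine Or.inl ⟨h₀, h₁, h.1, h.2.1, h.2.2.1, fun τ hτ => (h' τ hτ).elim (h.2.2.2 τ) fun H => ?_⟩
    have : ∀ p ∈ pt '' w, pbl τ.1 p := by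
      rintro _ ⟨x, hx, rfl⟩
      refine (H x hx).1 _ ?_
      rw [h₁ x hx]
      exact List.mem_singleton_self _
    exact ⟨⟨fun p hp => iff_of_true (this p hp).1 (this p hp).2, fun p hp q hq =>
      St.c2_of_bl (h.2.1 p hp q hq) (h.2.1 q hq p hp) (Or.inl (this p hp)),
      fun p hp => St.end_of_bl (this p hp)⟩, fun ⟨p, hp, a⟩ => absurd (this p hp).1 a.not_gt⟩
  · exact Or.inr ⟨h₀, h.1, h.2.1, h.2.2.1, fun τ hτ => (h' τ hτ).elim (h.2.2.2 τ) fun H =>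
      ⟨fun x hx _ => (H x hx).1, fun x hx _ _ a => absurd (H x hx).2 a.not_gt⟩⟩

theorem St.val_empty (s : St) (ν : Tag) (T : Set Trc) : s.Val ν ∅ T := by
  unfold St.Val St.Val1 St.Val2 St.Lev
  cases ν.k2 <;> simp

theorem FV.mono {ν b b' w T T'} (h : FV ν b w T) (hb : b ⊆ b') (h' : Abv w T T') :
    FV ν b' w T' := by
  filter_upwards [Frc.mono h hb] with D hD K g hs H using (hD K g hs H).abv h'

theorem fv_empty (ν b T) : FV ν b ∅ T := Eventually.of_forall fun _ _ _ _ _ => St.val_empty _ _ _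

structure TagOK (ν : Tag) : Prop where
  dt : ∀ d : Dat, (∀ τ ∈ d.2, τ.2 ⊆ ν.nm) → enc d ∈ ν.dt
  k2 : ν.k2 = true → ν.nm = Nm ν.P ∧ (∀ z : V, z ⊆ ν.dt.prod ν.P → z ∈ ν.bb) ∧ Refl ν.W

structure Cond0 (D : Set Dp) (p : C) : Prop where
  sc : SC D p
  atm : ∀ ν x, atm ν x ∈ p → tr ν ∈ p
  ok : ∀ ν, tr ν ∈ p → TagOK ν ∧ FV ν (res ν.W p) (wS ν p) (TS ν p)

def GT (D : Set Dp) (ν : Tag) : Prop := ∀ b : C, enc b ∈ ν.P ↔ has (ν.W : Set V) b ∧ Cond0 D b ∧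
  ∀ ν', tr ν' ∈ b → ∀ _ : ν'.W.rank < ν.W.rank, GT D ν'
termination_by ν.W.rank

structure Vd (D : Set Dp) (ν : Tag) (p : C) : Prop where
  ok : TagOK ν
  gt : GT D ν
  fv : FV ν (res ν.W p) (wS ν p) (TS ν p)

structure PP (D : Set Dp) (p : C) : Prop where
  sc : SC D p
  atm : ∀ ν x, atm ν x ∈ p → tr ν ∈ p
  vd : ∀ ν, tr ν ∈ p → Vd D ν p

variable {D : Set Dp}

theorem gt_iff {ν : Tag} (h : TW D ν.W) :
    GT D ν ↔ ∀ b : C, enc b ∈ ν.P ↔ has (ν.W : Set V) b ∧ PP D b := by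
  rw [GT]
  refine forall_congr' fun b => iff_congr Iff.rfl (and_congr_right fun hb => ⟨fun H => ?_, fun H => ?_⟩)
  · exact ⟨H.1.sc, H.1.atm, fun ν' a => ⟨(H.1.ok ν' a).1,
      H.2 ν' a (rk_lt h.cl (h.cl.has_finset.1 hb _ a)), (H.1.ok ν' a).2⟩⟩
  · exact ⟨⟨H.sc, H.atm, fun ν' a => ⟨(H.vd ν' a).ok, (H.vd ν' a).fv⟩⟩, fun ν' a _ => (H.vd ν' a).gt⟩

/-- Good tags. -/
structure Tg (D : Set Dp) (ν : Tag) : Prop where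
  tw : TW D ν.W
  ok : TagOK ν
  gt : GT D ν

theorem Tg.mem {ν} (h : Tg D ν) {b : C} : enc b ∈ ν.P ↔ has (ν.W : Set V) b ∧ PP D b :=
  (gt_iff h.tw).1 h.gt b

theorem PP.tg {p ν} (h : PP D p) (hν : tr ν ∈ p) : Tg D ν :=
  ⟨h.sc.tr hν, (h.vd ν hν).ok, (h.vd ν hν).gt⟩

theorem Vd.of {ν p q} (h : Vd D ν p) (h₁ : ∀ x ∈ p, has (ν.W : Set V) x → x ∈ q)
    (h₂ : wS ν q = wS ν p) (h₃ : Abv (wS ν p) (TS ν p) (TS ν q)) : Vd D ν q :=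
  ⟨h.ok, h.gt, h₂ ▸ h.fv.mono (res_mono h₁) h₃⟩

structure N0 (D : Set Dp) : Prop where
  bas : ∀ {K}, Cl D K → Bas K
  x : ∀ {K}, Cl D K → allc X ∈ K
  om : ∀ {K}, Cl D K → allc Om ∈ K

theorem ev_n0 : ∀ᶠ D in Fl, N0 D := by
  filter_upwards [ev_bas, ev_const (allc X), ev_const (allc Om)] with D h₁ h₂ h₃
  exact ⟨h₁ _, h₂ _, h₃ _⟩

theorem N0.has_x (n : N0 D) {W} (h : TW D W) (x : X) : has (W : Set V) x :=
  h.trans (n.x h.cl) (enc_mem_allc x)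

theorem N0.has_om (n : N0 D) {W} (h : TW D W) (x : Om) : has (W : Set V) x :=
  h.trans (n.om h.cl) (enc_mem_allc x)

theorem bx_nm {ν : Tag} {z : V} (h : z ∈ ν.nm) : Bx D ν z :=
  fun _ hW h' => hW.trans (hW.cl.has_tag.1 h').2.2.1 h

theorem bx_bb {ν : Tag} {z : V} (h : z ∈ ν.bb) : Bx D ν z :=
  fun _ hW h' => hW.trans (hW.cl.has_tag.1 h').2.2.2.2.1 h

theorem N0.trc_eq (n : N0 D) {ν : Tag} {N N' : V} (h : ∀ z, Bx D ν z → (z ∈ N ↔ z ∈ N')) :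
    trc ν N = trc ν N' := by
  refine Prod.ext (dl_congr fun a => h _ fun _ hW _ => n.has_om hW a) (ZFSet.ext fun z => ?_)
  simp only [trc, ZFSet.mem_inter]
  exact and_congr_left fun H => h z (bx_nm H)

theorem N0.trc_inter (n : N0 D) {ν : Tag} {N W : V} (h : TW D W) (h' : has (W : Set V) ν) :
    trc ν (N ∩ W) = trc ν N :=
  n.trc_eq fun z hz => ZFSet.mem_inter.trans (and_iff_left (hz W h h'))

theorem N0.has_atm (n : N0 D) {W ν x} (h : TW D W) : has (W : Set V) (atm ν x) ↔ has (W : Set V) ν :=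
  h.cl.has_atm.trans (and_iff_left (n.has_x h x))

theorem TW.has_sub {W : V} (h : TW D W) {ν : Tag} (h' : has (W : Set V) ν) {α} [Code α] {x : α}
    (hx : has (ν.W : Set V) x) : has (W : Set V) x := h.sub h' hx

theorem pp_empty : PP D ∅ :=
  ⟨⟨by simp, by simp, by simp, by simp⟩, by simp, by simp⟩

theorem PP.res (n : N0 D) {p W} (h : PP D p) (hW : TW D W) : PP D (res W p) := by
  refine ⟨coe_res W p ▸ h.sc.res hW.cl, fun ν x a => ?_, fun ν a => ?_⟩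
  · rw [mem_res] at a ⊢
    exact ⟨h.atm ν x a.1, hW.cl.has_tr.2 ((n.has_atm hW).1 a.2)⟩
  · rw [mem_res, hW.cl.has_tr] at a
    refine (h.vd ν a.1).of (fun x b c => mem_res.2 ⟨b, hW.has_sub a.2 c⟩) (Set.ext fun x => ?_)
      (Abv.of_sub fun _ ⟨N, b, c⟩ => ⟨N, (mem_res.1 b).1, c⟩)
    exact mem_res.trans (and_iff_left ((n.has_atm hW).2 a.2))

theorem PP.res_mem (n : N0 D) {p ν} (h : PP D p) (hν : tr ν ∈ p) :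
    enc (MP_656653_lc.res ν.W p) ∈ ν.P :=
  (h.tg hν).mem.2 ⟨(h.sc.tr hν).cl.has_finset.2 fun _ a => (mem_res.1 a).2, h.res n (h.sc.tr hν)⟩

theorem wS_union (ν p q) : wS ν (p ∪ q) = wS ν p ∪ wS ν q := by ext; simp [wS]

theorem TS_union (ν p q) : TS ν (p ∪ q) = TS ν p ∪ TS ν q := by
  ext; simp [TS, or_and_right, exists_or]

theorem wS_out (n : N0 D) {W ν} {u : C} (hW : TW D W) (hu : ∀ x ∈ u, has (W : Set V) x)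
    (h : ¬ has (W : Set V) ν) : wS ν u = ∅ :=
  eq_empty_of_forall_notMem fun _ a => h ((n.has_atm hW).1 (hu _ a))

theorem TS_out {W ν} {u : C} (hW : TW D W) (hu : ∀ x ∈ u, has (W : Set V) x)
    (h : ¬ has (W : Set V) ν) : TS ν u = ∅ :=
  eq_empty_of_forall_notMem fun _ ⟨_, a, b, _⟩ => h (hW.trans (hW.cl.has_cn.1 (hu _ a)) b)

theorem wS_in (n : N0 D) {W ν} {p u : C} (hW : TW D W) (hu : res W p ⊆ u)
    (h : has (W : Set V) ν) : wS ν p ⊆ wS ν u :=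
  fun _ a => hu (mem_res.2 ⟨a, (n.has_atm hW).2 h⟩)

theorem TS_in (n : N0 D) {ν ν'} {p u : C} (hp : SC D p) (hν : tr ν ∈ p) (hu : res ν.W p ⊆ u)
    (h : has (ν.W : Set V) ν') : TS ν' p ⊆ TS ν' u := fun _ ⟨N, a, b, c⟩ =>
  ⟨N ∩ ν.W, hu (mem_res.2 ⟨hp.red hν a, (hp.tr hν).has_inter (hp.cn a)⟩), has_inter.2 ⟨b, h⟩,
    c.trans (n.trc_inter (hp.tr hν) h).symm⟩

theorem PP.union (n : N0 D) {p u ν} (h : PP D p) (hν : tr ν ∈ p) (hu : enc u ∈ ν.P)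
    (hr : MP_656653_lc.res ν.W p ⊆ u) : PP D (p ∪ u) := by
  obtain ⟨h₁, h₂⟩ := (h.tg hν).mem.1 hu
  have hW := h.sc.tr hν
  replace h₁ := hW.cl.has_finset.1 h₁
  refine ⟨?_, fun ν' x a => ?_, fun ν' a => ?_⟩
  · rw [Finset.coe_union]
    exact h.sc.union hν h₂.sc h₁ fun x a b => hr (mem_res.2 ⟨a, b⟩)
  · rw [Finset.mem_union] at a ⊢
    exact a.imp (h.atm _ _) (h₂.atm _ _)
  by_cases e : has (ν.W : Set V) ν'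
  · have a' : tr ν' ∈ u := (Finset.mem_union.1 a).elim
      (fun b => hr (mem_res.2 ⟨b, hW.cl.has_tr.2 e⟩)) id
    refine (h₂.vd ν' a').of (fun x b _ => Finset.mem_union_right _ b) ?_ (Abv.of_sub ?_)
    · rw [wS_union, union_eq_right.2 (wS_in n hW hr e)]
    · rw [TS_union, union_eq_right.2 (TS_in n h.sc hν hr e)]
  · have a' : tr ν' ∈ p := (Finset.mem_union.1 a).resolve_right
      fun b => e (hW.cl.has_tr.1 (h₁ _ b))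
    refine (h.vd ν' a').of (fun x b _ => Finset.mem_union_left _ b) ?_ (Abv.of_sub ?_)
    · rw [wS_union, wS_out n hW h₁ e, union_empty]
    · rw [TS_union, TS_out hW h₁ e, union_empty]

theorem TW.not_self {ν : Tag} (h : TW D ν.W) : ¬ has (ν.W : Set V) ν :=
  fun a => lt_irrefl _ (rk_lt' h.cl a)

theorem res_union {W : V} {p u : C} (h₁ : ∀ x ∈ u, has (W : Set V) x) (hr : res W p ⊆ u) :
    res W (p ∪ u) = u := by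
  ext x
  rw [mem_res, Finset.mem_union]
  exact ⟨fun a => a.1.elim (fun b => hr (mem_res.2 ⟨b, a.2⟩)) id, fun a => ⟨Or.inr a, h₁ x a⟩⟩

theorem PP.ext (n : N0 D) {p u ν x} (h : PP D p) (hν : tr ν ∈ p) (hu : enc u ∈ ν.P)
    (hr : MP_656653_lc.res ν.W p ⊆ u) (hv : FV ν u (insert x (wS ν p)) (TS ν p)) :
    PP D (insert (Item.atm ν x) (p ∪ u)) := by
  have h' := h.union n hν hu hr
  have hW := h.sc.tr hν
  have h₁ := hW.cl.has_finset.1 ((h.tg hν).mem.1 hu).1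
  have hT : ∀ ν', TS ν' (insert (Item.atm ν x) (p ∪ u)) = TS ν' (p ∪ u) := fun ν' => by
    ext; simp [TS]
  refine ⟨?_, fun ν' x a => ?_, fun ν' a => ?_⟩
  · rw [Finset.coe_insert]; exact h'.sc.atm _ _
  · rcases Finset.mem_insert.1 a with a | a
    · cases a; simp [hν]
    · exact Finset.mem_insert_of_mem (h'.atm _ _ a)
  have a' := (Finset.mem_insert.1 a).resolve_left (by simp)
  by_cases e : ν' = ν
  · subst e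
    refine ⟨(h.vd _ hν).ok, (h.vd _ hν).gt, ?_⟩
    have : wS ν' (insert (Item.atm ν' x) (p ∪ u)) = insert x (wS ν' (p ∪ u)) := by
      ext; simp [wS]
    rw [this, hT, wS_union, TS_union, wS_out n hW h₁ hW.not_self, TS_out hW h₁ hW.not_self,
      union_empty, union_empty]
    exact hv.mono (fun y b => mem_res.2 ⟨by simp [b], h₁ y b⟩) (Abv.of_sub subset_rfl)
  · refine (h'.vd ν' a').of (fun x b _ => Finset.mem_insert_of_mem b) ?_ (Abv.of_sub (hT _).le)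
    ext; simp [wS, e]

theorem PP.top (n : N0 D) {p ν} (h : PP D p) (hν : Tg D ν) (hp : ∀ x ∈ p, has (ν.W : Set V) x) :
    PP D (insert (tr ν) p) := by
  have hT : ∀ ν', TS ν' (insert (tr ν) p) = TS ν' p := fun ν' => by ext; simp [TS]
  have hw : ∀ ν', wS ν' (insert (tr ν) p) = wS ν' p := fun ν' => by ext; simp [wS]
  refine ⟨?_, fun ν' x a => ?_, fun ν' a => ?_⟩
  · rw [Finset.coe_insert]; exact h.sc.top hν.tw hp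
  · exact Finset.mem_insert_of_mem (h.atm _ _ ((Finset.mem_insert.1 a).resolve_left (by simp)))
  rcases Finset.mem_insert.1 a with a | a
  · cases a
    refine ⟨hν.ok, hν.gt, ?_⟩
    rw [hw, wS_out n hν.tw hp hν.tw.not_self]
    exact fv_empty _ _ _
  · exact (h.vd ν' a).of (fun x b _ => Finset.mem_insert_of_mem b) (hw _) (Abv.of_sub (hT _).le)

theorem am_fin (s t : C) : (am s t).Finite := by
  refine (s.finite_toSet.union t.finite_toSet).union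
    ((s.finite_toSet.image2 (fun a b : Item => cn (a.ext ∩ b.ext)) t.finite_toSet).subset ?_)
  rintro _ ⟨N, ν, a, b, -, rfl⟩
  exact ⟨_, a, _, b, rfl⟩

noncomputable def amF (s t : C) : C := (am_fin s t).toFinset

theorem mem_amF {s t : C} {x} : x ∈ amF s t ↔ x ∈ s ∪ t ∨
    ∃ N ν, cn N ∈ s ∧ tr ν ∈ t ∧ has (N : Set V) ν ∧ x = cn (N ∩ ν.W) := by
  simp [amF, am, or_assoc]

theorem sub_amF {s t : C} : s ∪ t ⊆ amF s t := fun _ a => mem_amF.2 (Or.inl a)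

theorem has_amF {K} (h : Cl D K) {s t : C} (hs : has K s) (ht : has K t) : has K (amF s t) := by
  rw [h.has_finset] at hs ht ⊢
  intro x hx
  rcases mem_amF.1 hx with a | ⟨N, ν, a, b, -, rfl⟩
  · exact (Finset.mem_union.1 a).elim (hs x) (ht x)
  · exact h.has_cn.2 (h.int (h.has_cn.1 (hs _ a)) (h.ext_mem (ht _ b)))

theorem TS_amF (n : N0 D) {s t : C} (ht : SC D t) (ν) : TS ν (amF s t) ⊆ TS ν (s ∪ t) := by
  rintro _ ⟨N, a, b, rfl⟩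
  rcases mem_amF.1 a with a | ⟨N', ν', a', c, -, e⟩
  · exact ⟨N, a, b, rfl⟩
  · cases e
    exact ⟨N', Finset.mem_union_left _ a', (has_inter.1 b).1,
      n.trc_inter (ht.tr c) (has_inter.1 b).2⟩

theorem PP.glue (n : N0 D) {s t : C} {M} (hs : PP D s) (hM : cn M ∈ s) (ht : SC D t)
    (h₁ : ∀ x ∈ t, has (M : Set V) x) (h₂ : ∀ x ∈ s, has (M : Set V) x → x ∈ t)
    (h₃ : ∀ ν x, Item.atm ν x ∈ t → tr ν ∈ t)
    (hv : ∀ ν, tr ν ∈ t → (tr ν ∉ s ∧ Vd D ν t) ∨ Vd D ν (s ∪ t)) : PP D (amF s t) := by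
  have cM := (hs.sc.cn hM).cl
  have hw : ∀ ν, wS ν (amF s t) = wS ν s ∪ wS ν t := fun ν => by ext; simp [wS, mem_amF]
  have hT := TS_amF (s := s) n ht
  refine ⟨?_, fun ν x a => ?_, fun ν a => ?_⟩
  · rw [amF, Finite.coe_toFinset]; exact hs.sc.am hM ht h₁ h₂
  · refine sub_amF ?_
    simp only [mem_amF, Finset.mem_union, reduceCtorEq, and_false, exists_false, or_false] at a ⊢
    exact a.imp (hs.atm _ _) (h₃ _ _)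
  by_cases e : tr ν ∈ t
  · rcases hv ν e with ⟨b, c⟩ | c
    · refine c.of (fun x d _ => sub_amF (Finset.mem_union_right _ d)) ?_ fun τ hτ => ?_
      · rw [hw]; exact union_eq_right.2 fun x d => absurd (hs.atm _ _ d) b
      rcases (TS_union _ _ _).le (hT ν hτ) with ⟨N, d₁, d₂, rfl⟩ | d
      swap
      · exact Or.inl d
      obtain ⟨N', f₁, f₂, f₃, f₄, f₅⟩ := hs.sc.minrep d₁ d₂
      rw [n.trc_eq (N' := N') fun z hz => ⟨fun H => f₄ z H hz, fun H => f₃ H⟩]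
      by_cases k : has (M : Set V) (cn N')
      · exact Or.inl ⟨N', h₂ _ f₁ k, f₂, rfl⟩
      refine Or.inr fun x hx => ?_
      have c' := hs.sc.cn f₁
      have b' := n.bas c'.cl
      have : has (N' : Set V) x := hs.sc.pos hM f₁ k (cM.has_tr.1 (h₁ _ e)) f₂ f₅ _
        (cM.has_atm.1 (h₁ _ hx)).2 fun _ hW _ => n.has_x hW x
      rw [c'.cl.has_prod, c'.cl.has_list] at this
      exact ⟨fun p hp => ((has_pt c'.cl b').1 (this.1 p hp)).imp (b'.has_iff c'.cnt).1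
        (b'.has_iff c'.cnt).1, (b'.has_iff c'.cnt).1 this.2⟩
    · exact c.of (fun x d _ => sub_amF d) (by rw [hw, wS_union]) (Abv.of_sub (hT ν))
  · have a' : tr ν ∈ s := by simpa [mem_amF, e] using a
    refine (hs.vd ν a').of (fun x d _ => sub_amF (Finset.mem_union_left _ d)) ?_
      (Abv.of_sub fun τ hτ => ?_)
    · rw [hw]; exact union_eq_left.2 fun x d => absurd (h₃ _ _ d) e
    · refine ((TS_union _ _ _).le (hT ν hτ)).resolve_right fun ⟨N, d₁, d₂, _⟩ => e ?_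
      exact h₂ _ a' (cM.has_tr.2 (cM.sub_cn (ht.cn d₁) (h₁ _ d₁) d₂))

theorem PP.node (n : N0 D) {p N} (h : PP D p) (hN : CN D N) (hp : has (N : Set V) p) :
    PP D (amF {cn N} p) := by
  have : PP D {cn N} := by
    refine ⟨⟨fun a => ?_, by simp, by simp, fun a b _ _ => Or.inl ?_⟩, by simp, by simp⟩
    · obtain rfl : _ = N := by simpa using a
      exact hN
    · simp_all
  refine this.glue n (Finset.mem_singleton_self _) h.sc (hN.cl.has_finset.1 hp) (fun x a b => ?_)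
    h.atm fun ν a => Or.inl ⟨by simp, h.vd ν a⟩
  rw [Finset.mem_singleton.1 a] at b
  exact absurd (rk_lt hN.cl b) (lt_irrefl _)

end Pool.Agent.MP_656653_lc

end

section

/-! Genericity of side conditions, restriction of situations, the dichotomy. -/

set_option synthInstance.maxSize 1000000

namespace Pool.Agent.MP_656653_lc

open Set Filter Item

theorem exists_sit' {D : Set Dp} (hD : D.Countable) {P : V} {b : C} (hb : enc b ∈ P)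
    {α : Type*} [Code α] (z : α) : ∃ K g, Sit D ⟨K, P, g⟩ ∧ b ∈ g ∧ has K z := by
  obtain ⟨D', K, g, ⟨h₁, h₂⟩, -, -, h₃, h₄⟩ := exists_sit ((ev_sup hD).and (ev_const z)) hb
  exact ⟨K, g, h₃.mono h₁, h₄, h₂ _ h₃.cl⟩

theorem exists_cn {D : Set Dp} (hD : D.Countable) {α : Type*} [Code α] (z : α) :
    ∃ N : V, CN D N ∧ has (N : Set V) z := by
  obtain ⟨D', h₀, h₁, h₂⟩ := Fl.ex ((ev_sup hD).and (ev_const z))
  obtain ⟨N, h₃, h₄⟩ := exists_hull h₀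
  exact ⟨N, ⟨h₄.mono h₁, h₃⟩, h₂ _ h₄⟩

theorem exists_dt (nm : V) : ∃ dt : V, ∀ d : Dat, (∀ τ ∈ d.2, τ.2 ⊆ nm) → enc d ∈ dt := by
  refine ⟨ZFSet.range fun d : List X × List (Om × nm.powerset) =>
    enc ((d.1, d.2.map fun τ => (τ.1, τ.2.1)) : Dat), fun d hd => ZFSet.mem_range.2
    ⟨(d.1, d.2.attach.map fun τ => (τ.1.1, ⟨τ.1.2, ZFSet.mem_powerset.2 (hd _ τ.2)⟩)), ?_⟩⟩
  congr 1
  simp only [List.map_map, Function.comp_def]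
  exact Prod.ext rfl (List.attach_map_subtype_val _)

noncomputable def dtOf (nm : V) : V := (exists_dt nm).choose

theorem has_wS {D K} (h : Cl D K) {r : C} (hr : has K r) (ν) : ∀ x ∈ wS ν r, has K x :=
  fun _ a => (h.has_atm.1 (h.has_finset.1 hr _ a)).2

theorem has_trc {D K} (h : Cl D K) (hb : Bas K) {ν : Tag} (hν : has K ν) {N} (hN : N ∈ K) :
    has K (trc ν N) := h.has_pair.2 ⟨hb.hdl hN, h.int hN (h.has_tag.1 hν).2.2.1⟩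

theorem has_TS {D K} (h : Cl D K) (hb : Bas K) {r : C} (hr : has K r) {ν} (hν : has K ν) :
    ∀ x ∈ TS ν r, has K x := by
  rintro _ ⟨N, a, -, rfl⟩
  exact has_trc h hb hν (h.has_cn.1 (h.has_finset.1 hr _ a))

theorem has_res {D K} (h : Cl D K) {r : C} (hr : has K r) (W) : has K (res W r) :=
  h.has_finset.2 fun x a => h.has_finset.1 hr x (mem_res.1 a).1

theorem val_of : ∀ᶠ D in Fl, ∀ (ν : Tag) K g, Sit D ⟨K, ν.P, g⟩ → has K ν → ∀ r : C, has K r →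
    Vd D ν r → res ν.W r ∈ g → St.Val ⟨K, ν.P, g⟩ ν (wS ν r) (TS ν r) := by
  filter_upwards [val_frc] with D hD ν K g hs hν r hr hv hg
  exact (hD ν K g hs hν _ _ (wS_fin _ _) (TS_fin _ _) (has_wS hs.cl hr ν)
    (has_TS hs.cl hs.bas hr hν)).2 ⟨_, hg, hv.fv⟩

def Pp (D : Set Dp) (ν : Tag) : Prop := ∀ M, CN D M → has (M : Set V) ν → ∀ p : C, enc p ∈ ν.P →
  cn (M ∩ ν.W) ∈ p → ∀ E ∈ M, enc p ∈ E →
    ∃ p' : C, enc p' ∈ E ∧ has (M : Set V) p' ∧ ∃ r : C, enc r ∈ ν.P ∧ p ⊆ r ∧ p' ⊆ r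

theorem sub_of : ∀ᶠ D in Fl, ∀ ν, Pp D ν → ∀ K g, Sit D ⟨K, ν.P, g⟩ → ∀ M ∈ K, CN D M →
    has (M : Set V) ν → (∃ p ∈ g, cn (M ∩ ν.W) ∈ p) → Sub D ⟨K, ν.P, g⟩ M (dl M) := by
  filter_upwards [ev_n0, ev_set (fun (a : V) (c : C) => ∃ b, b ⊆ c ∧ enc b ∈ a)]
    with D n hS ν hP K g hs M hM hc hν ⟨p, hp, hp'⟩
  have hPM := (hc.cl.has_tag.1 hν).2.1
  refine ⟨hc.cl, n.bas hc.cl, fun x hx => hs.cl.cnt hM hc.cnt hx, hPM, ?_,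
    (n.bas hc.cl).has_iff hc.cnt, hs.bas.hdl hM⟩
  rintro E hE ⟨b, hb, hbE⟩
  obtain ⟨E', a₁, -, -, a₂⟩ := hS M hc.cl (E ∩ ν.P) (hc.cl.int hE hPM) _ hPM
  obtain ⟨H, b₁, -, -, b₂⟩ := hS K hs.cl (E ∩ ν.P ∩ M)
    (hs.cl.int (hs.cl.int (hs.cl.cnt hM hc.cnt hE) hs.hP) hM) _ hs.hP
  obtain ⟨c, hc', h | h⟩ := hs.dec b₁
  · obtain ⟨-, b', c₁, c₂⟩ := (b₂ c).1 h
    simp only [ZFSet.mem_inter] at c₂
    exact ⟨b', hs.up hc' c₁ c₂.1.2, c₂.1.1, c₂.2⟩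
  · exfalso
    obtain ⟨q₀, c₁, c₂, c₃⟩ := hs.dir hc' hb
    obtain ⟨q, d₁, d₂, d₃⟩ := hs.dir c₁ hp
    obtain ⟨q', e₁, e₂, r, e₃, e₄, e₅⟩ := hP M hc hν q (hs.subP d₁) (d₃ hp') E' a₁
      ((a₂ q).2 ⟨hs.subP d₁, b, c₃.trans d₂, ZFSet.mem_inter.2 ⟨hbE, hs.subP hb⟩⟩)
    obtain ⟨-, b', f₁, f₂⟩ := (a₂ q').1 e₁
    exact h r e₃ (c₂.trans (d₂.trans e₄)) ((b₂ r).2 ⟨e₃, b', f₁.trans e₅, ZFSet.mem_inter.2
      ⟨f₂, hc.cl.has_finset.2 fun x hx => hc.cl.has_finset.1 e₂ x (f₁ hx)⟩⟩)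

theorem sit_res0 {D} (n : N0 D) {ν : Tag} (h : Tg D ν) {K : Set V} {g : Set C} (cl : Cl D K)
    (hν : has K ν) (hN : Nm ν.P ∈ K) (pp : ∀ b ∈ g, PP D b) (subK : ∀ b ∈ g, has K b)
    (dir : ∀ a ∈ g, ∀ b ∈ g, ∃ c ∈ g, a ⊆ c ∧ b ⊆ c)
    (up : ∀ b ∈ g, ∀ a ⊆ b, enc a ∈ ν.P → a ∈ g) (ne : ∃ b, b ∈ g)
    (dec : ∀ E ∈ K, ∃ c ∈ g, enc (res ν.W c) ∈ E ∨
      ∀ u : C, enc u ∈ ν.P → res ν.W c ⊆ u → enc u ∉ E) :
    Sit D ⟨K, ν.P, {b ∈ g | has (ν.W : Set V) b}⟩ := by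
  have key : ∀ c ∈ g, res ν.W c ∈ {b ∈ g | has (ν.W : Set V) b} := fun c hc => by
    have : has (ν.W : Set V) (res ν.W c) := h.tw.cl.has_finset.2 fun _ a => (mem_res.1 a).2
    exact ⟨up c hc _ (fun _ a => (mem_res.1 a).1) (h.mem.2 ⟨this, (pp c hc).res n h.tw⟩), this⟩
  refine ⟨cl, n.bas cl, (cl.has_tag.1 hν).2.1, hN, fun a => h.mem.2 ⟨a.2, pp _ a.1⟩,
    fun a => subK _ a.1, fun a b => ?_, fun a b c => ⟨up _ a.1 _ b c, (h.mem.1 c).1⟩,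
    ne.elim fun b hb => ⟨_, key b hb⟩, fun hE => ?_⟩
  · obtain ⟨c, hc, h₁, h₂⟩ := dir _ a.1 _ b.1
    exact ⟨_, key c hc, fun x hx => mem_res.2 ⟨h₁ hx, h.tw.cl.has_finset.1 a.2 x hx⟩,
      fun x hx => mem_res.2 ⟨h₂ hx, h.tw.cl.has_finset.1 b.2 x hx⟩⟩
  · obtain ⟨c, hc, H⟩ := dec _ hE
    exact ⟨_, key c hc, H⟩

theorem Tg.union {D} (n : N0 D) {ν ν'} (h : Tg D ν) {c u : C} (hc : enc c ∈ ν.P) (h' : tr ν' ∈ c)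
    (hu : enc u ∈ ν'.P) (hr : res ν'.W c ⊆ u) : enc (c ∪ u) ∈ ν.P := by
  obtain ⟨a₁, a₂⟩ := h.mem.1 hc
  rw [h.tw.cl.has_finset] at a₁
  refine h.mem.2 ⟨h.tw.cl.has_finset.2 fun x hx => (Finset.mem_union.1 hx).elim (a₁ x) fun e => ?_,
    a₂.union n h' hu hr⟩
  exact h.tw.has_sub (h.tw.cl.has_tr.1 (a₁ _ h'))
    ((a₂.sc.tr h').cl.has_finset.1 ((a₂.tg h').mem.1 hu).1 x e)

theorem sit_res : ∀ᶠ D in Fl, ∀ ν, Tg D ν → ∀ K g, Sit D ⟨K, ν.P, g⟩ → ∀ ν', Nm ν'.P ∈ K →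
    (∃ r ∈ g, tr ν' ∈ r) → Sit D ⟨K, ν'.P, {b ∈ g | has (ν'.W : Set V) b}⟩ := by
  filter_upwards [ev_n0, ev_set (fun (a : V × V) (c : C) => enc (res a.1 c) ∈ a.2)]
    with D n hS ν h K g hs ν' hN ⟨r, hr, hr'⟩
  obtain ⟨a₁, a₂⟩ := h.mem.1 (hs.subP hr)
  have h' := a₂.tg hr'
  have hK := hs.cl.has_tr.1 (hs.cl.has_finset.1 (hs.subK hr) _ hr')
  refine sit_res0 n h' hs.cl hK hN (fun b hb => (h.mem.1 (hs.subP hb)).2) (fun b => hs.subK)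
    (fun a ha b hb => hs.dir ha hb) (fun b hb a c d => hs.up hb c (h.mem.2 ⟨h.tw.has_sub
      (h.tw.cl.has_tr.1 (h.tw.cl.has_finset.1 a₁ _ hr')) (h'.mem.1 d).1, (h'.mem.1 d).2⟩)) hs.ne
    fun E hE => ?_
  obtain ⟨H, b₁, -, -, b₂⟩ := hS K hs.cl (ν'.W, E)
    (hs.cl.has_pair.2 ⟨(hs.cl.has_tag.1 hK).1, hE⟩) _ hs.hP
  obtain ⟨c, hc, H | H⟩ := hs.dec b₁
  · exact ⟨c, hc, Or.inl ((b₂ c).1 H).2⟩
  · obtain ⟨c', c₁, c₂, c₃⟩ := hs.dir hc hr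
    refine ⟨c', c₁, Or.inr fun u d₁ d₂ d₃ => ?_⟩
    have := h.union n (hs.subP c₁) (c₃ hr') d₁ d₂
    refine H _ this (c₂.trans Finset.subset_union_left) ((b₂ _).2 ⟨this, ?_⟩)
    rwa [res_union (h'.tw.cl.has_finset.1 (h'.mem.1 d₁).1) d₂]

def Dc (P σ x : V) (c : C) : Prop := (∃ b, b ⊆ c ∧ enc b ∈ P ∧ enc (x, b) ∈ σ) ∨
  ∀ c' : C, enc c' ∈ P → c ⊆ c' → ¬ ∃ b, b ⊆ c' ∧ enc b ∈ P ∧ enc (x, b) ∈ σ

theorem exists_dc {P : V} (σ x : V) {c : C} (h : enc c ∈ P) :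
    ∃ c', enc c' ∈ P ∧ c ⊆ c' ∧ Dc P σ x c' := by
  by_cases H : ∀ c' : C, enc c' ∈ P → c ⊆ c' → ¬ ∃ b, b ⊆ c' ∧ enc b ∈ P ∧ enc (x, b) ∈ σ
  · exact ⟨c, h, subset_rfl, Or.inr H⟩
  · push Not at H
    obtain ⟨c', a, b, d⟩ := H
    exact ⟨c', a, b, Or.inl d⟩

def Cap (P σ W : V) : Prop := ∀ x ∈ W, ∀ c : C, enc c ∈ P → has (W : Set V) c →
  ∃ c', enc c' ∈ P ∧ has (W : Set V) c' ∧ c ⊆ c' ∧ Dc P σ x c'

theorem val_cap : ∀ᶠ D in Fl, ∀ K P g (W : V), Sit D ⟨K, P, g⟩ →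
    Sit D ⟨K, P ∩ W, {b ∈ g | has (W : Set V) b}⟩ → Cl D W → ∀ σ ∈ K, Cap P σ W → ∀ x ∈ W,
    x ∈ St.val ⟨K, P ∩ W, {b ∈ g | has (W : Set V) b}⟩ (σ ∩ W) ↔ x ∈ St.val ⟨K, P, g⟩ σ := by
  filter_upwards [ev_set (fun (a : V × V × V) (c : C) => Dc a.1 a.2.1 a.2.2 c)]
    with D hS K P g W hs hs' hW σ hσ hc x hx
  refine ⟨fun ⟨a, b, c, d⟩ => ⟨a, b, c.1, (ZFSet.mem_inter.1 d).1⟩, fun ⟨a, b, c, d⟩ => ⟨a, ?_⟩⟩
  obtain ⟨H, b₁, -, -, b₂⟩ := hS K hs.cl (P, σ, x)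
    (hs.cl.has_pair.2 ⟨hs.hP, hs.cl.has_pair.2 ⟨hσ, a⟩⟩) _ hs'.hP
  obtain ⟨q, hq, h | h⟩ := hs'.dec b₁
  · rcases ((b₂ q).1 h).2 with ⟨b', e₁, e₂, e₃⟩ | e
    · have : has (W : Set V) b' := hW.has_finset.2 fun y hy => hW.has_finset.1 hq.2 y (e₁ hy)
      exact ⟨b', ⟨hs.up hq.1 e₁ e₂, this⟩, ZFSet.mem_inter.2 ⟨e₃, hW.has_pair.2 ⟨hx, this⟩⟩⟩
    · obtain ⟨r, e₁, e₂, e₃⟩ := hs.dir hq.1 c
      exact absurd ⟨b, e₃, hs.subP c, d⟩ (e r (hs.subP e₁) e₂)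
  · obtain ⟨r, e₁, e₂, e₃, e₄⟩ := hc x hx q (hs.subP hq.1) hq.2
    have := ZFSet.mem_inter.2 ⟨e₁, e₂⟩
    exact absurd ((b₂ r).2 ⟨this, e₄⟩) (h r this e₃)

theorem r_congr {K P P' g g' σ σ'}
    (h : (St.val ⟨K, P', g'⟩ σ' : Set (Om × Om)) = St.val ⟨K, P, g⟩ σ) :
    St.r ⟨K, P', g'⟩ σ' = St.r ⟨K, P, g⟩ σ := by
  unfold St.r St.Lin
  simp only [h]

theorem nam_res {K P g} {W : V} {τ}
    (h : St.nam ⟨K, P ∩ W, {b ∈ g | has (W : Set V) b}⟩ τ) : St.nam ⟨K, P, g⟩ τ ∧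
    St.vx ⟨K, P ∩ W, {b ∈ g | has (W : Set V) b}⟩ τ = St.vx ⟨K, P, g⟩ τ := by
  have h' := ZFSet.mem_powerset.1 h.2
  refine ⟨⟨h.1, ZFSet.mem_powerset.2 fun z hz => ?_⟩, Set.ext fun x =>
    ⟨fun ⟨a, b, c, d⟩ => ⟨a, b, c.1, d⟩, fun ⟨a, b, c, d⟩ => ⟨a, b, ⟨c, ?_⟩, d⟩⟩⟩
  · obtain ⟨a, ha, b, hb, rfl⟩ := ZFSet.mem_prod.1 (h' hz)
    exact ZFSet.pair_mem_prod.2 ⟨ha, (ZFSet.mem_inter.1 hb).1⟩
  · exact (ZFSet.mem_inter.1 (ZFSet.pair_mem_prod.1 (h' d)).2).2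

theorem h1_res {K P P' g g' σ σ' φ φ' fl} (hr : St.r ⟨K, P', g'⟩ σ' = St.r ⟨K, P, g⟩ σ)
    (hφ : St.vx ⟨K, P', g'⟩ φ' = St.vx ⟨K, P, g⟩ φ)
    (hn : ∀ τ, St.nam ⟨K, P', g'⟩ τ → St.nam ⟨K, P, g⟩ τ ∧
      St.vx ⟨K, P', g'⟩ τ = St.vx ⟨K, P, g⟩ τ)
    (h : St.H1 ⟨K, P, g⟩ σ φ fl) : St.H1 ⟨K, P', g'⟩ σ' φ' fl := by
  obtain ⟨⟨h₁, h₂⟩, h₃, h₄, h₅⟩ := h
  refine ⟨⟨?_, fun τ a => ?_⟩, ?_, ?_, fun e ⟨ρ, a, Is, b, c⟩ => h₅ e ⟨ρ, (hn ρ a).1, Is, b, ?_⟩⟩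
  · unfold St.LL; rw [hr]; exact h₁
  · have := (hn τ a).2
    unfold St.vx at this
    rw [hr, this]; exact h₂ τ (hn τ a).1
  · rw [hφ]; exact h₃
  · rw [hφ]; exact h₄
  · unfold St.Large at c ⊢
    rw [hr, hφ, (hn ρ a).2] at c
    exact c

def St.Al (s : St) (σ φ : V) (fl : Bool) : Prop := s.H1 σ φ fl ∧ ¬ ∃ ρ, s.nam ρ ∧
  (∀ x, x ∈ s.vx ρ → x ∈ s.vx φ) ∧ s.Unb (s.vx ρ) ∧
    ∀ x, x ∈ s.vx ρ → ∀ y, y ∈ s.vx ρ → x.2 ≠ y.2 → OK (s.r σ) fl x y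

theorem def_al : Def (fun s (a : V × V × Bool) => s.Al a.1 a.2.1 a.2.2) := by
  unfold St.Al; infer_instance

theorem dich : ∀ᶠ D in Fl, D.Countable → ∀ ν, Tg D ν → ν.k2 = true → Pp D ν → ∀ K g,
    Sit D ⟨K, ν.P, g⟩ → ∀ σ ∈ K, St.Nice ⟨K, ν.P, g⟩ σ → St.Dich ⟨K, ν.P, g⟩ σ := by
  have := Def.atom fun (_ : V) (b : C) (a : Tag × X) => atm a.1 a.2 ∈ b
  filter_upwards [ev_n0, @Def.frc _ _ _ def_al,
    Def.frc (fun s (a : V × V × Bool) => ¬ s.H1 a.1 a.2.1 a.2.2), val_frc, val_of, sub_of, sit_res,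
    val_cap, unbN, ev_const (dtOf ∅),
    compX (fun s (a : Tag) (x : X) => ∃ b ∈ s.g, atm a x ∈ b)]
    with D n h₁ h₂ h₃ h₄ h₅ h₆ h₇ h₈ h₉ h₀
  rintro hD ν hν hk hP K g hs σ hσ hn _ ⟨φ, hφ, -, rfl⟩ hu hp fl
  by_contra hc
  rw [not_or] at hc
  obtain ⟨b, hb, hF⟩ := (h₁ _ hs (σ, φ, fl) (hs.cl.has_pair.2 ⟨hσ, hs.cl.has_pair.2
    ⟨hφ, hs.cl.has_bool _⟩⟩)).1 ⟨⟨hn, hu, hp, fun e ⟨ρ, a, Is, _, c⟩ =>
      hc.2 ⟨e, _, ⟨ρ, a.1, a, rfl⟩, Is, c⟩⟩, fun ⟨ρ, a, c⟩ => hc.1 ⟨_, ⟨ρ, a.1, a, rfl⟩, c⟩⟩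
  obtain ⟨hbW, hbP⟩ := hν.mem.1 (hs.subP hb)
  dsimp only at hF
  clear hc hp hu hn hb hs hσ hφ K g
  obtain ⟨D', a₀, a₁, a₂, a₃⟩ := Fl.ex ((ev_sup hD).and ((ev_const (ν.P, σ, φ, b)).and
    (ev_wit fun (a : V × V × V × C) (c : C) => a.2.2.2 ⊆ c ∧ Dc a.1 a.2.1 a.2.2.1 c)))
  obtain ⟨M', m₁, m₂, m₃, m₄⟩ := (hν.ok.k2 hk).2.2 D' a₀
  have m₅ := a₂ _ m₁
  simp only [m₁.has_pair] at m₅
  have hW : TW D (M' ∩ ν.W) := ⟨coe_inter _ _ ▸ (m₁.mono a₁).inter hν.tw.cl, fun a c =>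
    ZFSet.mem_inter.2 ⟨m₂ _ _ a c, hν.tw.trans (ZFSet.mem_inter.1 a).2 c⟩, fun a c =>
    ZFSet.mem_inter.2 ⟨m₃ _ a fun y hy => (ZFSet.mem_inter.1 (c hy)).1,
      hν.tw.om a fun y hy => (ZFSet.mem_inter.1 (c hy)).2⟩⟩
  have cap : ∀ σ ∈ M', Cap ν.P σ (M' ∩ ν.W) := fun σ hσ x hx c c₁ c₂ => by
    obtain ⟨c', d₁, d₂, d₃, d₄⟩ := a₃ _ m₁ (ν.P, σ, x, c) (by
      simp only [m₁.has_pair]
      exact ⟨m₅.1, hσ, (ZFSet.mem_inter.1 hx).1, (has_inter.1 c₂).1⟩) _ m₅.1 (exists_dc σ x c₁)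
    exact ⟨c', d₂, has_inter.2 ⟨d₁, (hν.mem.1 d₂).1⟩, d₃, d₄⟩
  have hbW' : has ((M' ∩ ν.W : V) : Set V) b := has_inter.2 ⟨m₅.2.2.2, hbW⟩
  have hWW : ∀ {α : Type 1} [Code α] {x : α}, has ((M' ∩ ν.W : V) : Set V) x → has (ν.W : Set V) x :=
    fun a => (has_inter.1 a).2
  generalize M' ∩ ν.W = W at hW cap hbW' hWW m₄
  obtain ⟨ν', e₁, e₂, e₃, e₄, e₅, e₆, hν', hνW⟩ : ∃ ν' : Tag, ν'.W = W ∧ ν'.P = ν.P ∩ W ∧
      ν'.k2 = false ∧ ν'.fl = fl ∧ ν'.sA = σ ∩ W ∧ ν'.sF = φ ∩ W ∧ Tg D ν' ∧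
      has (ν.W : Set V) ν' := by
    refine ⟨⟨W, ν.P ∩ W, ∅, dtOf ∅, ∅, false, fl, σ ∩ W, φ ∩ W⟩, rfl, rfl, rfl, rfl, rfl, rfl,
      ⟨hW, ⟨(exists_dt ∅).choose_spec, fun e => by cases e⟩, (gt_iff hW).2 fun c => ?_⟩,
      hν.tw.cl.has_tag.2 ⟨m₄ _ subset_rfl, m₄ _ fun _ a => (ZFSet.mem_inter.1 a).2, hν.tw.cl.emp,
        h₉ _ hν.tw.cl, hν.tw.cl.emp, m₄ _ fun _ a => (ZFSet.mem_inter.1 a).2,
        m₄ _ fun _ a => (ZFSet.mem_inter.1 a).2⟩⟩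
    rw [ZFSet.mem_inter, hν.mem]
    exact ⟨fun a => ⟨a.2, a.1.2⟩, fun a => ⟨⟨hWW a.1, a.2⟩, a.1⟩⟩
  subst e₁
  have clA : ∀ c : C, enc c ∈ ν.P → tr ν' ∈ c → b ⊆ c → ∀ z : V, ∃ K g, Sit D ⟨K, ν.P, g⟩ ∧ c ∈ g ∧
      z ∈ K ∧ has K ν' ∧ St.Al ⟨K, ν.P, g⟩ σ φ fl ∧
      Sit D ⟨K, ν'.P, {b ∈ g | has (ν'.W : Set V) b}⟩ ∧
      St.r ⟨K, ν'.P, {b ∈ g | has (ν'.W : Set V) b}⟩ ν'.sA = St.r ⟨K, ν.P, g⟩ σ ∧
      St.vx ⟨K, ν'.P, {b ∈ g | has (ν'.W : Set V) b}⟩ ν'.sF = St.vx ⟨K, ν.P, g⟩ φ := by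
    intro c c₁ c₂ c₃ z
    obtain ⟨K, g, hs, hc, hz⟩ := exists_sit' hD c₁ (z, Nm ν'.P, ν', σ, φ, fl)
    have hz' := hz
    simp only [hs.cl.has_pair] at hz'
    have hs' := h₆ ν hν K g hs ν' hz'.2.1 ⟨c, hc, c₂⟩
    have k := h₇ K ν.P g ν'.W hs (e₂ ▸ hs') hW.cl
    refine ⟨K, g, hs, hc, hz'.1, hz'.2.2.1, (h₁ _ hs (σ, φ, fl) (by
      simp only [hs.cl.has_pair]; exact hz'.2.2.2)).2 ⟨c, hc, hF.mono c₃⟩, hs', r_congr ?_, ?_⟩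
    · rw [e₂, e₅]
      exact Set.ext fun x => k σ hz'.2.2.2.1 (cap σ m₅.2.1) (enc x)
        (hW.cl.has_prod.2 ⟨n.has_om hW _, n.has_om hW _⟩)
    · rw [e₂, e₆]
      exact Set.ext fun x => k φ hz'.2.2.2.2.1 (cap φ m₅.2.2.1) (enc x) (n.has_x hW x)
  have top : ∀ c : C, enc c ∈ ν'.P → enc (insert (tr ν') c) ∈ ν.P := fun c hc => by
    obtain ⟨c₁, c₂⟩ := hν'.mem.1 hc
    rw [hW.cl.has_finset] at c₁
    refine hν.mem.2 ⟨hν.tw.cl.has_finset.2 fun x hx => ?_, c₂.top n hν' c₁⟩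
    rcases Finset.mem_insert.1 hx with rfl | hx
    exacts [hν.tw.cl.has_tr.2 hνW, hWW (c₁ x hx)]
  have clB : ∀ K g, Sit D ⟨K, ν'.P, g⟩ → has K ν' → b ∈ g → St.H1 ⟨K, ν'.P, g⟩ ν'.sA ν'.sF fl := by
    intro K g hs hK hb
    have f : ∀ K, Cl D K → has K ν' → has K (ν'.sA, ν'.sF, fl) := fun K h a =>
      h.has_pair.2 ⟨(h.has_tag.1 a).2.2.2.2.2.1, h.has_pair.2
        ⟨(h.has_tag.1 a).2.2.2.2.2.2, h.has_bool _⟩⟩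
    by_contra hc
    obtain ⟨c₀, c₁, c₂⟩ := (h₂ _ hs _ (f _ hs.cl hK)).1 hc
    obtain ⟨c, c₃, c₄, c₅⟩ := hs.dir c₁ hb
    obtain ⟨K', g', d₁, d₂, -, d₃, d₄, d₅, d₆, d₇⟩ := clA _ (top c (hs.subP c₃))
      (Finset.mem_insert_self _ _) (c₅.trans (Finset.subset_insert _ _)) ∅
    have d₈ := hν'.mem.1 (hs.subP c₃)
    refine (h₂ _ d₅ _ (f _ d₁.cl d₃)).2 ⟨c, ⟨d₁.up d₂ (Finset.subset_insert _ _)
      (hν.mem.2 ⟨hWW d₈.1, d₈.2⟩), d₈.1⟩, c₂.mono c₄⟩ (h1_res d₆ d₇ (fun τ => ?_) d₄.1)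
    rw [e₂]; exact nam_res
  have hbP' : enc b ∈ ν'.P := hν'.mem.2 ⟨hbW', hbP⟩
  obtain ⟨q₁W, q₁P⟩ := hν.mem.1 (top b hbP')
  obtain ⟨M, hM, hM'⟩ := exists_cn hD (ν, ν', insert (tr ν') b)
  simp only [hM.cl.has_pair] at hM'
  have hN := hM.inter hν.tw.cl
  have q₂P := q₁P.node n hN (has_inter.2 ⟨hM'.2.2, q₁W⟩)
  have q₂W := has_amF hν.tw.cl (s := {cn (M ∩ ν.W)}) (hν.tw.cl.has_finset.2 fun x hx =>
    Finset.mem_singleton.1 hx ▸ hν.tw.has_inter hM) q₁W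
  have q₂T := TS_amF (s := {cn (M ∩ ν.W)}) n q₁P.sc ν'
  have q₂s : {cn (M ∩ ν.W)} ∪ insert (tr ν') b ⊆ _ := sub_amF
  have q₂w : wS ν' (amF {cn (M ∩ ν.W)} (insert (tr ν') b)) = ∅ := by
    rw [← wS_out n hW (hW.cl.has_finset.1 hbW') hW.not_self]
    ext; simp [wS, mem_amF]
  generalize amF {cn (M ∩ ν.W)} (insert (tr ν') b) = q at q₂P q₂W q₂T q₂s q₂w
  have hq : tr ν' ∈ q := q₂s (by simp)
  have hbq : b ⊆ q := fun x hx => q₂s (by simp [hx])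
  obtain ⟨K, g, hs, c₁, c₂⟩ := exists_sit' hD (q₂P.res_mem n hq) (ν', q, dl M)
  simp only [hs.cl.has_pair] at c₂
  have H := clB K g hs c₂.1 (hs.up c₁ (fun x hx => mem_res.2
    ⟨hbq hx, hW.cl.has_finset.1 hbW' x hx⟩) hbP')
  obtain ⟨x, x₁, x₂⟩ := H.2.1 _ c₂.2.2
  have hT : ∀ τ ∈ TS ν' q, ¬ x.2 < τ.1 := fun τ hτ a => by
    obtain ⟨N, d₁, d₂, rfl⟩ := q₂T hτ
    simp only [Finset.mem_union, Finset.mem_singleton, Finset.mem_insert, reduceCtorEq, false_or,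
      cn.injEq] at d₁
    rcases d₁ with rfl | d₁
    · rw [n.trc_inter hν.tw hνW] at a
      exact absurd a x₂.not_gt
    · exact absurd (hW.trans (hW.cl.has_cn.1 (hW.cl.has_finset.1 hbW' _ d₁)) d₂) hW.not_self
  obtain ⟨c, c₃, c₄⟩ := (h₃ ν' K g hs c₂.1 {x} (TS ν' q) (finite_singleton _) (TS_fin _ _)
    (by rintro _ rfl; exact x₁.1) (has_TS hs.cl hs.bas c₂.2.1 c₂.1)).1 (Or.inr ⟨e₃,
      fun _ => e₄ ▸ H, by rintro _ rfl; exact x₁, by rintro _ rfl _ rfl a; exact absurd rfl a,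
      fun τ hτ => ⟨by rintro _ rfl a; exact absurd a (hT τ hτ),
        by rintro _ rfl _ rfl _ _; exact Or.inl (eqv.refl _ _)⟩⟩)
  obtain ⟨u, u₁, u₂, u₃⟩ := hs.dir c₃ c₁
  have q₃P := q₂P.ext n (x := x) hq (hs.subP u₁) u₃ (by
    rw [q₂w, insert_empty_eq]; exact c₄.mono u₂ (Abv.of_sub subset_rfl))
  have q₃W := (hν.mem.1 (hν.union n (hν.mem.2 ⟨q₂W, q₂P⟩) hq (hs.subP u₁) u₃)).1
  obtain ⟨K, g, hs, d₂, d₀, d₃, d₄, d₅, d₆, d₇⟩ := clA _ (hν.mem.2 ⟨hν.tw.cl.has_finset.2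
    fun y hy => (Finset.mem_insert.1 hy).elim (fun e => e ▸ (n.has_atm hν.tw).2 hνW)
      (hν.tw.cl.has_finset.1 q₃W y), q₃P⟩) (by simp [hq]) (fun y hy => by simp [hbq hy]) M
  have hS := h₅ ν hP K g hs M d₀ hM hM'.1 ⟨_, d₂, by simp [q₂s (Finset.mem_union_left _
    (Finset.mem_singleton_self _))]⟩
  have hA := h₀ _ hs M hM.cl hS.sub hS.hP ν' hM'.2.1
  have hU := h₈ _ hs M _ hS _ hA fun β hβ => ⟨x, ⟨(hs.cl.has_atm.1 (hs.cl.has_finset.1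
    (hs.subK d₂) _ (Finset.mem_insert_self _ _))).2, _, d₂, Finset.mem_insert_self _ _⟩,
    hβ.le.trans x₂⟩
  obtain ⟨ρ, -, f₁, f₂⟩ := hA
  have key : ∀ r ∈ g, tr ν' ∈ r → St.Val1 ⟨K, ν'.P, {b ∈ g | has (ν'.W : Set V) b}⟩ ν'.sA ν'.sF
      ν'.fl (wS ν' r) (TS ν' r) := fun r hr a => by
    have k := (hν.mem.1 (hs.subP hr)).2
    have k' := hν'.mem.1 (k.res_mem n a)
    refine ((h₄ ν' K _ d₅ d₃ r (hs.subK hr) (k.vd _ a) ⟨hs.up hr (fun _ a => (mem_res.1 a).1)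
      (hν.mem.2 ⟨hWW k'.1, k'.2⟩), k'.1⟩).resolve_left fun a => ?_).2
    rw [e₃] at a
    exact absurd a.1 (by simp)
  refine d₄.2 ⟨ρ, f₁, ?_⟩
  rw [St.vx, ← f₂]
  refine ⟨fun y ⟨_, r, a₁, a₂⟩ => ?_, hU, fun y ⟨_, r, a₁, a₂⟩ z ⟨_, r', a₃, a₄⟩ e => ?_⟩
  · rw [← d₇]
    exact (key r a₁ ((hν.mem.1 (hs.subP a₁)).2.atm _ _ a₂)).2.1 y a₂
  · obtain ⟨t, t₁, t₂, t₃⟩ := hs.dir a₁ a₃
    rw [← d₆, ← e₄]
    exact (key t t₁ ((hν.mem.1 (hs.subP t₁)).2.atm _ _ (t₂ a₂))).2.2.1 y (t₂ a₂) z (t₃ a₄)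
      fun e' => e (e' ▸ rfl)

end Pool.Agent.MP_656653_lc

end

section

/-! Properness of the initial segments of the iteration. -/

set_option synthInstance.maxSize 1000000

namespace Pool.Agent.MP_656653_lc

open Set Filter Item

def Bel (D : Set Dp) (ν : Tag) (N N' : V) : Prop :=
  has (N' : Set V) (trc ν N) ∧ (trc ν N).1 < (trc ν N').1 ∧ ∀ z ∈ N, Bx D ν z → z ∈ N'

theorem N0.chain {D} (n : N0 D) {s} (hs : SC D s) {ν : Tag} {N N'} (hN : cn N ∈ s) (hN' : cn N' ∈ s)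
    (h : has (N : Set V) ν) (h' : has (N' : Set V) ν) :
    trc ν N = trc ν N' ∨ Bel D ν N N' ∨ Bel D ν N' N := by
  have k : ∀ {A B : V}, CN D B → has (B : Set V) ν → (∃ A₁ ∈ B, CN D A₁ ∧
      ∀ z, Bx D ν z → (z ∈ A ↔ z ∈ A₁)) → Bel D ν A B := by
    rintro A B c d ⟨A₁, a₁, a₂, a₃⟩
    have := has_trc c.cl (n.bas c.cl) d a₁
    rw [← n.trc_eq a₃] at this
    exact ⟨this, ((n.bas c.cl).has_iff c.cnt).1 (c.cl.has_prod.1 this).1,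
      fun z hz b => c.cl.cnt a₁ a₂.cnt ((a₃ z b).1 hz)⟩
  exact (hs.chain hN hN' h h').imp n.trc_eq (Or.imp (k (hs.cn hN') h') (k (hs.cn hN) h))

theorem TS_inj {D} (n : N0 D) {p : C} (hs : SC D p) (ν) :
    ∀ a ∈ TS ν p, ∀ b ∈ TS ν p, a.1 = b.1 → a = b := by
  rintro _ ⟨N, a₁, a₂, rfl⟩ _ ⟨N', b₁, b₂, rfl⟩ e
  rcases n.chain hs a₁ b₁ a₂ b₂ with h | h | h
  exacts [h, absurd e h.2.1.ne, absurd e h.2.1.ne']

theorem md_mk {D} {ν : Tag} (h : TagOK ν) (hk : ν.k2 = true) {K g} {N : V}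
    (hS : Sub D ⟨K, ν.P, g⟩ N (dl N)) (hν : has (N : Set V) ν) :
    Md D ⟨K, ν.P, g⟩ ν.sA (trc ν N) N := by
  have := hS.cl.has_tag.1 hν
  refine ⟨hS, ⟨hS.sub, fun ρ => ?_⟩, (h.k2 hk).1 ▸ this.2.2.1, this.2.2.2.2.2.1⟩
  rw [← (h.k2 hk).1]
  exact ZFSet.mem_inter

theorem sub_node : ∀ᶠ D in Fl, ∀ ν, Pp D ν → ∀ K g, Sit D ⟨K, ν.P, g⟩ → ∀ r : C, has K r → SC D r →
    tr ν ∈ r → res ν.W r ∈ g → ∀ N, cn N ∈ r → has (N : Set V) ν →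
    Sub D ⟨K, ν.P, g⟩ N (dl N) := by
  filter_upwards [sub_of] with D h ν hP K g hs r a₁ a₂ a₃ a₄ N a₅ a₆
  exact h ν hP K g hs N (hs.cl.has_cn.1 (hs.cl.has_finset.1 a₁ _ a₅)) (a₂.cn a₅) a₆
    ⟨_, a₄, mem_res.2 ⟨a₂.cls a₅ a₃ a₆, (a₂.tr a₃).has_inter (a₂.cn a₅)⟩⟩

theorem has_mkX {D K} (h : Cl D K) (hb : Bas K) {q : Pt} : has K (mkX q) ↔ has K q := by
  unfold mkX
  rw [h.has_pair, h.has_list, and_iff_left hb.bot]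
  simp

theorem pt_mkX (q : Pt) : pt (mkX q) = q := rfl

def Cpy (a : Tag × List X × List Trc) (y : Dat × C) (p : C) : Prop :=
  y.2 = res a.1.W p ∧ ls a.2.1 ∪ ls y.1.1 = wS a.1 p ∧ ls a.2.2 ∪ ls y.1.2 = TS a.1 p

theorem step : ∀ᶠ D in Fl, D.Countable → ∀ ν, Tg D ν → Pp D ν → ∀ p, PP D p → tr ν ∈ p →
    ∀ M, CN D M → ∀ M₀, cn M₀ ∈ p → has (M₀ : Set V) ν → M₀ ⊆ M →
    (∀ z ∈ M, Bx D ν z → z ∈ M₀) → ∀ E ∈ M, enc p ∈ E → (∀ q : C, enc q ∈ E → PP D q ∧ tr ν ∈ q) →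
    ∃ q : C, enc q ∈ E ∧ has (M : Set V) q ∧ ∃ u : C, enc u ∈ ν.P ∧ res ν.W p ⊆ u ∧ res ν.W q ⊆ u ∧
      FV ν u (wS ν p ∪ wS ν q) (TS ν p ∪ TS ν q) := by
  filter_upwards [ev_n0, val_frc, val_of, sub_of, sub_node, dich, v3D, v3Q,
    ev_set (fun (a : V × Tag × List X × List Trc) (y : Dat × C) => ∃ p, enc p ∈ a.1 ∧ Cpy a.2 y p),
    ev_wit (fun (a : (Tag × List X × List Trc) × Dat × C) (p : C) => Cpy a.1 a.2 p),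
    ev_set (fun (a : V × Dat) (b : C) => enc (a.2, b) ∈ a.1)]
    with D n h₁ h₂ h₃ h₄ h₅ h₆ h₇ h₈ h₉ h₀
  intro hD ν hν hP p hp hνp M hM M₀ m₁ m₂ m₃ m₄ E hE hpE hEq
  have hνM : has (M : Set V) ν := m₃ m₂
  have tM := hM.cl.has_tag.1 hνM
  obtain ⟨w₀, hw₀⟩ := exists_ls ((wS_fin ν p).subset (sep_subset _ fun x => has (M : Set V) x))
  obtain ⟨T₀, hT₀⟩ := exists_ls ((TS_fin ν p).subset (sep_subset _ fun x => has (M : Set V) x))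
  have ha : has (M : Set V) (ν, w₀, T₀) := hM.cl.has_pair.2 ⟨hνM, hM.cl.has_pair.2
    ⟨hM.cl.has_list.2 fun x hx => (hw₀.le hx).2, hM.cl.has_list.2 fun x hx => (hT₀.le hx).2⟩⟩
  obtain ⟨S, s₁, s₂, -, s₃⟩ := h₈ M hM.cl (E, ν, w₀, T₀) (hM.cl.has_pair.2 ⟨hE, ha⟩) _
    (hM.cl.prod tM.2.2.2.1 tM.2.1)
  obtain ⟨K, g, hs, c₁, c₂⟩ := exists_sit' hD (hp.res_mem n hνp) (M, p)
  obtain ⟨c₂, c₃⟩ := hs.cl.has_pair.1 c₂
  have e₀ : M₀ ∩ ν.W = M ∩ ν.W := ZFSet.ext fun z => by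
    simp only [ZFSet.mem_inter]
    exact and_congr_left fun a => ⟨fun b => m₃ b, fun b => m₄ z b (bx_W a)⟩
  have hS := h₃ ν hP K g hs M c₂ hM hνM ⟨_, c₁, mem_res.2
    ⟨e₀ ▸ hp.sc.cls m₁ hνp m₂, hν.tw.has_inter hM⟩⟩
  have hνK : has K ν := hS.sub hνM
  have e₁ : trc ν M₀ = trc ν M := n.trc_eq fun z a => ⟨fun b => m₃ b, fun b => m₄ z b a⟩
  have hτ : trc ν M ∈ TS ν p := ⟨M₀, m₁, m₂, e₁.symm⟩
  have hT : ∀ τ ∈ TS ν p, has (M : Set V) τ ∨ dl M ≤ τ.1 := by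
    rintro _ ⟨N, a₁, a₂, rfl⟩
    rcases n.chain hp.sc a₁ m₁ a₂ m₂ with h | h | h
    · rw [h, e₁]; exact Or.inr le_rfl
    · exact Or.inl (m₃ h.1)
    · rw [Bel, e₁] at h; exact Or.inr h.2.1.le
  have hv := h₂ ν K g hs hνK p c₃ (hp.vd ν hνp) c₁
  have real : ∀ d : Dat, ls d.1 = {x ∈ wS ν p | ¬ has (M : Set V) x} →
      ls d.2 = {x ∈ TS ν p | ¬ has (M : Set V) x} → d ∈ St.vd ⟨K, ν.P, g⟩ S := by
    intro d a₁ a₂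
    refine ⟨hs.cl.has_prod.2 ⟨hs.cl.has_list.2 fun x hx => has_wS hs.cl c₃ ν x (a₁.le hx).1,
      hs.cl.has_list.2 fun x hx => has_TS hs.cl hs.bas c₃ hνK x (a₂.le hx).1⟩, _, c₁,
      (s₃ _).2 ⟨ZFSet.pair_mem_prod.2 ⟨hν.ok.dt d fun τ h => ?_, hs.subP c₁⟩, p, hpE, rfl, ?_, ?_⟩⟩
    · obtain ⟨N, -, -, rfl⟩ := (a₂.le h).1
      exact fun z hz => (ZFSet.mem_inter.1 hz).2
    · simp only [hw₀, a₁]; ext; simp only [mem_union, mem_sep_iff]; tauto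
    · simp only [hT₀, a₂]; ext; simp only [mem_union, mem_sep_iff]; tauto
  have copy : ∀ d ∈ St.vd ⟨K, ν.P, g⟩ S, ∃ q : C, has K q ∧ enc q ∈ E ∧ res ν.W q ∈ g ∧
      wS ν q = {x ∈ wS ν p | has (M : Set V) x} ∪ ls d.1 ∧
      TS ν q = {x ∈ TS ν p | has (M : Set V) x} ∪ ls d.2 ∧
      St.Val ⟨K, ν.P, g⟩ ν (wS ν q) (TS ν q) := by
    rintro d ⟨a₁, b, a₂, a₃⟩
    obtain ⟨q, b₁, b₂, b₃, b₄, b₅⟩ := h₉ K hs.cl ((ν, w₀, T₀), d, b) (hs.cl.has_pair.2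
      ⟨hS.sub ha, hs.cl.has_pair.2 ⟨a₁, hs.subK a₂⟩⟩) E (hS.sub hE) ((s₃ (d, b)).1 a₃).2
    obtain rfl : b = res ν.W q := b₃
    exact ⟨q, b₁, b₂, a₂, hw₀ ▸ b₄.symm, hT₀ ▸ b₅.symm,
      h₂ ν K g hs hνK q b₁ ((hEq q b₂).1.vd ν (hEq q b₂).2) a₂⟩
  obtain ⟨d, ⟨d₀, d₁⟩, d₂, d₃⟩ : ∃ d ∈ St.vd ⟨K, ν.P, g⟩ S, has (M : Set V) d ∧
      St.Val ⟨K, ν.P, g⟩ ν (wS ν p ∪ ls d.1) (TS ν p ∪ ls d.2) := by
    rcases hv with ⟨hk, hx, hv⟩ | ⟨hk, hv⟩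
    · have e₂ : {q ∈ pt '' wS ν p | has (M : Set V) q} = pt '' {x ∈ wS ν p | has (M : Set V) x} := by
        ext q
        constructor
        · rintro ⟨⟨x, a, rfl⟩, b⟩
          exact ⟨x, ⟨a, hx x a ▸ (has_mkX hM.cl hS.bas).2 b⟩, rfl⟩
        · rintro ⟨x, ⟨a, b⟩, rfl⟩
          exact ⟨⟨x, a, rfl⟩, (has_mkX hM.cl hS.bas).1 (hx x a ▸ b)⟩
      have e₃ : ∀ d : Dat, ls (yl d) = pt '' ls d.1 := fun d => by ext; simp [ls, yl]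
      obtain ⟨d, a₁, a₂, a₃⟩ := h₇ _ hs _ _ _ (md_mk hν.ok hk hS hνM)
        (h₅ hD ν hν hk hP K g hs _ (hS.sub tM.2.2.2.2.2.1)) _ _ ((wS_fin ν p).image pt) (TS_fin ν p)
        hv (by
          rintro _ ⟨x, a, rfl⟩
          exact hs.has_nt (hs.cl.has_prod.1 (has_wS hs.cl c₃ ν x a)).1 0) hτ hT (TS_inj n hp.sc ν)
        S s₁ (by
          rintro _ ⟨N, a₁, a₂, rfl⟩ a₃
          refine ⟨N, md_mk hν.ok hk (h₄ ν hP K g hs p c₃ hp.sc hνp c₁ N a₁ a₂) a₂, ?_, ?_⟩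
          · rw [← e₁] at a₃
            have b := bx_bb (D := D) ((hν.ok.k2 hk).2.1 S s₂)
            rcases n.chain hp.sc m₁ a₁ m₂ a₂ with h | h | h
            exacts [absurd (congrArg Prod.fst h) a₃.ne, h.2.2 S (m₄ S s₁ b) b,
              absurd h.2.1 a₃.not_gt]
          · rintro _ ⟨N', b₁, b₂, rfl⟩ b₃
            rcases n.chain hp.sc b₁ a₁ b₂ a₂ with h | h | h
            exacts [absurd (congrArg Prod.fst h) b₃.ne, h.1, absurd h.2.1 b₃.not_gt])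
        (fun Y l a₁ a₂ => real _ (by
          ext x
          simp only [ls, List.mem_map, mem_setOf_eq]
          constructor
          · rintro ⟨q, b, rfl⟩
            obtain ⟨⟨y, b₁, rfl⟩, b₂⟩ := a₁.le b
            exact ⟨hx y b₁ ▸ b₁, fun H => b₂ ((has_mkX hM.cl hS.bas).1 H)⟩
          · rintro ⟨b₁, b₂⟩
            exact ⟨pt x, a₁.ge ⟨⟨x, b₁, rfl⟩, fun H => b₂ (hx x b₁ ▸ (has_mkX hM.cl hS.bas).2 H)⟩,
              (hx x b₁).symm⟩) a₂) (fun d hd => by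
          obtain ⟨q, b₁, b₂, b₃, b₄, b₅, b₆⟩ := copy d hd
          refine ⟨?_, fun a ha => ?_⟩
          · rw [e₂, e₃, ← image_union, ← b₄, ← b₅]
            exact (b₆.resolve_right fun H => by simp [hk] at H).2.2
          · obtain ⟨N, f₁, f₂, rfl⟩ := b₅.ge (Or.inr ha)
            exact ⟨N, md_mk hν.ok hk
              (h₄ ν hP K g hs q b₁ (hEq q b₂).1.sc (hEq q b₂).2 b₃ N f₁ f₂) f₂⟩)
      obtain ⟨q, -, -, -, b₄, -, b₆⟩ := copy d a₁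
      refine ⟨d, a₁, a₂, Or.inl ⟨hk, fun x h => h.elim (hx x) fun h =>
        (b₆.resolve_right fun H => by simp [hk] at H).2.1 x (b₄.ge (Or.inr h)), ?_⟩⟩
      rwa [image_union, ← e₃]
    · obtain ⟨d, a₁, a₂, a₃⟩ := h₆ _ hs _ _ hS _ tM.2.2.2.2.2.1 _ _ _ _ (wS_fin ν p) (TS_fin ν p) hv
        hT ⟨_, hτ⟩ S s₁ real fun d hd => by
          obtain ⟨q, -, -, -, b₄, b₅, b₆⟩ := copy d hd
          rw [← b₄, ← b₅]
          exact (b₆.resolve_left fun H => by simp [hk] at H).2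
      exact ⟨d, a₁, a₂, Or.inr ⟨hk, a₃⟩⟩
  obtain ⟨H, a₁, -, -, a₂⟩ := h₀ M hM.cl (S, d) (hM.cl.has_pair.2 ⟨s₁, d₂⟩) _ tM.2.1
  obtain ⟨b, b₁, b₂, b₃⟩ := hS.gen a₁ (d₁.imp fun b h => ⟨h.1, (a₂ b).2 ⟨hs.subP h.1, h.2⟩⟩)
  obtain ⟨q, f₁, f₂, f₃, f₄, f₅⟩ := h₉ M hM.cl ((ν, w₀, T₀), d, b) (hM.cl.has_pair.2
    ⟨ha, hM.cl.has_pair.2 ⟨d₂, b₃⟩⟩) E hE ((s₃ (d, b)).1 ((a₂ b).1 b₂).2).2
  obtain rfl : b = res ν.W q := f₃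
  have e₂ : wS ν p ∪ wS ν q = wS ν p ∪ ls d.1 := by
    rw [← show _ = wS ν q from f₄, ← union_assoc, hw₀, union_eq_left.2 (sep_subset _ _)]
  have e₃ : TS ν p ∪ TS ν q = TS ν p ∪ ls d.2 := by
    rw [← show _ = TS ν q from f₅, ← union_assoc, hT₀, union_eq_left.2 (sep_subset _ _)]
  rw [← e₂, ← e₃] at d₃
  obtain ⟨c, k₁, k₂⟩ := (h₁ ν K g hs hνK _ _ ((wS_fin _ _).union (wS_fin _ _))
    ((TS_fin _ _).union (TS_fin _ _))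
    (fun x h => h.elim (has_wS hs.cl c₃ ν x) (has_wS hs.cl (hS.sub f₁) ν x))
    (fun x h => h.elim (has_TS hs.cl hs.bas c₃ hνK x)
      (has_TS hs.cl hs.bas (hS.sub f₁) hνK x))).1 d₃
  obtain ⟨u₀, k₃, k₄, k₅⟩ := hs.dir c₁ b₁
  obtain ⟨u, k₆, k₇, k₈⟩ := hs.dir k₃ k₁
  exact ⟨q, f₂, f₁, u, hs.subP k₆, k₄.trans k₇, k₅.trans k₇, k₂.mono k₈ (Abv.of_sub subset_rfl)⟩

theorem pprime : ∀ᶠ D in Fl, D.Countable → ∀ ν, Tg D ν → Pp D ν := by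
  filter_upwards [ev_n0, step, ev_set (fun (a : V × C) (c : C) => enc c ∈ a.1 ∧ a.2 ⊆ c)]
    with D n h₁ h₂ hD ν₀
  induction e : ν₀.W.rank using WellFoundedLT.induction generalizing ν₀ with
  | ind o ih =>
  intro h₀ M hM hν p hp hc E hE hpE
  obtain ⟨p₁, p₂⟩ := h₀.mem.1 hp
  have hW := h₀.tw
  obtain ⟨E', a₁, -, a₂, a₃⟩ := h₂ M hM.cl (E, res M p) (hM.cl.has_pair.2
    ⟨hE, hM.cl.has_finset.2 fun x hx => (mem_res.1 hx).2⟩) _ (hM.cl.has_tag.1 hν).2.1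
  have hpE' := (a₃ p).2 ⟨hp, hpE, fun x hx => (mem_res.1 hx).1⟩
  have fin : ∀ s t : C, has (ν₀.W : Set V) s → has (ν₀.W : Set V) t → PP D (amF s t) →
      enc (amF s t) ∈ ν₀.P := fun s t a b c => h₀.mem.2 ⟨has_amF hW.cl a b, c⟩
  have cM := (p₂.sc.cn hc).cl
  by_cases H : ∃ ν, tr ν ∈ p ∧ has (M : Set V) ν
  swap
  · obtain ⟨z, b₁, b₂⟩ := hM.cl.wit a₁ hpE'
    obtain ⟨q, rfl⟩ := a₂ z b₁
    obtain ⟨b₃, b₄, b₅⟩ := (a₃ q).1 b₁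
    obtain ⟨q₁, q₂⟩ := h₀.mem.1 b₃
    have b₆ := cM.has_finset.1 (has_inter.2 ⟨b₂, q₁⟩)
    exact ⟨q, b₄, b₂, _, fin p q p₁ q₁ (p₂.glue n hc q₂.sc b₆
      (fun x a b => b₅ (mem_res.2 ⟨a, (has_inter.1 b).1⟩)) q₂.atm fun ν a => Or.inl
      ⟨fun b => H ⟨ν, b, hM.cl.has_tr.1 (has_inter.1 (b₆ _ a)).1⟩, q₂.vd ν a⟩),
      Finset.subset_union_left.trans sub_amF, Finset.subset_union_right.trans sub_amF⟩
  obtain ⟨ν, ⟨b₁, b₂⟩, hmax⟩ := exists_max_image {ν | tr ν ∈ p ∧ has (M : Set V) ν}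
    (fun ν => ν.W.rank) ((p.finite_toSet.preimage (f := tr) fun _ _ _ _ h => by
      cases h; rfl).subset fun _ h => h.1) H
  have hνW := hW.cl.has_tr.1 (hW.cl.has_finset.1 p₁ _ b₁)
  have hν' := p₂.tg b₁
  have hW' := hν'.tw
  obtain ⟨q, c₁, c₂, u, c₃, c₄, c₅, c₆⟩ := h₁ hD ν hν' (ih _ (e ▸ rk_lt' hW.cl hνW) ν rfl hν') p p₂
    b₁ M hM _ hc (has_inter.2 ⟨b₂, hνW⟩) (fun _ a => (ZFSet.mem_inter.1 a).1)
    (fun z a b => ZFSet.mem_inter.2 ⟨a, b _ hW hνW⟩) E' a₁ hpE' fun q hq =>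
    ⟨(h₀.mem.1 ((a₃ q).1 hq).1).2, ((a₃ q).1 hq).2.2 (mem_res.2 ⟨b₁, hM.cl.has_tr.2 b₂⟩)⟩
  obtain ⟨b₃, b₄, b₅⟩ := (a₃ q).1 c₁
  obtain ⟨q₁, q₂⟩ := h₀.mem.1 b₃
  have b₆ := cM.has_finset.1 (has_inter.2 ⟨c₂, q₁⟩)
  have b₇ : tr ν ∈ q := b₅ (mem_res.2 ⟨b₁, hM.cl.has_tr.2 b₂⟩)
  obtain ⟨u₁, u₂⟩ := hν'.mem.1 c₃
  replace u₁ := hW'.cl.has_finset.1 u₁
  obtain ⟨s₁, s₂⟩ := h₀.mem.1 (h₀.union n hp b₁ c₃ c₄)
  have u₃ : ∀ x ∈ res (M ∩ ν₀.W) u, has (ν.W : Set V) x := fun x a => u₁ x (mem_res.1 a).1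
  have e₁ : p ∪ u ∪ (q ∪ res (M ∩ ν₀.W) u) = p ∪ q ∪ u := by
    ext x
    simp only [Finset.mem_union, mem_res]
    tauto
  refine ⟨q, b₄, c₂, _, fin (p ∪ u) (q ∪ res (M ∩ ν₀.W) u) s₁ (hW.cl.has_finset.2 fun x a =>
      (Finset.mem_union.1 a).elim (hW.cl.has_finset.1 q₁ x) fun b => (has_inter.1 (mem_res.1 b).2).2)
    (s₂.glue n (Finset.mem_union_left _ hc) ?_ (fun x a => (Finset.mem_union.1 a).elim (b₆ x)
      fun b => (mem_res.1 b).2) (fun x a b => ?_) (fun ν' x a => ?_) fun ν' a => ?_),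
    Finset.subset_union_left.trans (Finset.subset_union_left.trans sub_amF),
    Finset.subset_union_left.trans (Finset.subset_union_right.trans sub_amF)⟩
  · rw [Finset.coe_union]
    refine q₂.sc.union b₇ (coe_res _ _ ▸ u₂.sc.res cM) u₃ fun x a b => ?_
    exact mem_res.2 ⟨c₅ (mem_res.2 ⟨a, b⟩), b₆ x a⟩
  · rw [Finset.mem_union] at a ⊢
    exact a.imp (fun a => b₅ (mem_res.2 ⟨a, (has_inter.1 b).1⟩)) fun a => mem_res.2 ⟨a, b⟩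
  · rw [Finset.mem_union] at a ⊢
    exact a.imp (q₂.atm _ _) fun a => mem_res.2 ⟨u₂.atm _ _ (mem_res.1 a).1,
      cM.has_tr.2 (cM.has_atm.1 (mem_res.1 a).2).1⟩
  by_cases f : has (ν.W : Set V) ν'
  · have a' : tr ν' ∈ u := (Finset.mem_union.1 a).elim
      (fun b => c₅ (mem_res.2 ⟨b, hW'.cl.has_tr.2 f⟩)) fun b => (mem_res.1 b).1
    rw [e₁]
    refine Or.inr ((u₂.vd ν' a').of (fun x b _ => Finset.mem_union_right _ b) ?_ (Abv.of_sub ?_))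
    · rw [wS_union, wS_union, union_eq_right.2 (union_subset (wS_in n hW' c₄ f) (wS_in n hW' c₅ f))]
    · rw [TS_union, TS_union]
      exact union_subset (union_subset (TS_in n p₂.sc b₁ c₄ f) (TS_in n q₂.sc b₇ c₅ f)) subset_rfl
  by_cases f' : ν' = ν
  · subst f'
    rw [e₁]
    refine Or.inr ⟨hν'.ok, hν'.gt, ?_⟩
    rw [wS_union, wS_union, TS_union, TS_union, wS_out n hW' u₁ f, TS_out hW' u₁ f, union_empty,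
      union_empty]
    exact c₆.mono (fun x b => mem_res.2 ⟨Finset.mem_union_right _ b, u₁ x b⟩)
      (Abv.of_sub subset_rfl)
  have a' : tr ν' ∈ q := (Finset.mem_union.1 a).resolve_right fun b => f (hW'.cl.has_tr.1 (u₃ _ b))
  refine Or.inl ⟨fun b => ?_, (q₂.vd ν' a').of (fun x b _ => Finset.mem_union_left _ b) ?_
    (Abv.of_sub ?_)⟩
  · have b' : tr ν' ∈ p := (Finset.mem_union.1 b).resolve_right fun b => f (hW'.cl.has_tr.1 (u₁ _ b))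
    rcases p₂.sc.tot b' b₁ trivial trivial with k | k | k
    · exact f' (by cases k; rfl)
    · exact f (hW'.cl.has_tr.1 (k.tr hW'))
    · exact (rk_lt (p₂.sc.tr b').cl (k.tr (p₂.sc.tr b'))).not_ge
        (hmax ν' ⟨b', hM.cl.has_tr.1 (has_inter.1 (b₆ _ a')).1⟩)
  · rw [wS_union, wS_out n hW' u₃ f, union_empty]
  · rw [TS_union, TS_out hW' u₃ f, union_empty]

end Pool.Agent.MP_656653_lc

end

section

/-! The class forcing and its generic filter. -/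

set_option synthInstance.maxSize 1000000

namespace Pool.Agent.MP_656653_lc

open Set Filter Item
open Pool.Agent.MP_c6cf52_lc hiding tr

theorem exists_gen2 {P : Type 1} [Preorder P] [OrderTop P] {β : Type 1} [Inhabited β]
    {ι₁ ι₂ ι₃ : Type*} [Countable ι₁] [Countable ι₂] [Countable ι₃] (F : ι₁ → β → β → β)
    (Θ : ι₂ → β → Name P) (Ξ : Name P → β) (e : P → β) (Ψ : ι₃ → β → Name P → P → Prop) :
    ∃ (g : Gen P) (K : Set β), (∀ i, ∀ a ∈ K, ∀ b ∈ K, F i a b ∈ K) ∧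
      (∀ i, ∀ a ∈ K, Θ i a ∈ g.N) ∧ (∀ τ ∈ g.N, Ξ τ ∈ K) ∧
      (∀ p ∈ g.G, ∃ q ≤ p, e q ∈ K) ∧
      ∀ i, ∀ a ∈ K, ∀ τ ∈ g.N, ∃ q ∈ g.G, Ψ i a τ q ∨ ∀ r ≤ q, ¬ Ψ i a τ r := by
  have : Inhabited P := ⟨⊤⟩
  let R : (ℕ × Fml × ℕ) ⊕ ι₁ ⊕ ι₂ ⊕ ι₃ ⊕ Bool → List (Name P × β × P) → P → Name P → β → Prop :=
    fun i l q ρ y => match i with
    | .inl i => Name.basic i.1 i.2.1 i.2.2 (l.map Prod.fst) q ρ
    | .inr (.inl i) => y = F i (l.getD 0 default).2.1 (l.getD 1 default).2.1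
    | .inr (.inr (.inl i)) => ρ = Θ i (l.getD 0 default).2.1
    | .inr (.inr (.inr (.inl i))) => Ψ i (l.getD 0 default).2.1 (l.getD 1 default).1 q ∨
        ∀ r ≤ q, ¬ Ψ i (l.getD 0 default).2.1 (l.getD 1 default).1 r
    | .inr (.inr (.inr (.inr true))) => y = Ξ (l.getD 0 default).1
    | .inr (.inr (.inr (.inr false))) => y = e (l.getD 0 default).2.2
  have : Nonempty ((ℕ × Fml × ℕ) ⊕ ι₁ ⊕ ι₂ ⊕ ι₃ ⊕ Bool) := ⟨.inl (0, .bot, 0)⟩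
  obtain ⟨S, s, hs, -, h⟩ := exists_generic (fun i l q (a : Name P × β × P) =>
    a.2.2 = q ∧ R i l q a.1 a.2.1) (by
    rintro (i | i | i | i | _ | _) l p
    · obtain ⟨q, h₁, ρ, h₂⟩ := Name.basic_dense i.1 i.2.1 i.2.2 (l.map Prod.fst) p
      exact ⟨q, h₁, (ρ, default, q), rfl, h₂⟩
    · exact ⟨p, le_rfl, (default, _, p), rfl, rfl⟩
    · exact ⟨p, le_rfl, (_, default, p), rfl, rfl⟩
    · by_cases H : ∀ r ≤ p, ¬ Ψ i (l.getD 0 default).2.1 (l.getD 1 default).1 r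
      · exact ⟨p, le_rfl, (default, default, p), rfl, Or.inr H⟩
      · push Not at H
        obtain ⟨r, h₁, h₂⟩ := H
        exact ⟨r, h₁, (default, default, r), rfl, Or.inl h₂⟩
    · exact ⟨p, le_rfl, (default, _, p), rfl, rfl⟩
    · exact ⟨p, le_rfl, (default, _, p), rfl, rfl⟩) ⊤
  have top : ∃ n, (∃ a ∈ S, a.2.2 = s n) := by
    obtain ⟨n, a, h₁, h₂, -⟩ := h (.inl (0, .bot, 0)) [] (by simp)
    exact ⟨n, a, h₁, h₂⟩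
  refine ⟨⟨Prod.fst '' S, {q | ∃ n, (∃ a ∈ S, a.2.2 = s n) ∧ s n ≤ q}, ?_, ?_,
    top.imp fun n h => ⟨h, le_top⟩, ?_⟩, (·.2.1) '' S, ?_, ?_, ?_, ?_, ?_⟩
  · rintro p q ⟨n, h₁, h₂⟩ hpq
    exact ⟨n, h₁, h₂.trans hpq⟩
  · rintro p q ⟨n, h₁, h₂⟩ ⟨m, h₃, h₄⟩
    rcases le_total n m with h | h
    exacts [⟨s m, ⟨m, h₃, le_rfl⟩, (hs h).trans h₂, h₄⟩, ⟨s n, ⟨n, h₁, le_rfl⟩, h₂, (hs h).trans h₄⟩]
  · intro t φ k l hl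
    obtain ⟨l', h₁, rfl⟩ : ∃ l' : List (Name P × β × P), (∀ x ∈ l', x ∈ S) ∧ l'.map Prod.fst = l := by
      induction l with
      | nil => exact ⟨[], by simp, rfl⟩
      | cons x l ih =>
        obtain ⟨l', h₁, rfl⟩ := ih fun y hy => hl y (List.mem_cons_of_mem _ hy)
        obtain ⟨a, ha, rfl⟩ := hl x List.mem_cons_self
        exact ⟨a :: l', List.forall_mem_cons.2 ⟨ha, h₁⟩, rfl⟩
    obtain ⟨n, a, h₂, h₃, h₄⟩ := h (.inl (t, φ, k)) l' h₁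
    exact ⟨s n, ⟨n, ⟨a, h₂, h₃⟩, le_rfl⟩, a.1, ⟨a, h₂, rfl⟩, h₄⟩
  · rintro i _ ⟨a, ha, rfl⟩ _ ⟨b, hb, rfl⟩
    obtain ⟨n, c, h₂, -, h₄⟩ := h (.inr (.inl i)) [a, b] (by simp [ha, hb])
    exact ⟨c, h₂, h₄⟩
  · rintro i _ ⟨a, ha, rfl⟩
    obtain ⟨n, c, h₂, -, h₄⟩ := h (.inr (.inr (.inl i))) [a] (by simp [ha])
    exact ⟨c, h₂, h₄⟩
  · rintro _ ⟨a, ha, rfl⟩
    obtain ⟨n, c, h₂, -, h₄⟩ := h (.inr (.inr (.inr (.inr true)))) [a] (by simp [ha])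
    exact ⟨c, h₂, h₄⟩
  · rintro p ⟨n, ⟨a, ha, h₁⟩, h₂⟩
    obtain ⟨m, c, h₃, -, h₄⟩ := h (.inr (.inr (.inr (.inr false)))) [a] (by simp [ha])
    exact ⟨s n, h₂, c, h₃, h₁ ▸ h₄⟩
  · rintro i _ ⟨a, ha, rfl⟩ _ ⟨b, hb, rfl⟩
    obtain ⟨n, c, h₂, h₃, h₄⟩ := h (.inr (.inr (.inr (.inl i)))) [a, b] (by simp [ha, hb])
    exact ⟨s n, ⟨n, ⟨c, h₂, h₃⟩, le_rfl⟩, h₄⟩

def P1 (D : Set Dp) : Type 1 := {p : C // PP D p}

variable {D : Set Dp}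

instance : Preorder (P1 D) where
  le p q := q.1 ⊆ p.1
  le_refl _ := subset_rfl
  le_trans _ _ _ h h' := h'.trans h

instance : OrderTop (P1 D) where
  top := ⟨∅, pp_empty⟩
  le_top _ := Finset.empty_subset _

theorem wfO : WellFounded (fun a b : ULift.{1} Om => a.down < b.down) :=
  InvImage.wf ULift.down wellFounded_lt

theorem triO (a b : ULift.{1} Om) : a.down < b.down ∨ a = b ∨ b.down < a.down :=
  (lt_trichotomy a.down b.down).imp id (Or.imp (ULift.ext _ _) id)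

noncomputable def oN (a : Om) : Name (P1 D) := Name.ordN wfO ⟨a⟩

noncomputable def wN : Name (P1 D) := Name.setN wfO univ

def RR : Bool → V → Om → Om → C → Prop
  | true, z, a, b, q => enc ((a, b), q) ∈ z
  | false, z, a, b, q => ∃ ν, enc ν = z ∧ atm ν (mkX (a, eU b)) ∈ q

noncomputable def rN (i : Bool) (z : V) : Name (P1 D) :=
  Gen.relN (ι := {x : Om × Om × P1 D // RR i z x.1 x.2.1 x.2.2.1}) (fun x => oN x.1.1)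
    (fun x => oN x.1.2.1) fun x => x.1.2.2

def FM (τ : Name (P1 D)) (a b : Om) (c : C) : Prop :=
  ∃ h : PP D c, Name.FMem (Name.pairN (oN a) (oN b)) τ ⟨c, h⟩

def DecN (τ : Name (P1 D)) (a b : Om) (c : C) : Prop :=
  PP D c ∧ (FM τ a b c ∨ ∀ r, c ⊆ r → ¬ FM τ a b r)

structure CapN (τ : Name (P1 D)) (ν ν' : Tag) : Prop where
  k2 : ν.k2 = true
  mem : has (ν.W : Set V) ν'
  dec : ∀ a b c, enc c ∈ ν'.P → ∃ c', enc c' ∈ ν'.P ∧ c ⊆ c' ∧ DecN τ a b c'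
  iff : ∀ a b (c : C), enc ((a, b), c) ∈ ν.sA ↔ enc c ∈ ν'.P ∧ FM τ a b c

def sch : Fin 6 → V → Name (P1 D) → C → Prop
  | 0, z, _, q => ∃ a : V × V, enc a = z ∧ enc (res a.1 q) ∈ a.2
  | 1, z, _, q => ∃ N, cn N ∈ q ∧ z ∈ N
  | 2, _, τ, q => ∃ ν ν', tr ν ∈ q ∧ tr ν' ∈ q ∧ CapN τ ν ν'
  | 3, z, τ, q => ∃ a : V × Om × Om, enc a = z ∧ DecN τ a.2.1 a.2.2 (res a.1 q)
  | 4, z, _, q => ∃ a : Tag × Om, enc a = z ∧ ∃ t, atm a.1 (mkX (a.2, t)) ∈ q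
  | 5, z, _, q => ∃ a : Tag × U × U, enc a = z ∧
      ∃ c w, a.2.1 < w ∧ w < a.2.2 ∧ atm a.1 (mkX (c, w)) ∈ q

structure Top (D : Set Dp) where
  g : Gen (P1 D)
  K : Set V
  cl : Cl D K
  nm : ∀ x ∈ K, Nm x ∈ K
  subK : ∀ q ∈ g.G, has K q.1
  ord : ∀ a : Om, oN a ∈ g.N ↔ has K a
  om : wN ∈ g.N
  rel : ∀ i, ∀ z ∈ K, rN i z ∈ g.N
  dec : ∀ i, ∀ z ∈ K, ∀ τ ∈ g.N, ∃ q ∈ g.G, sch i z τ q.1 ∨ ∀ r ≤ q, ¬ sch i z τ r.1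

theorem exists_top (hD : D.Countable) : Nonempty (Top D) := by
  classical
  have := hD.to_subtype
  obtain ⟨g, K, h₁, h₂, h₃, h₄, h₅⟩ := exists_gen2 (P := P1 D) (β := V)
    (Option.elim' (fun a _ => Nm a) (cop D))
    (Sum.elim rN fun (i : Bool) z =>
      if i then wN else if h : ∃ a : Om, enc a = z then oN h.choose else wN)
    (fun τ => if h : ∃ a, oN a = τ then enc h.choose else ∅) (fun q => enc q.1)
    fun i z τ q => sch i z τ q.1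
  have h0 : ∅ ∈ K := by
    obtain ⟨q, -, h⟩ := h₄ _ g.top
    exact h₁ (some (.inl 0)) _ h _ h
  have cl : Cl D K := cl_of_cop h0 fun i => h₁ (some i)
  refine ⟨⟨g, K, cl, fun x hx => h₁ none _ hx _ hx, fun q hq => ?_, fun a => ⟨fun h => ?_, fun h => ?_⟩,
    h₂ (.inr true) _ h0, fun i => h₂ (.inl i), h₅⟩⟩
  · obtain ⟨r, a, b⟩ := h₄ q hq
    exact cl.has_finset.2 fun x hx => cl.has_finset.1 b x (a hx)
  · have e : ∃ a', oN a' = (oN a : Name (P1 D)) := ⟨a, rfl⟩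
    have := h₃ _ h
    rw [dif_pos e] at this
    have e' := Gen.ord_inj wfO triO (a := ⟨e.choose⟩) (b := ⟨a⟩) (e.choose_spec.symm ▸ h :
      oN e.choose ∈ g.N) h (congrArg g.v e.choose_spec)
    rwa [show e.choose = a from congrArg ULift.down e'] at this
  · have e : ∃ a' : Om, enc a' = enc a := ⟨a, rfl⟩
    have := h₂ (.inr false) _ h
    simp only [Sum.elim_inr, Bool.false_eq_true, if_false, dif_pos e] at this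
    rwa [Code.inj e.choose_spec] at this

namespace Top

variable (T : Top D)

def G : Set C := {q | ∃ h : PP D q, (⟨q, h⟩ : P1 D) ∈ T.g.G}

def st (ν : Tag) : St := ⟨T.K, ν.P, {b ∈ T.G | has (ν.W : Set V) b}⟩

noncomputable def o (a : Om) : T.g.M := T.g.v (oN a)

noncomputable def w1 : T.g.M := T.g.v wN

def On (ν : Tag) : Prop := ∃ q ∈ T.G, tr ν ∈ q

variable {T}

theorem pp {q} (h : q ∈ T.G) : PP D q := h.1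

theorem hK {q} (h : q ∈ T.G) : has T.K q := T.subK _ h.2

theorem up {p q} (h : q ∈ T.G) (h' : p ⊆ q) (hp : PP D p) : p ∈ T.G := ⟨hp, T.g.up h.2 h'⟩

theorem dir {p q} (h : p ∈ T.G) (h' : q ∈ T.G) : ∃ r ∈ T.G, p ⊆ r ∧ q ⊆ r := by
  obtain ⟨r, a, b, c⟩ := T.g.dir h.2 h'.2
  exact ⟨r.1, ⟨r.2, a⟩, b, c⟩

theorem dens (i) {z} (hz : z ∈ T.K) {τ} (hτ : τ ∈ T.g.N) {p} (hp : p ∈ T.G)
    (h : ∀ q, PP D q → p ⊆ q → ∃ r, PP D r ∧ q ⊆ r ∧ sch i z τ r) : ∃ q ∈ T.G, sch i z τ q := by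
  obtain ⟨q, a, b | b⟩ := T.dec i z hz τ hτ
  · exact ⟨q.1, ⟨q.2, a⟩, b⟩
  · obtain ⟨q', c₁, c₂, c₃⟩ := dir ⟨q.2, a⟩ hp
    obtain ⟨r, d₁, d₂, d₃⟩ := h q' (pp c₁) c₃
    exact absurd d₃ (b ⟨r, d₁⟩ (c₂.trans d₂))

theorem emp : ∅ ∈ T.G := ⟨pp_empty, T.g.top⟩

theorem On.tg {ν} (h : T.On ν) : Tg D ν := h.elim fun _ a => (pp a.1).tg a.2

theorem On.hK {ν} (h : T.On ν) : has T.K ν :=
  h.elim fun _ a => T.cl.has_tr.1 (T.cl.has_finset.1 (Top.hK a.1) _ a.2)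

theorem res_mem (n : N0 D) {ν q} (h : q ∈ T.G) (h' : tr ν ∈ q) : res ν.W q ∈ (T.st ν).g :=
  have := ((pp h).tg h').mem.1 ((pp h).res_mem n h')
  ⟨up h (fun _ a => (mem_res.1 a).1) this.2, this.1⟩

theorem On.sit (n : N0 D) {ν} (h : T.On ν) : Sit D (T.st ν) := by
  have h' := h.tg
  have hK := h.hK
  obtain ⟨p, p₁, p₂⟩ := h
  refine sit_res0 n h' T.cl hK (T.nm _ (T.cl.has_tag.1 hK).2.1) (fun _ => pp) (fun _ => Top.hK)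
    (fun _ a _ b => dir a b) (fun b hb a c d => up hb c (h'.mem.1 d).2) ⟨_, emp⟩ fun E hE => ?_
  obtain ⟨q, a, b | b⟩ := T.dec 0 (enc (ν.W, E)) (T.cl.has_pair.2 ⟨(T.cl.has_tag.1 hK).1, hE⟩) _ T.om
  · obtain ⟨x, b₁, b₂⟩ := b
    obtain rfl := Code.inj b₁
    exact ⟨q.1, ⟨q.2, a⟩, Or.inl b₂⟩
  · obtain ⟨c, c₁, c₂, c₃⟩ := dir ⟨q.2, a⟩ p₁
    refine ⟨c, c₁, Or.inr fun u d₁ d₂ d₃ => b ⟨_, (pp c₁).union n (c₃ p₂) d₁ d₂⟩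
      (c₂.trans Finset.subset_union_left) ⟨_, rfl, ?_⟩⟩
    rwa [res_union (h'.tw.cl.has_finset.1 (h'.mem.1 d₁).1) d₂]

theorem o_inj {a b : Om} (ha : has T.K a) (hb : has T.K b) (h : T.o a = T.o b) : a = b :=
  congrArg ULift.down (Gen.ord_inj wfO triO ((T.ord a).2 ha) ((T.ord b).2 hb) h)

theorem o_lt {a b : Om} (ha : has T.K a) (hb : has T.K b) : T.g.E (T.o a) (T.o b) ↔ a < b :=
  Gen.ord_lt_iff wfO triO ((T.ord a).2 ha) ((T.ord b).2 hb)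

theorem E_w1 {x} : T.g.E x T.w1 ↔ ∃ a, has T.K a ∧ T.o a = x :=
  (Gen.E_setN wfO T.om).trans ⟨fun ⟨a, _, b, c⟩ => ⟨a.down, (T.ord _).1 b, c⟩,
    fun ⟨a, b, c⟩ => ⟨⟨a⟩, trivial, (T.ord _).2 b, c⟩⟩

theorem E_o {x b} (hb : has T.K b) : T.g.E x (T.o b) ↔ ∃ a < b, has T.K a ∧ T.o a = x :=
  (Gen.E_ordN wfO ((T.ord b).2 hb)).trans ⟨fun ⟨a, b, c, d⟩ => ⟨a.down, b, (T.ord _).1 c, d⟩,
    fun ⟨a, b, c, d⟩ => ⟨⟨a⟩, b, (T.ord _).2 c, d⟩⟩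

theorem exists_rN (i) {z} (hz : z ∈ T.K) : ∃ x : T.g.M, ∀ p, T.g.E p x ↔ ∃ a b, has T.K a ∧
    has T.K b ∧ (∃ q ∈ T.G, RR i z a b q) ∧ p = Gen.pr (T.o a) (T.o b) :=
  ⟨T.g.v (rN i z), fun _ => (Gen.E_relN (T.rel i z hz)).trans
    ⟨fun ⟨x, a, b, c, d⟩ => ⟨_, _, (T.ord _).1 b, (T.ord _).1 c, ⟨_, ⟨_, a⟩, x.2⟩, d⟩,
      fun ⟨a, b, c, d, ⟨q, ⟨e, f⟩, h⟩, k⟩ =>
        ⟨⟨(a, b, ⟨q, e⟩), h⟩, f, (T.ord _).2 c, (T.ord _).2 d, k⟩⟩⟩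

end Top

theorem modl : ∀ᶠ D in Fl, D.Countable → ∀ (T : Top D) ν, T.On ν → ∀ z ∈ T.K,
    ∃ (N : Set V) (δ : Om), Sub D (T.st ν) N δ ∧ z ∈ N ∧ has N ν := by
  filter_upwards [ev_n0, sub_node, pprime] with D n h₁ h₂ hD T ν h z hz
  obtain ⟨q, a, N, b, c⟩ := Top.dens 1 (z := enc (z, ν)) (T.cl.has_pair.2 ⟨hz, h.hK⟩) T.om Top.emp fun q hq _ => by
    obtain ⟨N, a, b⟩ := exists_cn hD ((z, ν), q)
    exact ⟨_, hq.node n a (a.cl.has_pair.1 b).2, Finset.subset_union_right.trans sub_amF, N,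
      sub_amF (by simp), (a.cl.has_pair.1 b).1⟩
  obtain ⟨p, p₁, p₂⟩ := id h
  obtain ⟨r, r₁, r₂, r₃⟩ := Top.dir a p₁
  have c' := ((Top.pp a).sc.cn b).cl.has_pair.1 c
  exact ⟨N, _, h₁ ν (h₂ hD ν h.tg) _ _ (h.sit n) r (Top.hK r₁) (Top.pp r₁).sc (r₃ p₂)
    (Top.res_mem n r₁ (r₃ p₂)) N (r₂ b) c'.2, c'⟩

theorem FM.mono {τ : Name (P1 D)} {a b c c'} (h : FM τ a b c) (h' : c ⊆ c') (hc : PP D c') :
    FM τ a b c' := ⟨hc, h.2.mono h'⟩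

theorem exists_tag {W : V} (hW : TW D W) {nm : V → V} {bb : V → V} {k2 : Bool} {sA : V}
    (h : ∀ P, k2 = true → nm P = Nm P ∧ (∀ z : V, z ⊆ (dtOf (nm P)).prod P → z ∈ bb P) ∧ Refl W) :
    ∃ ν, Tg D ν ∧ ν.W = W ∧ ν.k2 = k2 ∧ ν.sA = sA := by
  refine ⟨⟨W, W.sep fun z => ∃ b, enc b = z ∧ PP D b, nm _, dtOf (nm _), bb _, k2, false, sA, ∅⟩,
    ⟨hW, ⟨(exists_dt _).choose_spec, h _⟩, (gt_iff hW).2 fun b => ?_⟩, rfl, rfl, rfl⟩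
  rw [ZFSet.mem_sep]
  exact and_congr_right fun _ => ⟨fun ⟨_, e, a⟩ => Code.inj e ▸ a, fun a => ⟨b, rfl, a⟩⟩

theorem capt : ∀ᶠ D in Fl, D.Countable → ∀ (T : Top D) (x : T.g.M), ∃ ν, T.On ν ∧ ν.k2 = true ∧
    ∀ a b : Om, has T.K a → has T.K b →
      ((a, b) ∈ (T.st ν).val ν.sA ↔ App T.g.E x (T.o a) (T.o b)) := by
  filter_upwards [ev_n0] with D n hD T x
  obtain ⟨τ, hτ, rfl⟩ := Gen.exists_v x
  obtain ⟨q, q₁, ν, ν', q₂, q₃, h⟩ := Top.dens 2 T.cl.emp hτ Top.emp fun q hq _ => by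
    have : ∀ y : V, ∃ z : V, ∀ a b c, enc ((a, b), c) = y → PP D c →
        ∃ c', enc c' = z ∧ c ⊆ c' ∧ DecN τ a b c' := fun y => by
      by_cases e : ∃ a b c, enc (((a, b), c) : (Om × Om) × C) = y ∧ PP D c
      · obtain ⟨a, b, c, rfl, e⟩ := e
        obtain ⟨c', e₁, e₂⟩ : ∃ c', c ⊆ c' ∧ DecN τ a b c' := by
          by_cases H : ∀ r, c ⊆ r → ¬ FM τ a b r
          · exact ⟨c, subset_rfl, e, Or.inr H⟩
          · push Not at H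
            obtain ⟨r, a, b⟩ := H
            exact ⟨r, a, b.1, Or.inl b⟩
        refine ⟨enc c', fun a' b' c'' e' _ => ?_⟩
        cases Code.inj e'
        exact ⟨c', rfl, e₁, e₂⟩
      · exact ⟨∅, fun a b c e₁ e₂ => absurd ⟨a, b, c, e₁, e₂⟩ e⟩
    choose F hF using this
    obtain ⟨W', a₁, a₂, a₃⟩ := exists_tw hD F (enc q)
    obtain ⟨ν', b₁, rfl, -, -⟩ := exists_tag a₁ (nm := fun _ => ∅) (bb := fun _ => ∅) (k2 := false)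
      (sA := ∅) (by simp)
    have q₁ := hq.top n b₁ (a₁.cl.has_finset.1 a₂)
    obtain ⟨W, c₁, c₂, c₃⟩ := exists_refl hD (enc (insert (tr ν') q))
    obtain ⟨ν, d₁, rfl, d₂, d₃⟩ := exists_tag c₁ (nm := Nm)
      (bb := fun P => ((dtOf (Nm P)).prod P).powerset) (k2 := true)
      (sA := ((allc (Om × Om)).prod ν'.P).sep fun z => ∃ a b c, enc ((a, b), c) = z ∧ FM τ a b c)
      fun P _ => ⟨rfl, fun _ => ZFSet.mem_powerset.2, c₃⟩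
    refine ⟨_, q₁.top n d₁ (c₁.cl.has_finset.1 c₂), (Finset.subset_insert _ _).trans
      (Finset.subset_insert _ _), ν, ν', by simp, by simp, d₂,
      c₁.cl.has_tr.1 (c₁.cl.has_finset.1 c₂ _ (by simp)), fun a b c e => ?_, fun a b c => ?_⟩
    · obtain ⟨e₁, e₂⟩ := b₁.mem.1 e
      obtain ⟨c', f₁, f₂, f₃⟩ := hF _ a b c rfl e₂
      refine ⟨c', b₁.mem.2 ⟨?_, f₃.1⟩, f₂, f₃⟩
      unfold has
      rw [f₁]
      exact a₃ _ (a₁.cl.has_pair.2 ⟨a₁.cl.has_pair.2 ⟨n.has_om a₁ a, n.has_om a₁ b⟩, e₁⟩)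
    · rw [d₃, ZFSet.mem_sep]
      refine and_congr (ZFSet.pair_mem_prod.trans (and_iff_right (enc_mem_allc _)))
        ⟨fun ⟨_, _, _, e, f⟩ => ?_, fun f => ⟨a, b, c, rfl, f⟩⟩
      cases Code.inj e
      exact f
  have hν : T.On ν := ⟨q, q₁, q₂⟩
  have hν' : T.On ν' := ⟨q, q₁, q₃⟩
  refine ⟨ν, hν, h.k2, fun a b ha hb => ?_⟩
  have hN := Gen.pairN_mem_iff.2 ⟨(T.ord a).2 ha, (T.ord b).2 hb⟩
  rw [Gen.app_iff, Top.o, Top.o, ← Gen.v_pairN ((T.ord a).2 ha) ((T.ord b).2 hb),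
    Gen.v_mem_iff hN hτ]
  constructor
  · rintro ⟨-, c, ⟨⟨c₁, c₂⟩, -⟩, c₃⟩
    exact ⟨_, c₂, ((h.iff a b c).1 c₃).2.2⟩
  · rintro ⟨p, p₁, p₂⟩
    obtain ⟨r, r₁, y, e, r₂⟩ := Top.dens 3 (z := enc (ν'.W, a, b)) (T.cl.has_pair.2
      ⟨(T.cl.has_tag.1 hν'.hK).1, T.cl.has_pair.2 ⟨ha, hb⟩⟩) hτ q₁ fun r r₁ r₂ => by
      obtain ⟨u, u₁, u₂, u₃⟩ := h.dec a b _ (r₁.res_mem n (r₂ q₃))
      refine ⟨_, r₁.union n (r₂ q₃) u₁ u₂, Finset.subset_union_left, _, rfl, ?_⟩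
      rwa [res_union (hν'.tg.tw.cl.has_finset.1 (hν'.tg.mem.1 u₁).1) u₂]
    obtain rfl := Code.inj e
    have hW : has (ν'.W : Set V) (res ν'.W r) :=
      hν'.tg.tw.cl.has_finset.2 fun _ a => (mem_res.1 a).2
    have hG := Top.up r₁ (fun _ a => (mem_res.1 a).1) r₂.1
    rcases r₂.2 with f | f
    · exact ⟨T.cl.has_pair.2 ⟨ha, hb⟩, _, ⟨hG, hν.tg.tw.has_sub h.mem hW⟩,
        (h.iff a b _).2 ⟨hν'.tg.mem.2 ⟨hW, r₂.1⟩, f⟩⟩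
    · obtain ⟨t, t₁, t₂, t₃⟩ := Top.dir hG ⟨p.2, p₁⟩
      exact absurd (FM.mono ⟨p.2, p₂⟩ t₃ (Top.pp t₁)) (f t t₂)

end Pool.Agent.MP_656653_lc

end

section

/-! The generic embedding. -/

set_option synthInstance.maxSize 1000000

namespace Pool.Agent.MP_656653_lc

open Set Filter Item

theorem loc : ∀ᶠ D in Fl, D.Countable → ∀ ν : Tag, ν.k2 = true → ∀ q, PP D q → tr ν ∈ q →
    ∀ z : V, ∃ K g, Sit D ⟨K, ν.P, g⟩ ∧ res ν.W q ∈ g ∧ z ∈ K ∧ has K ν ∧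
      (St.Nice ⟨K, ν.P, g⟩ ν.sA → Ctx D ⟨K, ν.P, g⟩ ν.sA (pt '' wS ν q) (TS ν q) ∧
        St.Dich ⟨K, ν.P, g⟩ ν.sA) ∧
      ∀ y, has K y → St.Val2 ⟨K, ν.P, g⟩ ν.sA (insert y (pt '' wS ν q)) (TS ν q) →
        ∃ r, PP D r ∧ q ⊆ r ∧ atm ν (mkX y) ∈ r := by
  filter_upwards [ev_n0, val_frc, val_of, sub_node, pprime, dich] with D n h₁ h₂ h₃ h₄ h₅
  intro hD ν hk q hq hν z
  have hν' := hq.tg hν
  obtain ⟨K, g, hs, c₁, c₂⟩ := exists_sit' hD (hq.res_mem n hν) (z, q)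
  obtain ⟨c₂, c₃⟩ := hs.cl.has_pair.1 c₂
  have hK := hs.cl.has_tr.1 (hs.cl.has_finset.1 c₃ _ hν)
  obtain ⟨-, v₁, v₂⟩ := (h₂ ν K g hs hK q c₃ (hq.vd ν hν) c₁).resolve_right fun H => by
    simp [hk] at H
  refine ⟨K, g, hs, c₁, c₂, hK, fun hn => ⟨⟨hs, hn, (wS_fin _ _).image _, TS_fin _ _, v₂, ?_, ?_⟩,
    h₅ hD ν hν' hk (h₄ hD ν hν') K g hs _ (hs.cl.has_tag.1 hK).2.2.2.2.2.1 hn⟩, fun y hy hv => ?_⟩
  · rintro _ ⟨x, a, rfl⟩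
    exact hs.has_nt (hs.cl.has_prod.1 (has_wS hs.cl c₃ ν x a)).1 0
  · rintro _ ⟨N, a₁, a₂, rfl⟩
    exact ⟨N, md_mk hν'.ok hk (h₃ ν (h₄ hD ν hν') K g hs q c₃ hq.sc hν c₁ N a₁ a₂) a₂⟩
  obtain ⟨c, a₁, a₂⟩ := (h₁ ν K g hs hK (insert (mkX y) (wS ν q)) (TS ν q) ((wS_fin _ _).insert _)
    (TS_fin _ _) (fun x hx => hx.elim (fun e => e ▸ (has_mkX hs.cl hs.bas).2 hy)
      (has_wS hs.cl c₃ ν x)) (has_TS hs.cl hs.bas c₃ hK)).1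
    (Or.inl ⟨hk, fun x hx => hx.elim (fun e => e ▸ rfl) (v₁ x), by rwa [image_insert_eq]⟩)
  obtain ⟨u, u₁, u₂, u₃⟩ := hs.dir a₁ c₁
  exact ⟨_, hq.ext n hν (hs.subP u₁) u₃ (a₂.mono u₂ (Abv.of_sub subset_rfl)),
    fun x hx => by simp [hx], Finset.mem_insert_self _ _⟩

def Top.F {D} (T : Top D) (ν : Tag) (a : Om) (t : U) : Prop := ∃ q ∈ T.G, atm ν (mkX (a, t)) ∈ q

theorem Top.F.has {D} {T : Top D} (n : N0 D) {ν a t} (h : T.F ν a t) : has T.K a ∧ has T.K t := by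
  obtain ⟨q, a₁, a₂⟩ := h
  exact T.cl.has_pair.1 ((has_mkX T.cl (n.bas T.cl)).1 (has_wS T.cl (Top.hK a₁) ν _ a₂))

theorem emb_ord : ∀ᶠ D in Fl, ∀ (T : Top D) ν, T.On ν → ν.k2 = true → ∀ a t a' t',
    T.F ν a t → T.F ν a' t' → ((T.st ν).r ν.sA a a' ↔ t < t') := by
  filter_upwards [ev_n0, val_of] with D n h₁
  rintro T ν h hk a t a' t' ⟨p, p₁, p₂⟩ ⟨q, q₁, q₂⟩
  obtain ⟨r, r₁, r₂, r₃⟩ := Top.dir p₁ q₁
  have r₄ := (Top.pp r₁).atm _ _ (r₂ p₂)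
  obtain ⟨-, -, v⟩ := (h₁ ν _ _ (h.sit n) h.hK r (Top.hK r₁) ((Top.pp r₁).vd ν r₄)
    (Top.res_mem n r₁ r₄)).resolve_right fun H => by simp [hk] at H
  exact v.2.1 (a, t) ⟨_, r₂ p₂, rfl⟩ (a', t') ⟨_, r₃ q₂, rfl⟩

theorem top_frc {α : Type*} [Code α] (Φ : St → α → Prop) [Def Φ] : ∀ᶠ D in Fl, ∀ (T : Top D) ν,
    T.On ν → ∀ a, has T.K a → Φ (T.st ν) a → ∀ p ∈ T.G, ∃ p' ∈ T.G, p ⊆ p' ∧ tr ν ∈ p' ∧
      ∀ q, p' ⊆ q → ∀ K g, Sit D ⟨K, ν.P, g⟩ → res ν.W q ∈ g → has K a → Φ ⟨K, ν.P, g⟩ a := by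
  filter_upwards [ev_n0, Def.frc Φ] with D n h₁ T ν h a ha H p hp
  obtain ⟨b, b₁, b₂⟩ := (h₁ _ (h.sit n) a ha).1 H
  have hW := h.tg.tw
  obtain ⟨c, c₁, c₂⟩ := h
  obtain ⟨r, r₁, r₂, r₃⟩ := Top.dir b₁.1 c₁
  obtain ⟨p', d₁, d₂, d₃⟩ := Top.dir hp r₁
  exact ⟨p', d₁, d₂, d₃ (r₃ c₂), fun q hq K g hs e₁ e₂ => (h₁ _ hs a e₂).2 ⟨_, e₁, b₂.mono
    fun x hx => mem_res.2 ⟨hq (d₃ (r₂ hx)), hW.cl.has_finset.1 b₁.2 x hx⟩⟩⟩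

theorem emb_tot : ∀ᶠ D in Fl, D.Countable → ∀ (T : Top D) ν, T.On ν → ν.k2 = true →
    (T.st ν).Nice ν.sA → ∀ a, has T.K a → ∃ t, T.F ν a t := by
  filter_upwards [ev_n0, loc, top_frc (fun s (ν : Tag) => s.Nice ν.sA), dens1]
    with D n h₁ h₂ h₃ hD T ν h hk hn a ha
  obtain ⟨p, p₁, -, p₂, p₃⟩ := h₂ T ν h _ h.hK hn _ Top.emp
  obtain ⟨q, q₁, y, e, t, q₂⟩ := Top.dens 4 (z := enc (ν, a)) (T.cl.has_pair.2 ⟨h.hK, ha⟩) T.om p₁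
    fun q hq hpq => by
      obtain ⟨K, g, hs, a₁, a₂, a₃, a₄, a₅⟩ := h₁ hD ν hk q hq (hpq p₂) (enc a)
      obtain ⟨b₁, b₂⟩ := a₄ (p₃ q hpq K g hs a₁ a₃)
      obtain ⟨t, c₁, c₂⟩ := h₃ _ _ _ _ b₁ b₂ (TS_inj n hq.sc ν) a a₂
      obtain ⟨r, r₁, r₂, r₃⟩ := a₅ _ (hs.cl.has_pair.2 ⟨a₂, c₁⟩) c₂
      exact ⟨r, r₁, r₂, _, rfl, t, r₃⟩
  obtain rfl := Code.inj e
  exact ⟨t, q, q₁, q₂⟩

theorem emb_L : ∀ᶠ D in Fl, D.Countable → ∀ (T : Top D) ν, T.On ν → ν.k2 = true →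
    (T.st ν).Nice ν.sA → ∀ a t u, T.F ν a t → u < t → has T.K u →
    (∃ c, has T.K c ∧ (T.st ν).r ν.sA c a) → ∃ a', has T.K a' ∧ (T.st ν).r ν.sA a' a ∧
      ((∀ c, has T.K c → ¬ ((T.st ν).r ν.sA a' c ∧ (T.st ν).r ν.sA c a)) ∨
        ∃ w, u < w ∧ T.F ν a' w) := by
  filter_upwards [ev_n0, loc, top_frc (fun s (x : V × Om) => s.Nice x.1 ∧
    (∃ c, has s.K c ∧ s.r x.1 c x.2) ∧ ¬ ∃ a', has s.K a' ∧ s.r x.1 a' x.2 ∧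
      ∀ c, has s.K c → ¬ (s.r x.1 a' c ∧ s.r x.1 c x.2)), dens2L, emb_ord]
    with D n h₁ h₂ h₃ h₄ hD T ν h hk hn a t u hF hu huK hc
  by_contra H
  obtain ⟨ha, ht⟩ := hF.has n
  obtain ⟨p₀, p₄, p₅⟩ := id hF
  obtain ⟨p, p₁, p₆, p₂, p₃⟩ := h₂ T ν h (ν.sA, a) (T.cl.has_pair.2
    ⟨(T.cl.has_tag.1 h.hK).2.2.2.2.2.1, ha⟩)
    ⟨hn, hc, fun ⟨a', b₁, b₂, b₃⟩ => H ⟨a', b₁, b₂, Or.inl b₃⟩⟩ _ p₄
  obtain ⟨q, q₁, y, e, c, w, q₂, q₃, q₄⟩ := Top.dens 5 (z := enc (ν, u, t))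
    (T.cl.has_pair.2 ⟨h.hK, T.cl.has_pair.2 ⟨huK, ht⟩⟩) T.om p₁ fun q hq hpq => by
      obtain ⟨K, g, hs, a₁, a₂, a₃, a₄, a₅⟩ := h₁ hD ν hk q hq (hpq p₂) (enc (a, u))
      replace a₂ := hs.cl.has_pair.1 a₂
      obtain ⟨b₀, b₃, b₄⟩ := p₃ q hpq K g hs a₁ (hs.cl.has_pair.2
        ⟨(hs.cl.has_tag.1 a₃).2.2.2.2.2.1, a₂.1⟩)
      have m : (a, t) ∈ pt '' wS ν q := ⟨_, hpq (p₆ p₅), rfl⟩
      obtain ⟨a', c₁, c₂, c₃ | ⟨w, c₃, c₄, c₅⟩⟩ := h₃ _ _ _ _ (a₄ b₀).1 a t u m hu a₂.2 b₃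
      · exact absurd ⟨a', c₁, c₂, c₃⟩ b₄
      obtain ⟨r, r₁, r₂, r₃⟩ := a₅ _ (hs.cl.has_pair.2 ⟨c₁, c₃⟩) c₅
      exact ⟨r, r₁, r₂, _, rfl, a', w, c₄, (c₅.2.1 _ (Or.inl rfl) _ (Or.inr m)).1 c₂, r₃⟩
  obtain rfl := Code.inj e
  have hF' : T.F ν c w := ⟨q, q₁, q₄⟩
  exact H ⟨c, (hF'.has n).1, (h₄ T ν h hk _ _ _ _ hF' hF).2 q₃, Or.inr ⟨w, q₂, hF'⟩⟩

theorem emb_R : ∀ᶠ D in Fl, D.Countable → ∀ (T : Top D) ν, T.On ν → ν.k2 = true →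
    (T.st ν).Nice ν.sA → ∀ a t u, T.F ν a t → t < u → has T.K u →
    (∃ c, has T.K c ∧ (T.st ν).r ν.sA a c) → ∃ a', has T.K a' ∧ (T.st ν).r ν.sA a a' ∧
      ((∀ c, has T.K c → ¬ ((T.st ν).r ν.sA c a' ∧ (T.st ν).r ν.sA a c)) ∨
        ∃ w, w < u ∧ T.F ν a' w) := by
  filter_upwards [ev_n0, loc, top_frc (fun s (x : V × Om) => s.Nice x.1 ∧
    (∃ c, has s.K c ∧ s.r x.1 x.2 c) ∧ ¬ ∃ a', has s.K a' ∧ s.r x.1 x.2 a' ∧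
      ∀ c, has s.K c → ¬ (s.r x.1 c a' ∧ s.r x.1 x.2 c)), dens2R, emb_ord]
    with D n h₁ h₂ h₃ h₄ hD T ν h hk hn a t u hF hu huK hc
  by_contra H
  obtain ⟨ha, ht⟩ := hF.has n
  obtain ⟨p₀, p₄, p₅⟩ := id hF
  obtain ⟨p, p₁, p₆, p₂, p₃⟩ := h₂ T ν h (ν.sA, a) (T.cl.has_pair.2
    ⟨(T.cl.has_tag.1 h.hK).2.2.2.2.2.1, ha⟩)
    ⟨hn, hc, fun ⟨a', b₁, b₂, b₃⟩ => H ⟨a', b₁, b₂, Or.inl b₃⟩⟩ _ p₄
  obtain ⟨q, q₁, y, e, c, w, q₂, q₃, q₄⟩ := Top.dens 5 (z := enc (ν, t, u))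
    (T.cl.has_pair.2 ⟨h.hK, T.cl.has_pair.2 ⟨ht, huK⟩⟩) T.om p₁ fun q hq hpq => by
      obtain ⟨K, g, hs, a₁, a₂, a₃, a₄, a₅⟩ := h₁ hD ν hk q hq (hpq p₂) (enc (a, u))
      replace a₂ := hs.cl.has_pair.1 a₂
      obtain ⟨b₀, b₃, b₄⟩ := p₃ q hpq K g hs a₁ (hs.cl.has_pair.2
        ⟨(hs.cl.has_tag.1 a₃).2.2.2.2.2.1, a₂.1⟩)
      have m : (a, t) ∈ pt '' wS ν q := ⟨_, hpq (p₆ p₅), rfl⟩
      obtain ⟨a', c₁, c₂, c₃ | ⟨w, c₃, c₄, c₅⟩⟩ := h₃ _ _ _ _ (a₄ b₀).1 a t u m hu a₂.2 b₃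
      · exact absurd ⟨a', c₁, c₂, c₃⟩ b₄
      obtain ⟨r, r₁, r₂, r₃⟩ := a₅ _ (hs.cl.has_pair.2 ⟨c₁, c₃⟩) c₅
      exact ⟨r, r₁, r₂, _, rfl, a', w, (c₅.2.1 _ (Or.inr m) _ (Or.inl rfl)).1 c₂, c₄, r₃⟩
  obtain rfl := Code.inj e
  have hF' : T.F ν c w := ⟨q, q₁, q₄⟩
  exact H ⟨c, (hF'.has n).1, (h₄ T ν h hk _ _ _ _ hF hF').2 q₂, Or.inr ⟨w, q₃, hF'⟩⟩

/-- Definable relations on the ordinals are sets of the model. -/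
theorem intl {α : Type*} [Code α] (Φ : St → α → Om × Om → Prop)
    [Def (fun s (x : α × Om × Om) => Φ s x.1 x.2)] : ∀ᶠ D in Fl, ∀ (T : Top D) ν, T.On ν →
    ∀ z, has T.K z → ∃ x : T.g.M, ∀ p, T.g.E p x ↔ ∃ a b, has T.K a ∧ has T.K b ∧
      Φ (T.st ν) z (a, b) ∧ p = MP_c6cf52_lc.Gen.pr (T.o a) (T.o b) := by
  filter_upwards [ev_n0, compS Φ] with D n h₁ T ν h z hz
  have hs := h.sit n
  obtain ⟨σ, a₁, a₂, a₃⟩ := h₁ _ hs _ hs.cl subset_rfl hs.hP z hz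
  obtain ⟨x, hx⟩ := Top.exists_rN true a₁
  refine ⟨x, fun p => (hx p).trans (exists₂_congr fun a b => and_congr_right fun ha =>
    and_congr_right fun hb => and_congr_left fun _ => ?_)⟩
  have hab := T.cl.has_pair.2 ⟨ha, hb⟩
  refine Iff.trans ?_ ((a₃ (a, b)).trans (and_iff_right hab))
  exact ⟨fun ⟨q, b₁, b₂⟩ => ⟨hab, q, ⟨b₁, (h.tg.mem.1 (ZFSet.pair_mem_prod.1 (a₂ b₂)).2).1⟩, b₂⟩,
    fun ⟨_, q, b₁, b₂⟩ => ⟨q, b₁.1, b₂⟩⟩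

end Pool.Agent.MP_656653_lc

end

section

/-! Combinatorics of named relations on the ordinals. -/

set_option synthInstance.maxSize 1000000

namespace Pool.Agent.MP_656653_lc

open Set Filter

theorem exists_lim : ∃ δ : Om, Lim δ := by
  choose f hf using fun a : Om => exists_gt a
  let a : ℕ → Om := fun n => f^[n] ⊥
  have ha : ∀ n, a n < a (n + 1) := fun n => by
    simp only [a, Function.iterate_succ_apply']; exact hf _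
  obtain ⟨δ, h₁, h₂⟩ := (wellFounded_lt (α := Om)).has_min {b | ∀ n, a n < b}
    ((exists_bound (countable_range a)).imp fun b hb n => hb _ ⟨n, rfl⟩)
  refine ⟨δ, h₁ 0, fun γ hγ => ?_⟩
  obtain ⟨n, hn⟩ := not_forall.1 fun H => h₂ γ H hγ
  exact ⟨_, (not_lt.1 hn).trans_lt (ha n), h₁ _⟩

noncomputable def om0 : Om := (wellFounded_lt (α := Om)).min {δ | Lim δ} exists_lim

theorem lim_om0 : Lim om0 := (wellFounded_lt (α := Om)).min_mem {δ | Lim δ} exists_lim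

theorem not_lim {a : Om} (h : a < om0) : ¬ Lim a :=
  fun H => (wellFounded_lt (α := Om)).not_lt_min {δ | Lim δ} H h

theorem fin_Iic {a : Om} (h : a < om0) : (Iic a).Finite := by
  induction a using WellFoundedLT.induction with
  | ind a ih =>
    rw [← Iio_insert]
    refine Finite.insert _ ?_
    have := not_lim h
    rw [Lim, not_and_or] at this
    rcases this with H | H
    · simp [le_bot_iff.1 (not_lt.1 H)]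
    · push Not at H
      obtain ⟨γ, h₁, h₂⟩ := H
      exact (ih γ h₁ (h₁.trans h)).subset fun x hx => not_lt.1 fun H => (h₂ x H).not_gt hx

theorem exists_ij (a : Om) : ∃ f : Om → Om, InjOn f (Iio a) ∧ ∀ ξ, f ξ < om0 := by
  have h : (Iio om0).Infinite := lim_om0.infinite fun β hβ => ⟨β, hβ, le_rfl, hβ⟩
  obtain ⟨f, hf⟩ := countable_iff_exists_injOn.1 (cnt_Iio a)
  exact ⟨fun ξ => (h.natEmbedding _ (f ξ)).1, fun x hx y hy e =>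
    hf hx hy ((h.natEmbedding _).injective (Subtype.ext e)), fun ξ => (h.natEmbedding _ (f ξ)).2⟩

noncomputable def ij (a : Om) : Om → Om := (exists_ij a).choose

theorem ij_inj {a x y : Om} (hx : x < a) (hy : y < a) (h : ij a x = ij a y) : x = y :=
  (exists_ij a).choose_spec.1 hx hy h

theorem ij_lt (a ξ : Om) : ij a ξ < om0 := (exists_ij a).choose_spec.2 ξ

abbrev St.vo (s : St) (σ : V) : Set (Om × Om) := s.val σ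

theorem ev_eU : ∀ᶠ D in Fl, ∀ K, Cl D K → ∀ a, has K (eU a) ↔ has K a := by
  filter_upwards [ev_cf eU, ev_cf eU.symm] with D h₁ h₂ K hK a
  exact ⟨fun h => by simpa using h₂ K hK _ h, h₁ K hK a⟩

theorem u_mono : ∀ᶠ D in Fl, ∀ s, Sit D s → ∀ N δ, Sub D s N δ → ∀ σ ∈ N,
    (∀ ξ, has s.K ξ → ∃ a, (ξ, a) ∈ s.vo σ) →
    (∀ ξ ξ' a, (ξ, a) ∈ s.vo σ → (ξ', a) ∈ s.vo σ → ξ = ξ') →
    (∀ x ∈ s.vo σ, ∀ y ∈ s.vo σ, ∀ z ∈ s.vo σ, x.1 ≤ y.1 → y.1 ≤ z.1 → ∀ γ,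
      U.ag γ (eU x.2) (eU z.2) → U.ag γ (eU y.2) (eU z.2)) → False := by
  filter_upwards [ev_eU, unbN, nbU,
    elemS (fun s (a : V × Om × U) (y : Om × Om) => y ∈ s.vo a.1 ∧ U.ag a.2.1 a.2.2 (eU y.2)),
    elemS (fun s (a : V × Om) (ξ : Om) => (ξ, a.2) ∈ s.vo a.1),
    compX (fun s (σ : V × ℕ) (y : X) => ∃ z, z ∈ s.vo σ.1 ∧ (nt y.1 0).2 = eU z.2 ∧
      y.2 ≤ (nt y.1 0).2.ht ∧ ∀ z', z' ∈ s.vo σ.1 → z.1 ≤ z'.1 → U.ag y.2 (eU z.2) (eU z'.2))]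
    with D h₁ h₂ h₃ h₄ h₅ h₆ s hs N δ hN σ hσ tot inj btw
  obtain ⟨a₀, ha₀⟩ := tot δ hN.hd
  have haK := (hs.cl.has_pair.1 ha₀.1).2
  have hht : δ ≤ (eU a₀).ht := not_lt.1 fun H => by
    obtain ⟨ξ, a₁, a₂⟩ := h₅ s hs N δ hN (σ, a₀) (hN.cl.has_pair.2
      ⟨hσ, (h₁ N hN.cl a₀).1 (hN.has_u.2 H)⟩) δ hN.hd ha₀
    exact (hN.iff.1 a₁).ne (inj _ _ _ a₂ ha₀)
  have hF := h₆ s hs N hN.cl hN.sub hN.hP (σ, 0) (hN.cl.has_pair.2 ⟨hσ, hN.cl.has_nat _⟩)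
  obtain ⟨x, ⟨-, z, x₁, x₂, -, x₃⟩, y, ⟨-, z', y₁, y₂, -, y₃⟩, H⟩ := h₃ s hs N δ hN _ hF
    (h₂ s hs N δ hN _ hF fun β hβ => ⟨([(⊥, eU a₀)], β), ⟨hs.cl.has_pair.2 ⟨hs.cl.has_list.2 (by
      simp only [List.mem_singleton, forall_eq]
      exact hs.cl.has_pair.2 ⟨hs.bas.bot, (h₁ _ hs.cl _).2 haK⟩), hs.has_le hN hβ.le⟩,
      (δ, a₀), ha₀, rfl, hβ.le.trans hht, fun z' a₁ a₂ => by
        obtain ⟨m, -, m₁, -, m₂, -⟩ := U.minmax β (eU z'.2)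
        obtain ⟨y, b₁, b₂, b₃⟩ := h₄ s hs N δ hN (σ, β, m) (hN.cl.has_pair.2 ⟨hσ, hN.cl.has_pair.2
          ⟨hN.iff.2 hβ, hN.has_u.2 (m₂.trans_lt hβ)⟩⟩) z' a₁.1 ⟨a₁, m₁⟩
        exact btw y b₂ _ ha₀ z' a₁ (hN.iff.1 (hN.cl.has_prod.1 b₁).1).le a₂ β
          (b₃.symm.trans m₁)⟩, le_rfl⟩) 0 fun x ⟨_, _, _, _, h, _⟩ => h
  rw [x₂, y₂] at H
  rcases le_total z.1 z'.1 with h | h
  exacts [H ((x₃ z' y₁ h).mono (min_le_left _ _)), H ((y₃ z x₁ h).mono (min_le_right _ _)).symm]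

def lexO (S : Set (Om × Om)) (a b : Om) : Prop :=
  ∃ n < om0, (b, n) ∈ S ∧ (a, n) ∉ S ∧ ∀ m < n, ((a, m) ∈ S ↔ (b, m) ∈ S)

theorem lexO.asymm {S a b} (h : lexO S a b) : ¬ lexO S b a := by
  obtain ⟨n, -, a₁, a₂, a₃⟩ := h
  rintro ⟨m, -, b₁, b₂, b₃⟩
  rcases lt_trichotomy n m with h | rfl | h
  exacts [a₂ ((b₃ n h).1 a₁), a₂ b₁, b₂ ((a₃ m h).1 b₁)]

theorem u_real : ∀ᶠ D in Fl, ∀ s, Sit D s → (∀ z ∈ s.K, ∃ N δ, Sub D s N δ ∧ z ∈ N) → ∀ σ ∈ s.K,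
    (∀ β, has s.K β → ∃ a, β ≤ a ∧ (a, om0) ∈ s.vo σ) →
    (∀ a b, (a, om0) ∈ s.vo σ → (b, om0) ∈ s.vo σ → eU a < eU b → lexO (s.vo σ) a b) → False := by
  filter_upwards [ev_eU, ev_const om0,
    elemS (fun s (a : V × Om × List Om) (t : Om) => (t, om0) ∈ s.vo a.1 ∧
      ∀ m ≤ a.2.1, ((t, m) ∈ s.vo a.1 ↔ m ∈ a.2.2)),
    elemS (fun s (a : V × Om × U × Om) (t : Om) => (t, om0) ∈ s.vo a.1 ∧ a.2.2.2 < t ∧
      U.ag a.2.1 a.2.2.1 (eU t))] with D h₁ h₂ h₃ h₄ s hs md σ hσ unb inc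
  obtain ⟨N, δ, hN, hσN⟩ := md σ hσ
  have key : ∀ x y z, (x, om0) ∈ s.vo σ → (y, om0) ∈ s.vo σ → (z, om0) ∈ s.vo σ → δ < x →
      U.ag δ (eU x) (eU z) → eU x < eU y → eU y < eU z → False := by
    intro x y z hx hy hz hδ e l₁ l₂
    obtain ⟨n₁, a₀, a₁, a₂, a₃⟩ := inc x y hx hy l₁
    obtain ⟨n₂, b₀, b₁, b₂, b₃⟩ := inc y z hy hz l₂
    have hn := max_lt a₀ b₀
    obtain ⟨L, hL⟩ := exists_ls ((fin_Iic hn).subset (sep_subset _ fun m => (y, m) ∈ s.vo σ))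
    have k : ∀ m ≤ max n₁ n₂, has N m := fun m h => hN.bas.down (h₂ N hN.cl) (h.trans hn.le)
    obtain ⟨t, t₁, t₂, t₃⟩ := h₃ s hs N δ hN (σ, max n₁ n₂, L) (hN.cl.has_pair.2 ⟨hσN,
      hN.cl.has_pair.2 ⟨k _ le_rfl, hN.cl.has_list.2 fun m hm => k m (hL.le hm).1⟩⟩) y
      (hs.cl.has_pair.1 hy.1).1 ⟨hy, fun m hm => ⟨fun H => hL.ge ⟨hm, H⟩, fun H => (hL.le H).2⟩⟩
    have t₄ : ∀ m ≤ max n₁ n₂, ((t, m) ∈ s.vo σ ↔ (y, m) ∈ s.vo σ) := fun m hm =>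
      (t₃ m hm).trans ⟨fun H => (hL.le H).2, fun H => hL.ge ⟨hm, H⟩⟩
    have c₁ : lexO (s.vo σ) x t := ⟨n₁, a₀, (t₄ _ (le_max_left _ _)).2 a₁, a₂, fun m hm =>
      (a₃ m hm).trans (t₄ m (hm.le.trans (le_max_left _ _))).symm⟩
    have c₂ : lexO (s.vo σ) t z := ⟨n₂, b₀, b₁, fun H => b₂ ((t₄ _ (le_max_right _ _)).1 H),
      fun m hm => (t₄ m (hm.le.trans (le_max_right _ _))).trans (b₃ m hm)⟩
    have := U.alone (U.convex (not_lt.1 fun H => c₁.asymm (inc t x t₂ hx H))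
      (not_lt.1 fun H => c₂.asymm (inc z t hz t₂ H)) e).symm (hN.has_u.1 ((h₁ N hN.cl t).2 t₁))
    exact (hN.iff.1 t₁).not_gt (eU.injective this ▸ hδ)
  obtain ⟨N', δ', hN', h'⟩ := md (enc (σ, δ)) (hs.cl.has_pair.2 ⟨hσ, hN.hd⟩)
  obtain ⟨c₁, c₂⟩ := hN'.cl.has_pair.1 h'
  obtain ⟨z, z₁, z₂⟩ := unb δ' hN'.hd
  obtain ⟨m, -, m₁, -, m₂, -⟩ := U.minmax δ (eU z)
  have k : ∀ β, has N' β → ∃ t, has N' t ∧ (t, om0) ∈ s.vo σ ∧ β < t ∧ U.ag δ m (eU t) :=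
    fun β hβ => h₄ s hs N' δ' hN' (σ, δ, m, β) (hN'.cl.has_pair.2 ⟨c₁, hN'.cl.has_pair.2 ⟨c₂,
      hN'.cl.has_pair.2 ⟨hN'.has_u.2 (m₂.trans_lt (hN'.iff.1 c₂)), hβ⟩⟩⟩) z
      (hs.cl.has_pair.1 z₂.1).1 ⟨z₂, (hN'.iff.1 hβ).trans_le z₁, m₁⟩
  obtain ⟨x, x₁, x₂, x₃, x₄⟩ := k δ c₂
  obtain ⟨y, y₁, y₂, y₃, y₄⟩ := k x x₁
  have z₃ := (hN'.iff.1 y₁).trans_le z₁
  have y₅ := x₃.trans y₃
  have z₅ := y₅.trans z₃
  rcases lt_or_gt_of_ne (eU.injective.ne y₃.ne) with a | a <;>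
    rcases lt_or_gt_of_ne (eU.injective.ne z₃.ne) with b | b <;>
    rcases lt_or_gt_of_ne (eU.injective.ne (y₃.trans z₃).ne) with c | c
  exacts [key x y z x₂ y₂ z₂ x₃ (x₄.symm.trans m₁) a b, (a.trans b).asymm c,
    key x z y x₂ z₂ y₂ x₃ (x₄.symm.trans y₄) c b, key z x y z₂ x₂ y₂ z₅ (m₁.symm.trans y₄) c a,
    key y x z y₂ x₂ z₂ y₅ (y₄.symm.trans m₁) a c, key y z x y₂ z₂ x₂ y₅ (y₄.symm.trans x₄) b c,
    (b.trans a).asymm c, key z y x z₂ y₂ x₂ z₅ (m₁.symm.trans x₄) b a]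

def St.Hf (s : St) (σ τ : V) (i : ℕ) (d : Bool) (ξ : Om) : Prop :=
  ∃ x, x ∈ s.vx τ ∧ ξ < x.2 ∧ (s.r σ (nt x.1 i).1 ξ ↔ d = true)

def St.Rc (s : St) (σ τ : V) (i : ℕ) (d : Bool) (a : Om) : Prop :=
  s.Hf σ τ i d a ∧ ∀ ξ < a, s.Hf σ τ i d ξ → (s.r σ a ξ ↔ d = true)

instance {α : Type*} [Code α] (σ τ : α → V) [Cf τ] (i : α → ℕ) (d : α → Bool) (f : α → Om) :
    Def (fun s a => s.Rc (σ a) (τ a) (i a) (d a) (f a)) := by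
  have := Cf.comp τ (fun x : α × Om => x.1)
  unfold St.Rc St.Hf; infer_instance

theorem nb_rec {D s} (hs : Sit D s) {σ} (h : ¬ s.NB σ) : ∃ τ ∈ s.K, ∃ i d,
    ∀ β, has s.K β → ∃ a, has s.K a ∧ β ≤ a ∧ s.Rc σ τ i d a := by
  unfold St.NB at h
  push Not at h
  obtain ⟨τ, h₁, h₂, i, -, h₃, h₄⟩ := h
  have hK : ∀ x ∈ s.vx τ, has s.K (nt x.1 i).1 := fun x hx =>
    (hs.cl.has_prod.1 (hs.has_nt (hs.cl.has_prod.1 hx.1).1 i)).1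
  obtain ⟨d, hd⟩ : ∃ d, ∀ β, has s.K β → ∃ x ∈ s.vx τ, β ≤ x.2 ∧ s.Hf σ τ i d (nt x.1 i).1 := by
    by_contra hc
    push Not at hc
    obtain ⟨β₁, a₁, a₂⟩ := hc true
    obtain ⟨β₂, b₁, b₂⟩ := hc false
    obtain ⟨x, x₁, x₂⟩ := h₂ (max β₁ β₂) (by rcases max_choice β₁ β₂ with e | e <;> rwa [e])
    obtain ⟨γ, c₁, c₂⟩ := hs.bas.up (hK x x₁)
    obtain ⟨y, y₁, y₂⟩ := h₂ γ c₁
    by_cases e : s.r σ (nt y.1 i).1 (nt x.1 i).1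
    · exact a₂ x x₁ (le_of_max_le_left x₂) ⟨y, y₁, c₂.trans_le y₂, by simpa⟩
    · exact b₂ x x₁ (le_of_max_le_right x₂) ⟨y, y₁, c₂.trans_le y₂, by simpa⟩
  refine ⟨τ, h₁.1, i, d, fun β hβ => ?_⟩
  obtain ⟨x, x₁, x₂, x₃⟩ := hd β hβ
  obtain ⟨a, ⟨a₁, a₂, a₃, a₄⟩, a₅⟩ := (wellFounded_lt (α := Om)).has_min {c | has s.K c ∧ x.2 ≤ c ∧
      s.Hf σ τ i d c ∧ ∀ ξ < x.2, s.Hf σ τ i d ξ → (s.r σ c ξ ↔ d = true)}
    ⟨_, hK x x₁, h₃ x x₁, x₃, fun ξ hξ ⟨y, y₁, y₂, y₃⟩ => by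
      rcases h₄ x x₁ y y₁ with e | e
      · rwa [e]
      · rwa [e.2.2 ξ (lt_min hξ y₂)]⟩
  refine ⟨a, a₁, x₂.trans a₂, a₃, fun ξ hξ H => ?_⟩
  rcases lt_or_ge ξ x.2 with e | e
  · exact a₄ ξ e H
  have : ¬ ∀ η < x.2, s.Hf σ τ i d η → (s.r σ ξ η ↔ d = true) :=
    fun H' => a₅ ξ ⟨hs.bas.down a₁ hξ.le, e, H, H'⟩ hξ
  simp only [not_forall, exists_prop] at this
  obtain ⟨η, b₁, b₂, b₃⟩ := this
  have b₄ := a₄ η b₁ b₂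
  cases d
  · simp only [Bool.false_eq_true, iff_false] at b₄ ⊢
    exact fun H' => b₄ (r_trans H' (by simpa using b₃))
  · simp only [iff_true] at b₄ ⊢
    rcases r_tri (r := s.r σ) η ξ with H' | rfl | H'
    exacts [r_trans b₄ H', b₄, absurd H' (by simpa using b₃)]

def St.Fr (s : St) (σ : V) (γ a : Om) : Prop := γ ≤ a ∧ ∀ a' < a, ¬ agA (s.r σ) γ a a'

def St.Ch (s : St) (σ : V) (γ a n : Om) : Prop := ∃ ξ, ξ < γ ∧ n = ij γ ξ ∧ ¬ s.r σ a ξ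

theorem ll_rec {D s} (hs : Sit D s) {σ} (h : ¬ s.LL σ) : ∃ γ, has s.K γ ∧
    ∀ β, has s.K β → ∃ a, has s.K a ∧ β ≤ a ∧ s.Fr σ γ a := by
  unfold St.LL at h
  push Not at h
  obtain ⟨γ, h₁, h₂⟩ := h
  refine ⟨γ, h₁, fun β hβ => ?_⟩
  obtain ⟨a, a₁, a₂⟩ := h₂ (max β γ) (by rcases max_choice β γ with e | e <;> rwa [e])
  obtain ⟨c, c₁, c₂⟩ := (wellFounded_lt (α := Om)).has_min {c | agA (s.r σ) γ a c} ⟨a, agA.refl _ _⟩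
  have := max_le_iff.1 (not_lt.1 fun H => a₂ c H c₁)
  exact ⟨c, hs.bas.down a₁ (not_lt.1 (c₂ a (agA.refl _ _))), this.1, this.2,
    fun a' H H' => c₂ a' (c₁.trans H') H⟩

theorem St.Fr.lex {s : St} {σ γ a b} (ha : s.Fr σ γ a) (hb : s.Fr σ γ b) (h : s.r σ a b) :
    ∃ n, s.Ch σ γ b n ∧ ¬ s.Ch σ γ a n ∧ ∀ m < n, (s.Ch σ γ a m ↔ s.Ch σ γ b m) := by
  have hn : ¬ agA (s.r σ) γ a b := by
    rcases lt_trichotomy a b with e | rfl | e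
    exacts [fun H => hb.2 a e H.symm, absurd h (r_irr _), ha.2 b e]
  have mono : ∀ m, s.Ch σ γ a m → s.Ch σ γ b m := fun m ⟨ξ, a₁, a₂, a₃⟩ =>
    ⟨ξ, a₁, a₂, fun H => a₃ (r_trans h H)⟩
  obtain ⟨ξ, a₁, a₂⟩ : ∃ ξ < γ, s.r σ a ξ ∧ ¬ s.r σ b ξ := by
    by_contra hc
    push Not at hc
    exact hn (Or.inr ⟨ha.1, hb.1, fun ξ hξ => ⟨hc ξ hξ, r_trans h⟩⟩)
  obtain ⟨n, ⟨n₁, n₂⟩, n₃⟩ := (wellFounded_lt (α := Om)).has_min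
    {n | s.Ch σ γ b n ∧ ¬ s.Ch σ γ a n} ⟨_, ⟨ξ, a₁, rfl, a₂.2⟩,
      fun ⟨ξ', b₁, b₂, b₃⟩ => b₃ (ij_inj a₁ b₁ b₂ ▸ a₂.1)⟩
  exact ⟨n, n₁, n₂, fun m hm => ⟨mono m, fun H => by_contra fun H' => n₃ m ⟨H, H'⟩ hm⟩⟩

end Pool.Agent.MP_656653_lc

end

section

/-! The ordinals and the target line in the model. -/

set_option synthInstance.maxSize 1000000

namespace Pool.Agent.MP_656653_lc

open Set Filter
open Pool.Agent.MP_c6cf52_lc hiding tr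

structure Top.Rep {D} (T : Top D) (x : T.g.M) (R : Om → Om → Prop) : Prop where
  pr : ∀ p, T.g.E p x → ∃ a b, has T.K a ∧ has T.K b ∧ R a b ∧ p = Gen.pr (T.o a) (T.o b)
  iff : ∀ {a b}, has T.K a → has T.K b → (App T.g.E x (T.o a) (T.o b) ↔ R a b)

section
variable {D : Set Dp} {T : Top D}

theorem Top.Rep.app {x R} (h : T.Rep x R) {s t} (H : App T.g.E x s t) :
    ∃ a b, has T.K a ∧ has T.K b ∧ R a b ∧ s = T.o a ∧ t = T.o b := by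
  obtain ⟨a, b, h₁, h₂, h₃, h₄⟩ := h.pr _ (Gen.app_iff.1 H)
  exact ⟨a, b, h₁, h₂, h₃, Gen.pr_inj.1 h₄⟩

theorem Top.rep_of {x} {R : Om → Om → Prop} (h : ∀ p, T.g.E p x ↔ ∃ a b, has T.K a ∧ has T.K b ∧
    R a b ∧ p = Gen.pr (T.o a) (T.o b)) : T.Rep x R := by
  refine ⟨fun p => (h p).1, fun {a b} ha hb => Gen.app_iff.trans ((h _).trans
    ⟨fun ⟨a', b', h₁, h₂, h₃, h₄⟩ => ?_, fun H => ⟨a, b, ha, hb, H, rfl⟩⟩)⟩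
  obtain ⟨e, e'⟩ := Gen.pr_inj.1 h₄
  rwa [Top.o_inj ha h₁ e, Top.o_inj hb h₂ e']

theorem Top.o_w1 {a} (h : has T.K a) : T.g.E (T.o a) T.w1 := Top.E_w1.2 ⟨a, h, rfl⟩

theorem Top.isOrd_w1 : IsOrd T.g.E T.w1 := Gen.isOrd_setN wfO triO T.om fun _ _ _ _ => trivial

theorem Top.isOrd_o {a} (h : has T.K a) : IsOrd T.g.E (T.o a) := by
  have := (T.ord a).2 h
  unfold Top.o
  unfold oN at this ⊢
  rw [Name.ordN_eq] at this ⊢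
  exact Gen.isOrd_setN wfO triO this fun _ _ h h' => h.trans h'

theorem Top.isLim_o (n : N0 D) {a} (h : has T.K a) : IsLim T.g.E (T.o a) ↔ Lim a := by
  have b := n.bas T.cl
  constructor
  · rintro ⟨⟨x, hx⟩, H⟩
    obtain ⟨c, c₁, -⟩ := (Top.E_o h).1 hx
    refine ⟨bot_le.trans_lt c₁, fun γ hγ => ?_⟩
    have hγ' := b.down h hγ.le
    obtain ⟨y, y₁, y₂⟩ := H _ ((Top.o_lt hγ' h).2 hγ)
    obtain ⟨d, d₁, d₂, rfl⟩ := (Top.E_o h).1 y₁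
    exact ⟨d, (Top.o_lt hγ' d₂).1 y₂, d₁⟩
  · refine fun H => ⟨⟨_, (Top.o_lt b.bot h).2 H.1⟩, fun x hx => ?_⟩
    obtain ⟨c, c₁, c₂, rfl⟩ := (Top.E_o h).1 hx
    obtain ⟨d, d₁, d₂⟩ := H.2 c c₁
    have := b.down h d₂.le
    exact ⟨_, (Top.o_lt this h).2 d₂, (Top.o_lt c₂ this).2 d₁⟩

end

theorem bnd : ∀ᶠ D in Fl, D.Countable → ∀ (T : Top D) h x, T.g.E x T.w1 → ∃ d, T.g.E d T.w1 ∧
    ∀ y c, T.g.E y x → T.g.E c T.w1 → App T.g.E h y c → ∃ c', T.g.E c' d ∧ App T.g.E h y c' := by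
  filter_upwards [ev_n0, capt, modl, elemS (fun s (a : V × Om) (b : Om) => (a.2, b) ∈ s.vo a.1)]
    with D n h₁ h₂ h₃ hD T h x hx
  obtain ⟨ξ, a₁, rfl⟩ := Top.E_w1.1 hx
  obtain ⟨ν, b₁, -, b₂⟩ := h₁ hD T h
  obtain ⟨N, δ, c₁, c₂, c₃⟩ := h₂ hD T ν b₁ _ a₁
  refine ⟨_, Top.o_w1 c₁.hd, fun y c hy hc H => ?_⟩
  obtain ⟨η, d₁, d₂, rfl⟩ := (Top.E_o a₁).1 hy
  obtain ⟨b, d₃, rfl⟩ := Top.E_w1.1 hc
  obtain ⟨b', e₁, e₂⟩ := h₃ _ (b₁.sit n) N δ c₁ (ν.sA, η) (c₁.cl.has_pair.2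
    ⟨(c₁.cl.has_tag.1 c₃).2.2.2.2.2.1, c₁.bas.down c₂ d₁.le⟩) b d₃ ((b₂ η b d₂ d₃).2 H)
  exact ⟨_, (Top.o_lt (c₁.sub e₁) c₁.hd).2 (c₁.iff.1 e₁), (b₂ η b' d₂ (c₁.sub e₁)).1 e₂⟩

theorem grd (R : Om → Om → Om → Prop) : ∀ᶠ D in Fl, D.Countable → ∀ (T : Top D) a, has T.K a →
    ∃ x, T.Rep x (R a) := by
  filter_upwards [capt, intl (fun _ (a : Om) (y : Om × Om) => R a y.1 y.2)] with D h₁ h₂ hD T a ha
  obtain ⟨ν, b₁, -⟩ := h₁ hD T T.w1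
  obtain ⟨x, hx⟩ := h₂ T ν b₁ a ha
  exact ⟨x, Top.rep_of hx⟩

theorem inj_om : ∀ᶠ D in Fl, D.Countable → ∀ (T : Top D) a, has T.K a → ∀ B,
    (∀ x, T.g.E x B → T.g.E x (T.o a)) → ∃ i, IsInj T.g.E i B (T.o om0) := by
  filter_upwards [ev_n0, ev_const om0, grd (fun a ξ m => ξ < a ∧ m = ij a ξ)]
    with D n h₁ h₂ hD T a ha B hB
  obtain ⟨x, hx⟩ := h₂ hD T a ha
  have h0 := h₁ _ T.cl
  have k : ∀ ξ, has T.K (ij a ξ) := fun ξ => (n.bas T.cl).down h0 (ij_lt a ξ).le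
  obtain ⟨i, i₁, i₂⟩ := exists_rel (UDef.app 2 0 1) [x] B (T.o om0)
  replace i₂ : ∀ s t, App T.g.E i s t ↔ T.g.E s B ∧ T.g.E t (T.o om0) ∧ App T.g.E x s t := i₂
  refine ⟨i, ⟨i₁, fun s hs => ?_⟩, fun s s' t H H' => ?_⟩
  · obtain ⟨ξ, a₁, a₂, rfl⟩ := (Top.E_o ha).1 (hB s hs)
    refine ⟨_, (i₂ _ _).2 ⟨hs, (Top.o_lt (k ξ) h0).2 (ij_lt a ξ), (hx.iff a₂ (k ξ)).2 ⟨a₁, rfl⟩⟩,
      fun t H => ?_⟩
    obtain ⟨ξ', m, b₁, -, ⟨-, rfl⟩, b₂, rfl⟩ := hx.app ((i₂ _ _).1 H).2.2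
    rw [Top.o_inj a₂ b₁ b₂]
  · obtain ⟨ξ, m, b₁, b₀, ⟨b₃, rfl⟩, rfl, rfl⟩ := hx.app ((i₂ _ _).1 H).2.2
    obtain ⟨ξ', m, -, c₀, ⟨c₃, rfl⟩, rfl, c₄⟩ := hx.app ((i₂ _ _).1 H').2.2
    rw [ij_inj b₃ c₃ (Top.o_inj b₀ c₀ c₄)]

theorem no_inj : ∀ᶠ D in Fl, D.Countable → ∀ (T : Top D) x Z, T.g.E x T.w1 →
    (∀ β, has T.K β → ∃ a, has T.K a ∧ β ≤ a ∧ ∃ n, T.g.E n x ∧ App T.g.E Z n (T.o a)) →
    (∀ n c c', App T.g.E Z n c → App T.g.E Z n c' → c = c') → False := by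
  filter_upwards [bnd] with D h hD T x Z hx h₁ h₂
  obtain ⟨d, d₁, d₂⟩ := h hD T Z x hx
  obtain ⟨δ, a₁, rfl⟩ := Top.E_w1.1 d₁
  obtain ⟨a, b₁, b₂, n, b₃, b₄⟩ := h₁ δ a₁
  obtain ⟨c, c₁, c₂⟩ := d₂ n _ b₃ (Top.o_w1 b₁) b₄
  rw [h₂ n _ _ c₂ b₄, Top.o_lt b₁ a₁] at c₁
  exact c₁.not_ge b₂

theorem ords : ∀ᶠ D in Fl, D.Countable → ∀ T : Top D,
    (IsOrd T.g.E (T.o om0) ∧ IsLim T.g.E (T.o om0) ∧
      ∀ a, T.g.E a (T.o om0) → ¬ IsLim T.g.E a) ∧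
    IsCard T.g.E T.w1 ∧ T.g.E (T.o om0) T.w1 ∧
      ∀ m, IsCard T.g.E m → T.g.E (T.o om0) m → ¬ T.g.E m T.w1 := by
  filter_upwards [ev_n0, ev_const om0, inj_om, no_inj] with D n h₁ h₂ h₃ hD T
  have h0 := h₁ _ T.cl
  refine ⟨⟨Top.isOrd_o h0, (Top.isLim_o n h0).2 lim_om0, fun a ha => ?_⟩, ⟨Top.isOrd_w1,
    fun a ha ⟨f, hf⟩ => ?_⟩, Top.o_w1 h0, fun m hm a b => ?_⟩
  · obtain ⟨c, c₁, c₂, rfl⟩ := (Top.E_o h0).1 ha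
    rw [Top.isLim_o n c₂]
    exact not_lim c₁
  · obtain ⟨Z, -, hZ⟩ := exists_rel (UDef.app 2 1 0) [f] a T.w1
    replace hZ : ∀ s t, App T.g.E Z s t ↔ T.g.E s a ∧ T.g.E t T.w1 ∧ App T.g.E f t s := hZ
    refine h₃ hD T a Z ha (fun β hβ => ?_) fun k c c' H H' =>
      hf.2 _ _ _ ((hZ _ _).1 H).2.2 ((hZ _ _).1 H').2.2
    obtain ⟨k, k₁, k₂⟩ := Gen.fun_ex hf.1 (Top.o_w1 hβ)
    exact ⟨β, hβ, le_rfl, k, k₁, (hZ _ _).2 ⟨k₁, Top.o_w1 hβ, k₂⟩⟩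
  · obtain ⟨c, c₁, rfl⟩ := Top.E_w1.1 b
    exact hm.2 _ a (h₂ hD T c c₁ _ fun _ h => h)

theorem u_mono' : ∀ᶠ D in Fl, D.Countable → ∀ (T : Top D) S (R : Om → Om → Prop), T.Rep S R →
    (∀ a, ¬ R a a) → (∀ a b c γ, R a b → R b c → U.ag γ (eU a) (eU c) → U.ag γ (eU b) (eU c)) →
    ¬ ∃ h, IsInc T.g.E h T.w1 T.w1 T.g.E (App T.g.E S) := by
  filter_upwards [ev_n0, capt, modl, u_mono] with D n h₁ h₂ h₃
  rintro hD T S R hS irr btw ⟨h, a₁, a₂⟩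
  obtain ⟨ν, b₁, -, b₂⟩ := h₁ hD T h
  obtain ⟨N, δ, c₁, -, c₃⟩ := h₂ hD T ν b₁ _ T.cl.emp
  have k : ∀ x ∈ (T.st ν).vo ν.sA, has T.K x.1 ∧ has T.K x.2 ∧ App T.g.E h (T.o x.1) (T.o x.2) :=
    fun x hx => have := T.cl.has_prod.1 hx.1; ⟨this.1, this.2, (b₂ _ _ this.1 this.2).1 hx⟩
  have k' : ∀ x ∈ (T.st ν).vo ν.sA, ∀ y ∈ (T.st ν).vo ν.sA, x.1 ≤ y.1 → x.2 = y.2 ∨ R x.2 y.2 :=
    fun x hx y hy e => by
      obtain ⟨d₁, d₂, d₃⟩ := k x hx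
      obtain ⟨e₁, e₂, e₃⟩ := k y hy
      rcases e.eq_or_lt with e | e
      · exact Or.inl (Top.o_inj d₂ e₂ (Gen.fun_uniq a₁ d₃ (e ▸ e₃)))
      · exact Or.inr ((hS.iff d₂ e₂).1 (a₂ _ _ _ _ d₃ e₃ ((Top.o_lt d₁ e₁).2 e)))
  have k'' : ∀ ξ ξ' a, (ξ, a) ∈ (T.st ν).vo ν.sA → (ξ', a) ∈ (T.st ν).vo ν.sA → ¬ ξ < ξ' :=
    fun ξ ξ' a hx hy e => by
      obtain ⟨d₁, d₂, d₃⟩ := k _ hx
      obtain ⟨e₁, -, e₃⟩ := k _ hy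
      exact irr a ((hS.iff d₂ d₂).1 (a₂ _ _ _ _ d₃ e₃ ((Top.o_lt d₁ e₁).2 e)))
  refine h₃ _ (b₁.sit n) N δ c₁ _ (c₁.cl.has_tag.1 c₃).2.2.2.2.2.1 (fun ξ hξ => ?_)
    (fun ξ ξ' a x y => le_antisymm (not_lt.1 (k'' _ _ _ y x)) (not_lt.1 (k'' _ _ _ x y)))
    fun x hx y hy z hz e e' γ H => ?_
  · obtain ⟨b, d₁, d₂⟩ := Gen.fun_ex a₁ (Top.o_w1 hξ)
    obtain ⟨a, d₃, rfl⟩ := Top.E_w1.1 d₁
    exact ⟨a, (b₂ ξ a hξ d₃).2 d₂⟩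
  · rcases k' x hx y hy e with f | f
    · rwa [← f]
    rcases k' y hy z hz e' with f' | f'
    · rw [f']; exact U.ag.refl _ _
    · exact btw _ _ _ γ f f' H

theorem aron_u : ∀ᶠ D in Fl, D.Countable → ∀ (T : Top D) S, T.Rep S (fun a b => eU a < eU b) →
    Aron T.g.E (T.o om0) T.w1 T.w1 S := by
  filter_upwards [ev_n0, capt, modl, u_mono', u_real, inj_om, ev_const om0,
    grd (fun _ a b => eU b < eU a)] with D n h₁ h₂ h₃ h₄ h₅ h₆ h₇ hD T S hS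
  have h0 := h₆ _ T.cl
  refine ⟨⟨fun x hx => ?_, fun x y z hx hy hz => ?_, fun x y hx hy => ?_⟩, ?_,
    h₃ hD T S _ hS (fun _ => lt_irrefl _) fun a b c γ e e' H =>
      (U.convex e.le e'.le H).symm.trans H, ?_, ?_⟩
  · obtain ⟨a, ha, rfl⟩ := Top.E_w1.1 hx
    rw [hS.iff ha ha]
    exact lt_irrefl _
  · obtain ⟨a, ha, rfl⟩ := Top.E_w1.1 hx
    obtain ⟨b, hb, rfl⟩ := Top.E_w1.1 hy
    obtain ⟨c, hc, rfl⟩ := Top.E_w1.1 hz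
    rw [hS.iff ha hb, hS.iff hb hc, hS.iff ha hc]
    exact lt_trans
  · obtain ⟨a, ha, rfl⟩ := Top.E_w1.1 hx
    obtain ⟨b, hb, rfl⟩ := Top.E_w1.1 hy
    rw [hS.iff ha hb, hS.iff hb ha]
    exact (lt_trichotomy _ _).imp id (Or.imp (fun e => congrArg T.o (eU.injective e)) id)
  · obtain ⟨j, j₁, j₂⟩ := exists_rel (UDef.eq 0 1) [] T.w1 T.w1
    replace j₂ : ∀ s t, App T.g.E j s t ↔ T.g.E s T.w1 ∧ T.g.E t T.w1 ∧ s = t := j₂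
    exact ⟨j, ⟨⟨j₁, fun a ha => ⟨a, (j₂ _ _).2 ⟨ha, ha, rfl⟩, fun b H => ((j₂ _ _).1 H).2.2.symm⟩⟩,
      fun a a' b H H' => ((j₂ _ _).1 H).2.2.trans ((j₂ _ _).1 H').2.2.symm⟩,
      fun b hb => ⟨b, (j₂ _ _).2 ⟨hb, hb, rfl⟩⟩⟩
  · obtain ⟨S', hS'⟩ := h₇ hD T _ h0
    rintro ⟨h, a₁, a₂⟩
    refine h₃ hD T S' _ hS' (fun _ => lt_irrefl _) (fun a b c γ e e' H =>
      (U.convex e'.le e.le H.symm).symm) ⟨h, a₁, fun x x' y y' e e' H => ?_⟩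
    obtain ⟨a, b, b₁, b₂, b₃, rfl, rfl⟩ := hS.app (a₂ _ _ _ _ e e' H)
    exact (hS'.iff b₂ b₁).2 b₃
  rintro ⟨B, C, h, a₁, a₂, a₃, a₄, a₅⟩
  have hU : UDef.{2} (fun _ E w => E (w 0) (w 2) ∧ (w 1 = w 3 ∨ ∃ x, App E (w 4) (w 0) x ∧
      E (w 1) x)) :=
    (UDef.mem _ _).and ((UDef.eq _ _).or (UDef.ex ((UDef.app _ _ _).and (UDef.mem _ _))))
  obtain ⟨Z, -, hZ⟩ := exists_rel hU [B, T.o om0, h] T.w1 T.w1
  replace hZ : ∀ s t, App T.g.E Z s t ↔ T.g.E s T.w1 ∧ T.g.E t T.w1 ∧ T.g.E s B ∧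
    (t = T.o om0 ∨ ∃ x, App T.g.E h s x ∧ T.g.E t x) := hZ
  obtain ⟨ν, b₁, -, b₂⟩ := h₁ hD T Z
  have k : ∀ a, (a, om0) ∈ (T.st ν).vo ν.sA ↔ has T.K a ∧ T.g.E (T.o a) B := fun a =>
    ⟨fun H => have := (T.cl.has_pair.1 H.1).1; ⟨this, ((hZ _ _).1 ((b₂ _ _ this h0).1 H)).2.2.1⟩,
      fun H => (b₂ _ _ H.1 h0).2 ((hZ _ _).2 ⟨Top.o_w1 H.1, Top.o_w1 h0, H.2, Or.inl rfl⟩)⟩
  have k' : ∀ a x, has T.K a → App T.g.E h (T.o a) x → ∀ m < om0,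
      ((a, m) ∈ (T.st ν).vo ν.sA ↔ T.g.E (T.o m) x) := fun a x ha e m hm => by
    have hm' := (n.bas T.cl).down h0 hm.le
    rw [b₂ a m ha hm', hZ]
    refine ⟨fun H => H.2.2.2.elim (fun H => absurd (Top.o_inj hm' h0 H) hm.ne) fun ⟨x', c₁, c₂⟩ =>
      Gen.fun_uniq a₄ c₁ e ▸ c₂, fun H => ⟨Top.o_w1 ha, Top.o_w1 hm', (Gen.fun_mem a₄ e).1,
      Or.inr ⟨x, e, H⟩⟩⟩
  refine h₄ _ (b₁.sit n) (fun z hz => (h₂ hD T ν b₁ z hz).imp fun N => Exists.imp fun δ H =>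
    ⟨H.1, H.2.1⟩) _ (T.cl.has_tag.1 b₁.hK).2.2.2.2.2.1 (fun β hβ => ?_) fun a b ha hb e => ?_
  · by_contra hc
    refine a₂ (h₅ hD T β hβ B fun x hx => ?_)
    obtain ⟨a, c₁, rfl⟩ := Top.E_w1.1 (a₁ x hx)
    exact (Top.o_lt c₁ hβ).2 (not_le.1 fun H => hc ⟨a, H, (k a).2 ⟨c₁, hx⟩⟩)
  · obtain ⟨c₁, c₂⟩ := (k a).1 ha
    obtain ⟨d₁, d₂⟩ := (k b).1 hb
    obtain ⟨x, -, x₂⟩ := Gen.fun_ex a₄ c₂
    obtain ⟨y, y₁, y₂⟩ := Gen.fun_ex a₄ d₂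
    obtain ⟨m, m₁, m₂, m₃⟩ := a₅ _ _ _ _ x₂ y₂ ((hS.iff c₁ d₁).2 e)
    obtain ⟨m, m₄, m₅, rfl⟩ := (Top.E_o h0).1 (a₃ y y₁ m m₁)
    refine ⟨m, m₄, (k' b y d₁ y₂ m m₄).2 m₁, fun H => m₂ ((k' a x c₁ x₂ m m₄).1 H), fun l hl => ?_⟩
    rw [k' a x c₁ x₂ l (hl.trans m₄), k' b y d₁ y₂ l (hl.trans m₄)]
    exact m₃ _ ((Top.o_lt ((n.bas T.cl).down m₅ hl.le) m₅).2 hl)

end Pool.Agent.MP_656653_lc

end

section

/-! Every Aronszajn line of the model embeds continuously in the target line. -/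

set_option synthInstance.maxSize 1000000

namespace Pool.Agent.MP_656653_lc

open Set Filter
open Pool.Agent.MP_c6cf52_lc hiding tr

structure Top.Ln {D} (T : Top D) (ν : Tag) (A R j : T.g.M) (J : Om → T.g.M) : Prop where
  inj : IsInj T.g.E j T.w1 A
  app : ∀ {a}, has T.K a → App T.g.E j (T.o a) (J a)
  sur : ∀ {y}, T.g.E y A → ∃ a, has T.K a ∧ J a = y
  iff : ∀ {a b}, has T.K a → has T.K b → ((T.st ν).r ν.sA a b ↔ App T.g.E R (J a) (J b))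

theorem Top.Ln.eq {D} {T : Top D} {ν A R j J} (h : T.Ln ν A R j J) {a y} (ha : has T.K a)
    (e : App T.g.E j (T.o a) y) : y = J a := Gen.fun_uniq h.inj.1 e (h.app ha)

theorem Top.Ln.mem {D} {T : Top D} {ν A R j J} (h : T.Ln ν A R j J) {a} (ha : has T.K a) :
    T.g.E (J a) A := (Gen.fun_mem h.inj.1 (h.app ha)).2

theorem exists_ln : ∀ᶠ D in Fl, D.Countable → ∀ (T : Top D) A R, Aron T.g.E (T.o om0) T.w1 A R →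
    ∃ ν j J, T.On ν ∧ ν.k2 = true ∧ T.Ln ν A R j J := by
  filter_upwards [capt] with D h₁
  rintro hD T A R ⟨lin, ⟨j, j₁, j₂⟩, -⟩
  have hU : UDef.{2} (fun _ E w => ∃ b b', App E (w 2) (w 0) b ∧ App E (w 2) (w 1) b' ∧
      App E (w 3) b b') :=
    UDef.ex (UDef.ex ((UDef.app _ _ _).and ((UDef.app _ _ _).and (UDef.app _ _ _))))
  obtain ⟨Z, -, hZ⟩ := exists_rel hU [j, R] T.w1 T.w1
  replace hZ : ∀ s t, App T.g.E Z s t ↔ T.g.E s T.w1 ∧ T.g.E t T.w1 ∧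
    ∃ b b', App T.g.E j s b ∧ App T.g.E j t b' ∧ App T.g.E R b b' := hZ
  obtain ⟨ν, a₁, a₂, a₃⟩ := h₁ hD T Z
  have : Nonempty T.g.M := ⟨T.w1⟩
  choose! J J₁ J₂ using fun a (ha : has T.K a) => Gen.fun_ex j₁.1 (Top.o_w1 ha)
  have k : ∀ a b, has T.K a → has T.K b →
      ((a, b) ∈ (T.st ν).val ν.sA ↔ App T.g.E R (J a) (J b)) := fun a b ha hb => by
    rw [a₃ a b ha hb, hZ]
    refine ⟨fun ⟨_, _, x, y, c₁, c₂, c₃⟩ => ?_,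
      fun H => ⟨Top.o_w1 ha, Top.o_w1 hb, _, _, J₂ a ha, J₂ b hb, H⟩⟩
    rwa [Gen.fun_uniq j₁.1 c₁ (J₂ a ha), Gen.fun_uniq j₁.1 c₂ (J₂ b hb)] at c₃
  have hL : (T.st ν).Lin ν.sA := fun a ha b hb c hc => by
    rw [k a a ha ha, k a b ha hb, k b c hb hc, k a c ha hc, k b a hb ha]
    exact ⟨lin.1 _ (J₁ a ha), lin.2.1 _ _ _ (J₁ a ha) (J₁ b hb) (J₁ c hc),
      (lin.2.2 _ _ (J₁ a ha) (J₁ b hb)).imp id (Or.imp (fun e : J a = J b =>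
        Top.o_inj ha hb (j₁.2 _ _ _ (J₂ a ha) (e ▸ J₂ b hb))) id)⟩
  refine ⟨ν, j, J, a₁, a₂, j₁, J₂ _, fun hy => ?_, fun {a b} ha hb => ?_⟩
  · obtain ⟨x, hx⟩ := j₂ _ hy
    obtain ⟨a, b₁, rfl⟩ := Top.E_w1.1 (Gen.fun_mem j₁.1 hx).1
    exact ⟨a, b₁, Gen.fun_uniq j₁.1 (J₂ a b₁) hx⟩
  · rw [← k a b ha hb]
    exact ⟨fun H => H.elim (fun H => (H.2.2.resolve_right fun H => H.1 hL).2) fun H =>
      absurd hb H.1, fun H => Or.inl ⟨ha, hb, Or.inl ⟨hL, H⟩⟩⟩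

theorem ln_nb : ∀ᶠ D in Fl, D.Countable → ∀ (T : Top D) A R, Aron T.g.E (T.o om0) T.w1 A R →
    ∀ ν j J, T.On ν → T.Ln ν A R j J → (T.st ν).NB ν.sA := by
  filter_upwards [ev_n0, bnd, intl (fun s (z : V × V × ℕ × Bool) (y : Om × Om) =>
    s.Rc z.1 z.2.1 z.2.2.1 z.2.2.2 y.1)] with D n h₁ h₂
  rintro hD T A R ⟨-, -, no₁, no₂, -⟩ ν j J hν h
  by_contra hc
  obtain ⟨τ, a₁, i, d, a₂⟩ := nb_rec (hν.sit n) hc
  obtain ⟨x, hx⟩ := h₂ T ν hν (ν.sA, τ, i, d) (T.cl.has_pair.2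
    ⟨(T.cl.has_tag.1 hν.hK).2.2.2.2.2.1, T.cl.has_pair.2 ⟨a₁, T.cl.alw _⟩⟩)
  have hx' : T.Rep x fun a _ => (T.st ν).Rc ν.sA τ i d a := Top.rep_of hx
  obtain ⟨S, hS⟩ := Gen.sep_udef (UDef.app 1 0 0) [x] T.w1
  replace hS : ∀ y, T.g.E y S ↔ T.g.E y T.w1 ∧ App T.g.E x y y := hS
  obtain ⟨f, f₁, f₂⟩ := exists_enum (S := S) Top.isOrd_w1 (fun a b c hc e e' => by
    obtain ⟨c, c₁, rfl⟩ := Top.E_w1.1 hc
    exact (Top.isOrd_o c₁).1 _ _ e e') (fun a ha => ((hS a).1 ha).1) (fun a ha => by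
    obtain ⟨β, b₁, rfl⟩ := Top.E_w1.1 ha
    obtain ⟨β', b₂, b₃⟩ := (n.bas T.cl).up b₁
    obtain ⟨c, c₁, c₂, c₃⟩ := a₂ β' b₂
    exact ⟨_, (hS _).2 ⟨Top.o_w1 c₁, (hx'.iff c₁ c₁).2 c₃⟩,
      (Top.o_lt b₁ c₁).2 (b₃.trans_le c₂)⟩) (h₁ hD T)
  obtain ⟨k, k₁, k₂⟩ := exists_comp f₁ h.inj.1 fun y hy => ((hS y).1 hy).1
  have key : ∀ a a' c c', App T.g.E k a c → App T.g.E k a' c' → T.g.E a a' → ∃ b b', has T.K b ∧
      has T.K b' ∧ c = J b ∧ c' = J b' ∧ b < b' ∧ ((T.st ν).r ν.sA b' b ↔ d = true) := by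
    intro a a' c c' e e' H
    obtain ⟨b, b₁, b₂⟩ := k₂ a c e
    obtain ⟨b', c₁, c₂⟩ := k₂ a' c' e'
    have := f₂ _ _ _ _ b₁ c₁ H
    obtain ⟨b, -, d₁, -, d₂, rfl, -⟩ := hx'.app ((hS _).1 (Gen.fun_mem f₁ b₁).2).2
    obtain ⟨b', -, e₁, -, e₂, rfl, -⟩ := hx'.app ((hS _).1 (Gen.fun_mem f₁ c₁).2).2
    rw [Top.o_lt d₁ e₁] at this
    exact ⟨b, b', d₁, e₁, h.eq d₁ b₂, h.eq e₁ c₂, this, e₂.2 b this d₂.1⟩
  cases d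
  · refine no₁ ⟨k, k₁, fun a a' c c' e e' H => ?_⟩
    obtain ⟨b, b', b₁, b₂, rfl, rfl, b₃, b₄⟩ := key a a' c c' e e' H
    exact (h.iff b₁ b₂).1 (((r_tri b b').resolve_right fun H =>
      H.elim b₃.ne fun H => by simpa using b₄.1 H))
  · refine no₂ ⟨k, k₁, fun a a' c c' e e' H => ?_⟩
    obtain ⟨b, b', b₁, b₂, rfl, rfl, b₃, b₄⟩ := key a a' c c' e e' H
    exact (h.iff b₂ b₁).1 (b₄.2 rfl)

theorem def_fr : Def (fun s (x : (V × Om) × Om × Om) => s.Fr x.1.1 x.1.2 x.2.1 ∧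
    (x.2.2 = om0 ∨ s.Ch x.1.1 x.1.2 x.2.1 x.2.2)) := by
  unfold St.Fr St.Ch; infer_instance

theorem ln_ll : ∀ᶠ D in Fl, D.Countable → ∀ (T : Top D) A R, Aron T.g.E (T.o om0) T.w1 A R →
    ∀ ν j J, T.On ν → T.Ln ν A R j J → (T.st ν).LL ν.sA := by
  have := def_fr
  filter_upwards [ev_n0, ev_const om0, no_inj, intl (fun s (z : V × Om) (y : Om × Om) =>
    s.Fr z.1 z.2 y.1 ∧ (y.2 = om0 ∨ s.Ch z.1 z.2 y.1 y.2))] with D n h₀ h₁ h₂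
  rintro hD T A R ⟨-, -, -, -, no⟩ ν j J hν h
  by_contra hc
  have h0 := h₀ _ T.cl
  obtain ⟨γ, a₁, a₂⟩ := ll_rec (hν.sit n) hc
  obtain ⟨Z, hZ⟩ := h₂ T ν hν (ν.sA, γ) (T.cl.has_pair.2 ⟨(T.cl.has_tag.1 hν.hK).2.2.2.2.2.1, a₁⟩)
  have hZ' : T.Rep Z fun a m => (T.st ν).Fr ν.sA γ a ∧ (m = om0 ∨ (T.st ν).Ch ν.sA γ a m) :=
    Top.rep_of hZ
  have hU₀ : UDef.{2} (fun _ E w => ∃ a, App E (w 1) a (w 0) ∧ App E (w 2) a (w 3)) :=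
    UDef.ex ((UDef.app _ _ _).and (UDef.app _ _ _))
  obtain ⟨B, hB⟩ := Gen.sep_udef hU₀ [j, Z, T.o om0] A
  replace hB : ∀ y, T.g.E y B ↔ T.g.E y A ∧ ∃ a, App T.g.E j a y ∧ App T.g.E Z a (T.o om0) := hB
  have hB' : ∀ y, T.g.E y B ↔ ∃ a, has T.K a ∧ (T.st ν).Fr ν.sA γ a ∧ y = J a := fun y =>
    (hB y).trans ⟨fun ⟨_, x, b₁, b₂⟩ => by
      obtain ⟨a, m, c₁, -, c₂, rfl, -⟩ := hZ'.app b₂
      exact ⟨a, c₁, c₂.1, h.eq c₁ b₁⟩, fun ⟨a, b₁, b₂, b₃⟩ => b₃ ▸ ⟨h.mem b₁, _, h.app b₁,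
        (hZ'.iff b₁ h0).2 ⟨b₂, Or.inl rfl⟩⟩⟩
  obtain ⟨C, hC⟩ := Gen.exists_power (T.o om0)
  have hU : UDef.{2} (fun _ E w => ∃ a, App E (w 2) a (w 0) ∧
      ∀ m, E m (w 1) ↔ E m (w 4) ∧ App E (w 3) a m) :=
    UDef.ex ((UDef.app _ _ _).and (UDef.all ((UDef.mem _ _).iff
      ((UDef.mem _ _).and (UDef.app _ _ _)))))
  obtain ⟨f, f₁, f₂⟩ := exists_rel hU [j, Z, T.o om0] B C
  replace f₂ : ∀ y x, App T.g.E f y x ↔ T.g.E y B ∧ T.g.E x C ∧ ∃ a, App T.g.E j a y ∧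
    ∀ m, T.g.E m x ↔ T.g.E m (T.o om0) ∧ App T.g.E Z a m := f₂
  refine no ⟨B, C, f, fun y hy => ((hB y).1 hy).1, fun ⟨i, i₁, i₂⟩ => ?_, fun x hx => (hC x).1 hx,
    ⟨f₁, fun y hy => ?_⟩, fun y y' x x' e e' H => ?_⟩
  · have hU₁ : UDef.{2} (fun _ E w => ∃ b, App E (w 2) (w 1) b ∧ App E (w 3) b (w 0)) :=
      UDef.ex ((UDef.app _ _ _).and (UDef.app _ _ _))
    obtain ⟨Y, -, hY⟩ := exists_rel hU₁ [j, i] (T.o om0) T.w1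
    replace hY : ∀ m a, App T.g.E Y m a ↔ T.g.E m (T.o om0) ∧ T.g.E a T.w1 ∧
      ∃ b, App T.g.E j a b ∧ App T.g.E i b m := hY
    refine h₁ hD T _ Y (Top.o_w1 h0) (fun β hβ => ?_) fun m c c' e e' => ?_
    · obtain ⟨a, b₁, b₂, b₃⟩ := a₂ β hβ
      obtain ⟨m, m₁, m₂⟩ := Gen.fun_ex i₁ ((hB' _).2 ⟨a, b₁, b₃, rfl⟩)
      exact ⟨a, b₁, b₂, m, m₁, (hY _ _).2 ⟨m₁, Top.o_w1 b₁, _, h.app b₁, m₂⟩⟩
    · obtain ⟨-, -, b, b₁, b₂⟩ := (hY _ _).1 e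
      obtain ⟨-, -, b', c₁, c₂⟩ := (hY _ _).1 e'
      exact h.inj.2 _ _ _ b₁ (i₂ _ _ _ b₂ c₂ ▸ c₁)
  · obtain ⟨-, a, b₁, -⟩ := (hB y).1 hy
    obtain ⟨x, hx⟩ := Gen.sep_udef (UDef.app 1 2 0) [Z, a] (T.o om0)
    replace hx : ∀ m, T.g.E m x ↔ T.g.E m (T.o om0) ∧ App T.g.E Z a m := hx
    refine ⟨x, (f₂ y x).2 ⟨hy, (hC x).2 fun m hm => ((hx m).1 hm).1, a, b₁, hx⟩, fun x' e => ?_⟩
    obtain ⟨-, -, a', c₁, c₂⟩ := (f₂ y x').1 e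
    obtain rfl := h.inj.2 _ _ _ b₁ c₁
    exact Gen.ext fun m => (c₂ m).trans (hx m).symm
  · have k : ∀ y x, App T.g.E f y x → ∃ a, has T.K a ∧ (T.st ν).Fr ν.sA γ a ∧ y = J a ∧
        ∀ m < om0, T.g.E (T.o m) x ↔ (T.st ν).Ch ν.sA γ a m := fun y x e => by
      obtain ⟨b₀, -, a', b₁, b₂⟩ := (f₂ y x).1 e
      obtain ⟨a, c₁, c₂, rfl⟩ := (hB' y).1 b₀
      obtain rfl := h.inj.2 _ _ _ b₁ (h.app c₁)
      refine ⟨a, c₁, c₂, rfl, fun m hm => ?_⟩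
      have hm' := (n.bas T.cl).down h0 hm.le
      rw [b₂, hZ'.iff c₁ hm', Top.o_lt hm' h0]
      simp [hm, hm.ne, c₂]
    obtain ⟨a, b₁, b₂, rfl, b₃⟩ := k y x e
    obtain ⟨b, c₁, c₂, rfl, c₃⟩ := k y' x' e'
    obtain ⟨m, m₁, m₂, m₃⟩ := b₂.lex c₂ ((h.iff b₁ c₁).2 H)
    have m₄ : m < om0 := m₁.elim fun ξ H => H.2.1 ▸ ij_lt γ ξ
    refine ⟨T.o m, (c₃ m m₄).2 m₁, fun H => m₂ ((b₃ m m₄).1 H), fun l hl => ?_⟩
    obtain ⟨l, l₁, -, rfl⟩ := (Top.E_o ((n.bas T.cl).down h0 m₄.le)).1 hl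
    rw [b₃ l (l₁.trans m₄), c₃ l (l₁.trans m₄), m₃ l l₁]

theorem univ_u : ∀ᶠ D in Fl, D.Countable → ∀ (T : Top D) S, T.Rep S (fun a b => eU a < eU b) →
    ∀ A R, Aron T.g.E (T.o om0) T.w1 A R → ∃ f, LotsEmb T.g.E f A R T.w1 S := by
  filter_upwards [ev_n0, ev_eU, exists_ln, ln_nb, ln_ll, emb_ord, emb_tot, emb_L, emb_R, aron_u]
    with D n h₀ h₁ h₂ h₃ h₄ h₅ h₆ h₇ h₈ hD T S hS A R hA
  obtain ⟨ν, j, J, hν, hk, h⟩ := h₁ hD T A R hA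
  have hn : (T.st ν).Nice ν.sA := ⟨h₃ hD T A R hA ν j J hν h, h₂ hD T A R hA ν j J hν h⟩
  have ord := h₄ T ν hν hk
  obtain ⟨x, hx⟩ := Top.exists_rN false hν.hK
  have hx' : T.Rep x fun a b => T.F ν a (eU b) := Top.rep_of fun p => (hx p).trans
    (exists₂_congr fun a b => and_congr_right fun _ => and_congr_right fun _ => and_congr_left
      fun _ => exists_congr fun q => and_congr_right fun _ =>
        ⟨fun ⟨_, e, H⟩ => Code.inj e ▸ H, fun H => ⟨ν, rfl, H⟩⟩)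
  obtain ⟨f, f₁, f₂⟩ := exists_rel ud_comp' [j, x] A T.w1
  replace f₂ : ∀ y t, App T.g.E f y t ↔ T.g.E y A ∧ T.g.E t T.w1 ∧
    ∃ s, App T.g.E j s y ∧ App T.g.E x s t := f₂
  have f₃ : ∀ y t, App T.g.E f y t ↔ ∃ a b, has T.K a ∧ has T.K b ∧ T.F ν a (eU b) ∧ y = J a ∧
      t = T.o b := fun y t => (f₂ y t).trans ⟨fun ⟨_, _, s, b₁, b₂⟩ => by
    obtain ⟨a, b, c₁, c₂, c₃, rfl, rfl⟩ := hx'.app b₂
    exact ⟨a, b, c₁, c₂, c₃, h.eq c₁ b₁, rfl⟩, by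
    rintro ⟨a, b, c₁, c₂, c₃, rfl, rfl⟩
    exact ⟨h.mem c₁, Top.o_w1 c₂, _, h.app c₁, (hx'.iff c₁ c₂).2 c₃⟩⟩
  have tot : ∀ a, has T.K a → ∃ b, has T.K b ∧ T.F ν a (eU b) := fun a ha => by
    obtain ⟨t, ht⟩ := h₅ hD T ν hν hk hn a ha
    obtain ⟨b, rfl⟩ := eU.surjective t
    exact ⟨b, (h₀ _ T.cl b).1 (ht.has n).2, ht⟩
  have Jinj : ∀ a b, has T.K a → has T.K b → J a = J b → a = b := fun a b ha hb e =>
    Top.o_inj ha hb (h.inj.2 _ _ _ (h.app ha) (e ▸ h.app hb))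
  have fn : IsFun T.g.E f A T.w1 := ⟨f₁, fun y hy => by
    obtain ⟨a, a₁, rfl⟩ := h.sur hy
    obtain ⟨b, b₁, b₂⟩ := tot a a₁
    refine ⟨_, (f₃ _ _).2 ⟨a, b, a₁, b₁, b₂, rfl, rfl⟩, fun t e => ?_⟩
    obtain ⟨a', b', c₁, c₂, c₃, c₄, rfl⟩ := (f₃ _ _).1 e
    obtain rfl := Jinj _ _ a₁ c₁ c₄
    rw [eU.injective (le_antisymm (not_lt.1 fun H => r_irr _ ((ord _ _ _ _ b₂ c₃).2 H))
      (not_lt.1 fun H => r_irr _ ((ord _ _ _ _ c₃ b₂).2 H)))]⟩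
  refine ⟨f, ⟨fn, fun y y' t e e' => ?_⟩, ⟨fn, fun y y' t t' e e' H => ?_⟩, fun O O' hO hO' => ?_⟩
  · obtain ⟨a, b, c₁, c₂, c₃, rfl, rfl⟩ := (f₃ _ _).1 e
    obtain ⟨a', b', d₁, d₂, d₃, rfl, d₄⟩ := (f₃ _ _).1 e'
    obtain rfl := Top.o_inj c₂ d₂ d₄
    rcases r_tri (r := (T.st ν).r ν.sA) a a' with H | rfl | H
    exacts [absurd ((ord _ _ _ _ c₃ d₃).1 H) (lt_irrefl _), rfl,
      absurd ((ord _ _ _ _ d₃ c₃).1 H) (lt_irrefl _)]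
  · obtain ⟨a, b, c₁, c₂, c₃, rfl, rfl⟩ := (f₃ _ _).1 e
    obtain ⟨a', b', d₁, d₂, d₃, rfl, rfl⟩ := (f₃ _ _).1 e'
    exact (hS.iff c₂ d₂).2 ((ord _ _ _ _ c₃ d₃).1 ((h.iff c₁ d₁).2 H))
  rw [isOpn_iff (h₈ hD T S hS).1] at hO
  rw [isOpn_iff hA.1]
  refine ⟨fun y hy => ((hO' y).1 hy).elim fun _ H => (Gen.fun_mem fn H.1).1, fun y hy => ?_⟩
  obtain ⟨t, t₁, t₂⟩ := (hO' y).1 hy
  obtain ⟨a, b, c₁, c₂, c₃, rfl, rfl⟩ := (f₃ _ _).1 t₁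
  constructor
  · rintro ⟨y, y₁, y₂⟩
    obtain ⟨c, d₁, rfl⟩ := h.sur y₁
    rw [← h.iff d₁ c₁] at y₂
    obtain ⟨e, e₁, e₂⟩ := tot c d₁
    obtain ⟨u, u₁, u₂, u₃⟩ := (hO.2 _ t₂).1 ⟨_, Top.o_w1 e₁, (hS.iff e₁ c₂).2
      ((ord _ _ _ _ e₂ c₃).1 y₂)⟩
    obtain ⟨u, u₄, rfl⟩ := Top.E_w1.1 u₁
    obtain ⟨a', k₁, k₂, k₃⟩ := h₆ hD T ν hν hk hn a _ (eU u) c₃ ((hS.iff u₄ c₂).1 u₂)
      ((h₀ _ T.cl u).2 u₄) ⟨c, d₁, y₂⟩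
    refine ⟨_, h.mem k₁, (h.iff k₁ c₁).1 k₂, fun z z₁ z₂ z₃ => ?_⟩
    obtain ⟨z, z₄, rfl⟩ := h.sur z₁
    rw [← h.iff k₁ z₄] at z₂
    rw [← h.iff z₄ c₁] at z₃
    obtain ⟨w, w₁, w₂⟩ := k₃.resolve_left fun H => H z z₄ ⟨z₂, z₃⟩
    obtain ⟨v, v₁, v₂⟩ := tot z z₄
    exact (hO' _).2 ⟨_, (f₃ _ _).2 ⟨z, v, z₄, v₁, v₂, rfl, rfl⟩, u₃ _ (Top.o_w1 v₁)
      ((hS.iff u₄ v₁).2 (w₁.trans ((ord _ _ _ _ w₂ v₂).1 z₂)))
      ((hS.iff v₁ c₂).2 ((ord _ _ _ _ v₂ c₃).1 z₃))⟩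
  · rintro ⟨y, y₁, y₂⟩
    obtain ⟨c, d₁, rfl⟩ := h.sur y₁
    rw [← h.iff c₁ d₁] at y₂
    obtain ⟨e, e₁, e₂⟩ := tot c d₁
    obtain ⟨u, u₁, u₂, u₃⟩ := (hO.2 _ t₂).2 ⟨_, Top.o_w1 e₁, (hS.iff c₂ e₁).2
      ((ord _ _ _ _ c₃ e₂).1 y₂)⟩
    obtain ⟨u, u₄, rfl⟩ := Top.E_w1.1 u₁
    obtain ⟨a', k₁, k₂, k₃⟩ := h₇ hD T ν hν hk hn a _ (eU u) c₃ ((hS.iff c₂ u₄).1 u₂)
      ((h₀ _ T.cl u).2 u₄) ⟨c, d₁, y₂⟩
    refine ⟨_, h.mem k₁, (h.iff c₁ k₁).1 k₂, fun z z₁ z₂ z₃ => ?_⟩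
    obtain ⟨z, z₄, rfl⟩ := h.sur z₁
    rw [← h.iff z₄ k₁] at z₂
    rw [← h.iff c₁ z₄] at z₃
    obtain ⟨w, w₁, w₂⟩ := k₃.resolve_left fun H => H z z₄ ⟨z₂, z₃⟩
    obtain ⟨v, v₁, v₂⟩ := tot z z₄
    exact (hO' _).2 ⟨_, (f₃ _ _).2 ⟨z, v, z₄, v₁, v₂, rfl, rfl⟩, u₃ _ (Top.o_w1 v₁)
      ((hS.iff v₁ u₄).2 (((ord _ _ _ _ v₂ w₂).1 z₂).trans w₁))
      ((hS.iff c₂ v₁).2 ((ord _ _ _ _ c₃ v₂).1 z₃))⟩

theorem main : ∃ (M : Type 2) (E : M → M → Prop), IsZFC E ∧ ∃ w w1 : M,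
    (IsOrd E w ∧ IsLim E w ∧ ∀ a, E a w → ¬ IsLim E a) ∧
    (IsCard E w1 ∧ E w w1 ∧ ∀ m, IsCard E m → E w m → ¬ E m w1) ∧
    ∃ U S, Aron E w w1 U S ∧ ∀ A R, Aron E w w1 A R → ∃ f, LotsEmb E f A R U S := by
  obtain ⟨D, hD, n, h₁, h₂, h₃, h₄⟩ := Fl.ex (ev_n0.and (ords.and (aron_u.and (univ_u.and
    (grd fun _ a b => eU a < eU b)))))
  obtain ⟨T⟩ := exists_top hD
  obtain ⟨S, hS⟩ := h₄ hD T ⊥ (n.bas T.cl).bot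
  exact ⟨T.g.M, T.g.E, T.g.isZFC, T.o om0, T.w1, (h₁ hD T).1, (h₁ hD T).2, T.w1, S,
    h₂ hD T S hS, h₃ hD T S hS⟩

end Pool.Agent.MP_656653_lc

end
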